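import Pool.Agent.Lib.K2.Blue

/-! Project k2: approximate solutions for a singular weight. -/

open scoped Classical Topology ContDiff ENNReal ComplexOrder Matrix
open Set MeasureTheory Complex Metric Filter

noncomputable section

namespace Pool.Agent.Lib.K2

open Pool.Agent.Lib.SV (E)
open Pool.Agent.Lib.HS32 Pool.Agent.Lib.EX Pool.Agent.Lib.EXS Pool.Agent.Lib.ZL
open Pool.Agent.Lib.EXS.K32 Pool.Agent.Lib.EXS.GLU

theorem kAPB (hPW : ZL.St_PW) (hMU : Sy_MU) (hREG : St_REG) (hAPA : St_APA) : St_APB := by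
  intro n M _ ι _ _ D X g P θ f u φ b Γ ε A hg e0 A0 hθ us ud hf hK hΓ bm b0 cv hI
  obtain ⟨op, -, la, -, -, -, -, ls, -⟩ := hPW n M ι D
  obtain ⟨-, -, mo, -, -, ml, -⟩ := hMU n M ι D X
  obtain ⟨C, w, C0, ws, wd, wl, wK, wc⟩ := hREG n M ι D g (fun i => P i - X.o i - θ i) hg.toMet
    fun i => sub_nonneg.2 (hθ i)
  set r : ι → ℝ := fun i => P i - X.o i - θ i with hr
  have mo' : ∀ {d z}, z ∈ B2 n → Off (D.c d) z → (D.e d).symm z ∈ off D := fun {d z} hz ho =>
    (mem_off (mem_src d hz)).2 ((rinv d hz).symm ▸ ho)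
  have sm : ∀ {a : M.X → ℝ}, M.Sm a → ∀ d, ∀ z ∈ B2 n, ContDiffAt ℝ ∞ (D.rd a d) z :=
    fun h d z hz => h _ (D.mem d) z (mem_tgt d hz)
  have fs : ∀ j, SmO D (f j) := fun j d z hz ho =>
    ((sm (us j) d z hz).sub (ls θ d z hz ho)).congr_of_eventuallyEq
      ((((D.e d).continuousAt_symm (mem_tgt d hz)).eventually (op.mem_nhds (mo' hz ho))).mono
        fun y hy => (hf j _ hy).1)
  obtain ⟨Φ, bt, h1, h2⟩ := hAPA n M ι D X g P (fun j x => f j x - lw D r x + w j x)
    (fun j x => u j x + w j x) b Γ C ε A hg C0 e0 A0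
    (fun j e he z hz => (us j e he z hz).add (ws j e he z hz))
    (fun j x => add_le_add (ud j x) (wd j x))
    (fun j x hx => by
      have := la θ r x
      rw [show θ + r = fun i => P i - X.o i from funext fun i => by simp [hr]] at this
      rw [(hf j x hx).1, this]
      ring) hΓ bm b0
    (fun j d z hz ho v => by
      have a1 := cv (j + 1) d z hz ho v
      have a2 := wc j d z hz ho v
      have a3 : lv (D.rd (fun x => f (j + 1) x - lw D r x + w (j + 1) x) d) z v =
          lv (D.rd (f (j + 1)) d) z v - lv (D.rd (lw D r) d) z v + lv (D.rd (w (j + 1)) d) z v := by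
        rw [← lv_sub (fs _ d z hz ho) (ls r d z hz ho),
          ← lv_add ((fs _ d z hz ho).sub (ls r d z hz ho)) (sm (ws _) d z hz)]
        rfl
      have g0 : 0 ≤ fq D g d z v :=
        (Complex.nonneg_iff.1 ((hg.pos _ (D.mem d) z (mem_tgt d hz)).posSemidef.dotProduct_mulVec_nonneg v)).1
      have a4 : Real.exp (D.rd (fun x => u (j + 1) x + w (j + 1) x) d z -
          D.rd (fun x => u j x + w j x) d z) ≤
          Real.exp (D.rd (w (j + 1)) d z - D.rd (w j) d z) := Real.exp_le_exp.2 (by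
        have := ud j ((D.e d).symm z)
        simp only [Ad.rd]
        linarith)
      have a5 := mul_le_mul_of_nonneg_right (mul_le_mul_of_nonneg_left (sub_le_sub_left a4 1) C0) g0
      rw [a3]
      exact ⟨by linarith [a1.1], a1.2.trans (mul_le_mul_of_nonneg_left (by linarith) (b0 _))⟩)
    fun j => (mo _ _ fun x hx => mul_le_mul_of_nonneg_left (Real.exp_le_exp.2 (by
      linarith [(hf j x hx).2, wl j x hx])) (b0 x)).trans hI
  refine ⟨Φ, bt, h1, fun K kc ko => ?_⟩
  filter_upwards [h2, hK K kc ko, wK K kc ko] with j a1 a2 a3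
  have key : ∀ (h : M.X → ℝ) (B : ℝ), (∀ x ∈ off D, 0 ≤ h x) →
      X.I (fun x => h x * Real.exp (-(f j x - lw D r x + w j x))) ≤ ENNReal.ofReal B →
      X.I (K.indicator fun x => h x * Real.exp (-φ x)) ≤ ENNReal.ofReal (10 * B) :=
      fun h B h0 hB => by
    rw [ENNReal.ofReal_mul (by norm_num)]
    refine le_trans ((mo _ _ fun x hx => ?_).trans_eq (ml 10 _ (by norm_num)))
      (mul_le_mul_right hB _)
    have := h0 x hx
    by_cases k : x ∈ K
    · rw [indicator_of_mem k, mul_left_comm]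
      refine mul_le_mul_of_nonneg_left ?_ this
      have e2 : Real.exp 1 * Real.exp 1 ≤ 10 := by
        nlinarith [Real.exp_one_lt_d9, Real.exp_pos 1]
      refine le_trans ?_ (mul_le_mul_of_nonneg_right e2 (Real.exp_pos _).le)
      rw [← Real.exp_add, ← Real.exp_add]
      exact Real.exp_le_exp.2 (by linarith [a2 x k, a3 x k])
    · rw [indicator_of_notMem k]
      positivity
  exact ⟨(key _ _ (fun x _ => normSq_nonneg _) a1.1).trans_eq (congrArg _ (by ring)),
    (key _ _ (h1 j).2.2.1 a1.2).trans_eq (congrArg _ (by ring))⟩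

end Pool.Agent.Lib.K2
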