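import Pool.Agent.Lib.K2.Blue
import Pool.Agent.Lib.ZL.B_AVG
import Pool.Agent.Lib.ZL.B_LEV

/-! Project k2: the smooth lift, by a partition of unity that comes from the local models. -/

open scoped Classical Topology ContDiff Manifold Matrix ComplexOrder
open Set MeasureTheory Complex Metric Filter

set_option linter.unusedSectionVars false

noncomputable section

namespace Pool.Agent.Lib.K2

open Pool.Agent.Lib.SV (E nsq)
open Pool.Agent.Lib.HS32 Pool.Agent.Lib.EX Pool.Agent.Lib.EXS Pool.Agent.Lib.ZL Pool.Agent.Lib.NA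
open Pool.Agent.Lib.EXS.K32 (hol_cd hol_apply)
open Pool.Agent.Lib.ZL.AVG

namespace AVP

variable {n : ℕ} {M : Mf n} {ι : Type} [Fintype ι] [DecidableEq ι] {D : Ad M ι}
  {T : M.Fam (Mat n)}

theorem bump (N : ℕ) {r₀ r : ℝ} (h : r₀ < r) : ∃ φ : E N → ℝ, ContDiff ℝ ∞ φ ∧
    (∀ w, r ≤ ‖w‖ → φ w = 0) ∧ (∀ w, ‖w‖ ≤ r₀ → φ w = 1) ∧ (∀ w, φ w ∈ Icc (0 : ℝ) 1) ∧
    ∃ L : ℝ, 0 ≤ L ∧ ∀ w, ‖w‖ ≤ r → ‖fderiv ℝ φ w‖ ≤ L := by
  obtain ⟨φ, h0, h1, h2⟩ := exists_contMDiffMap_zero_one_of_isClosed (n := ⊤) 𝓘(ℝ, E N)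
    (isClosed_le continuous_const continuous_norm : IsClosed {w : E N | r ≤ ‖w‖})
    (isClosed_le continuous_norm continuous_const : IsClosed {w : E N | ‖w‖ ≤ r₀})
    (disjoint_left.2 fun w (a : r ≤ ‖w‖) (b : ‖w‖ ≤ r₀) => by linarith)
  have c : ContDiff ℝ ∞ φ := φ.contMDiff.contDiff
  obtain ⟨L, hL⟩ := (isCompact_closedBall (0 : E N) r).exists_bound_of_continuousOn
    (c.continuous_fderiv (by simp)).continuousOn
  exact ⟨φ, c, h0, h1, h2, max L 0, le_max_right _ _, fun w hw =>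
    le_max_of_le_left (hL w (mem_closedBall_zero_iff.2 hw))⟩

variable (D T) in
/-- Smooth, with a derivative that is bounded by the form `T`. -/
def Bd (u : M.X → ℝ) : Prop := ∃ A : ℝ, 0 ≤ A ∧ D.All fun d z => ContDiffAt ℝ ∞ (D.rd u d) z ∧
  ∀ v, |fderiv ℝ (D.rd u d) z v| ≤ A * √(fq D T d z v)

theorem Bd.sum {u : D.A → M.X → ℝ} (h : ∀ b, Bd D T (u b)) : Bd D T fun x => ∑ b, u b x := by
  choose A A0 hA using h
  refine ⟨∑ b, A b, Finset.sum_nonneg fun b _ => A0 b, fun d z hz =>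
    ⟨ContDiffAt.sum fun b _ => (hA b d z hz).1, fun v => ?_⟩⟩
  have e := fderiv_fun_sum (u := Finset.univ) fun b _ => (hA b d z hz).1.differentiableAt (by simp)
  rw [show D.rd (fun x => ∑ b, u b x) d = fun y => ∑ b, D.rd (u b) d y from rfl, e,
    sum_apply, Finset.sum_mul]
  exact (Finset.abs_sum_le_sum_abs _ _).trans (Finset.sum_le_sum fun b _ => (hA b d z hz).2 v)

theorem Bd.div {u S : M.X → ℝ} (hu : Bd D T u) (hS : Bd D T S) (u1 : ∀ x, u x ∈ Icc (0 : ℝ) 1)
    (S1 : ∀ x, 1 ≤ S x) : Bd D T fun x => u x * (S x)⁻¹ := by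
  obtain ⟨A, A0, hA⟩ := hu
  obtain ⟨B, B0, hB⟩ := hS
  refine ⟨A + B, by positivity, fun d z hz => ?_⟩
  have s1 : 1 ≤ D.rd S d z := S1 _
  obtain ⟨u0, u2⟩ : D.rd u d z ∈ Icc (0 : ℝ) 1 := u1 _
  have s0 : D.rd S d z ≠ 0 := by positivity
  refine ⟨(hA d z hz).1.mul ((hB d z hz).1.inv s0), fun v => ?_⟩
  have e := (((hA d z hz).1.differentiableAt (by simp)).hasFDerivAt.fun_mul
    ((hasDerivAt_inv s0).comp_hasFDerivAt z
      ((hB d z hz).1.differentiableAt (by simp)).hasFDerivAt)).fderiv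
  rw [show D.rd (fun x => u x * (S x)⁻¹) d =
    fun y => D.rd u d y * ((fun t => t⁻¹) ∘ D.rd S d) y from rfl, e]
  simp only [add_apply, smul_apply, smul_eq_mul,
    Function.comp_apply]
  have i1 : (D.rd S d z)⁻¹ ≤ 1 := inv_le_one_of_one_le₀ s1
  have i2 : (D.rd S d z ^ 2)⁻¹ ≤ 1 := inv_le_one_of_one_le₀ (one_le_pow₀ s1)
  refine (abs_add_le _ _).trans ?_
  rw [abs_mul, abs_mul, abs_mul, abs_neg, abs_of_nonneg u0, abs_of_nonneg (a := _⁻¹) (by positivity),
    abs_of_nonneg (a := _⁻¹) (by positivity)]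
  calc _ ≤ 1 * (1 * (B * √(fq D T d z v))) + 1 * (A * √(fq D T d z v)) := by
        gcongr
        exacts [(hB d z hz).2 v, (hA d z hz).2 v]
    _ = _ := by ring

theorem fq_I (d : D.A) (z v : E n) : fq D T d z (I • v) = fq D T d z v := by
  rw [fq, fq, nq, nq, star_smul, Matrix.mulVec_smul, smul_dotProduct, dotProduct_smul, smul_smul,
    star_def, conj_I, neg_mul, I_mul_I, neg_neg, one_smul]

theorem ev0 {F : Type} [Zero F] {K : Set M.X} (hK : IsClosed K) {u : M.X → F}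
    (h : ∀ x ∉ K, u x = 0) {d : D.A} {z : E n} (hz : z ∈ B2 n) (hx : (D.e d).symm z ∉ K) :
    D.rd u d =ᶠ[𝓝 z] fun _ => 0 :=
  (((D.e d).continuousAt_symm (GLU.mem_tgt d hz)).eventually
    (hK.isOpen_compl.mem_nhds hx)).mono fun _ hy => h _ hy

theorem cont {W : Set M.X} {P : ι → ℤ} {F : M.X → ℂ} (hF : MerOn D W P F) {x : M.X} (hx : x ∈ W)
    (ho : x ∈ off D) : ContinuousAt F x := by
  obtain ⟨d, hd⟩ := GLU.ex_ch D x
  have h := polH_hol90 (hF d _ (GLU.mem_B2 hd) (by rwa [(D.e d).left_inv hd])) (ho d hd)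
  exact (h.self_of_nhds.continuousAt.comp ((D.e d).continuousAt hd)).congr
    (((D.e d).eventually_left_inverse hd).mono fun y hy => by
      simp only [Function.comp_apply, Ad.rd, hy])

variable {X : Cy D} (R : Ry X) {r₀ r : ℝ}

theorem theta (h : r₀ < r) (h1 : r < 1) (b : D.A) (hK : IsClosed (R.Kr b r)) :
    ∃ θ : M.X → ℝ, Bd D R.β θ ∧ (∀ x, θ x ∈ Icc (0 : ℝ) 1) ∧ (∀ x ∉ R.Kr b r, θ x = 0) ∧
      ∀ x ∈ R.Wr b r₀, θ x = 1 := by
  obtain ⟨φ, c, p0, p1, p2, L, L0, hL⟩ := bump (R.B b).N h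
  obtain ⟨C, hC⟩ := R.dom b r h1
  have z0 : ∀ x ∉ R.Kr b r, (R.B b).W.indicator (fun y => φ ((R.B b).p y)) x = 0 := fun x hx => by
    by_cases k : x ∈ (R.B b).W
    · rw [indicator_of_mem k]
      exact p0 _ (le_of_not_ge fun e => hx ⟨k, e⟩)
    · exact indicator_of_notMem k _
  refine ⟨_, ⟨L * √(max C 0), by positivity, fun d z hz => ?_⟩, fun x => ?_, z0, fun x hx => ?_⟩
  · by_cases k : (D.e d).symm z ∈ R.Kr b r
    · have e : D.rd ((R.B b).W.indicator fun y => φ ((R.B b).p y)) d =ᶠ[𝓝 z]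
          φ ∘ D.rd (R.B b).p d := (((D.e d).continuousAt_symm (GLU.mem_tgt d hz)).eventually
        ((R.B b).opn.mem_nhds k.1)).mono fun y hy => indicator_of_mem hy _
      have hp := (R.B b).phol d z hz k.1
      refine ⟨(c.contDiffAt.comp z (contDiffAt_pi.2 fun i =>
        hol_cd (hol_apply hp i))).congr_of_eventuallyEq e, fun v => ?_⟩
      rw [e.fderiv_eq, ((c.differentiable (by simp) _).hasFDerivAt.comp z
        (hp.self_of_nhds.hasFDerivAt.restrictScalars ℝ)).fderiv, ContinuousLinearMap.comp_apply,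
        ← Real.norm_eq_abs, mul_assoc, ← Real.sqrt_mul (le_max_right _ _)]
      refine (ContinuousLinearMap.le_of_opNorm_le _ (hL _ k.2) _).trans
        (mul_le_mul_of_nonneg_left ((pi_norm_le_iff_of_nonneg (Real.sqrt_nonneg _)).2 fun i =>
          Real.le_sqrt_of_sq_le ?_) L0)
      have q0 : 0 ≤ fq D R.β d z v := by
        have := (R.nn _ (D.mem d) z (GLU.mem_tgt d hz)).dotProduct_mulVec_nonneg v
        simp only [Pi.zero_apply, sub_zero] at this
        exact (Complex.nonneg_iff.1 this).1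
      rw [← normSq_eq_norm_sq]
      exact (Finset.single_le_sum (f := fun j => normSq (fderiv ℂ (D.rd (R.B b).p d) z v j))
        (fun _ _ => normSq_nonneg _) (Finset.mem_univ i)).trans ((hC d z hz k v).trans
          (mul_le_mul_of_nonneg_right (le_max_left _ _) q0))
    · have e := ev0 hK z0 hz k
      refine ⟨contDiffAt_const.congr_of_eventuallyEq e, fun v => ?_⟩
      rw [e.fderiv_eq, fderiv_fun_const, Pi.zero_apply, zero_apply, abs_zero]
      positivity
  · by_cases k : x ∈ (R.B b).W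
    · rw [indicator_of_mem k]; exact p2 _
    · rw [indicator_of_notMem k]; exact left_mem_Icc.2 zero_le_one
  · rw [indicator_of_mem hx.1]; exact p1 _ hx.2.le

theorem part (h : r₀ < r) (h1 : r < 1) (hK : ∀ b, IsClosed (R.Kr b r))
    (hc : ∀ x, ∃ b, x ∈ R.Wr b r₀) : ∃ χ : D.A → M.X → ℝ, (∀ b, Bd D R.β (χ b)) ∧
      (∀ b x, 0 ≤ χ b x) ∧ (∀ x, ∑ b, χ b x = 1) ∧ ∀ b, ∀ x ∉ R.Kr b r, χ b x = 0 := by
  choose θ t1 t2 t3 t4 using fun b => theta R h h1 b (hK b)
  have S1 : ∀ x, 1 ≤ ∑ b, θ b x := fun x =>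
    let ⟨b, hb⟩ := hc x
    t4 b x hb ▸ Finset.single_le_sum (f := fun b => θ b x) (fun b _ => (t2 b x).1)
      (Finset.mem_univ b)
  refine ⟨fun b x => θ b x * (∑ a, θ a x)⁻¹, fun b => (t1 b).div (Bd.sum t1) (t2 b) S1,
    fun b x => mul_nonneg (t2 b x).1 (inv_nonneg.2 (zero_le_one.trans (S1 x))), fun x => ?_,
    fun b x hx => by simp only [t3 b x hx, zero_mul]⟩
  rw [← Finset.sum_mul, mul_inv_cancel₀ (one_pos.trans_le (S1 x)).ne']

theorem term_nn (f : D.A → M.X → ℂ) (a b : D.A) (x : M.X) :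
    0 ≤ (R.Kr a r ∩ R.Kr b r).indicator (fun y => normSq (f a y - f b y)) x :=
  indicator_nonneg (fun _ _ => normSq_nonneg _) x

theorem row_le (f : D.A → M.X → ℂ) (b : D.A) (x : M.X) :
    ∑ a, (R.Kr a r ∩ R.Kr b r).indicator (fun y => normSq (f a y - f b y)) x ≤ R.dif r f x :=
  Finset.sum_le_sum fun a _ => Finset.single_le_sum (fun b _ => term_nn R f a b x)
    (Finset.mem_univ b)

end AVP

open AVP in
theorem kAVP (hPW : ZL.St_PW) (hMU : Sy_MU) (hEXB : Sy_EXB) (hVAL : NA.St_VAL) : St_AVP := by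
  intro n M _ ι _ _ D X R r₀ r P f h0 h1 hc hf
  have hK : ∀ b, IsCompact (R.Kr b r) := fun b => ((hEXB n M ι D X R).2.1 b r).2 h1
  have cov : ∀ x, ∃ b, x ∈ R.Wr b r₀ := fun x => ((hPW n M ι D).2.1 x).imp fun d hd => hc d hd
  obtain ⟨χ, c1, c2, c3, c4⟩ := part R h0 h1 (fun b => (hK b).isClosed) cov
  choose A A0 hA using c1
  have d0 : ∀ x, 0 ≤ R.dif r f x := fun x =>
    Finset.sum_nonneg fun a _ => Finset.sum_nonneg fun b _ => term_nn R f a b x
  have s : ∀ x, ∑ b, ((χ b x : ℝ) : ℂ) = 1 := fun x => by exact_mod_cast c3 x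
  have eG : ∀ x (h : ℂ), ∑ b, (χ b x : ℂ) * f b x = h + ∑ b, (χ b x : ℂ) * (f b x - h) :=
    fun x h => by
      simp only [mul_sub, Finset.sum_sub_distrib, ← Finset.sum_mul, s, one_mul, add_sub_cancel]
  have h2 : D.All fun d z => Pol (D.c d) P (D.rd (fun x => ∑ b, (χ b x : ℂ) * f b x) d) z :=
    fun d z hz => by
    have m := (bMOD n ι (D.c d) P 0 ∅ 0).1
    refine m.cong _ _ z (m.sum _ Finset.univ (fun b => (fun y => ((D.rd (χ b) d y : ℝ) : ℂ)) *
      D.rd (f b) d) z fun b _ => ?_) (Eventually.of_forall fun y _ => by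
        simp only [Finset.sum_apply, Pi.mul_apply, Ad.rd])
    by_cases k : (D.e d).symm z ∈ R.Kr b r
    · exact m.mul _ _ z (Filter.mem_of_superset (isOpen_ball.mem_nhds hz) fun y hy =>
        cd_ofReal (hA b d y hy).1) ((bINC n ι (D.c d) P 0 ∅ 0 _ _).1 (hf b d z hz k.1))
    · exact m.cong _ _ z (m.zero z) ((ev0 (hK b).isClosed (c4 b) hz k).mono fun y hy _ => by
        simp only [Pi.mul_apply, hy, ofReal_zero, zero_mul, Pi.zero_apply])
  refine ⟨?_, d0, ?_⟩
  · refine Finset.aemeasurable_fun_sum _ fun d _ => Finset.aemeasurable_fun_sum _ fun b _ => ?_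
    have ms : MeasurableSet (R.Kr d r ∩ R.Kr b r ∩ off D) :=
      ((hK d).isClosed.inter (hK b).isClosed).measurableSet.inter (hPW n M ι D).1.measurableSet
    have c1 : ContinuousOn (fun y => normSq (f d y - f b y)) (R.Kr d r ∩ R.Kr b r ∩ off D) :=
      fun x hx => (continuous_normSq.continuousAt.comp
        ((cont (hf d) hx.1.1.1 hx.2).sub (cont (hf b) hx.1.2.1 hx.2))).continuousWithinAt
    refine ((aemeasurable_indicator_iff ms).2 (c1.aemeasurable ms)).congr ?_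
    filter_upwards [(hMU n M ι D X).1] with x hx
    by_cases h : x ∈ R.Kr d r ∩ R.Kr b r
    · rw [indicator_of_mem h, indicator_of_mem (show x ∈ _ ∩ off D from ⟨h, hx⟩)]
    · rw [indicator_of_notMem h, indicator_of_notMem fun k => h k.1]
  choose B hB using fun b => (hVAL n M ι D).2.2.2.2.2.2.2.2.2.1 _ _ P _ (hK b)
    (fun _ hx => hx.1) (hf b)
  set N : ℝ := ((Fintype.card D.A : ℕ) : ℝ) with hN
  have N0 : 0 ≤ N := Nat.cast_nonneg _
  have B0 : 0 ≤ ∑ b, |B b| := Finset.sum_nonneg fun _ _ => abs_nonneg _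
  have p2 : 0 ≤ N * (N * (4 * ∑ b, |B b|)) := by positivity
  refine ⟨_, (∑ b, A b) ^ 2 + N * (N * (4 * ∑ b, |B b|)), by positivity,
    fun d z hz ho => pol_cd90 (h2 d z hz) ho, h2, fun d z hz ho v => ?_, fun x hx => ?_,
    fun b x hx => ?_⟩
  · obtain ⟨a, ha⟩ := cov ((D.e d).symm z)
    have ka : (D.e d).symm z ∈ R.Kr a r := ⟨ha.1, (ha.2.trans h0).le⟩
    have hh := polH_hol90 (hf a d z hz ha.1) ho
    have q0 := (((hEXB n M ι D X R).2.2.2.2.2.2.2.1 d z hz) v).1
    have key : ∀ b, DifferentiableAt ℝ (fun y => ((D.rd (χ b) d y : ℝ) : ℂ) *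
        (D.rd (f b) d y - D.rd (f a) d y)) z ∧ (∀ j, dzb j (fun y => ((D.rd (χ b) d y : ℝ) : ℂ) *
        (D.rd (f b) d y - D.rd (f a) d y)) z = dzb j (fun y => ((D.rd (χ b) d y : ℝ) : ℂ)) z *
        (D.rd (f b) d z - D.rd (f a) d z)) ∧ ‖db (fun y => ((D.rd (χ b) d y : ℝ) : ℂ)) z v *
        (D.rd (f b) d z - D.rd (f a) d z)‖ ≤
          A b * (√(fq D R.β d z v) * √(R.dif r f ((D.e d).symm z))) := fun b => by
      by_cases k : (D.e d).symm z ∈ R.Kr b r
      · have h5 : HolN (fun y => D.rd (f b) d y - D.rd (f a) d y) z :=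
          ((polH_hol90 (hf b d z hz k.1) ho).and hh).mono fun y hy => hy.1.sub hy.2
        have h6 := cd_diff (cd_ofReal (hA b d z hz).1)
        have h7 := cd_diff (hol_cd h5)
        refine ⟨h6.mul h7, fun j => by rw [dzb_mul h6 h7, dzb_hol90 h5, mul_zero, add_zero], ?_⟩
        have a0 : 0 ≤ A b * √(fq D R.β d z v) := mul_nonneg (A0 b) (Real.sqrt_nonneg _)
        rw [norm_mul, ← mul_assoc]
        refine mul_le_mul (abs_le_of_sq_le_sq' ?_ a0).2 (Real.le_sqrt_of_sq_le ?_)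
          (norm_nonneg _) a0
        · have u1 := sq_le_sq' (abs_le.1 ((hA b d z hz).2 v)).1 (abs_le.1 ((hA b d z hz).2 v)).2
          have u2 := sq_le_sq' (abs_le.1 ((hA b d z hz).2 (I • v))).1
            (abs_le.1 ((hA b d z hz).2 (I • v))).2
          rw [fq_I] at u2
          rw [← normSq_eq_norm_sq, LEV.db_real36 ((hA b d z hz).1.differentiableAt (by simp))]
          linarith [sq_nonneg (A b * √(fq D R.β d z v))]
        · refine le_trans ?_ ((Finset.single_le_sum (fun c _ => term_nn R f c a _)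
            (Finset.mem_univ b)).trans (row_le R f a _))
          rw [indicator_of_mem (show _ ∈ R.Kr b r ∩ R.Kr a r from ⟨k, ka⟩), normSq_eq_norm_sq]
          rfl
      · have e := ev0 (hK b).isClosed (c4 b) hz k
        have e1 : (fun y => ((D.rd (χ b) d y : ℝ) : ℂ)) =ᶠ[𝓝 z] fun _ => 0 :=
          e.mono fun y hy => by simp only [hy, ofReal_zero]
        have e2 : (fun y => ((D.rd (χ b) d y : ℝ) : ℂ) * (D.rd (f b) d y - D.rd (f a) d y)) =ᶠ[𝓝 z]
            fun _ => 0 := e.mono fun y hy => by simp only [hy, ofReal_zero, zero_mul]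
        refine ⟨(differentiableAt_const _).congr_of_eventuallyEq e2, fun j => by
          rw [dzb_congr e2, dzb_congr e1, dzb_const, zero_mul], ?_⟩
        simp only [db, dzb_congr e1, dzb_const, mul_zero, Finset.sum_const_zero, zero_mul, norm_zero]
        have := A0 b
        positivity
    have e : db (D.rd (fun x => ∑ b, (χ b x : ℂ) * f b x) d) z v =
        ∑ b, db (fun y => ((D.rd (χ b) d y : ℝ) : ℂ)) z v * (D.rd (f b) d z - D.rd (f a) d z) := by
      rw [show D.rd (fun x => ∑ b, (χ b x : ℂ) * f b x) d = fun y => D.rd (f a) d y +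
        ∑ b, ((D.rd (χ b) d y : ℝ) : ℂ) * (D.rd (f b) d y - D.rd (f a) d y) from funext fun y => eG _ _]
      simp only [db, dzb_add (cd_diff (hol_cd hh)) (DifferentiableAt.fun_sum fun b _ => (key b).1),
        dzb_hol90 hh, zero_add, dzb_sum fun b _ => (key b).1, fun b => (key b).2.1, Finset.mul_sum,
        Finset.sum_mul, mul_assoc]
      exact Finset.sum_comm
    have b1 := (norm_sum_le _ _).trans (Finset.sum_le_sum (s := Finset.univ) fun b _ => (key b).2.2)
    rw [← e, ← Finset.sum_mul] at b1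
    have b2 := pow_le_pow_left₀ (norm_nonneg _) b1 2
    rw [mul_pow, mul_pow, Real.sq_sqrt q0, Real.sq_sqrt (d0 _), ← normSq_eq_norm_sq] at b2
    refine b2.trans ?_
    have := mul_nonneg p2 (mul_nonneg q0 (d0 ((D.e d).symm z)))
    simp only [Ad.rd]
    linarith
  · have x0 := Real.exp_pos (-lw D (fun i => P i) x)
    have u : ∀ b, x ∈ R.Kr b r →
        normSq (f b x) ≤ (∑ b, |B b|) * Real.exp (-lw D (fun i => P i) x) := fun b hb => by
      rw [Real.exp_neg, ← div_eq_mul_inv, le_div_iff₀ (Real.exp_pos _)]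
      exact ((hB b x ⟨hb, hx⟩).trans (le_abs_self _)).trans
        (Finset.single_le_sum (f := fun b => |B b|) (fun _ _ => abs_nonneg _) (Finset.mem_univ b))
    have t : ∀ d b, (R.Kr d r ∩ R.Kr b r).indicator (fun y => normSq (f d y - f b y)) x ≤
        4 * (∑ b, |B b|) * Real.exp (-lw D (fun i => P i) x) := fun d b => by
      by_cases h : x ∈ R.Kr d r ∩ R.Kr b r
      · rw [indicator_of_mem h]
        have u3 : normSq (f d x - f b x) ≤ 2 * normSq (f d x) + 2 * normSq (f b x) := by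
          simp only [normSq_apply, sub_re, sub_im]
          nlinarith [sq_nonneg ((f d x).re + (f b x).re), sq_nonneg ((f d x).im + (f b x).im)]
        linarith [u d h.1, u b h.2]
      · rw [indicator_of_notMem h]
        positivity
    have t2 : R.dif r f x ≤ N * (N * (4 * (∑ b, |B b|) * Real.exp (-lw D (fun i => P i) x))) := by
      refine (Finset.sum_le_card_nsmul _ _ _ fun d _ =>
        Finset.sum_le_card_nsmul _ _ _ fun b _ => t d b).trans_eq ?_
      rw [nsmul_eq_mul, nsmul_eq_mul, Finset.card_univ]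
    nlinarith [mul_nonneg (sq_nonneg (∑ b, A b)) x0.le]
  · have b1 : ‖∑ a, (χ a x : ℂ) * f a x - f b x‖ ≤ ∑ a, χ a x • ‖f a x - f b x‖ := by
      rw [eG x (f b x), add_sub_cancel_left]
      refine (norm_sum_le _ _).trans_eq (Finset.sum_congr rfl fun d _ => ?_)
      rw [norm_mul, Complex.norm_real, Real.norm_of_nonneg (c2 d x), smul_eq_mul]
    have b2 := (Even.convexOn_pow (𝕜 := ℝ) (n := 2) even_two).map_sum_le (t := Finset.univ)
      (w := fun d => χ d x) (p := fun d => ‖f d x - f b x‖) (fun d _ => c2 d x) (c3 x)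
      fun _ _ => mem_univ _
    rw [normSq_eq_norm_sq]
    refine (((pow_le_pow_left₀ (norm_nonneg _) b1 2).trans b2).trans
      (Finset.sum_le_sum fun d _ => ?_)).trans (row_le R f b x)
    by_cases k : x ∈ R.Kr d r
    · rw [indicator_of_mem (show x ∈ R.Kr d r ∩ R.Kr b r from ⟨k, hx⟩), normSq_eq_norm_sq,
        smul_eq_mul]
      exact mul_le_of_le_one_left (sq_nonneg _) (c3 x ▸ Finset.single_le_sum
        (f := fun a => χ a x) (fun a _ => c2 a x) (Finset.mem_univ d))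
    · rw [c4 d x k, zero_smul]
      exact term_nn R f d b x

end Pool.Agent.Lib.K2
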