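import Pool.Agent.Lib.K2.Blue
import Pool.Agent.Lib.NA.B_BR5

/-! Project k2, row BR5. -/

open scoped Classical Topology ContDiff Manifold
open Set Complex Metric Filter

noncomputable section

namespace Pool.Agent.Lib.K2

open Pool.Agent.Lib.SV (E)
open Pool.Agent.Lib.HS32 Pool.Agent.Lib.EX Pool.Agent.Lib.EXS Pool.Agent.Lib.ZL Pool.Agent.Lib.NA
open Pool.Agent.Lib.KP (HolAt)
open Pool.Agent.Lib.HS.BBR (mf)

open NA.BR4 NA.BR5 in
theorem kBR5 (hL : Sy_LOC) : Sy_BR5 := by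
  intro n Y ι I _ _ _ _ _ _ _ _ m M S ex k l η W σ g D X hR hF hv hM ho j q F hj hm h1
  choose v hv using hv
  have hW := fun a => (hR.opn a).1
  have hg : ∀ a b, D.On (W a ∩ W b) fun d z => HolN (D.rd (g a b) d) z := fun a b d z hz h =>
    LFT.holN ((hW a).inter (hW b)) (fun y hy => (hR.tr a b y hy).1) hz h
  have ex1 : ∀ b, ∃ s : ι → Y → ℂ, SecOn n W (g ^ j) univ s ∧ (F b = 1 → s = σ ^ j) ∧
      ∀ a, ∀ x ∈ W a, x ∈ off D → s a x = σ a x ^ j * F b x := fun b => by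
    by_cases hb : F b = 1
    · refine ⟨σ ^ j, ⟨fun a y hy => hol (hR.div a y hy) j, fun a a' y hy => ?_⟩, fun _ => rfl,
        fun a x _ _ => by simp [hb]⟩
      simp only [Pi.pow_apply]
      rw [(hR.tr a a' y hy.1).2, mul_pow]
    · obtain ⟨u, u1, u2⟩ := gen D k j W σ g (F b) hW v hv hg (fun a b x hx => (hR.tr a b x hx).2)
        (hm b)
      refine ⟨u, ⟨fun a y hy => ?_, fun a b y hy => u2 a b y hy.1⟩, fun h => absurd h hb,
        fun a x hx hx' => ?_⟩
      · obtain ⟨d, z, hz, rfl⟩ := FINV.chart D y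
        have h3 := (u1 a d z hz hy).1.self_of_nhds
        rw [← (D.e d).right_inv (FINV.tgt hz)] at h3
        exact (K1.hol_iff0 (D.mem d) ((D.e d).map_target (FINV.tgt hz))).2 h3
      · obtain ⟨d, z, hz, rfl⟩ := FINV.chart D x
        obtain ⟨s, s1, s2⟩ := hm b d z hz
        have o := hx' d ((D.e d).map_target (FINV.tgt hz))
        rw [(D.e d).right_inv (FINV.tgt hz)] at o
        have a1 := (u1 a d z hz hx).2 s s1 s2
        have a2 := s2.self_of_nhds o
        have a3 := (hv a d z hz hx).2.2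
        simp only [Ad.rd] at a1 a2 a3
        rw [a1, a2, a3, MON.xm_neg, xm_mul, mul_pow, mul_assoc,
          mul_inv_cancel_left₀ (pow_ne_zero j (MON.xm_ne _ o))]
  choose s s1 s2 s3 using ex1
  obtain ⟨b₀, hb₀⟩ := h1
  refine ⟨s, s1, ⟨b₀, s2 b₀ hb₀⟩, fun c y => ?_⟩
  obtain ⟨L1, L2, L3⟩ := hL n Y I S D X y hF
  have key : ∀ a h, y ∈ W a → Eqs n S y h → ∃ C, 0 ≤ C ∧ ∀ᶠ x in 𝓝 y, x ∈ off D →
      (∑ b, normSq (s b a x)) ^ (-c) * ∏ i, normSq (h i x) ^ (-(k i / M - l i / m : ℝ)) ≤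
        C * (om D (fun i => k i / M) (lps (j * M) F) (c * (j * M)) x * Real.exp (lw D X.o x)) ∧
      om D (fun i => k i / M) (lps (j * M) F) (c * (j * M)) x * Real.exp (lw D X.o x) ≤
        C * ((∑ b, normSq (s b a x)) ^ (-c) *
          ∏ i, normSq (h i x) ^ (-(k i / M - l i / m : ℝ))) := by
    intro a h hy hh
    obtain ⟨h', w, e1, e2⟩ := hR.div a y hy
    obtain ⟨C1, c1⟩ := L3 h (fun i => k i / M - l i / m) hh
    obtain ⟨C2, c2⟩ := L3 h' (fun i => k i) e1
    have c3 : ContinuousAt (fun x => Real.log (normSq (w x))) y :=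
      (continuous_normSq.continuousAt.comp (LFT.cont e2.self_of_nhds.1)).log
        (normSq_pos.2 e2.self_of_nhds.2.1).ne'
    refine ⟨Real.exp (|c * j| * (|Real.log (normSq (w y))| + 1 + C2) + C1), (Real.exp_pos _).le, ?_⟩
    filter_upwards [c1, c2, e2, c3.abs.eventually (gt_mem_nhds (lt_add_one _)),
      (hW a).mem_nhds hy] with x x1 x2 x3 x4 x5 x6
    obtain ⟨y1, y2⟩ := x1 x6
    obtain ⟨y3, y4⟩ := x2 x6
    have t1 := lg (k := k) x3.2.1 y3
    rw [← x3.2.2] at t1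
    have t2 : 0 < normSq (σ a x) := by
      rw [x3.2.2]
      exact normSq_pos.2 (mul_ne_zero x3.2.1 (Finset.prod_ne_zero_iff.2 fun i _ =>
        zpow_ne_zero _ (y3 i)))
    have t3 : 0 < ∑ b, normSq (F b x) := Finset.sum_pos' (fun b _ => normSq_nonneg _)
      ⟨b₀, Finset.mem_univ _, normSq_pos.2 ((congrFun hb₀ x).trans_ne one_ne_zero)⟩
    have t4 : ∑ b, normSq (s b a x) = normSq (σ a x) ^ j * ∑ b, normSq (F b x) := by
      simp only [s3 _ a x x5 x6, map_mul, map_pow, Finset.mul_sum]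
    have M0 : (M : ℝ) ≠ 0 := by positivity
    have j0 : (j : ℝ) ≠ 0 := by positivity
    have t5 : lw D (fun i => (k i : ℝ)) x = M * lw D (fun i => k i / M) x := by
      simp only [lw, Finset.mul_sum]
      exact Finset.sum_congr rfl fun i _ => by field_simp
    have t6 : lw D (fun i => (k i / M - l i / m : ℝ)) x = lw D (fun i => k i / M) x - lw D X.o x := by
      simp only [lw, ho, sub_mul, Finset.sum_sub_distrib]
    rw [dens (t4 ▸ mul_pos (pow_pos t2 j) t3) y1, om, ← Real.exp_add, t4,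
      Real.log_mul (pow_pos t2 j).ne' t3.ne', Real.log_pow, lps]
    refine cmp ?_
    have t7 : |Real.log (normSq (σ a x)) - lw D (fun i => (k i : ℝ)) x| ≤
        |Real.log (normSq (w y))| + 1 + C2 := by
      rw [t1, add_sub_assoc]
      exact (abs_add_le _ _).trans (add_le_add x4.le y4)
    refine le_trans (le_of_eq ?_) ((abs_add_le _ _).trans (add_le_add
      ((abs_mul _ _).trans_le (mul_le_mul_of_nonneg_left t7 (abs_nonneg (c * j)))) y2))
    rw [← abs_neg, t5, t6]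
    refine congrArg _ ?_
    field_simp
    ring
  constructor
  · rintro ⟨a, h, hy, hh, hV⟩
    obtain ⟨C, hC, hx⟩ := key a h hy hh
    exact L2 _ _ C hC (hx.mono fun x h1 h2 => (h1 h2).2) hV
  · intro hI
    obtain ⟨a, hy⟩ := hR.cov y
    obtain ⟨h, -, hh, -⟩ := hR.form y
    obtain ⟨C, hC, hx⟩ := key a h hy hh
    exact ⟨a, h, hy, hh, L1 _ _ C hC (hx.mono fun x h1 h2 => (h1 h2).1) hI⟩

end Pool.Agent.Lib.K2
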