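import Pool.Agent.Lib.K2.Blue
import Pool.Agent.Lib.NA.B_VAL

/-! Project k2, row CEC: almost compatible local sections are close to a global section. -/

open scoped Classical Topology ContDiff ENNReal
open Set MeasureTheory Complex Metric Filter

set_option linter.unusedSectionVars false

noncomputable section

namespace Pool.Agent.Lib.K2

open Pool.Agent.Lib.SV (E)
open Pool.Agent.Lib.HS32 Pool.Agent.Lib.EX Pool.Agent.Lib.EXS Pool.Agent.Lib.ZL Pool.Agent.Lib.NA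

namespace CEC

variable {n : ℕ} {M : Mf n} {ι : Type} [Fintype ι] [DecidableEq ι] {D : Ad M ι} {Q : ι → ℤ}
  {W : Set M.X} {k : ℕ → M.X → ℂ} {F G : M.X → ℂ} {l : Ultrafilter ℕ} {y : M.X}

/-- Bounded holomorphic functions converge along an ultrafilter. -/
theorem lim1 (l : Ultrafilter ℕ) {s : ℕ → E n → ℂ} {z : E n} {R A : ℝ} (hR : 0 < R)
    (hd : ∀ ν, DifferentiableOn ℂ (s ν) (ball z R))
    (hb : ∀ᶠ ν in (l : Filter ℕ), ∀ w ∈ ball z R, ‖s ν w‖ ≤ A) :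
    ∃ g : E n → ℂ, DifferentiableOn ℂ g (ball z R) ∧
      (∀ w ∈ ball z R, Tendsto (fun ν => s ν w) l (𝓝 (g w))) ∧
      ∀ η > (0 : ℝ), ∀ᶠ p in (l : Filter ℕ) ×ˢ 𝓝 z, ‖s p.1 p.2 - g p.2‖ ≤ η := by
  have a : ∀ w, ∃ c, w ∈ ball z R → Tendsto (fun ν => s ν w) l (𝓝 c) := fun w => by
    by_cases hw : w ∈ ball z R
    · obtain ⟨c, -, hc⟩ := (isCompact_closedBall (0 : ℂ) A).ultrafilter_le_nhds
        (l.map fun ν => s ν w) (le_principal_iff.2
          (mem_map.2 (hb.mono fun ν h => mem_closedBall_zero_iff.2 (h w hw))))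
      exact ⟨c, fun _ => hc⟩
    · exact ⟨0, fun h => absurd h hw⟩
  choose g hg using a
  have dg := (SV.H85.differentiableOn_of_tendsto isOpen_ball (Eventually.of_forall hd)
    (fun x hx => ⟨A, _, isOpen_ball.mem_nhds hx, hb⟩) hg).1
  refine ⟨g, dg, hg, fun η hη => ?_⟩
  have h3 : 0 < η / 3 := by positivity
  have t1 := (tendsto_iff_norm_sub_tendsto_zero.1 (hg z (mem_ball_self hR))).eventually
    (gt_mem_nhds h3)
  have t2 := (tendsto_iff_norm_sub_tendsto_zero.1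
    (dg.continuousOn.continuousAt (ball_mem_nhds z hR))).eventually (gt_mem_nhds h3)
  have t3 : ∀ᶠ w in 𝓝 z, 2 * A / R * ‖w - z‖ < η / 3 :=
    (Continuous.tendsto (f := fun w => 2 * A / R * ‖w - z‖) (by fun_prop) z).eventually
      (gt_mem_nhds (by simpa using hη))
  filter_upwards [prod_mem_prod (t1.and hb) (t2.and (t3.and (ball_mem_nhds z hR)))] with p
    ⟨⟨a1, a2⟩, b1, b2, b3⟩
  have := SV.H85.norm_sub_le_of_bound (hd p.1) a2 b3
  linarith [norm_sub_le_norm_sub_add_norm_sub (s p.1 p.2) (s p.1 z) (g p.2),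
    norm_sub_le_norm_sub_add_norm_sub (s p.1 z) (g z) (g p.2), norm_sub_rev (g z) (g p.2)]

variable (D Q) in
/-- The norm of a section. -/
def nr (F : M.X → ℂ) (y : M.X) : ℝ := ‖F y‖ * Real.exp (lw D (fun i => Q i) y / 2)

theorem nr_nn : 0 ≤ nr D Q F y := by unfold nr; positivity

theorem sq_nr : sq D Q F y = nr D Q F y ^ 2 := by
  rw [NA.sq, nr, mul_pow, normSq_eq_norm_sq, ← Real.exp_nat_mul]
  congr 2
  push_cast
  ring

theorem nr_le {C : ℝ} (h : sq D Q F y ≤ C) : nr D Q F y ≤ √C :=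
  Real.le_sqrt_of_sq_le (sq_nr.symm.trans_le h)

theorem nr_tri (F G H : M.X → ℂ) : nr D Q (F - H) y ≤ nr D Q (F - G) y + nr D Q (G - H) y := by
  rw [nr, nr, nr, ← add_mul]
  exact mul_le_mul_of_nonneg_right (norm_sub_le_norm_sub_add_norm_sub _ _ _) (Real.exp_pos _).le

theorem nr_smul (t : ℝ) (ht : 0 ≤ t) : nr D Q ((t : ℂ) • F) y = t * nr D Q F y := by
  rw [nr, nr, Pi.smul_apply, norm_smul, norm_real, Real.norm_of_nonneg ht, mul_assoc]

theorem cmp (hPW : ZL.St_PW) [M.Cpt] {r : ℝ} (hr : r < 2) : ∃ L > (0 : ℝ), ∀ (F : M.X → ℂ) d z,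
    ‖z‖ ≤ r → Off (D.c d) z → ‖xm (D.c d) Q z * D.rd F d z‖ ≤ L * nr D Q F ((D.e d).symm z) ∧
      nr D Q F ((D.e d).symm z) ≤ L * ‖xm (D.c d) Q z * D.rd F d z‖ := by
  obtain ⟨-, -, -, -, -, -, -, -, p9, -⟩ := hPW n M ι D
  obtain ⟨C, -, hC⟩ := p9 r hr
  refine ⟨√(Real.exp (C * ∑ i, |(Q i : ℝ)|)), Real.sqrt_pos.2 (Real.exp_pos _),
    fun F d z hz o => ?_⟩
  obtain ⟨u, v⟩ := hC (fun i => (Q i : ℝ)) d z hz o
  have e := U11.nsq (c := D.c d) (P := -Q) z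
  rw [neg_neg, show (-fun i => ((-Q) i : ℝ)) = fun i => (Q i : ℝ) from funext fun i => by simp]
    at e
  have p := normSq_nonneg (D.rd F d z)
  constructor
  · refine abs_le_of_sq_le_sq' ?_ (mul_nonneg (Real.sqrt_nonneg _) nr_nn) |>.2
    rw [mul_pow, Real.sq_sqrt (Real.exp_pos _).le, ← sq_nr, ← normSq_eq_norm_sq, map_mul, e]
    exact (mul_le_mul_of_nonneg_right u p).trans_eq (by simp only [NA.sq, Ad.rd]; ring)
  · refine abs_le_of_sq_le_sq' ?_ (by positivity) |>.2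
    rw [mul_pow, Real.sq_sqrt (Real.exp_pos _).le, ← sq_nr, ← normSq_eq_norm_sq, map_mul, e,
      ← mul_assoc]
    exact le_of_eq_of_le (by simp only [NA.sq, Ad.rd]; ring) (mul_le_mul_of_nonneg_right v p)

/-- The limit in a chart. -/
theorem ch (hPW : ZL.St_PW) [M.Cpt] (hW : IsOpen W) (hk : ∀ ν, MerOn D W Q (k ν))
    (hb : ∀ K, IsCompact K → K ⊆ W → ∃ A, ∀ᶠ ν in (l : Filter ℕ), ∀ y ∈ K ∩ off D,
      nr D Q (k ν) y ≤ A)
    (hF : ∀ y ∈ W ∩ off D, Tendsto (fun ν => k ν y) l (𝓝 (F y))) {a : D.A} {z : E n}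
    (hz : z ∈ B2 n) (hw : (D.e a).symm z ∈ W) : ∃ g, VAL.Rp (D.c a) Q (D.rd F a) g z ∧
      Tendsto (fun ν => val (D.c a) Q (D.rd (k ν) a) z) l (𝓝 (g z)) ∧ ∀ η > (0 : ℝ),
      ∀ᶠ p in (l : Filter ℕ) ×ˢ 𝓝 z, Off (D.c a) p.2 →
        nr D Q (k p.1 - F) ((D.e a).symm p.2) ≤ η := by
  obtain ⟨r, r1, r2⟩ := exists_between (mem_ball_zero_iff.1 hz)
  obtain ⟨L, L0, hL⟩ := cmp (D := D) (Q := Q) hPW r2
  obtain ⟨R, hR, hB⟩ := nhds_basis_closedBall.eventually_iff.1 ((GLU.ev_on hW hz hw).and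
    (continuous_norm.continuousAt.eventually (gt_mem_nhds r1)))
  obtain ⟨A, hA⟩ := hb ((D.e a).symm '' closedBall z R)
    ((isCompact_closedBall z R).image_of_continuousOn
      ((D.e a).continuousOn_symm.mono fun w h => GLU.mem_tgt a (hB h).1.1))
    (by rintro _ ⟨w, h, rfl⟩; exact (hB h).1.2)
  have hB' := fun w (h : w ∈ ball z R) => hB (ball_subset_closedBall h)
  have of : ∀ w ∈ ball z R, Off (D.c a) w → (D.e a).symm w ∈ off D := fun w h o => by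
    rwa [GLU.mem_off (GLU.mem_src a (hB' w h).1.1), GLU.rinv a (hB' w h).1.1]
  have rp := fun ν w (h : w ∈ ball z R) => VAL.rp_self (hk ν a w (hB' w h).1.1 (hB' w h).1.2)
  have ev : ∀ ν, ∀ w ∈ ball z R, Off (D.c a) w →
      val (D.c a) Q (D.rd (k ν) a) w = xm (D.c a) Q w * D.rd (k ν) a w := fun ν w h o => by
    have e := (rp ν w h).2.self_of_nhds o
    rw [MON.xm_neg] at e
    rw [← mul_inv_cancel_left₀ (MON.xm_ne Q o) (val (D.c a) Q (D.rd (k ν) a) w), ← e]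
  obtain ⟨g, g1, g2, g3⟩ := lim1 l (s := fun ν => val (D.c a) Q (D.rd (k ν) a)) (A := L * A) hR
    (fun ν w h => (rp ν w h).1.self_of_nhds.differentiableWithinAt) (hA.mono fun ν hν w h => by
      refine le_of_tendsto_of_frequently (rp ν w h).1.self_of_nhds.continuousAt.norm
        (((MON.off_freq (D.c a) w).and_eventually (isOpen_ball.mem_nhds h)).mono fun v hv => ?_)
      rw [ev ν v hv.2 hv.1]
      exact (hL _ a v (hB' v hv.2).2.le hv.1).1.trans (mul_le_mul_of_nonneg_left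
        (hν _ ⟨⟨v, ball_subset_closedBall hv.2, rfl⟩, of v hv.2 hv.1⟩) L0.le))
  have eg : ∀ w ∈ ball z R, Off (D.c a) w → g w = xm (D.c a) Q w * D.rd F a w := fun w h o =>
    tendsto_nhds_unique (g2 w h) (((hF _ ⟨(hB' w h).1.2, of w h o⟩).const_mul _).congr
      fun ν => (ev ν w h o).symm)
  refine ⟨g, ⟨?_, ?_⟩, g2 z (mem_ball_self hR), fun η hη => ?_⟩
  · filter_upwards [ball_mem_nhds z hR] with w h using g1.differentiableAt (isOpen_ball.mem_nhds h)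
  · filter_upwards [ball_mem_nhds z hR] with w h o
    rw [eg w h o, MON.xm_neg, inv_mul_cancel_left₀ (MON.xm_ne Q o)]
  · filter_upwards [g3 (η / L) (by positivity), tendsto_snd.eventually (ball_mem_nhds z hR)]
      with p h1 h2 o
    rw [ev _ _ h2 o, eg _ h2 o, ← mul_sub, le_div_iff₀' L0] at h1
    exact (hL _ a _ (hB' _ h2).2.le o).2.trans h1

/-- The limit on an open set. -/
theorem loc (hPW : ZL.St_PW) [M.Cpt] (hW : IsOpen W) (hk : ∀ ν, MerOn D W Q (k ν))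
    (hb : ∀ K, IsCompact K → K ⊆ W → ∃ A, ∀ᶠ ν in (l : Filter ℕ), ∀ y ∈ K ∩ off D,
      nr D Q (k ν) y ≤ A)
    (hF : ∀ y ∈ W ∩ off D, Tendsto (fun ν => k ν y) l (𝓝 (F y))) : MerOn D W Q F ∧
    (∀ y ∈ W, (∀ᶠ ν in (l : Filter ℕ), Van D Q (k ν) y) → Van D Q F y) ∧
    ∀ K, IsCompact K → K ⊆ W → ∀ η > (0 : ℝ), ∀ᶠ ν in (l : Filter ℕ), ∀ y ∈ K ∩ off D,
      nr D Q (k ν - F) y ≤ η := by
  have c := fun a y (ha : y ∈ (D.e a).source) (hy : y ∈ W) =>
    ch hPW hW hk hb hF (GLU.mem_B2 ha) (by rwa [(D.e a).left_inv ha])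
  refine ⟨fun a z hz hw => (ch hPW hW hk hb hF hz hw).imp fun g h => h.1, fun y hy hv a ha => ?_,
    fun K hK hKW η hη => ?_⟩
  · obtain ⟨g, g1, g2, -⟩ := c a y ha hy
    rw [VAL.rp_val g1]
    exact tendsto_nhds_unique g2 (tendsto_const_nhds.congr' (hv.mono fun ν h => (h a ha).symm))
  · have := hK.mem_prod_nhdsSet_of_forall (l := (l : Filter ℕ))
      (s := {p | p.2 ∈ off D → nr D Q (k p.1 - F) p.2 ≤ η}) fun y hy => by
        obtain ⟨a, ha⟩ := GLU.ex_ch D y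
        obtain ⟨g, -, -, g3⟩ := c a y ha (hKW hy)
        filter_upwards [(tendsto_id.prodMap ((D.e a).continuousAt ha)).eventually (g3 η hη),
          tendsto_snd.eventually ((D.e a).open_source.mem_nhds ha)] with p h1 h2 o
        simpa only [Prod.map, id, (D.e a).left_inv h2] using h1 (o a h2)
    obtain ⟨s, hs, t, ht, h⟩ := mem_prod_iff.1 this
    filter_upwards [hs] with ν hν y hy using h (mk_mem_prod hν (subset_of_mem_nhdsSet ht hy.1)) hy.2

end CEC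

open CEC in
theorem kCEC (hPW : ZL.St_PW) (hVAL : NA.St_VAL) : St_CEC := by
  intro n M _ ι _ _ D U Q h f b x hU hh hd hx hf hn hv
  by_contra! hc
  obtain ⟨-, -, -, v4, v5, v6, -, -, -, v10, -, v12⟩ := hVAL n M ι D
  have cov : ∀ y, ∃ d, y ∈ Kc D d := (hPW n M ι D).2.1
  have m0 : Mer D Q 0 := fun d z _ => ⟨0, Eventually.of_forall fun _ => differentiableAt_const _,
    Eventually.of_forall fun _ _ => by simp [Ad.rd]⟩
  have mu : ∀ G d, Mer D Q G → MerOn D (U d) Q G := fun G d hG =>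
    v5 _ _ _ _ (subset_univ _) ((v4 Q G).1 hG)
  set S : ℕ → Set ℝ := fun ν => {t | 0 ≤ t ∧ ∃ G, Mer D Q G ∧ ∀ d, ∀ y ∈ Kc D d ∩ off D,
    nr D Q (h ν d - G) y ≤ t} with hS
  have s1 : ∀ ν, (S ν).Nonempty := fun ν => by
    choose C hC using fun d => v10 _ _ Q _ (v12 d) (hU d).2 (hh ν d)
    refine ⟨∑ d, √(C d), by positivity, 0, m0, fun d y hy => ?_⟩
    rw [sub_zero]
    exact (nr_le (hC d y hy)).trans
      (Finset.single_le_sum (fun d _ => Real.sqrt_nonneg (C d)) (Finset.mem_univ d))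
  have s2 : ∀ ν, BddBelow (S ν) := fun ν => ⟨0, fun t ht => ht.1⟩
  choose t ht t1 using fun ν => exists_lt_of_csInf_lt (s1 ν) (lt_add_one (sInf (S ν)))
  choose G G1 G2 using fun ν => (ht ν).2
  set m : ℕ → ℝ := fun ν => max 1 (sInf (S ν)) with hm
  have m1 : ∀ ν, 1 ≤ m ν := fun ν => le_max_left _ _
  have m2 : ∀ ν, 0 < m ν := fun ν => one_pos.trans_le (m1 ν)
  have m3 : ∀ ν, ((m ν : ℝ) : ℂ) ≠ 0 := fun ν => ofReal_ne_zero.2 (m2 ν).ne'
  set k : ℕ → D.A → M.X → ℂ := fun ν d => (((m ν)⁻¹ : ℝ) : ℂ) • (h ν d - G ν) with hk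
  have k1 : ∀ ν d, MerOn D (U d) Q (k ν d) := fun ν d => by
    simpa only [zero_add] using (v6 _ Q 0 _ (((m ν)⁻¹ : ℝ) : ℂ) (mu 0 d m0)
      (v6 _ Q _ _ 0 (hh ν d) (mu _ d (G1 ν))).2.1).1
  have k2 : ∀ ν d, ∀ y ∈ Kc D d ∩ off D, nr D Q (k ν d - 0) y ≤ 2 := fun ν d y hy => by
    rw [sub_zero, nr_smul _ (inv_pos.2 (m2 ν)).le, inv_mul_le_iff₀ (m2 ν)]
    linarith [G2 ν d y hy, t1 ν, m1 ν, le_max_right 1 (sInf (S ν))]
  have k3 : ∀ d d' K, IsCompact K → K ⊆ U d ∩ U d' → ∀ η > (0 : ℝ),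
      ∀ᶠ ν in (hyperfilter ℕ : Filter ℕ), ∀ y ∈ K ∩ off D, nr D Q (k ν d - k ν d') y ≤ η :=
    fun d d' K hK hKU η hη => by
      filter_upwards [Nat.hyperfilter_le_atTop (hd d d' K hK hKU (η ^ 2) (by positivity))]
        with ν hν y hy
      rw [hk, ← smul_sub, sub_sub_sub_cancel_right, nr_smul _ (inv_pos.2 (m2 ν)).le,
        inv_mul_le_iff₀ (m2 ν)]
      refine ((nr_le (hν y hy)).trans_eq (Real.sqrt_sq hη.le)).trans ?_
      exact le_mul_of_one_le_left hη.le (m1 ν)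
  have k4 : ∀ d K, IsCompact K → K ⊆ U d → ∀ᶠ ν in (hyperfilter ℕ : Filter ℕ),
      ∀ y ∈ K ∩ off D, nr D Q (k ν d - 0) y ≤ 3 := fun d K hK hKU => by
    filter_upwards [eventually_all.2 fun d' => k3 d d' _ (hK.inter_right (v12 d').isClosed)
      (inter_subset_inter hKU (hU d').2) 1 one_pos] with ν hν y hy
    obtain ⟨d', hd'⟩ := cov y
    linarith [nr_tri (D := D) (Q := Q) (y := y) (k ν d) (k ν d') 0, k2 ν d' y ⟨hd', hy.2⟩,
      hν d' y ⟨⟨hy.1, hd'⟩, hy.2⟩]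
  have a : ∀ y, ∃ c, y ∈ off D → ∀ d, y ∈ U d →
      Tendsto (fun ν => k ν d y) (hyperfilter ℕ) (𝓝 c) := fun y => by
    by_cases o : y ∈ off D
    · obtain ⟨d', hd'⟩ := cov y
      have p := Real.exp_pos (lw D (fun i => Q i) y / 2)
      obtain ⟨c, -, hc⟩ := (isCompact_closedBall (0 : ℂ)
        (2 / Real.exp (lw D (fun i => Q i) y / 2))).ultrafilter_le_nhds
        ((hyperfilter ℕ).map fun ν => k ν d' y) (le_principal_iff.2 (mem_map.2
          (Eventually.of_forall fun ν => mem_closedBall_iff_norm.2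
            ((le_div_iff₀ p).2 (k2 ν d' y ⟨hd', o⟩)))))
      refine ⟨c, fun _ d hy => Tendsto.congr_dist hc (Metric.tendsto_nhds.2 fun η hη => ?_)⟩
      filter_upwards [k3 d' d {y} isCompact_singleton
        (singleton_subset_iff.2 ⟨(hU d').2 hd', hy⟩) _ (mul_pos (half_pos hη) p)] with ν hν
      rw [Real.dist_0_eq_abs, abs_dist, dist_eq_norm]
      exact (le_of_mul_le_mul_right (hν y ⟨rfl, o⟩) p).trans_lt (half_lt_self hη)
    · exact ⟨0, fun h => absurd h o⟩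
  choose F hF using a
  have l1 := fun d => loc hPW (hU d).1 (k1 · d) (fun K hK hKU => ⟨3, by
    simpa only [sub_zero] using k4 d K hK hKU⟩) fun y hy => hF y hy.2 d hy.1
  have F1 : Mer D Q F := fun a z hz => by
    obtain ⟨d, hd'⟩ := cov ((D.e a).symm z)
    exact (l1 d).1 a z hz ((hU d).2 hd')
  have e1 : ∀ᶠ ν in (hyperfilter ℕ : Filter ℕ), m ν = 1 := by
    filter_upwards [eventually_all.2 fun d => (l1 d).2.2 _ (v12 d) (hU d).2 (1 / 2) one_half_pos]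
      with ν hν
    have : sInf (S ν) ≤ m ν * (1 / 2) := csInf_le (s2 ν) ⟨by linarith [m2 ν], G ν + (m ν : ℂ) • F,
      (v4 Q _).2 (v6 _ Q _ _ _ ((v4 Q _).1 (G1 ν)) ((v4 Q _).1 F1)).1, fun d y hy => by
        rw [show h ν d - (G ν + (m ν : ℂ) • F) = (m ν : ℂ) • (k ν d - F) by
          rw [hk, smul_sub, smul_smul, ofReal_inv, mul_inv_cancel₀ (m3 ν), one_smul, sub_sub],
          nr_smul _ (m2 ν).le]
        exact mul_le_mul_of_nonneg_left (hν d y hy) (m2 ν).le⟩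
    exact max_eq_left (by
      rcases le_total 1 (sInf (S ν)) with a | a
      · rw [show m ν = sInf (S ν) from max_eq_right a] at this
        linarith
      · exact a)
  have l2 := (loc hPW (F := F - f) (hU b).1 (fun ν => (v6 _ Q _ _ 0 (k1 ν b) hf).2.1)
    (fun K hK hKU => by
      obtain ⟨C, hC⟩ := v10 _ _ Q _ hK hKU (v6 _ Q _ _ 0 (mu 0 b m0) hf).2.1
      refine ⟨3 + √C, (k4 b K hK hKU).mono fun ν hν y hy => ?_⟩
      linarith [nr_tri (D := D) (Q := Q) (y := y) (k ν b) 0 f, hν y hy, nr_le (hC y hy)])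
    fun y hy => (hF y hy.2 b hy.1).sub_const _).2.1 x hx (e1.mono fun ν hν => by
      have := ((v6 _ Q _ _ (-1) (v6 _ Q _ _ 0 (hh ν b) hf).2.1 (mu _ b (G1 ν))).2.2 x hx).1 (hv ν)
        (hc _ (G1 ν))
      rwa [show h ν b - f + (-1 : ℂ) • G ν = k ν b - f by
        rw [hk]; simp only [hν, inv_one, ofReal_one, one_smul, neg_smul]; abel] at this)
  exact hn ((((v6 _ Q _ _ 0 (mu _ b F1) hf).2.2 x hx).2 l2).1 (hc _ F1))

end Pool.Agent.Lib.K2
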