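import Pool.Agent.Lib.K2.Blue

/-! Project k2, row EST: the estimate. -/

open scoped Classical Topology ContDiff ENNReal
open Set MeasureTheory Complex Metric Filter

noncomputable section

namespace Pool.Agent.Lib.K2

open Pool.Agent.Lib.SV (E nsq)
open Pool.Agent.Lib.HS32 Pool.Agent.Lib.EX Pool.Agent.Lib.EXS Pool.Agent.Lib.ZL Pool.Agent.Lib.NA

namespace ESTk

theorem pol_add {n : ℕ} {ι : Type} [Fintype ι] {c : ι → Option (Fin n)} {Q : ι → ℤ}
    {F : E n → ℂ} {z : E n} (h : Pol c Q F z) (P : ι → ℕ) : Pol c (fun i => Q i + P i) F z := by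
  obtain ⟨s, hs, e⟩ := h
  refine ⟨fun w => (∏ i, xi c i w ^ P i) * s w, hs.mono fun w hw => (contDiffAt_prod fun i _ =>
    ContDiffAt.pow ?_ _).mul hw, e.mono fun w hw ho => ?_⟩
  · unfold xi
    cases c i
    · exact contDiffAt_const
    · exact contDiffAt_apply ℝ ℂ _ _
  · rw [hw ho, ← mul_assoc, xm, xm, ← Finset.prod_mul_distrib]
    refine congrArg (· * _) (Finset.prod_congr rfl fun i _ => ?_)
    rw [← zpow_natCast, ← zpow_add₀ (ho i), Pi.neg_apply, Pi.neg_apply, neg_add_rev, add_right_comm,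
      neg_add_cancel, zero_add]

theorem meas (L₁ L₂ : ℝ) : Measurable fun p : ℝ × ℂ × ℝ =>
    (if 2 ≤ p.1 ∧ p.1 ≤ 3 then L₁ * normSq p.2.1 else 0) + if 2 ≤ p.1 then L₂ * p.2.2 else 0 :=
  (Measurable.ite ((measurableSet_le measurable_const measurable_fst).inter
    (measurableSet_le measurable_fst measurable_const))
    ((continuous_normSq.measurable.comp measurable_snd.fst).const_mul _) measurable_const).add
    (Measurable.ite (measurableSet_le measurable_const measurable_fst)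
      (measurable_snd.snd.const_mul _) measurable_const)

end ESTk

open ESTk in
theorem kEST (hPW : St_PW) (hU : St_UPB) (hMU : Sy_MU) (hX : Sy_EXB) (hS : St_WTS) (hM : St_WTM)
    (hI : St_IES) (hA : St_APB) : St_EST := by
  intro n M _ ι _ _ D X R ψ b G m J c c' B hψ J1 md c0 cc cm B0 sG pG mb b0 bB dG fin η η0
  obtain ⟨L, L0, hS⟩ := hS
  obtain ⟨-, m2, m3, -, -, m6, -⟩ := hMU n M ι D X
  obtain ⟨-, -, -, -, -, -, kae, -, P, -, hP⟩ := hX n M ι D X R
  obtain ⟨C₀, hC₀⟩ := (hU n M ι D (R.Q m)).2.2.2.1 G pG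
  have J0 : 0 < J := one_pos.trans_le J1
  obtain ⟨lam, hl⟩ : ∃ lam : ℝ, 1 + c + lam = m * R.N := ⟨m * R.N - 1 - c, by ring⟩
  have l0 : 0 < lam := by linarith
  obtain ⟨δ, e₁, C, δ0, δl, e0, e1, C0, H⟩ := hI n M ι D X R ψ b G m J c c' lam L (max B C₀) hψ J1
    c0 cc l0 hl L0 (le_max_of_le_left B0) sG (fun x hx => le_max_of_le_right (by
      have := hC₀ x hx
      rwa [Real.exp_neg, ← div_eq_mul_inv, le_div_iff₀ (Real.exp_pos _)] at this)) mb b0
    (fun x hx => le_max_of_le_left (bB x hx)) fin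
  obtain ⟨t, t0, ht⟩ : ∃ t : ℝ, 0 ≤ t ∧ 80 * C ^ 2 ≤ η * Real.exp (δ * t) :=
    ⟨80 * C ^ 2 / η / δ, by positivity, by
      rw [mul_div_cancel₀ _ δ0.ne', ← div_le_iff₀' η0]
      linarith [Real.add_one_le_exp (80 * C ^ 2 / η)]⟩
  obtain ⟨A, A0, H⟩ := H t t0
  have x0 := Real.exp_pos (δ * t)
  have k0 : 0 < c + lam + 1 := by positivity
  obtain ⟨s, s0, s1, s2, s3⟩ : ∃ s : ℝ, 0 < s ∧ s ≤ 1 ∧ s ≤ (c + lam + 1) * e₁ ∧
      s ≤ η / (80 * C * Real.exp (δ * t) * A) :=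
    ⟨min 1 (min _ _), by positivity, min_le_left _ _, (min_le_right _ _).trans (min_le_left _ _),
      (min_le_right _ _).trans (min_le_right _ _)⟩
  obtain ⟨e, he⟩ : ∃ e, s = (c + lam + 1) * e := ⟨s / _, (mul_div_cancel₀ _ k0.ne').symm⟩
  have e2 : 0 < e := (mul_pos_iff_of_pos_left k0).1 (he ▸ s0)
  have e3 : e ≤ e₁ := le_of_mul_le_mul_left (he ▸ s2) k0
  obtain ⟨i1, i2, i3⟩ := H e ⟨e2, e3⟩ s he
  obtain ⟨⟨u, u1, u2, u3⟩, w2, w3, w4, w5⟩ := hM n M ι D X R ψ G (fun i => R.Q m i + P i)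
    J c lam δ t e s hψ.1.1 J0 md c0 e2 (e3.trans e1) fun d z hz => pol_add (pG d z hz) P
  have A1 : 0 < A + C * Real.exp (-(2 * δ * t)) / s := by positivity
  obtain ⟨Φ, bt, h1, h2⟩ := hA n M ι D X (R.g s) _ _ _ u _
    (R.bb ψ J t e (L * J / δ) (2 / s) G b) _ (2 * s) _ (kae s s0).1
    (by positivity) A1 (fun i => by
      have N0 : R.N ≠ 0 := (one_pos.trans_le R.N1).ne'
      have : (c + lam) * R.γ i = m * R.k i - R.γ i := by
        rw [show c + lam = m * R.N - 1 by linarith, sub_mul, one_mul, Ry.γ, mul_assoc,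
          mul_div_cancel₀ _ N0]
      simp only [Pi.sub_apply, Pi.smul_apply, smul_eq_mul, this, Ry.Q]
      push_cast
      linarith [hP i, mul_nonneg s0.le (R.a0 i)]) u1 u2 u3 w2 w3
    ((meas _ _).comp_aemeasurable ((m2 _ _ w4).prodMk
      ((m2 _ _ ((hPW n M ι D).2.2.2.2.2.2.2.2.2.1 _ _ sG)).prodMk mb)))
    (fun x => by
      have := b0 x
      have := normSq_nonneg (G x)
      unfold Ry.bb
      positivity)
    (hS n M ι D X R ψ b G J c lam δ t e s hψ.1 J0 c0 δ0 δl e2 (e3.trans e1)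
      (by rw [he]; nlinarith) sG b0 dG) i1
  have key : ∀ (K : Set M.X) (f : M.X → ℝ) (a : ℝ), (∀ x ∈ off D, 0 ≤ f x) →
      X.I (K.indicator fun x => f x * Real.exp (-R.wi ψ J c lam δ t e s x)) ≤ ENNReal.ofReal a →
      X.I (K.indicator fun x => f x * (R.dn ψ m c x * Real.exp (-(s * R.ts x)))) ≤
        ENNReal.ofReal (C * Real.exp (δ * t) * a) := fun K f a f0 h => by
    rw [ENNReal.ofReal_mul (by positivity)]
    refine le_trans (m3 _ _ fun x hx => ?_) ((m6 _ _ (by positivity)).trans_le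
      (mul_le_mul_right h _))
    by_cases hK : x ∈ K
    · rw [indicator_of_mem hK, indicator_of_mem hK, mul_left_comm (C * _)]
      exact mul_le_mul_of_nonneg_left (i3 x hx) (f0 x hx)
    · rw [indicator_of_notMem hK, indicator_of_notMem hK, mul_zero]
  refine ⟨s, ⟨s0, s1⟩, _, _, Φ, bt, w5, i2, h1, fun K hK hs => (h2 K hK hs).mono fun j h =>
    ⟨key K _ _ (fun _ _ => normSq_nonneg _) h.1,
      (key K _ _ (h1 j).2.2.1 h.2).trans (ENNReal.ofReal_le_ofReal ?_)⟩⟩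
  rw [le_div_iff₀ (by positivity)] at s3
  have e4 : Real.exp (-(2 * δ * t)) = (Real.exp (δ * t) * Real.exp (δ * t))⁻¹ := by
    rw [← Real.exp_add, ← Real.exp_neg]
    ring_nf
  have e5 : C * Real.exp (δ * t) * (20 * (2 * s) * (A + C * Real.exp (-(2 * δ * t)) / s)) =
      s * (80 * C * Real.exp (δ * t) * A) / 2 + 80 * C ^ 2 / Real.exp (δ * t) / 2 := by
    rw [e4]
    field_simp
    ring
  rw [← div_le_iff₀ x0] at ht
  linarith

end Pool.Agent.Lib.K2
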