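import Pool.Agent.Lib.K2.Blue
import Pool.Agent.Lib.NA.B_EXB

/-! Project k2: the local models. -/

open scoped Classical Topology ContDiff ENNReal Manifold ComplexOrder
open Set MeasureTheory Complex Metric Filter

set_option linter.unusedSectionVars false

noncomputable section

namespace Pool.Agent.Lib.K2

open Pool.Agent.Lib.SV (E)
open Pool.Agent.Lib.HS32 Pool.Agent.Lib.EX Pool.Agent.Lib.EXS Pool.Agent.Lib.ZL Pool.Agent.Lib.NA

namespace EXB

variable {n : ℕ} {M : Mf n} {ι : Type} [Fintype ι] [DecidableEq ι] {D : Ad M ι}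
  {g : ι → ℤ} {k : ι → ℕ} {ex : Set ι}

theorem cont (B : Bl D k ex) {F : Type} [TopologicalSpace F] {f : M.X → F}
    (h : D.On B.W fun d z => ContinuousAt (D.rd f d) z) : ContinuousOn f B.W := fun x hx => by
  obtain ⟨d, hd⟩ := GLU.ex_ch D x
  exact (GLU.cont_rd hd (GLU.on_at h hd hx)).continuousWithinAt

theorem pc (B : Bl D k ex) : ContinuousOn B.p B.W :=
  cont B fun d z hz ho => (B.phol d z hz ho).self_of_nhds.continuousAt

theorem opn (B : Bl D k ex) (r : ℝ) : IsOpen {x ∈ B.W | ‖B.p x‖ < r} :=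
  (pc B).norm.isOpen_inter_preimage B.opn isOpen_Iio

theorem rad (B : Bl D k ex) {K : Set M.X} (hK : IsCompact K) (hs : K ⊆ B.W) :
    ∀ᶠ r in 𝓝[<] (1 : ℝ), K ⊆ {x ∈ B.W | ‖B.p x‖ < r} := by
  rcases K.eq_empty_or_nonempty with rfl | h
  · exact .of_forall fun _ => empty_subset _
  obtain ⟨x, hx, hm⟩ := hK.exists_isMaxOn h ((pc B).mono hs).norm
  filter_upwards [mem_nhdsWithin_of_mem_nhds (Ioi_mem_nhds (B.lt x (hs hx)))] with r hr y hy
    using ⟨hs hy, lt_of_le_of_lt (hm hy) hr⟩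

theorem drop (B : Bl D k ex) (hg : Triv D B.W g) {H : M.X → ℂ} {q : ι → ℤ} {r : ℝ} (hr : r ≤ 1)
    (hq : ∀ i ∉ ex, q i ≤ g i) (hH : MerOn D {x ∈ B.W | ‖B.p x‖ < r} q H) :
    MerOn D {x ∈ B.W | ‖B.p x‖ < r} g H := by
  obtain ⟨σ, v, hv⟩ := hg
  have h1 := EXC.exc_min (EXT.zero B) hr (H := H * σ) (q - g)
    (fun i hi => by simpa [sp] using hq i hi) fun d z hz ho =>
      EXT.mul (hH d z hz ho) (hv d z hz ho.1).1 ((GLU.ev_on B.opn hz ho.1).mono fun y hy hf => by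
        rw [← (hv d y hy.1 hy.2).2.2 hf]
        rfl)
  intro d z hz ho
  obtain ⟨v1, v2, -⟩ := hv d z hz ho.1
  have h2 := EXT.mul (F' := D.rd H d) (K := -g) (h1 d z hz ho) (NA.EXB.hinv v1 v2)
    ((GLU.ev_on B.opn hz ho.1).mono fun y hy hf => by
      obtain ⟨-, w2, w3⟩ := hv d y hy.1 hy.2
      have w4 := MON.xm_ne g hf
      change _ = D.rd H d y * D.rd σ d y * _
      rw [w3 hf, MON.xm_neg]
      field_simp)
  refine EXC.polH_mono (fun i => ?_) h2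
  simp only [Pi.sub_apply, Pi.neg_apply, Pi.zero_apply, sp, if_true, Nat.cast_zero]
  omega

theorem shol (B : Bl D k ex) : D.On B.W fun d z => HolN (D.rd B.σ d) z := fun d z hz ho => by
  have e : D.rd B.σ d =ᶠ[𝓝 z] fun y => B.v d y * xm (D.c d) (fun i => k i) y :=
    (GLU.ev_on B.opn hz ho).mono fun y hy => (B.vhol d y hy.1 hy.2).2.2
  filter_upwards [e.eventuallyEq_nhds, (B.vhol d z hz ho).1,
    (bMON n ι (D.c d)).2.2.2.2.2.2.1 k z] with y a b c using (b.mul c).congr_of_eventuallyEq a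

theorem sne (B : Bl D k ex) {d : D.A} {z : E n} (hz : z ∈ B2 n)
    (ho : (D.e d).symm z ∈ B.W ∩ off D) : D.rd B.σ d z ≠ 0 := by
  have h := ho.2 d ((D.e d).map_target (GLU.mem_tgt d hz))
  rw [(D.e d).right_inv (GLU.mem_tgt d hz)] at h
  rw [(B.vhol d z hz ho.1).2.2]
  exact mul_ne_zero (B.vhol d z hz ho.1).2.1 (MON.xm_ne _ h)

theorem sne' (B : Bl D k ex) {x : M.X} (hx : x ∈ B.W) (ho : x ∈ off D) : B.σ x ≠ 0 := by
  obtain ⟨d, hd⟩ := GLU.ex_ch D x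
  rw [← GLU.rd_e B.σ hd]
  exact sne B (GLU.mem_B2 hd) (by rw [(D.e d).left_inv hd]; exact ⟨hx, ho⟩)

theorem z0 (c : ι → Option (Fin n)) (f : E n → ℂ) (z : E n) :
    ∀ᶠ y in 𝓝 z, Off c y → f y = xm c (-0) y * f y := .of_forall fun y _ => by simp [xm]

theorem m1 (B : Bl D k ex) : MerOn D B.W (-fun i => (k i : ℤ)) B.σ := fun d z hz ho =>
  ⟨_, (B.vhol d z hz ho).1, (GLU.ev_on B.opn hz ho).mono fun y hy _ => by
    rw [(B.vhol d y hy.1 hy.2).2.2, neg_neg, mul_comm]⟩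

theorem m2 (B : Bl D k ex) : MerOn D B.W (fun i => (k i : ℤ)) B.σ⁻¹ := fun d z hz ho =>
  ⟨_, NA.EXB.hinv (B.vhol d z hz ho).1 (B.vhol d z hz ho).2.1,
    (GLU.ev_on B.opn hz ho).mono fun y hy _ => by
      change (D.rd B.σ d y)⁻¹ = _
      rw [(B.vhol d y hy.1 hy.2).2.2, MON.xm_neg, mul_inv, mul_comm]⟩

theorem lg {a b C : ℝ} (ha : 0 < a) (h : a * Real.exp b ≤ C) : Real.log a + b ≤ |C| := by
  have h1 := Real.log_le_sub_one_of_pos (mul_pos ha (Real.exp_pos b))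
  rw [Real.log_mul ha.ne' (Real.exp_pos b).ne', Real.log_exp] at h1
  linarith [le_abs_self C]

theorem nq0 {A : Mat n} (h : A.PosSemidef) (v : E n) : 0 ≤ nq A v :=
  (Complex.le_def.1 (h.dotProduct_mulVec_nonneg v)).1

end EXB

open EXB in
theorem kEXB (hP : ZL.St_PW) (hV : NA.St_VAL) : Sy_EXB := by
  intro n M _ ι _ _ D X R
  obtain ⟨-, -, -, -, ws, wn, wm, wsm, -⟩ := hP n M ι D
  obtain ⟨v1, -, -, -, -, -, -, -, -, v10, -, v12⟩ := hV n M ι D
  have N0 : R.N ≠ 0 := (one_pos.trans_le R.N1).ne'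
  have nb : M.All fun e z => (R.β e z).PosSemidef := fun e he z hz => by
    simpa using R.nn e he z hz
  refine ⟨?_, fun b r => ⟨opn _ r, (R.B b).cpt r⟩, fun b K hK hs => ?_, fun b => ⟨pc _,
    fun d z hz ho => ⟨_, shol _ d z hz ho, z0 _ _ _⟩,
    fun d z hz ho => ⟨shol _ d z hz ho.1, sne _ hz ho⟩, fun y hy hv => ?_, shol _,
    fun r hr => ?_⟩, fun b r p Q F hr hQ hF => drop _ ?_ hr hQ hF, ⟨fun d z hz ho =>
      (R.lsm _ (D.mem d) z (GLU.mem_tgt d hz)).add (wsm _ d z hz ho), ?_⟩,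
    fun s hs => ⟨⟨R.clo.add (R.kae.toClo.smul s), fun e he z hz =>
      Matrix.PosDef.posSemidef_add (nb e he z hz) (Mf.pd_rsmul (R.kae.pos e he z hz) hs)⟩,
      fun d z v => ?_⟩, fun d z hz v => ⟨nq0 (nb _ (D.mem d) z (GLU.mem_tgt d hz)) v,
      nq0 (R.kae.pos _ (D.mem d) z (GLU.mem_tgt d hz)).posSemidef v⟩,
    fun i => if i ∈ R.ex then ⌈X.o i - R.γ i⌉₊ else 0, fun i hi => if_neg hi, fun i => ?_⟩
  · obtain ⟨r, h1, h2⟩ := ((eventually_all.2 fun d => rad (R.B d) (v12 d) fun x hx => by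
      simpa only [(D.e d).left_inv hx.1] using R.sub d _ (GLU.mem_B2 hx.1)).and
        self_mem_nhdsWithin).exists
    exact ⟨r, h2, h1⟩
  · obtain ⟨r, h1, h2⟩ := ((rad (R.B b) hK hs).and self_mem_nhdsWithin).exists
    exact ⟨r, h2, h1⟩
  · obtain ⟨d, hd⟩ := GLU.ex_ch D y
    have h := (v1 _ _ _ _ _ (GLU.on_at (shol (R.B b)) hd hy) (z0 _ _ _)).self_of_nhds.symm.trans
      (hv d hd)
    rw [GLU.rd_e _ hd] at h
    exact ⟨fun c => sne' _ hy c h, h⟩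
  · have hK := (R.B b).cpt r hr
    obtain ⟨C0, h0⟩ := hK.exists_bound_of_continuousOn ((cont (R.B b) (f := R.q b)
      fun d z hz ho => (R.pot b d z hz ho).1.continuousAt).mono fun x hx => hx.1)
    obtain ⟨C1, h1⟩ := v10 _ _ _ _ hK (fun x hx => hx.1) (m1 (R.B b))
    obtain ⟨C2, h2⟩ := v10 _ _ _ _ hK (fun x hx => hx.1) (m2 (R.B b))
    refine ⟨|C0| + |C1| + |C2|, fun x hx => ⟨?_, fun ho => ?_⟩⟩
    · linarith [show |R.q b x| ≤ C0 from h0 x hx, le_abs_self C0, abs_nonneg C1, abs_nonneg C2]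
    · have s0 := normSq_pos.2 (sne' _ hx.1 ho)
      have a1 := lg s0 (h1 x ⟨hx, ho⟩)
      have a2 := h2 x ⟨hx, ho⟩
      rw [NA.sq, Pi.inv_apply, map_inv₀] at a2
      have a3 := lg (inv_pos.2 s0) a2
      have e1 : (fun i => (((R.k i : ℤ) : ℤ) : ℝ)) = R.N • R.γ := funext fun i => by
        simp [Ry.γ, mul_div_cancel₀ _ N0]
      have e2 : (fun i => (((-fun i => (R.k i : ℤ)) i : ℤ) : ℝ)) = -(R.N • R.γ) := by
        rw [← e1]
        funext i
        simp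
      rw [e2, wn, ws] at a1
      rw [e1, ws, Real.log_inv] at a3
      exact abs_le.2 ⟨by linarith [abs_nonneg C0, abs_nonneg C1],
        by linarith [abs_nonneg C0, abs_nonneg C2]⟩
  · have e : R.Q p = p • fun i => (R.k i : ℤ) := funext fun i => by simp [Ry.Q]
    rw [e]
    exact NA.EXB.triv_smul ⟨(R.B b).σ, (R.B b).v, fun d z hz ho =>
      ⟨((R.B b).vhol d z hz ho).1, ((R.B b).vhol d z hz ho).2.1,
        fun _ => ((R.B b).vhol d z hz ho).2.2⟩⟩ p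
  · obtain ⟨C, C0, hC⟩ := R.lsm.exists_bound
    refine ⟨C, C0.le, fun x _ => ⟨by simpa [Ry.ts] using hC x, ?_⟩⟩
    have h1 := wm 0 R.a R.a0 x
    have h2 : lw D 0 x = 0 := by simp [lw]
    linarith [le_abs_self (R.l x), show |R.l x| ≤ C from hC x, show R.ts x = R.l x + lw D R.a x from rfl]
  · simp [fq, nq, Ry.g, Matrix.add_mulVec, Matrix.smul_mulVec]
  · by_cases h : i ∈ R.ex
    · simpa only [if_pos h] using Nat.le_ceil _
    · have := R.eff i h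
      simp only [if_neg h, Nat.cast_zero, Ry.γ]
      linarith

end Pool.Agent.Lib.K2
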