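import Pool.Agent.Lib.K2.Blue
import Pool.Agent.Lib.ZL.B_LFT

/-! Project k2: the extension step. -/

open scoped Classical Topology ContDiff ENNReal
open Set MeasureTheory Complex Metric Filter

set_option linter.unusedVariables false
set_option linter.unusedSectionVars false

noncomputable section

namespace Pool.Agent.Lib.K2

open Pool.Agent.Lib.SV (E nsq)
open Pool.Agent.Lib.HS32 Pool.Agent.Lib.EX Pool.Agent.Lib.EXS Pool.Agent.Lib.ZL Pool.Agent.Lib.NA

namespace EXT

theorem three (a b c : ℂ) : normSq (a + b + c) ≤ 3 * normSq a + (3 * normSq b + 3 * normSq c) := by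
  simp only [normSq_apply, add_re, add_im]
  nlinarith [sq_nonneg (a.re - b.re), sq_nonneg (a.re - c.re), sq_nonneg (b.re - c.re),
    sq_nonneg (a.im - b.im), sq_nonneg (a.im - c.im), sq_nonneg (b.im - c.im)]

variable {n : ℕ} {M : Mf n} {ι : Type} [Fintype ι] [DecidableEq ι] {D : Ad M ι} {X : Cy D}
  (R : Ry X)

theorem dn_pos (ψ : M.X → ℝ) (m : ℕ) (c : ℝ) (x : M.X) : 0 < R.dn ψ m c x :=
  mul_pos (Real.exp_pos _) (Real.exp_pos _)

theorem dn_cont [M.Cpt] (hPW : ZL.St_PW) {ψ : M.X → ℝ} (h : SmO D ψ) (m : ℕ) (c : ℝ) :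
    ContinuousOn (R.dn ψ m c) (off D) := by
  obtain ⟨-, -, -, -, -, -, -, p8, -, p10, -⟩ := hPW n M ι D
  have l := fun a => p10 ℝ _ (p8 a)
  exact (l _).rexp.mul
    (((continuousOn_const.mul ((p10 ℝ _ h).add (l _))).neg.sub (l _)).rexp)

end EXT

open EXT in
theorem kEXT (hPW : ZL.St_PW) (hMU : Sy_MU) (hPOG : Sy_POG) (hINT : Sy_INT) (hEXB : Sy_EXB)
    (hVAL : NA.St_VAL) (hAVP : St_AVP) (hEST : St_EST) (hWLO : St_WLO) (hHQS : St_HQS) :
    St_EXT := by
  intro n M _ ι _ _ D X R ψ m J c c' r₀ r f hψ hJ hMd c0 cc' cm r0r r1 hK hf hI η η0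
  obtain ⟨-, p2, p3, p4, -, -, p7, -, -, p10, -⟩ := hPW n M ι D
  obtain ⟨-, m2, m3, -, -, m6, m7, -⟩ := hMU n M ι D X
  obtain ⟨-, x2, -, -, x5, -, -, -, P, P0, P1⟩ := hEXB n M ι D X R
  obtain ⟨-, -, -, -, v5, v6, -⟩ := hVAL n M ι D
  obtain ⟨dm, d0, G, C, C0, g1, g2, g3, g4, g5⟩ := hAVP n M ι D X R r₀ r (R.Q m) f r0r r1 hK hf
  obtain ⟨C1, C11, hW⟩ := hWLO n M ι D X R ψ m c r hψ.1 c0 r1
  obtain ⟨C2, hC2⟩ := hψ.2
  have C10 : 0 < C1 := one_pos.trans_le C11
  have fin : ∀ (t : ℝ) (g : M.X → ℝ), 0 ≤ t → X.I g ≠ ⊤ → X.I (fun x => t * g x) ≠ ⊤ :=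
    fun t g t0 h => by
      rw [m6 t g t0]
      exact ENNReal.mul_ne_top ENNReal.ofReal_ne_top h
  obtain ⟨s, hs, A, Γ, Φ, bt, e1, e2, e3, e4⟩ := hEST n M ι D X R ψ (fun x => C * R.dif r f x) G m
    J c c' (C * C) hψ hJ hMd c0 cc' cm (mul_nonneg C0 C0) g1 g2 (dm.const_mul C)
    (fun x => mul_nonneg C0 (d0 x)) (fun x hx => by
      rw [mul_assoc]
      refine mul_le_mul_of_nonneg_left ?_ C0
      have := g4 x hx
      rwa [Real.exp_neg, ← div_eq_mul_inv, le_div_iff₀ (Real.exp_pos _)] at this) g3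
    (by simpa only [mul_assoc] using fin C _ C0 hI) (η / (40 * C1)) (by positivity)
  obtain ⟨ph, hph⟩ := hW s hs
  have dc := dn_cont R hPW hψ.1.1 m c
  have dp := dn_pos R ψ m c
  obtain ⟨k, hk⟩ := hHQS n M ι D X R r (C1 * A) (C1 * (η / (40 * C1))) (R.g s) ph (R.dn ψ m c) Γ Φ
    bt r1 (by positivity) (fun b => (hph b).1) dc (fun x _ => dp x)
    (fun b x hx => ((hph b).2 x hx).1) e1 e3 fun K hK1 hK2 => by
      filter_upwards [e4 K hK1 hK2] with j hj
      refine ⟨?_, fun b => ?_⟩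
      · rw [ENNReal.ofReal_mul C10.le]
        refine le_trans (m3 _ _ fun x hx => ?_) ((m6 C1 _ C10.le).trans_le (by gcongr; exact hj.1))
        by_cases h : x ∈ K
        · obtain ⟨d, hd⟩ := p2 x
          have := ((hph d).2 x ⟨⟨(hK d hd).1, (hK d hd).2.trans r0r⟩, hx⟩).2.1
          rw [indicator_of_mem h, indicator_of_mem h, mul_left_comm]
          exact mul_le_mul_of_nonneg_left this (normSq_nonneg _)
        · rw [indicator_of_notMem h, indicator_of_notMem h, mul_zero]
      · rw [ENNReal.ofReal_mul C10.le]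
        refine le_trans (m3 _ _ fun x hx => ?_) ((m6 C1 _ C10.le).trans_le (by gcongr; exact hj.2))
        have b0 := (e3 j).2.2.1 x hx
        by_cases h : x ∈ K ∩ R.Wr b r
        · rw [indicator_of_mem h, indicator_of_mem h.1, mul_left_comm]
          exact mul_le_mul_of_nonneg_left ((hph b).2 x ⟨h.2, hx⟩).2.2 b0
        · rw [indicator_of_notMem h]
          exact mul_nonneg C10.le (indicator_apply_nonneg fun _ =>
            mul_nonneg b0 (mul_nonneg (dp x).le (Real.exp_pos _).le))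
  have i1 : X.I (fun x => R.dif r f x * R.dn ψ m c x) ≠ ⊤ := by
    have := (hINT n M ι D X R.γ ψ C2 R.klt hC2).1 c c'
      (fun x => R.dif r f x * Real.exp (lw D (fun i => R.Q m i) x)) cc'.le
      (fun x => mul_nonneg (d0 x) (Real.exp_pos _).le) (by simpa only [Ry.dn, mul_assoc] using hI)
    simpa only [Ry.dn, mul_assoc] using this
  have key : ∀ b, X.I ((R.Wr b r).indicator fun x => normSq (k b x - f b x) * R.dn ψ m c x) ≠ ⊤ :=
    fun b => by
      have a1 : AEMeasurable (fun x => 3 * (R.dif r f x * R.dn ψ m c x)) X.μ :=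
        (dm.mul (m2 ℝ _ dc)).const_mul 3
      have a2 : AEMeasurable (fun x => 3 * (normSq (G x - Γ x) * R.dn ψ m c x)) X.μ :=
        (m2 ℝ _ ((continuous_normSq.comp_continuousOn ((p10 ℂ _ g1).sub e1)).mul dc)).const_mul 3
      refine ne_top_of_le_ne_top (ENNReal.add_ne_top.2 ⟨fin 3 _ (by norm_num) i1,
        ENNReal.add_ne_top.2 ⟨fin 3 _ (by norm_num) e2, fin 3 _ (by norm_num) (hk b).2.1⟩⟩)
        (le_trans (m3 _ _ fun x hx => ?_) ((m7 _ _ a1).trans (add_le_add le_rfl (m7 _ _ a2))))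
      have q := dp x
      by_cases h : x ∈ R.Wr b r
      · rw [indicator_of_mem h, indicator_of_mem h]
        have t := three (G x - f b x) (-(G x - Γ x)) (-(Γ x - k b x))
        rw [normSq_neg, normSq_neg, show G x - f b x + -(G x - Γ x) + -(Γ x - k b x) =
          k b x - f b x by ring] at t
        have u := g5 b x ⟨h.1, h.2.le⟩
        nlinarith
      · rw [indicator_of_notMem h, indicator_of_notMem h]
        have := d0 x
        have := normSq_nonneg (G x - Γ x)
        positivity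
  refine ⟨k, fun b => ⟨?_, key b, fun b' => ((hk b).2.2 b').trans_eq ?_⟩⟩
  swap
  · congr 1
    field_simp
  have hfb := v5 _ (R.Wr b r) _ _ (fun x hx => hx.1) (hf b)
  have h1 := hPOG n M ι D X (R.Wr b r) (fun i => R.Q m i + P i) (k b - f b) (x2 b r).1
    (fun d z hz hx => by
      have ho : Off (D.c d) z := by
        have hz' : z ∈ (D.e d).target := by rwa [D.tgt]
        have := hx.2 d ((D.e d).map_target hz')
        rwa [(D.e d).right_inv hz'] at this
      filter_upwards [(hk b).1 d z hz hx, LFT.holH (hfb d z hz hx.1) ho] with y h1 h2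
      exact h1.sub h2)
    (ne_top_of_le_ne_top (fin (Real.exp (c * C2)) _ (Real.exp_pos _).le (key b))
      (m3 _ _ fun x hx => by
        by_cases h : x ∈ R.Wr b r
        · rw [indicator_of_mem h, indicator_of_mem h, mul_left_comm]
          refine mul_le_mul_of_nonneg_left ?_ (normSq_nonneg _)
          rw [Ry.dn, om, ← Real.exp_add, ← Real.exp_add, Real.exp_le_exp]
          have l1 := p7 ((fun i => (R.Q m i : ℝ)) - R.γ) (fun i => ((R.Q m i + P i : ℤ) : ℝ) - X.o i)
            (fun i => by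
              have := P1 i
              simp only [Pi.sub_apply]
              push_cast
              linarith) x
          rw [p4] at l1
          have l2 := mul_le_mul_of_nonneg_left (hC2 x hx) c0
          linarith
        · rw [indicator_of_notMem h, indicator_of_notMem h, mul_zero]))
  have h2 := x5 b r m _ _ r1.le (fun i hi => by simp [P0 i hi]) h1
  have h3 := (v6 _ _ _ _ 1 h2 hfb).1
  rwa [one_smul, sub_add_cancel] at h3

end Pool.Agent.Lib.K2
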