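import Pool.Agent.Lib.NA.Blue2
import Pool.Agent.Lib.ZQ.HqO

/-! Project k2: the objects. -/

open scoped Classical Topology ContDiff ENNReal
open Set MeasureTheory Complex Metric Filter

set_option linter.unusedVariables false

noncomputable section

namespace Pool.Agent.Lib.K2

open Pool.Agent.Lib.SV (E nsq)
open Pool.Agent.Lib.HS32 Pool.Agent.Lib.EX Pool.Agent.Lib.EXS Pool.Agent.Lib.ZL Pool.Agent.Lib.NA
open Pool.Agent.Lib.EXS.K32 (lv)

/-- A smooth maximum. -/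
def lsj (J a b : ℝ) : ℝ := Real.log (Real.exp (J * a) + Real.exp (J * b)) / J

variable {n : ℕ} {M : Mf n} {ι : Type} [Fintype ι] [DecidableEq ι] (D : Ad M ι)

/-- The form `T` in a chart. -/
def fq (T : M.Fam (Mat n)) (d : D.A) (z v : E n) : ℝ := nq (T (D.e d) z) v

/-- The `(0,1)` derivative of `G` is bounded by `b` times the form `T`. -/
def Dt (G : M.X → ℂ) (b : M.X → ℝ) (T : M.Fam (Mat n)) : Prop :=
  OA D fun d z => ∀ v, normSq (db (D.rd G d) z v) ≤ D.rd b d z * fq D T d z v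

/-- The measure of a pluricanonical form. -/
structure Cy where
  μ : Measure M.X
  m : ℕ
  l : ι → ℤ
  w : D.A → E n → ℂ
  m0 : 0 < m
  whol : D.All fun d z => DifferentiableAt ℂ (w d) z
  wne : D.All fun d z => w d z ≠ 0
  wcmp : D.Ov fun b d x => w d (D.e d x) = w b (D.e b x) * D.um l b d x * (D.J b d x).det ^ m
  eta : IsEta D l m w μ

variable {D}

namespace Cy

variable (X : Cy D)

/-- The integral of a real function. -/
def I (f : M.X → ℝ) : ℝ≥0∞ := ∫⁻ x, ENNReal.ofReal (f x) ∂X.μ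

/-- The exponents of the measure. -/
def o (i : ι) : ℝ := X.l i / X.m

/-- Integrable near `y`. -/
def Li (f : M.X → ℝ) (y : M.X) : Prop := ∃ O ∈ 𝓝 y, X.I (O.indicator f) ≠ ⊤

/-- The points at which the threshold is at most `c₀`. -/
def Nk (γ : ι → ℝ) (ψ : M.X → ℝ) (c₀ : ℝ) : Set M.X := {y | ∀ c > c₀, ¬ X.Li (om D γ ψ c) y}

/-- A family of smooth potentials on the class `γ` with uniformly small singularities. -/
def Zk (H : M.Fam (Mat n)) (γ : ι → ℝ) (u : ℝ → M.X → ℝ) : Prop :=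
  (∀ e ∈ Ioc (0 : ℝ) 1, M.Sm (u e) ∧ (∀ x, u e x ≤ 0) ∧ OA D fun d z => ∀ v,
    0 ≤ lv (D.rd (fun x => u e x - lw D γ x) d) z v + e * fq D H d z v) ∧
  ∀ s > (0 : ℝ), ∃ A : ℝ, ∃ e₁ ∈ Ioc (0 : ℝ) 1, ∀ e ∈ Ioc 0 e₁,
    X.I (fun x => Real.exp (-(s * u e x) - lw D γ x)) ≤ ENNReal.ofReal A

end Cy

/-- A log resolution of a Kähler klt pair with nef and effective `K + Δ = k / N`. -/
structure Ry (X : Cy D) where
  k : ι → ℕ
  N : ℝ
  ex : Set ι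
  B : D.A → Bl D k ex
  H : M.Fam (Mat n)
  β : M.Fam (Mat n)
  a : ι → ℝ
  l : M.X → ℝ
  q : D.A → M.X → ℝ
  u : ℝ → M.X → ℝ
  N1 : 1 ≤ N
  klt : ∀ i, k i / N - X.o i < 1
  eff : ∀ i ∉ ex, 0 ≤ k i / N - X.o i
  use : ∀ i ∉ ex, k i ≠ 0 ∨ X.l i ≠ 0
  sub : D.All fun b z => (D.e b).symm z ∈ (B b).W
  kae : M.Kae H
  clo : M.Clo β
  nn : M.Le 0 β
  a0 : ∀ i, 0 ≤ a i
  lsm : M.Sm l
  tsu : OA D fun d z => ∀ v,
    fq D H d z v ≤ fq D β d z v + lv (D.rd (fun x => l x + lw D a x) d) z v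
  pot : ∀ b, D.On (B b).W fun d z => ContDiffAt ℝ ∞ (D.rd (q b) d) z ∧
    ∀ v, fq D β d z v ≤ lv (D.rd (q b) d) z v
  dom : ∀ b, ∀ r < (1 : ℝ), ∃ C : ℝ, D.On {x ∈ (B b).W | ‖(B b).p x‖ ≤ r} fun d z =>
    ∀ v, nsq (fderiv ℂ (D.rd (B b).p d) z v) ≤ C * fq D β d z v
  zk : X.Zk H (fun i => k i / N) u

namespace Ry

variable {X : Cy D} (R : Ry X)

/-- The coefficients of `K + Δ`. -/
def γ (i : ι) : ℝ := R.k i / R.N

/-- The poles in degree `p`. -/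
def Q (p : ℕ) (i : ι) : ℤ := p * R.k i

/-- The preimage of an open polydisc. -/
def Wr (b : D.A) (r : ℝ) : Set M.X := {x ∈ (R.B b).W | ‖(R.B b).p x‖ < r}

/-- The preimage of a closed polydisc. -/
def Kr (b : D.A) (r : ℝ) : Set M.X := {x ∈ (R.B b).W | ‖(R.B b).p x‖ ≤ r}

/-- The union of the fibres that meet `S`. -/
def Sat (S : Set M.X) : Set M.X :=
  {y | ∃ b, y ∈ (R.B b).W ∧ ∃ x ∈ (R.B b).W ∩ S, (R.B b).p x = (R.B b).p y}

/-- A weight on `K + Δ`. -/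
def Wt (ψ : M.X → ℝ) : Prop := Psh D ψ ∧ ∃ C, ∀ x ∈ off D, ψ x ≤ C - lw D R.γ x

/-- The weight has analytic singularities of level `J`. -/
def Md (J : ℝ) (ψ : M.X → ℝ) : Prop := ∃ S : M.X → ℝ, M.Sm S ∧ (∀ x, 0 ≤ S x) ∧
  ∀ x ∈ off D, Real.exp (J * (ψ x + lw D R.γ x)) = S x

/-- A section of degree `m` over `V` that is not zero at `x`. -/
structure Sc (V : Set M.X) (m : ℕ) (f : D.A → M.X → ℂ) (b : D.A) (x : M.X) : Prop where
  mer : ∀ d, MerOn D (R.B d).W (R.Q m) (f d)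
  glue : ∀ d d', ∀ y ∈ V ∩ ((R.B d).W ∩ (R.B d').W), Van D (R.Q m) (f d - f d') y
  mem : x ∈ V ∩ (R.B b).W
  ne : ¬ Van D (R.Q m) (f b) x

/-- Non-vanishing on the loci of non-integrability. -/
def Nw : Prop := ∀ (j r : ℕ) (s : Fin r → M.X → ℂ) (c₀ : ℝ), 0 < j →
  (∀ i, Mer D (R.Q j) (s i)) → (∃ i, s i = 1) →
  (∀ c < c₀, X.I (om D R.γ (lps (j * R.N) s) c) ≠ ⊤) → (X.Nk R.γ (lps (j * R.N) s) c₀).Nonempty →
  ∃ m > 0, ∃ f b, ∃ x ∈ X.Nk R.γ (lps (j * R.N) s) c₀,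
    R.Sc (R.Sat (X.Nk R.γ (lps (j * R.N) s) c₀)) m f b x

/-- The size of the differences of local functions. -/
def dif (r : ℝ) (f : D.A → M.X → ℂ) (x : M.X) : ℝ := ∑ b, ∑ b',
  (R.Kr b r ∩ R.Kr b' r).indicator (fun y => normSq (f b y - f b' y)) x

/-- The function with poles along the exceptional components. -/
def ts (x : M.X) : ℝ := R.l x + lw D R.a x

/-- The weight with small singularities. -/
def ro (e : ℝ) (x : M.X) : ℝ := R.u e x - lw D R.γ x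

/-- The Kähler form near the degenerate form. -/
def g (s : ℝ) : M.Fam (Mat n) := R.β + s • R.H

/-- The part of the weight that is not regularised. -/
def w0 (ψ : M.X → ℝ) (J lam δ t e s : ℝ) (x : M.X) : ℝ :=
  (lam - δ) * R.ro e x + δ * lsj J (R.ro e x) (ψ x + t) + s * R.ts x

/-- The regularised weight. -/
def wj (ψ : M.X → ℝ) (J c lam δ t e s : ℝ) (j : ℕ) (x : M.X) : ℝ :=
  c * lsj J (ψ x) (R.ro e x - j) + R.w0 ψ J lam δ t e s x

/-- The weight. -/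
def wi (ψ : M.X → ℝ) (J c lam δ t e s : ℝ) (x : M.X) : ℝ := c * ψ x + R.w0 ψ J lam δ t e s x

/-- The variable of the cut-off. -/
def yy (ψ : M.X → ℝ) (J t e : ℝ) (x : M.X) : ℝ := J * (R.ro e x - (ψ x + t))

/-- The cut-off function. -/
def gm (ψ : M.X → ℝ) (J t e : ℝ) (G : M.X → ℂ) (x : M.X) : ℂ := (ct (R.yy ψ J t e x) : ℂ) * G x

/-- The bound for its derivative. -/
def bb (ψ : M.X → ℝ) (J t e L₁ L₂ : ℝ) (G : M.X → ℂ) (b : M.X → ℝ) (x : M.X) : ℝ :=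
  (if 2 ≤ R.yy ψ J t e x ∧ R.yy ψ J t e x ≤ 3 then L₁ * normSq (G x) else 0) +
    if 2 ≤ R.yy ψ J t e x then L₂ * b x else 0

/-- The density in degree `m`. -/
def dn (ψ : M.X → ℝ) (m : ℕ) (c : ℝ) (x : M.X) : ℝ :=
  Real.exp (lw D (fun i => R.Q m i) x) * om D R.γ ψ c x

end Ry

end Pool.Agent.Lib.K2
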