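import Pool.Agent.Lib.K2.Stmt
import Pool.Agent.Lib.K2.Defs
import Pool.Agent.Lib.NV5.X_CV
import Pool.Agent.Lib.ZE.Blue

/-! Project k2: blueprint of the bridge from the statement to the manifold layer. -/

open scoped Classical Topology ContDiff ENNReal ComplexOrder Matrix Manifold
open Set MeasureTheory Complex Metric Filter

set_option linter.unusedVariables false

noncomputable section

namespace Pool.Agent.Lib.K2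

open Pool.Agent.Lib.SV (E nsq)
open Pool.Agent.Lib.HS32 Pool.Agent.Lib.EX Pool.Agent.Lib.EXS Pool.Agent.Lib.ZL
open Pool.Agent.Lib.EXS.K32 (lv)
open Pool.Agent.Lib.DM (hr Cv)
open Pool.Agent.Lib.DM.XC (sg)
open Pool.Agent.Lib.HS.BBR (mf)

section defs

variable {n : ℕ} {M : Mf n} {ι : Type} [Fintype ι] [DecidableEq ι]

/-- The data of the statement read in an adapted atlas. -/
structure Kb (D : Ad M ι) where
  k : ι → ℕ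
  ex : Set ι
  e : ι → ℕ
  B : D.A → Bl D k ex
  f : ∀ b, E (B b).N → ℝ
  c0 : ℝ
  c1 : c0 < 1
  be : ∀ b, (B b).e = e
  sub : D.All fun b z => (D.e b).symm z ∈ (B b).W ∧ ‖(B b).p ((D.e b).symm z)‖ ≤ c0
  imm : ∀ b, D.On (B b).W fun d z => Off (D.c d) z →
    ∀ y, fderiv ℂ (D.rd (B b).p d) z y = 0 → y = 0
  psh : ∀ b z, ‖z‖ < 1 → ContDiffAt ℝ ∞ (f b) z ∧ ∀ v ≠ 0, 0 < lv (f b) z v
  kae : ∀ b b', D.On ((B b).W ∩ (B b').W) fun d z =>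
    hr (D.rd (f b ∘ (B b).p) d) z = hr (D.rd (f b' ∘ (B b').p) d) z
  nef : ∀ ε > (0 : ℝ), ∃ (φ : M.X → ℝ) (F : ∀ b, E (B b).N → ℝ), ∀ b,
    (∀ z, ‖z‖ < 1 → ContDiffAt ℝ ∞ (F b) z) ∧
    (∀ x ∈ (B b).W, x ∈ off D → φ x = F b ((B b).p x) - Real.log (normSq ((B b).σ x))) ∧
    D.On (B b).W fun d z => ∀ v, 0 ≤ lv (D.rd ((F b + ε • f b) ∘ (B b).p) d) z v

variable {D : Ad M ι}

/-- The pull-back of the Kähler form of the space. -/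
def Kb.Bt (K : Kb D) (β : M.Fam (Mat n)) : Prop := M.Clo β ∧
  ∀ b, D.On (K.B b).W fun d z => β (D.e d) z = hr (D.rd (K.f b ∘ (K.B b).p) d) z

variable (D) in
/-- The numerators of a pluricanonical form. -/
structure Wc (l : ι → ℤ) (m : ℕ) (w : D.A → E n → ℂ) : Prop where
  m0 : 0 < m
  hol : D.All fun d z => DifferentiableAt ℂ (w d) z
  ne : D.All fun d z => w d z ≠ 0
  cmp : D.Ov fun b d x => w d (D.e d x) = w b (D.e b x) * D.um l b d x * (D.J b d x).det ^ m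

end defs

/-- From the statement to the adapted atlas. -/
def Sb_RSK : Prop := ∀ (n N : ℕ) (Y ι I : Type) [TopologicalSpace Y] [ChartedSpace (E n) Y]
  [IsManifold 𝓘(ℂ, E n) ω Y] [CompactSpace Y] [T2Space Y] [ConnectedSpace Y] [Fintype I]
  [DecidableEq I] (m : ℕ) (S : I → Set Y) (ex : Set I) (k : I → ℕ) (l : I → ℤ) (η : Y → ℂ)
  (W : ι → Set Y) (σ : ι → Y → ℂ) (g : ι → ι → Y → ℂ) (p : ι → Y → E N) (f : ι → E N → ℝ),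
  0 < m → KRes n m S ex k l η W σ g p f → NefOn n W g p f → LogRes n m S ex k l η W σ g ∧
  ∃ (D : Ad (mf n Y) I) (K : Kb D) (w : D.A → E n → ℂ) (α : D.A → ι), D.Fit S ∧ Wc D l m w ∧
    K.k = k ∧ K.ex = ex ∧ (∀ b, (K.B b).W = W (α b) ∧
      ∀ x y : Y, (K.B b).p x = (K.B b).p y ↔ p (α b) x = p (α b) y) ∧
    ∀ a, ∃ v : D.A → E n → ℂ, D.On (W a) fun d z =>
      HolN (v d) z ∧ v d z ≠ 0 ∧ D.rd (σ a) d z = v d z * xm (D.c d) (fun i => k i) z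

/-- The chain rule. -/
def Sb_CHR : Prop := ∀ (n N : ℕ) (P : E n → E N) (u : E N → ℝ) (z : E n), HolN P z →
  ContDiffAt ℝ ∞ u (P z) → ContDiffAt ℝ ∞ (u ∘ P) z ∧ ∀ v,
    lv (u ∘ P) z v = lv u (P z) (fderiv ℂ P z v) ∧
    db (fun y => (u (P y) : ℂ)) z v = db (fun y => (u y : ℂ)) (P z) (fderiv ℂ P z v)

/-- The form exists, is semi-positive, degenerate on the contracted components and positive off
the divisor. -/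
def Sb_BET : Prop := ∀ (n : ℕ) (M : Mf n) [M.Cpt] (ι : Type) [Fintype ι] [DecidableEq ι]
  (D : Ad M ι) (K : Kb D), (∃ β, K.Bt β) ∧ ∀ β, K.Bt β → M.Le 0 β ∧ DX.Dg D K.ex β ∧
    (OA D fun d z => (β (D.e d) z).PosDef) ∧ ∀ H, M.Met H → 0 < ∫ x, M.dq H β x ∂M.mu H

/-- Functions that come from the polydisc. -/
def Sb_PUL : Prop := ∀ (n : ℕ) (M : Mf n) [M.Cpt] (ι : Type) [Fintype ι] [DecidableEq ι]
  (D : Ad M ι) (K : Kb D) (β : M.Fam (Mat n)) (b : D.A) (u : E (K.B b).N → ℝ) (ρ : ℝ), K.Bt β →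
  ρ < 1 → (∀ z, ‖z‖ < 1 → ContDiffAt ℝ ∞ u z) → ∃ C ≥ (0 : ℝ), D.On (K.B b).W fun d z =>
    ContDiffAt ℝ ∞ (D.rd (u ∘ (K.B b).p) d) z ∧ (‖D.rd (K.B b).p d z‖ ≤ ρ → ∀ v,
      |lv (D.rd (u ∘ (K.B b).p) d) z v| ≤ C * nq (β (D.e d) z) v ∧
      normSq (db (fun y => ((D.rd (u ∘ (K.B b).p) d y : ℝ) : ℂ)) z v) ≤ C * nq (β (D.e d) z) v ∧
      nsq (fderiv ℂ (D.rd (K.B b).p d) z v) ≤ C * nq (β (D.e d) z) v)

/-- Cut-off functions that come from the polydiscs. -/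
def Sb_CUT : Prop := ∀ (n : ℕ) (M : Mf n) [M.Cpt] (ι : Type) [Fintype ι] [DecidableEq ι]
  (D : Ad M ι) (K : Kb D) (β : M.Fam (Mat n)) (ρ : ℝ), K.Bt β → K.c0 < ρ →
  ∃ (θ : D.A → M.X → ℝ) (C : ℝ), 0 ≤ C ∧ (∀ x, ∃ b, θ b x = 1) ∧ ∀ b, M.Sm (θ b) ∧
    (∀ x, 0 ≤ θ b x ∧ θ b x ≤ 1 ∧ (θ b x ≠ 0 → x ∈ (K.B b).W ∧ ‖(K.B b).p x‖ < ρ) ∧
      (x ∈ (K.B b).W → ‖(K.B b).p x‖ ≤ K.c0 → θ b x = 1)) ∧
    D.All fun d z => ∀ v, |lv (D.rd (θ b) d) z v| ≤ C * nq (β (D.e d) z) v ∧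
      normSq (db (fun y => ((D.rd (θ b) d y : ℝ) : ℂ)) z v) ≤ C * nq (β (D.e d) z) v

/-- Freezing of coefficients. -/
def Sb_FRZ : Prop := ∀ (n : ℕ) (κ : Type) [Fintype κ] (θ s : κ → E n → ℝ) (z v : E n),
  (∀ a, ContDiffAt ℝ ∞ (θ a) z ∧ ContDiffAt ℝ ∞ (s a) z ∧ lv (θ a) z v = 0 ∧
    db (fun y => (θ a y : ℂ)) z v = 0) → 0 < ∑ a, θ a z * s a z →
  lv (fun y => Real.log (∑ a, θ a y * s a y)) z v = lv (fun y => Real.log (∑ a, θ a z * s a y)) z v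

/-- A form that is positive on the kernel of a semi-positive form. -/
def Sb_POS : Prop := ∀ (n : ℕ) (M : Mf n) [M.Cpt] (S : Set M.Ch) (β T : M.Fam (Mat n)), M.Sub S →
  M.Form β → M.Form T → M.Le 0 β →
  (M.AllOn S fun e z => ∀ v ≠ 0, nq (β e z) v = 0 → 0 < nq (T e z) v) →
  ∃ A > (0 : ℝ), M.Met (A • β + T)

/-- The Kähler metric and the function of Tsuji. -/
def Sb_TSU : Prop := ∀ (n : ℕ) (M : Mf n) [M.Cpt] (ι : Type) [Fintype ι] [DecidableEq ι]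
  (D : Ad M ι) (K : Kb D) (β : M.Fam (Mat n)), K.Bt β →
  ∃ (A : ℝ) (T : M.Fam (Mat n)) (u : M.X → ℝ), 0 < A ∧ Cv D (fun i => -K.e i) T u ∧
    M.Kae (A • β + T)

/-- The norms of the components. -/
def Sb_SGX : Prop := ∀ (n : ℕ) (M : Mf n) [M.Cpt] (ι : Type) [Fintype ι] [DecidableEq ι]
  (D : Ad M ι) (i : ι), ∃ Θ, Cv D (Pi.single i 1) Θ (fun x => -Real.log (sg D i x)) ∧
    DX.Sg M Θ (sg D i)

/-- The degree of a contracted component tends to zero. -/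
def Sb_ORK : Prop := ∀ (n : ℕ) (M : Mf n) [M.Cpt] (ι : Type) [Fintype ι] [DecidableEq ι]
  (D : Ad M ι) (H β Θ : M.Fam (Mat n)) (i : ι), M.Kae H → M.Clo β → M.Le 0 β → DX.Dg D {i} β →
  Cv D (Pi.single i 1) Θ (fun x => -Real.log (sg D i x)) → ∀ η > (0 : ℝ),
  ∀ᶠ ε in 𝓝[>] (0 : ℝ), ∫ x, M.tr (β + ε • H) Θ x ∂M.mu (β + ε • H) ≤ η

/-- The integrals of a klt boundary. -/
def Sb_KLI : Prop := ∀ (n : ℕ) (M : Mf n) [M.Cpt] (ι : Type) [Fintype ι] [DecidableEq ι]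
  (D : Ad M ι) (H : M.Fam (Mat n)) (κ : ι → ℝ), M.Met H → (∀ i, -1 < κ i) →
  ∫⁻ x, ENNReal.ofReal (Real.exp (lw D κ x)) ∂M.mu H ≠ ⊤ ∧
  ∃ q δ C : ℝ, 1 < q ∧ 0 < δ ∧ ∀ d ∈ Ioc (0 : ℝ) 1,
    ∫ x, Real.exp (q * ∑ i, κ i * DX.fl (sg D i) d x) ∂M.mu H ≤ C ∧
    ∫ x, Real.exp (-(δ * ∑ i, κ i * DX.fl (sg D i) d x)) ∂M.mu H ≤ C

/-- The canonical class and the measure. -/
def Sb_CAN : Prop := ∀ (n : ℕ) (M : Mf n) [M.Cpt] (ι : Type) [Fintype ι] [DecidableEq ι]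
  (D : Ad M ι) (H : M.Fam (Mat n)) (l : ι → ℤ) (m : ℕ) (w : D.A → E n → ℂ), M.Met H →
  Wc D l m w → ∃ κ : M.X → ℝ, Cv D (fun i => l i / m) (-M.ric H) κ ∧ (∃ μ, IsEta D l m w μ) ∧
    ∀ μ, IsEta D l m w μ → ∀ F : M.X → ℝ≥0∞,
      ∫⁻ x, F x ∂μ = ∫⁻ x, ENNReal.ofReal (Real.exp (-κ x)) * F x ∂M.mu H

/-- The class is nef on the space. -/
def Sb_NFW : Prop := ∀ (n : ℕ) (M : Mf n) [M.Cpt] (ι : Type) [Fintype ι] [DecidableEq ι]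
  (D : Ad M ι) (K : Kb D) (β T : M.Fam (Mat n)) (φ : M.X → ℝ) (N : ℝ), K.Bt β → 0 < N →
  Cv D (fun i => K.k i / N) T φ → ∀ e > (0 : ℝ), ∃ (ψ : M.X → ℝ) (C : ℝ), 0 ≤ C ∧ M.Sm ψ ∧
    M.Le 0 (T + e • β + M.hs ψ) ∧ M.Le (T + e • β + M.hs ψ) (C • β)

/-- Weights with uniformly small singularities. -/
def Sb_ZED : Prop := ∀ (n : ℕ) (M : Mf n) [M.Cpt] (ι : Type) [Fintype ι] [DecidableEq ι]
  (D : Ad M ι) (K : Kb D) (β H : M.Fam (Mat n)) (l : ι → ℤ) (m : ℕ) (w : D.A → E n → ℂ)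
  (μ : Measure M.X) (N : ℝ), K.Bt β → M.Kae H → Wc D l m w → IsEta D l m w μ → 0 < N →
  (∀ i, (K.k i / N - l i / m : ℝ) < 1) → (∀ i ∉ K.ex, (0 : ℝ) ≤ K.k i / N - l i / m) →
  ∃ (T : M.Fam (Mat n)) (a : ℝ → M.X → ℝ), Cv D (fun i => K.k i / N) T
      (fun x => -lw D (fun i => K.k i / N) x) ∧
    (∀ e ∈ Ioc (0 : ℝ) 1, M.Sm (a e) ∧ (∀ x, a e x ≤ 0) ∧ M.Le 0 (T + e • H + M.hs (a e))) ∧
    ∀ s > (0 : ℝ), ∃ A : ℝ, ∀ e ∈ Ioc (0 : ℝ) 1, ∫⁻ x, ENNReal.ofReal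
      (Real.exp (-(s * a e x) - lw D (fun i => K.k i / N) x)) ∂μ ≤ ENNReal.ofReal A

/-- The context of the core. -/
def Sb_RYK : Prop := ∀ (n : ℕ) (M : Mf n) [M.Cpt] (ι : Type) [Fintype ι] [DecidableEq ι]
  (D : Ad M ι) (K : Kb D) (l : ι → ℤ) (m : ℕ) (w : D.A → E n → ℂ) (N : ℝ), Wc D l m w → 1 ≤ N →
  (∀ i, (K.k i / N - l i / m : ℝ) < 1) → (∀ i ∉ K.ex, (0 : ℝ) ≤ K.k i / N - l i / m) →
  (∀ i ∉ K.ex, K.k i ≠ 0 ∨ l i ≠ 0) → ∃ (X : Cy D) (R : Ry X), X.l = l ∧ X.m = m ∧ R.k = K.k ∧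
    R.N = N ∧ ∀ b, (R.B b).W = (K.B b).W ∧
      ∀ x y, (R.B b).p x = (R.B b).p y ↔ (K.B b).p x = (K.B b).p y

end Pool.Agent.Lib.K2
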