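import Pool.Agent.Lib.K2.Blue
import Pool.Agent.Lib.K2.Br

/-! Project k2, row `H6`: the target statement from the rows. -/

open scoped Classical Topology ContDiff ENNReal Manifold
open Set MeasureTheory Complex Metric Filter

noncomputable section

namespace Pool.Agent.Lib.K2

open Pool.Agent.Lib.SV (E)
open Pool.Agent.Lib.HS32 Pool.Agent.Lib.EX Pool.Agent.Lib.EXS Pool.Agent.Lib.ZL Pool.Agent.Lib.NA
open Pool.Agent.Lib.HS.BBR (mf)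

/-- Row `H6`. -/
theorem kH6 (hR : Sb_RSK) (hY : Sb_RYK) (hBR4 : NA.St_BR4) (hBR5 : Sy_BR5) (hNAK : St_NAK) :
    St_H6 := by
  intro n N Y ι I _ _ _ _ _ _ _ m M S ex k l η W σ g p f hm hM hK hc hn
  refine ⟨fun ⟨j, hj, h⟩ _ _ _ _ V _ _ _ _ ⟨y, hy⟩ => ?_, fun h => ?_⟩
  · obtain ⟨a, ha⟩ := hK.cov y
    obtain ⟨u, u1, u2⟩ := h a y ⟨ha, mem_univ _⟩
    exact ⟨j, hj, u, ⟨u1.hol, fun a b x hx => u1.glue a b x ⟨hx.1, mem_univ _⟩⟩, a, y, ⟨ha, hy⟩, u2⟩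
  obtain ⟨hL, D, K, w, α, hF, hw, rfl, rfl, b1, hv⟩ := hR n N Y ι I m S ex k l η W σ g p f hm hK hn
  have : (mf n Y).Cpt := ⟨‹_›, ‹_›, ‹_›⟩
  obtain ⟨X, R, x1, x2, r1, r2, r3⟩ := hY n _ I D K l m w M hw (by exact_mod_cast hM) hc.lt hc.ge
    hK.sup
  have ho : ∀ i, X.o i = (l i / m : ℝ) := fun i => by rw [Cy.o, x1, x2]
  obtain ⟨-, -, a3, a4⟩ := hBR4 n Y ι I m S K.ex K.k l η W σ g D hL hF hv
  have hQ : ∀ j : ℕ, R.Q j = fun i => (j * K.k i : ℤ) := fun j => funext fun i => by rw [Ry.Q, r1]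
  have hγ : R.γ = fun i => (K.k i / M : ℝ) := funext fun i => by rw [Ry.γ, r1, r2]
  have hW : ∀ b, (R.B b).W = W (α b) := fun b => (r3 b).1.trans (b1 b).1
  have hS : ∀ V : Set Y, R.Sat V ⊆ Sat W p V := fun V y ⟨b, y1, x, x1, x2⟩ =>
    ⟨α b, (hW b).le y1, x, ⟨(hW b).le x1.1, x1.2⟩, ((b1 b).2 x y).1 (((r3 b).2 x y).1 x2)⟩
  obtain ⟨j, hj, hg⟩ := hNAK n _ I D X R fun j q s c₀ hj hs h1 hfin hne => by
    rw [hγ, r2] at hfin hne ⊢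
    obtain ⟨s1, t1, t2, t3⟩ := hBR5 n Y ι I m M S K.ex K.k l η W σ g D X hL hF hv hM ho j q s hj
      (fun b => hQ j ▸ hs b) h1
    have hpos : (0 : ℝ) < j * M := by positivity
    obtain ⟨e, he, u, hu, a, y, hy, hne⟩ := h j q s1 (c₀ / (j * M))
      (X.Nk (fun i => K.k i / M) (lps (j * M) s) c₀) t1 t2
      (fun c' hc' y => (t3 c' y).2 ⟨univ, univ_mem, by
        rw [indicator_univ]
        exact hfin _ ((lt_div_iff₀ hpos).1 hc')⟩)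
      (Set.ext fun y => ⟨fun hy c' hc' hi => hy _ ((div_lt_iff₀ hpos).1 hc') ((t3 c' y).1 hi),
        fun hy c' hc' hi => hy (c' / (j * M)) (div_lt_div_of_pos_right hc' hpos) ((t3 _ y).2 (by
          rw [div_mul_cancel₀ _ hpos.ne']
          exact hi))⟩) hne
    obtain ⟨c1, c2, c3⟩ := a3 e (R.Sat (X.Nk (fun i => K.k i / M) (lps (j * M) s) c₀)) u
      ⟨hu.hol, fun a b x hx => hu.glue a b x ⟨hx.1, hS _ hx.2⟩⟩
    obtain ⟨b, hb⟩ := GLU.ex_ch D y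
    have hy' : y ∈ (R.B b).W := by
      have q := R.sub b _ (GLU.mem_B2 hb)
      beta_reduce at q
      rwa [(D.e b).left_inv hb] at q
    have hy2 : y ∈ R.Sat (X.Nk (fun i => K.k i / M) (lps (j * M) s) c₀) :=
      ⟨b, hy', y, ⟨hy', hy.2⟩, rfl⟩
    refine ⟨e, he, fun d x => u (α d) x / σ (α d) x ^ e, b, y, hy.2, fun d => ?_, fun d d' => ?_,
      ⟨hy2, hy'⟩, ?_⟩
    · rw [hQ, hW]
      exact c1 _
    · rw [hQ, hW, hW]
      exact c2 _ _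
    · rw [hQ]
      exact c3 a _ y ⟨hy2, hy.1, (hW b).le hy'⟩ hne
  exact ⟨j, hj, a4 j (hQ j ▸ hg)⟩

end Pool.Agent.Lib.K2
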