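import Pool.Agent.Lib.K2.Blue
import Pool.Agent.Lib.K65.HQS

/-! Project k2, rows HQW and HQS. -/

open scoped Classical Topology ContDiff ENNReal
open Set MeasureTheory Complex Metric Filter

noncomputable section

namespace Pool.Agent.Lib.K2

open Pool.Agent.Lib.SV (E)
open Pool.Agent.Lib.HS32 Pool.Agent.Lib.EX Pool.Agent.Lib.EXS Pool.Agent.Lib.ZL Pool.Agent.Lib.K65

namespace HQS

variable {n : ℕ} {M : Mf n} {ι : Type} [Fintype ι] [DecidableEq ι] {D : Ad M ι} {X : Cy D}

theorem et [M.Cpt] (R : Ry X) (b : D.A) {r : ℝ} (hr : r < 1) :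
    Nonempty (Et D X.μ (R.Wr b r ∩ off D)) :=
  ex_et (R.B b) X.m0 X.whol X.wne X.wcmp (fun i => by
    by_cases h : i ∈ R.ex
    · exact Or.inr (Or.inl h)
    refine (R.k i).eq_zero_or_pos.symm.imp_right fun h0 => Or.inr ?_
    have h1 := R.eff i h
    rw [h0, Nat.cast_zero, zero_div, zero_sub, neg_nonneg, Cy.o,
      div_le_iff₀ (Nat.cast_pos.2 X.m0), zero_mul] at h1
    exact lt_of_le_of_ne (by exact_mod_cast h1) ((R.use i h).resolve_left fun h => h h0))
    X.eta hr.le

theorem res (X : Cy D) (S : Set M.X) : X.μ.restrict S = X.μ.restrict (S ∩ off D) :=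
  Measure.restrict_congr_set ((eta_off X.eta).mono fun _ hx =>
    propext ⟨fun h => ⟨h, hx⟩, fun h => h.1⟩)

theorem ind (X : Cy D) {S : Set M.X} (hS : MeasurableSet S) (f : M.X → ℝ) :
    X.I (S.indicator f) = ∫⁻ x in S, ENNReal.ofReal (f x) ∂X.μ := by
  rw [← lintegral_indicator hS]
  exact lintegral_congr fun x => by by_cases h : x ∈ S <;> simp [h]

end HQS

open HQS in
theorem kHQW : St_HQW := by
  intro n M _ ι _ _ D X R b r hr ph β Γ hm h
  obtain ⟨T⟩ := et R b hr
  rw [res X] at hm ⊢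
  exact T.hor hm h

open HQS in
theorem kHQS : St_HQS := by
  intro n M _ ι _ _ D X R r A η T ph ϖ Γ Φ bt hr η0 h1 h2 h3 h4 h5 h6 h7
  have oW : ∀ b, IsOpen (R.Wr b r) := fun b => WB_open (R.B b) r
  have oD := ZQ.off_open D
  have e : ∀ x ∈ off D, Real.exp (-(-Real.log (ϖ x))) = ϖ x := fun x hx => by
    rw [neg_neg, Real.exp_log (h3 x hx)]
  have cv : ∀ S : Set M.X, MeasurableSet S → S ⊆ off D → ∀ f : M.X → ℝ,
      ∫⁻ x in S, ENNReal.ofReal (f x * Real.exp (-(-Real.log (ϖ x)))) ∂X.μ =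
        ∫⁻ x in S, ENNReal.ofReal (f x * ϖ x) ∂X.μ := fun S h hS f =>
    setLIntegral_congr_fun h fun x hx => by rw [e x (hS hx)]
  obtain ⟨k, k1, k2, k3⟩ := hqs (fun b => (et R b hr).some) (ph := ph)
    (wt := fun x => -Real.log (ϖ x)) (η := ENNReal.ofReal η) (A := ENNReal.ofReal A)
    ENNReal.ofReal_ne_top ENNReal.ofReal_ne_top (fun b => h5.mono inter_subset_right)
    (fun b => ((h2.log fun x hx => (h3 x hx).ne').neg).mono inter_subset_right)
    (fun b x hx => le_neg.1 ((Real.log_le_iff_le_exp (h3 x hx.2)).2 (h4 b x hx))) fun K hK => by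
      obtain ⟨j, hj⟩ := (eventually_all.2 fun b => h7 (K b) (hK b).1
        fun x hx => ((hK b).2 hx).2).exists
      obtain ⟨a1, a2, a3, a4⟩ := h6 j
      refine ⟨Φ j, fun _ => bt j, fun b => ⟨(a2.mono inter_subset_right).aemeasurable
        ((oW b).inter oD).measurableSet, fun d z hz hw => ?_, ?_, ?_⟩⟩
      · obtain ⟨b1, b2⟩ := h1 b d z hz hw
        exact ⟨b1, oa_iff.1 a1 d z hz hw.2, fun v => (b2 v).1.trans (b2 v).2, a3 _ hw.2, fun v =>
          (oa_iff.1 a4 d z hz hw.2 v).trans (mul_le_mul_of_nonneg_left (b2 v).2 (a3 _ hw.2))⟩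
      · have := (hj b).2 b
        rwa [inter_eq_left.2 fun x hx => ((hK b).2 hx).1, ind X (hK b).1.measurableSet] at this
      · have := (hj b).1
        rw [ind X (hK b).1.measurableSet] at this
        rw [cv _ (hK b).1.measurableSet fun x hx => ((hK b).2 hx).2]
        exact (lintegral_congr fun x => by rw [← normSq_neg, neg_sub]).trans_le this
  refine ⟨k, fun b => ⟨k1 b, ?_, fun c => ?_⟩⟩
  · rw [ind X (oW b).measurableSet, res X, ← cv _ ((oW b).inter oD).measurableSet
      inter_subset_right]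
    exact ne_top_of_le_ne_top (ENNReal.add_ne_top.2
      ⟨ENNReal.mul_ne_top ENNReal.ofNat_ne_top ENNReal.ofReal_ne_top,
        ENNReal.mul_ne_top ENNReal.ofNat_ne_top ENNReal.ofReal_ne_top⟩) (k2 b)
  · rw [ind X ((oW b).inter (oW c)).measurableSet, res X, ← cv _ (((oW b).inter
      (oW c)).inter oD).measurableSet inter_subset_right, inter_inter_distrib_right,
      ENNReal.ofReal_mul (by norm_num), ENNReal.ofReal_ofNat]
    exact k3 b c

end Pool.Agent.Lib.K2
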