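import Pool.Agent.Lib.K2.Blue
import Pool.Agent.Lib.NA.B_IDL

/-! Project k2, row IDL: functions that vanish on the zeros of integrable functions. -/

open scoped Classical Topology ContDiff ENNReal
open Set MeasureTheory Complex Metric Filter

set_option linter.unusedSectionVars false

noncomputable section

namespace Pool.Agent.Lib.K2

open Pool.Agent.Lib.SV (E)
open Pool.Agent.Lib.HS32 Pool.Agent.Lib.EX Pool.Agent.Lib.EXS Pool.Agent.Lib.ZL Pool.Agent.Lib.NA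

namespace IDL

variable {n : ℕ} {M : Mf n} [M.Cpt] {ι : Type} [Fintype ι] [DecidableEq ι] {D : Ad M ι}

/-- The inequality of Łojasiewicz near a point. -/
theorem loc (hW : St_PW) (hV : NA.St_VAL) (hL : NA.St_LOJ1) {P Q : ι → ℤ} {r : ℕ}
    {G : Fin r → M.X → ℂ} {W : Set M.X} {h : M.X → ℂ} (hG : ∀ i, MerOn D W Q (G i))
    (hO : IsOpen W) (hh : MerOn D W P h) (hv : ∀ y ∈ W, (∀ i, Van D Q (G i) y) → Van D P h y)
    {y : M.X} (hy : y ∈ W) : ∃ (N : ℕ) (A : ℝ), 0 ≤ A ∧ ∀ᶠ x in 𝓝 y, x ∈ off D →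
      NA.sq D P h x ^ N ≤ A * ∑ i, NA.sq D Q (G i) x := by
  obtain ⟨d, hd, h1⟩ := (hW n M ι D).2.1 y
  obtain ⟨-, v2, v3, -⟩ := hV n M ι D
  obtain ⟨N, C, hN⟩ := hL n r (fun i => val (D.c d) Q (D.rd (G i) d)) (val (D.c d) P (D.rd h d))
    (D.e d y) (fun i => (v2 _ Q _ _ (GLU.on_at (hG i) hd hy)).1)
    (v2 _ P _ _ (GLU.on_at hh hd hy)).1 (by
      filter_upwards [GLU.ev_on (d := d) hO (GLU.mem_B2 hd) (by rwa [(D.e d).left_inv hd])]
        with w hw k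
      have := hv _ hw.2 (fun i => v3 W Q (G i) (hG i) _ hw.2 d (GLU.mem_src d hw.1)
        (by rw [GLU.rinv d hw.1]; exact k i)) d (GLU.mem_src d hw.1)
      rwa [GLU.rinv d hw.1] at this)
  obtain ⟨A, A0, hA⟩ := NA.IDL.cmp hW hV hh hd h1 hy
  choose B B0 hB using fun i => NA.IDL.cmp hW hV (hG i) hd h1 hy
  have S0 : 0 ≤ ∑ i, B i := Finset.sum_nonneg fun i _ => B0 i
  refine ⟨N, A ^ N * (C ^ 2 * (r * ∑ i, B i)), by positivity, ?_⟩
  filter_upwards [((D.e d).continuousAt hd).eventually (hN.and (hA.and (eventually_all.2 hB))),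
    (D.e d).open_source.mem_nhds hd] with x ⟨a, b, c⟩ hx ho
  have o := ho d hx
  rw [(D.e d).left_inv hx] at b c
  have a1 : normSq (val (D.c d) P (D.rd h d) (D.e d x)) ^ N ≤
      C ^ 2 * (∑ i, ‖val (D.c d) Q (D.rd (G i) d) (D.e d x)‖) ^ 2 := by
    rw [normSq_eq_norm_sq, ← pow_mul, mul_comm 2 N, pow_mul, ← mul_pow]
    exact pow_le_pow_left₀ (by positivity) a 2
  have a2 : (∑ i, ‖val (D.c d) Q (D.rd (G i) d) (D.e d x)‖) ^ 2 ≤
      r * ((∑ i, B i) * ∑ i, NA.sq D Q (G i) x) := by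
    refine (sq_sum_le_card_mul_sum_sq).trans ?_
    rw [Finset.card_univ, Fintype.card_fin, Finset.mul_sum Finset.univ (fun i => NA.sq D Q (G i) x)]
    refine mul_le_mul_of_nonneg_left (Finset.sum_le_sum fun i _ => ?_) r.cast_nonneg
    rw [← normSq_eq_norm_sq]
    exact (c i o).2.trans (mul_le_mul_of_nonneg_right
      (Finset.single_le_sum (fun i _ => B0 i) (Finset.mem_univ i)) (NA.ONE.sq_nn _ _ _))
  calc NA.sq D P h x ^ N ≤ (A * normSq (val (D.c d) P (D.rd h d) (D.e d x))) ^ N :=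
        pow_le_pow_left₀ (NA.ONE.sq_nn _ _ _) (b o).1 N
    _ ≤ A ^ N * (C ^ 2 * (r * ((∑ i, B i) * ∑ i, NA.sq D Q (G i) x))) := by
        rw [mul_pow]
        exact mul_le_mul_of_nonneg_left (a1.trans (mul_le_mul_of_nonneg_left a2 (sq_nonneg C)))
          (pow_nonneg A0 N)
    _ = _ := by ring

theorem meas (hW : St_PW) (hU : Sy_MU) (X : Cy D) {W : Set M.X} (hO : IsOpen W) {g : M.X → ℝ}
    (hg : ContinuousOn g (W ∩ off D)) : AEMeasurable (W.indicator g) X.μ := by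
  have m := (hO.inter (hW n M ι D).1).measurableSet
  refine ((aemeasurable_indicator_iff m).2 (hg.aemeasurable m)).congr ?_
  filter_upwards [(hU n M ι D X).1] with x hx
  by_cases k : x ∈ W
  · rw [indicator_of_mem k, indicator_of_mem (mem_inter k hx)]
  · rw [indicator_of_notMem k, indicator_of_notMem fun h => k h.1]

theorem i_sum (hU : Sy_MU) (X : Cy D) {τ : Type} (S : Finset τ) {f : τ → M.X → ℝ}
    (hf : ∀ a, AEMeasurable (f a) X.μ) (h : ∀ a, X.I (f a) ≠ ⊤) :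
    X.I (fun x => ∑ a ∈ S, f a x) ≠ ⊤ := by
  induction S using Finset.induction_on with
  | empty => simp [Cy.I]
  | insert a S ha ih =>
    simp only [Finset.sum_insert ha]
    exact ne_top_of_le_ne_top (ENNReal.add_ne_top.2 ⟨h a, ih⟩)
      ((hU n M ι D X).2.2.2.2.2.2.1 _ _ (hf a))

end IDL

theorem kIDL (hW : ZL.St_PW) (hU : Sy_MU) (hV : NA.St_VAL) (hL : NA.St_LOJ1) : St_IDL := by
  intro n M _ ι _ _ D X γ ψ c₀ c₁ P Q r G W h y hψ hc h0 hO hy hG hI hh hv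
  obtain ⟨-, -, -, -, v5, -, -, -, -, v10, -⟩ := hV n M ι D
  obtain ⟨-, -, u3, -, -, u6, u7, -⟩ := hU n M ι D X
  obtain ⟨V, hV', oV, yV⟩ := eventually_nhds_iff.1 hv
  obtain ⟨K, hK, yK, hKW⟩ := exists_compact_subset (hO.inter oV) ⟨hy, yV⟩
  obtain ⟨B, hB⟩ := v10 W K P h hK (fun x hx => (hKW hx).1) hh
  obtain ⟨N, A, N1, A0, hA⟩ := NA.IDL.glob hK (NA.ONE.sq_nn P h)
    (fun x => Finset.sum_nonneg fun i _ => NA.ONE.sq_nn Q (G i) x) hB
    fun y hy => IDL.loc hW hV hL (fun i => v5 W _ Q _ inter_subset_left (hG i)) (hO.inter oV)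
      (v5 W _ P _ inter_subset_left hh) (fun x hx => hV' x hx.2) (hKW hy)
  have N0 : (1 : ℝ) ≤ N := by exact_mod_cast N1
  have t0 : (0 : ℝ) < (N : ℝ)⁻¹ := by positivity
  have t1 : (N : ℝ)⁻¹ ≤ 1 := inv_le_one_of_one_le₀ N0
  obtain ⟨c, c1, c2⟩ := h0 ((N : ℝ)⁻¹ * (c₁ - c₀)) (mul_pos t0 (sub_pos.2 hc))
  refine ⟨(N : ℝ)⁻¹ * c₁ + (1 - (N : ℝ)⁻¹) * c, ?_, K, mem_interior_iff_mem_nhds.1 yK, ?_⟩
  · nlinarith [mul_nonneg (sub_nonneg.2 t1) (sub_pos.2 c1).le, mul_pos (mul_pos t0 t0) (sub_pos.2 hc)]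
  have m : ∀ i, AEMeasurable (W.indicator fun x => NA.sq D Q (G i) x * om D γ ψ c₁ x) X.μ :=
    fun i => IDL.meas hW hU X hO ((NA.ONE.cont_sq hW (hG i)).mul
      ((NA.ONE.cont_om hW hψ c₁).mono inter_subset_right))
  have f1 : X.I (fun x => A * ∑ i,
      W.indicator (fun x => NA.sq D Q (G i) x * om D γ ψ c₁ x) x) ≠ ⊤ := by
    rw [u6 _ _ A0]
    exact ENNReal.mul_ne_top ENNReal.ofReal_ne_top (IDL.i_sum hU X _ m hI)
  refine ne_top_of_le_ne_top (ENNReal.add_ne_top.2 ⟨f1, c2⟩) (le_trans (u3 _ _ fun x hx => ?_)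
    (u7 _ _ ((Finset.aemeasurable_fun_sum _ fun i _ => m i).const_mul A)))
  have o1 : 0 < om D γ ψ c₁ x := Real.exp_pos _
  have o2 : 0 < om D γ ψ c x := Real.exp_pos _
  by_cases k : x ∈ K
  · have e : om D γ ψ ((N : ℝ)⁻¹ * c₁ + (1 - (N : ℝ)⁻¹) * c) x =
        Real.exp ((N : ℝ)⁻¹ * (-(c₁ * (ψ x + lw D γ x)) - lw D γ x) +
          (1 - (N : ℝ)⁻¹) * (-(c * (ψ x + lw D γ x)) - lw D γ x)) :=
      congrArg Real.exp (by ring)
    simp only [indicator_of_mem k, indicator_of_mem (hKW k).1]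
    rw [e, ← Finset.sum_mul, ← mul_assoc]
    exact (NA.IDL.young N1 (mul_inv_cancel₀ (by positivity)) (NA.ONE.sq_nn P h x)).trans
      (add_le_add (mul_le_mul_of_nonneg_right (hA x ⟨k, hx⟩) o1.le) le_rfl)
  · rw [indicator_of_notMem k]
    exact add_nonneg (mul_nonneg A0 (Finset.sum_nonneg fun i _ => indicator_nonneg
      (fun x _ => mul_nonneg (NA.ONE.sq_nn _ _ _) (NA.ONE.om_nn _ _ _ _)) x)) o2.le

end Pool.Agent.Lib.K2
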