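import Pool.Agent.Lib.K2.Blue

/-! Project k2, block IDS: functions that vanish on the saturation of the locus. -/

open scoped Classical Topology ContDiff ENNReal
open Set MeasureTheory Complex Metric Filter

set_option linter.unusedSectionVars false

noncomputable section

namespace Pool.Agent.Lib.K2

open Pool.Agent.Lib.SV (E nsq)
open Pool.Agent.Lib.HS32 Pool.Agent.Lib.EX Pool.Agent.Lib.EXS Pool.Agent.Lib.ZL Pool.Agent.Lib.NA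

namespace IDS

variable {n : ℕ} {M : Mf n} {ι : Type} [Fintype ι] [DecidableEq ι] {D : Ad M ι}

theorem sq_nn (P : ι → ℤ) (F : M.X → ℂ) (x : M.X) : 0 ≤ sq D P F x :=
  mul_nonneg (normSq_nonneg _) (Real.exp_pos _).le

theorem pos (γ : ι → ℝ) (P : ι → ℤ) (F : M.X → ℂ) (ψ : M.X → ℝ) (c : ℝ) (x : M.X) :
    0 ≤ sq D P F x * om D γ ψ c x := mul_nonneg (sq_nn P F x) (Real.exp_pos _).le

/-- A power of the local equation is integrable. -/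
theorem pow_fin (hPW : ZL.St_PW) (hMU : Sy_MU) (hINT : Sy_INT) (hEXB : Sy_EXB) [M.Cpt] {X : Cy D}
    (R : Ry X) {ψ : M.X → ℝ} (hψ : R.Wt ψ) (h0 : ∀ x ∈ off D, 0 ≤ ψ x) {c : ℝ} (hc : 0 ≤ c)
    (b : D.A) {r : ℝ} (hr : r < 1) : X.I ((R.Wr b r).indicator fun x =>
      sq D 0 ((R.B b).σ ^ ⌈c⌉₊) x * om D R.γ ψ c x) ≠ ⊤ := by
  obtain ⟨-, -, -, -, -, -, p7, -⟩ := hPW n M ι D
  obtain ⟨-, -, m3, -, -, m6, -⟩ := hMU n M ι D X
  obtain ⟨C₀, hC₀⟩ := hψ.2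
  obtain ⟨-, i2, -⟩ := hINT n M ι D X R.γ ψ C₀ R.klt hC₀
  obtain ⟨C, hC⟩ := ((hEXB n M ι D X R).2.2.2.1 b).2.2.2.2.2 r hr
  refine ne_top_of_le_ne_top ?_
    (m3 _ (fun x => Real.exp (⌈c⌉₊ * C) * om D R.γ ψ 0 x) fun x hx => ?_)
  · rw [m6 _ _ (Real.exp_pos _).le]
    exact ENNReal.mul_ne_top ENNReal.ofReal_ne_top i2
  by_cases hw : x ∈ R.Wr b r
  swap
  · rw [indicator_of_notMem hw]
    exact mul_nonneg (Real.exp_pos _).le (Real.exp_pos _).le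
  have hN := R.N1
  have h1 := (abs_le.1 ((hC x ⟨hw.1, hw.2.le⟩).2 hx)).2
  have h2 : lw D R.γ x ≤ 0 := (p7 0 R.γ (fun i => div_nonneg (Nat.cast_nonneg _) (by linarith))
    x).trans_eq (by simp [lw])
  have h3 : normSq ((R.B b).σ x) ^ ⌈c⌉₊ ≤ Real.exp (⌈c⌉₊ * (C + R.N * lw D R.γ x)) := by
    rw [Real.exp_nat_mul]
    exact pow_le_pow_left₀ (normSq_nonneg _)
      ((Real.le_exp_log _).trans (Real.exp_le_exp.2 (by linarith))) _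
  have h4 : sq D 0 ((R.B b).σ ^ ⌈c⌉₊) x = normSq ((R.B b).σ x) ^ ⌈c⌉₊ := by simp [NA.sq, lw]
  rw [indicator_of_mem hw, h4]
  refine (mul_le_mul_of_nonneg_right h3 (Real.exp_pos _).le).trans ?_
  simp only [om, ← Real.exp_add, Real.exp_le_exp]
  have h5 : c ≤ ⌈c⌉₊ * R.N := (Nat.le_ceil c).trans (le_mul_of_one_le_right (Nat.cast_nonneg _) hN)
  nlinarith [mul_nonneg hc (h0 x hx), mul_nonneg (sub_nonneg.2 h5) (neg_nonneg.2 h2)]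

/-- A point of the zero set of the local equation outside the saturation has a peak function. -/
theorem peak (hINT : Sy_INT) (hEXB : Sy_EXB) (hPKL : St_PKL) [M.Cpt] {X : Cy D}
    (R : Ry X) {ψ : M.X → ℝ} (hψ : R.Wt ψ) {c₀ : ℝ} (hc : 0 ≤ c₀) (b : D.A) {r : ℝ} (hr : r < 1)
    {x : M.X} (hx : x ∈ R.Wr b r) (ho : x ∉ off D) (hσ : (R.B b).σ x = 0)
    (hs : x ∉ R.Sat (X.Nk R.γ ψ c₀)) : ∃ G, MerOn D (R.Wr b r) 0 G ∧ (∃ c > c₀,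
      X.I ((R.Wr b r).indicator fun y => sq D 0 G y * om D R.γ ψ c y) ≠ ⊤) ∧ ¬ Van D 0 G x := by
  obtain ⟨C₀, hC₀⟩ := hψ.2
  obtain ⟨-, -, i3⟩ := hINT n M ι D X R.γ ψ C₀ R.klt hC₀
  obtain ⟨-, e2, -, e4, -⟩ := hEXB n M ι D X R
  have hK := (e2 b r).2 hr
  have hF : IsCompact (R.Kr b r ∩ (R.B b).p ⁻¹' {(R.B b).p x}) :=
    hK.of_isClosed_subset (((e4 b).1.mono fun _ h => h.1).preimage_isClosed_of_isClosed
      hK.isClosed isClosed_singleton) inter_subset_left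
  obtain ⟨c, hc', O, hO, hKO, hI⟩ := i3 _ (fun _ => 1) c₀ hF (fun _ => zero_le_one) fun y hy => by
    by_contra! h
    simp only [one_mul] at h
    exact hs ⟨b, hx.1, y, ⟨hy.1.1, h⟩, hy.2⟩
  obtain ⟨G, h1, h2, h3⟩ := hPKL n M ι D X R b r c ψ x O hr hψ (hc.trans hc'.le) hx ho hσ hO
    (fun y hy he => hKO ⟨⟨hy, he ▸ hx.2.le⟩, he⟩) (by simpa only [one_mul] using hI)
  exact ⟨G, h1, ⟨c, hc', h2⟩, h3⟩

end IDS

open IDS in
theorem kIDS (hPW : ZL.St_PW) (hMU : Sy_MU) (hINT : Sy_INT) (hEXB : Sy_EXB) (hVAL : NA.St_VAL)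
    (hDCC1 : NA.St_DCC1) (hPKL : St_PKL) (hIDL : St_IDL) : St_IDS := by
  intro n M _ ι _ _ D X R ψ c₀ b P K W h hψ h0 hc hη hK hW hKW hWB hh hV
  obtain ⟨-, -, m3, -⟩ := hMU n M ι D X
  obtain ⟨C₀, hC₀⟩ := hψ.2
  obtain ⟨i1, -, i3⟩ := hINT n M ι D X R.γ ψ C₀ R.klt hC₀
  obtain ⟨-, e2, e3, e4, -⟩ := hEXB n M ι D X R
  obtain ⟨-, v2, v3, -, v5, -, -, v8, -⟩ := hVAL n M ι D
  have mono : ∀ (A B : Set M.X) (Q : ι → ℤ) (F : M.X → ℂ) (c : ℝ), A ⊆ B →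
      X.I (B.indicator fun x => sq D Q F x * om D R.γ ψ c x) ≠ ⊤ →
      X.I (A.indicator fun x => sq D Q F x * om D R.γ ψ c x) ≠ ⊤ := fun A B Q F c hAB hI =>
    ne_top_of_le_ne_top hI (m3 _ _ fun x _ =>
      indicator_le_indicator_of_subset hAB (pos R.γ Q F ψ c) x)
  suffices H : ∀ y ∈ K, ∃ c > c₀, X.Li (fun x => sq D P h x * om D R.γ ψ c x) y by
    obtain ⟨c, hc', O, -, hKO, hI⟩ := i3 K _ c₀ hK (sq_nn P h) H
    exact ⟨c, hc', mono _ _ _ _ _ hKO hI⟩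
  intro y hy
  obtain ⟨r, hr, hyU⟩ := e3 b {y} isCompact_singleton (singleton_subset_iff.2 (hWB (hKW hy)))
  replace hyU := singleton_subset_iff.1 hyU
  have hU := (e2 b r).1
  obtain ⟨d, hd⟩ := GLU.ex_ch D y
  obtain ⟨S, hS⟩ := hDCC1 n {G : M.X → ℂ // MerOn D (R.Wr b r) 0 G ∧ ∃ c > c₀,
      X.I ((R.Wr b r).indicator fun y => sq D 0 G y * om D R.γ ψ c y) ≠ ⊤}
    (fun a => val (D.c d) 0 (D.rd a.1 d)) _ (D.e d y) ((D.e d).isOpen_inter_preimage_symm hU)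
    ⟨(D.e d).map_source hd, by simpa only [mem_preimage, (D.e d).left_inv hd] using hyU⟩
    fun a z hz => (v2 _ _ _ _ (a.2.1 d z (D.tgt d ▸ hz.1) hz.2)).1.self_of_nhds.differentiableWithinAt
  have hc1 : ∀ᶠ c in 𝓝[>] c₀, ∀ a ∈ S,
      X.I ((R.Wr b r).indicator fun y => sq D 0 a.1 y * om D R.γ ψ c y) ≠ ⊤ := by
    refine (eventually_all_finset S).2 fun a _ => ?_
    obtain ⟨c', h1, h2⟩ := a.2.2
    filter_upwards [Ioc_mem_nhdsGT h1] with c h3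
    have e : ∀ c, ((R.Wr b r).indicator fun y => sq D 0 a.1 y * om D R.γ ψ c y) =
        fun y => (R.Wr b r).indicator (sq D 0 a.1) y * om D R.γ ψ c y := fun c =>
      funext fun y => indicator_mul_left _ _ _
    rw [e] at h2 ⊢
    exact i1 c c' _ h3.2 (indicator_nonneg fun x _ => sq_nn _ _ x) h2
  obtain ⟨c₁, h1, h2⟩ := (hc1.and self_mem_nhdsWithin).exists
  refine hIDL n M ι D X R.γ ψ c₀ c₁ P 0 S.card (fun i => (S.equivFin.symm i).1.1) (W ∩ R.Wr b r) h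
    y hψ.1.1 h2 hη (hW.inter hU) ⟨hKW hy, hyU⟩ (fun i => v5 _ _ _ _ inter_subset_right
      (S.equivFin.symm i).1.2.1) (fun i => mono _ _ _ _ _ inter_subset_right
      (h1 _ (S.equivFin.symm i).2)) (v5 _ _ _ _ inter_subset_left hh) ?_
  filter_upwards [(D.e d).open_source.mem_nhds hd, ((D.e d).continuousAt hd).eventually hS,
    (hW.inter hU).mem_nhds ⟨hKW hy, hyU⟩] with x hx h3 hxW h4
  have hall : ∀ G, MerOn D (R.Wr b r) 0 G → (∃ c > c₀, X.I ((R.Wr b r).indicator fun y =>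
      sq D 0 G y * om D R.γ ψ c y) ≠ ⊤) → Van D 0 G x := fun G g1 g2 =>
    v3 _ _ _ g1 x hxW.2 d hx (h3 (fun a ha => by
      simpa only [Equiv.symm_apply_apply] using h4 (S.equivFin ⟨a, ha⟩) d hx) ⟨G, g1, g2⟩)
  obtain ⟨w1, w2⟩ := v8 (R.Wr b r) 0 (R.B b).σ ⌈c₀ + 1⌉₊ (v5 _ _ _ _ (fun _ h => h.1) (e4 b).2.1)
  rw [smul_zero] at w1 w2
  obtain ⟨ho, hσ⟩ := (e4 b).2.2.2.1 x hxW.2.1 ((w2 x hxW.2).1 (hall _ w1 ⟨c₀ + 1, lt_add_one _,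
    pow_fin hPW hMU hINT hEXB R hψ h0 (by linarith) b hr⟩))
  refine hV x ⟨hxW.1, by_contra fun hs => ?_⟩
  obtain ⟨G, g1, g2, g3⟩ := peak hINT hEXB hPKL R hψ hc b hr hxW.2 ho hσ hs
  exact g3 (hall G g1 g2)

end Pool.Agent.Lib.K2
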