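import Pool.Agent.Lib.K2.Blue
import Pool.Agent.Lib.NA.B_ESTX

/-! Project k2, row IES: the integrals. -/

open scoped Classical Topology ContDiff ENNReal
open Set MeasureTheory Complex Metric Filter

noncomputable section

namespace Pool.Agent.Lib.K2

open Pool.Agent.Lib.SV (E)
open Pool.Agent.Lib.HS32 Pool.Agent.Lib.EX Pool.Agent.Lib.EXS Pool.Agent.Lib.ZL Pool.Agent.Lib.NA

namespace IES

theorem lsj_lo {J : ℝ} (J0 : 0 < J) (a b : ℝ) : b ≤ lsj J a b := by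
  rw [lsj, le_div_iff₀ J0, mul_comm]
  exact ESTX.lse_lo' _ _

theorem lsj_hi {J a b u : ℝ} (J1 : 1 ≤ J) (h1 : a ≤ u) (h2 : b ≤ u) : lsj J a b ≤ u + 1 := by
  have J0 : 0 < J := by linarith
  rw [lsj, div_le_iff₀ J0]
  have := EST.lse_hi (mul_le_mul_of_nonneg_left h1 J0.le) (mul_le_mul_of_nonneg_left h2 J0.le)
  linarith

theorem half (x y : ℝ) : Real.exp (x + y) ≤ Real.exp (2 * x) + Real.exp (2 * y) := by
  have := ESTX.young (u := 2 * x) (v := 2 * y) (ϑ := 1 / 2) (by norm_num) (by norm_num)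
  rwa [show 1 / 2 * (2 * x) + (1 - 1 / 2) * (2 * y) = x + y by ring] at this

/-- The common majorant. -/
theorem maj {σ κ η k s u ts la lg a : ℝ} (aσ : a ≤ σ) (s0 : 0 ≤ s) (sκ : s * κ ≤ η)
    (κ0 : 0 ≤ κ) (η1 : η ≤ 1) (k0 : 0 ≤ k) (u0 : u ≤ 0) (l0 : la ≤ 0) (ht : la - k ≤ ts) :
    Real.exp (-(a * u) - κ * (s * ts) - lg) ≤
      Real.exp k * (Real.exp (-(2 * σ * u) - lg) + Real.exp (-(2 * η * la) - lg)) := by
  have h1 := half (-(σ * u) - lg / 2) (-(η * la) - lg / 2)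
  rw [show 2 * (-(σ * u) - lg / 2) = -(2 * σ * u) - lg by ring,
    show 2 * (-(η * la) - lg / 2) = -(2 * η * la) - lg by ring] at h1
  refine le_trans ?_ (mul_le_mul_of_nonneg_left h1 (Real.exp_pos k).le)
  rw [← Real.exp_add]
  refine Real.exp_le_exp.2 ?_
  have p := mul_nonneg s0 κ0
  have h2 := mul_le_mul_of_nonneg_left ht p
  have h3 := mul_le_mul_of_nonpos_right sκ l0
  have h4 := mul_le_mul_of_nonneg_right (sκ.trans η1) k0
  have h5 := mul_le_mul_of_nonpos_right aσ u0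
  nlinarith

theorem up {c c' lam δ ϑ κ J L B t s u ψ ts g b lg w V : ℝ} (c0 : 0 ≤ c) (d0 : 0 < δ)
    (h0 : 0 ≤ ϑ) (h1 : ϑ ≤ 1) (hϑ : ϑ * c' = c + 2 * δ) (hκ : (1 - ϑ) * κ = 1) (J1 : 1 ≤ J)
    (L0 : 0 ≤ L) (B0 : 0 ≤ B) (t0 : 0 ≤ t) (s0 : 0 < s) (b0 : 0 ≤ b) (hw : ψ + t ≤ w)
    (hg : g * Real.exp ((1 + c + lam) * lg) ≤ B) (hb : b * Real.exp ((1 + c + lam) * lg) ≤ B)
    (v1 : Real.exp (-((c + lam) * u) - 1 * (s * ts) - lg) ≤ V)
    (v2 : Real.exp (-((lam - 2 * δ) * κ * u) - κ * (s * ts) - lg) ≤ V) (g0 : 0 ≤ g) :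
    ((if 2 ≤ J * (u - lg - (ψ + t)) ∧ J * (u - lg - (ψ + t)) ≤ 3 then L * g else 0) +
      if 2 ≤ J * (u - lg - (ψ + t)) then 2 / s * b else 0) *
      Real.exp (-(c * ψ + ((lam - δ) * (u - lg) + δ * w + s * ts))) ≤
      2 / s * Real.exp (-(2 * δ * t)) *
        (b * (Real.exp ((1 + c + lam) * lg) * Real.exp (-(c' * (ψ + lg)) - lg))) +
      (L * (B * Real.exp ((c + δ) * (t + 3))) + 2 / s * Real.exp (-(2 * δ * t)) * B) * V := by
  have V0 : 0 ≤ V := (Real.exp_pos _).le.trans v1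
  have h2 := mul_le_mul_of_nonneg_left hw d0.le
  by_cases h : 2 ≤ J * (u - lg - (ψ + t))
  swap
  · rw [if_neg h, if_neg fun k => h k.1, add_zero, zero_mul]
    positivity
  have y0 : 0 ≤ u - lg - (ψ + t) := by
    by_contra k
    nlinarith [not_le.1 k]
  have h5 : (if 2 ≤ J * (u - lg - (ψ + t)) ∧ J * (u - lg - (ψ + t)) ≤ 3 then L * g else 0) *
      Real.exp (-(c * ψ + ((lam - δ) * (u - lg) + δ * w + s * ts))) ≤
      L * (B * Real.exp ((c + δ) * (t + 3))) * V := by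
    split_ifs with h6
    swap
    · rw [zero_mul]; positivity
    have y3 : u - lg - (ψ + t) ≤ 3 := by nlinarith [h6.2]
    have a1 : Real.exp (-(c * ψ + ((lam - δ) * (u - lg) + δ * w + s * ts))) ≤
        Real.exp ((1 + c + lam) * lg) * (Real.exp ((c + δ) * (t + 3)) *
          Real.exp (-((c + lam) * u) - 1 * (s * ts) - lg)) := by
      rw [← Real.exp_add, ← Real.exp_add]
      refine Real.exp_le_exp.2 ?_
      have a2 := mul_le_mul_of_nonneg_left y3 (show 0 ≤ c + δ by linarith)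
      have a4 := mul_nonneg d0.le t0
      linarith
    rw [mul_assoc, mul_assoc, mul_assoc]
    refine mul_le_mul_of_nonneg_left ((mul_le_mul_of_nonneg_left a1 g0).trans ?_) L0
    rw [← mul_assoc]
    exact mul_le_mul hg (mul_le_mul_of_nonneg_left v1 (Real.exp_pos _).le) (by positivity) B0
  have b2 : Real.exp (-(c * ψ + ((lam - δ) * (u - lg) + δ * w + s * ts))) ≤
      Real.exp (-(2 * δ * t)) * (Real.exp ((1 + c + lam) * lg) *
        Real.exp (ϑ * (-(c' * (ψ + lg)) - lg) +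
          (1 - ϑ) * (-((lam - 2 * δ) * κ * u) - κ * (s * ts) - lg))) := by
    simp only [← Real.exp_add]
    refine Real.exp_le_exp.2 ?_
    have a1 := mul_le_mul_of_nonneg_left y0 d0.le
    have a4 : ϑ * (-(c' * (ψ + lg)) - lg) +
        (1 - ϑ) * (-((lam - 2 * δ) * κ * u) - κ * (s * ts) - lg) = -(ϑ * c' * (ψ + lg)) -
          (1 - ϑ) * κ * ((lam - 2 * δ) * u + s * ts) - lg := by ring
    rw [a4, hϑ, hκ]
    linarith
  have b4 := (ESTX.young (u := -(c' * (ψ + lg)) - lg)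
    (v := -((lam - 2 * δ) * κ * u) - κ * (s * ts) - lg) h0 h1).trans (add_le_add_right v2 _)
  have b5 := mul_le_mul_of_nonneg_left (b2.trans (mul_le_mul_of_nonneg_left
    (mul_le_mul_of_nonneg_left b4 (Real.exp_pos _).le) (Real.exp_pos _).le))
    (show 0 ≤ 2 / s * b by positivity)
  have b6 := mul_le_mul_of_nonneg_left (mul_le_mul_of_nonneg_right hb V0)
    (show 0 ≤ 2 / s * Real.exp (-(2 * δ * t)) by positivity)
  rw [if_pos h, add_mul]
  linarith

end IES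

open IES in
theorem kIES (hP : ZL.St_PW) (hW : ZL.St_WGT) (hM : Sy_MU) (hE : Sy_EXB) : St_IES := by
  intro n M _ ι _ _ D X R ψ b G m J c c' lam L B hψ J1 c0 cc lam0 hm L0 B0 hG hg mb b0 hb hI
  obtain ⟨-, -, ladd, lsub, lsm, lneg, lmon, lS, -, hc, -⟩ := hP n M ι D
  obtain ⟨-, am, imon, ifin, -, imul, iadd, -⟩ := hM n M ι D X
  obtain ⟨-, -, hct, -⟩ := hW
  obtain ⟨-, -, -, -, -, ⟨-, k, k0, hk⟩, -⟩ := hE n M ι D X R
  obtain ⟨C, hC⟩ := hψ.2
  have J0 : 0 < J := by linarith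
  have N0 : R.N ≠ 0 := by linarith [R.N1]
  have eQ : ∀ x, lw D (fun i => (R.Q m i : ℝ)) x = (1 + c + lam) * lw D R.γ x := fun x => by
    rw [← lsm]
    refine congrArg (lw D · x) (funext fun i => ?_)
    simp only [Ry.Q, Ry.γ, Pi.smul_apply, smul_eq_mul, hm]
    push_cast
    field_simp
  have l0 : ∀ x, lw D R.a x ≤ 0 := fun x => by
    have h1 := lmon 0 R.a R.a0 x
    have h2 := lsm 0 0 x
    rw [zero_smul, zero_mul] at h2
    linarith
  have two : ∀ {f g : M.X → ℝ} {a a' A A' : ℝ}, AEMeasurable f X.μ → 0 ≤ a → 0 ≤ a' → 0 ≤ A →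
      0 ≤ A' → X.I f ≤ ENNReal.ofReal A → X.I g ≤ ENNReal.ofReal A' →
      X.I (fun x => a * f x + a' * g x) ≤ ENNReal.ofReal (a * A + a' * A') := by
    intro f g a a' A A' hf ha ha' hA hA' h1 h2
    refine (iadd _ _ (hf.const_mul a)).trans ?_
    rw [imul _ _ ha, imul _ _ ha', ENNReal.ofReal_add (by positivity) (by positivity),
      ENNReal.ofReal_mul ha, ENNReal.ofReal_mul ha']
    exact add_le_add (mul_le_mul_right h1 _) (mul_le_mul_right h2 _)
  obtain ⟨δ, d0, dl, dc⟩ : ∃ δ : ℝ, 0 < δ ∧ 2 * δ ≤ lam ∧ c + 2 * δ < c' :=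
    ⟨min (lam / 2) ((c' - c) / 3), lt_min (by linarith) (by linarith),
      by linarith [min_le_left (lam / 2) ((c' - c) / 3)],
      by linarith [min_le_right (lam / 2) ((c' - c) / 3)]⟩
  have c'0 : 0 < c' := by linarith
  obtain ⟨ϑ, h0, h1, hϑ⟩ : ∃ ϑ : ℝ, 0 ≤ ϑ ∧ ϑ < 1 ∧ ϑ * c' = c + 2 * δ :=
    ⟨(c + 2 * δ) / c', by positivity, (div_lt_one c'0).2 dc, div_mul_cancel₀ _ c'0.ne'⟩
  obtain ⟨κ, κ1, hκ⟩ : ∃ κ : ℝ, 1 ≤ κ ∧ (1 - ϑ) * κ = 1 :=
    ⟨(1 - ϑ)⁻¹, (one_le_inv₀ (by linarith)).2 (by linarith), mul_inv_cancel₀ (by linarith)⟩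
  have N1 : 0 < c + lam := by linarith
  have κ0 : 0 < κ := by linarith
  obtain ⟨A, e₁, e1, hA⟩ := R.zk.2 (2 * ((c + lam) * κ)) (by positivity)
  obtain ⟨η, hη, η0, η1⟩ := ((EST.small (fun i => (1 - (R.γ i - X.o i)) / 2) (fun i => 2 * R.a i)
    (fun _ => True) fun i _ => half_pos (sub_pos.2 (R.klt i))).and
      (Ioc_mem_nhdsGT (one_pos (α := ℝ)))).exists
  have fin := ifin (-((2 * η) • R.a) - R.γ) fun i => by
    have h2 := hη i trivial
    have h3 : R.γ i - X.o i < 1 := R.klt i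
    simp only [Pi.sub_apply, Pi.neg_apply, Pi.smul_apply, smul_eq_mul]
    linarith
  simp only [lsub, lneg, lsm] at fin
  obtain ⟨A', A0, hA'⟩ : ∃ A' : ℝ, 0 ≤ A' ∧ X.I (fun x =>
      Real.exp (-(2 * η * lw D R.a x) - lw D R.γ x)) ≤ ENNReal.ofReal A' :=
    ⟨_, ENNReal.toReal_nonneg, (ENNReal.ofReal_toReal fin).ge⟩
  obtain ⟨I, I0, hI'⟩ : ∃ I : ℝ, 0 ≤ I ∧ X.I (fun x => b x * R.dn ψ m c' x) ≤ ENNReal.ofReal I :=
    ⟨_, ENNReal.toReal_nonneg, (ENNReal.ofReal_toReal hI).ge⟩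
  obtain ⟨Z, hZ⟩ : ∃ Z, Z = Real.exp k * |A| + Real.exp k * A' := ⟨_, rfl⟩
  have Z0 : 0 ≤ Z := by rw [hZ]; positivity
  have p1 : 0 < (c + lam + 1) * κ := by positivity
  refine ⟨δ, min e₁ (η / ((c + lam + 1) * κ)), 2 * (I + B * Z) + Real.exp (δ * (|C| + 1)), d0,
    by linarith, lt_min e1.1 (by positivity), (min_le_left _ _).trans e1.2, by positivity,
    fun t t0 => ⟨L * J / δ * (B * Real.exp ((c + δ) * (t + 3))) * Z + 1, by positivity,
      fun e he s hs => ?_⟩⟩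
  have e0 := he.1
  have s0 : 0 < s := by rw [hs]; positivity
  have sκ : s * κ ≤ η := by
    have := (le_div_iff₀ p1).1 (he.2.trans (min_le_right _ _))
    rw [hs]
    linarith
  obtain ⟨r1, r2, -⟩ := R.zk.1 e ⟨e0, he.2.trans ((min_le_left _ _).trans e1.2)⟩
  have r4 : X.I (fun x => Real.exp (-(2 * ((c + lam) * κ) * R.u e x) - lw D R.γ x)) ≤ _ :=
    (hA e ⟨e0, he.2.trans (min_le_left _ _)⟩).trans (ENNReal.ofReal_le_ofReal (le_abs_self A))
  have cγ := hc _ _ (lS R.γ)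
  have cu : ContinuousOn (R.u e) (off D) :=
    hc _ _ fun d z hz _ => r1 _ (D.mem d) z (D.tgt d ▸ hz)
  have mY : AEMeasurable (fun x => b x * R.dn ψ m c' x) X.μ :=
    mb.mul (am _ _ ((hc _ _ (lS _)).rexp.mul
      ((((hc _ _ hψ.1.1).add cγ).const_smul c').neg.sub cγ).rexp))
  have hV := two (am _ _ ((cu.const_smul (2 * ((c + lam) * κ))).neg.sub cγ).rexp)
    (Real.exp_pos k).le (Real.exp_pos k).le (abs_nonneg A) A0 r4 hA'
  rw [← hZ] at hV
  have mj : ∀ a κ', a ≤ (c + lam) * κ → 0 ≤ κ' → κ' ≤ κ → ∀ x ∈ off D,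
      Real.exp (-(a * R.u e x) - κ' * (s * R.ts x) - lw D R.γ x) ≤ Real.exp k *
        Real.exp (-(2 * ((c + lam) * κ) * R.u e x) - lw D R.γ x) +
          Real.exp k * Real.exp (-(2 * η * lw D R.a x) - lw D R.γ x) :=
    fun a κ' a1 k1 k2 x hx => (maj a1 s0.le
      ((mul_le_mul_of_nonneg_left k2 s0.le).trans sκ) k1 η1 k0 (r2 x) (l0 x)
      (by linarith [(abs_le.1 (hk x hx).1).1])).trans_eq (mul_add _ _ _)
  have q1 : c + lam ≤ (c + lam) * κ := le_mul_of_one_le_right N1.le κ1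
  refine ⟨(imon _ _ fun x hx => up (c' := c') (ψ := ψ x) (lg := lw D R.γ x) c0 d0 h0 h1.le hϑ hκ J1
    (by positivity) B0 t0 s0 (b0 x) (lsj_lo J0 _ _) (eQ x ▸ hg x hx) (eQ x ▸ hb x hx)
    (mj _ _ q1 zero_le_one κ1 x hx)
    (mj _ _ (mul_le_mul_of_nonneg_right (by linarith) κ0.le) κ0.le le_rfl x hx) (normSq_nonneg _)).trans ?_, ?_, fun x hx => ?_⟩
  · simp only [← eQ]
    refine (two mY (by positivity) (by positivity) I0 Z0 hI' hV).trans
      (ENNReal.ofReal_le_ofReal ?_)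
    have : 0 ≤ Real.exp (δ * (|C| + 1)) * Real.exp (-(2 * δ * t)) / s := by positivity
    exact (le_add_of_nonneg_right (add_nonneg this zero_le_one)).trans_eq (by ring)
  · refine ne_top_of_le_ne_top (ENNReal.mul_ne_top ENNReal.ofReal_ne_top
      (ne_top_of_le_ne_top ENNReal.ofReal_ne_top hV)) ((imon _ _ fun x hx => ?_).trans
        (imul (B * Real.exp (c * (t + 3))) _ (by positivity)).le)
    obtain ⟨k1, k2, -, k3⟩ := hct (R.yy ψ J t e x)
    have v := mj c 0 (by linarith) le_rfl κ0.le x hx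
    by_cases h : R.yy ψ J t e x ≤ 3
    · have y3 : R.u e x - lw D R.γ x - (ψ x + t) ≤ 3 := by
        by_contra k
        have : J * (R.u e x - lw D R.γ x - (ψ x + t)) ≤ 3 := h
        nlinarith [not_le.1 k]
      have a1 : normSq (G x - R.gm ψ J t e G x) ≤ normSq (G x) := by
        rw [Ry.gm, ← one_sub_mul, ← ofReal_one, ← ofReal_sub, map_mul, normSq_ofReal]
        exact mul_le_of_le_one_left (normSq_nonneg _) (by nlinarith)
      have a2 : om D R.γ ψ c x ≤ Real.exp (c * (t + 3)) *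
          Real.exp (-(c * R.u e x) - 0 * (s * R.ts x) - lw D R.γ x) := by
        rw [om, ← Real.exp_add]
        exact Real.exp_le_exp.2 (by linarith [mul_le_mul_of_nonneg_left y3 c0])
      rw [Ry.dn, ← mul_assoc, mul_assoc B]
      exact mul_le_mul ((mul_le_mul_of_nonneg_right a1 (Real.exp_pos _).le).trans (hg x hx))
        (a2.trans (mul_le_mul_of_nonneg_left v (Real.exp_pos _).le)) (Real.exp_pos _).le B0
    · rw [Ry.gm, k3 (not_le.1 h).le, ofReal_one, one_mul, sub_self, map_zero, zero_mul]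
      exact mul_nonneg (by positivity) ((Real.exp_pos _).le.trans v)
  · refine le_trans ?_ (mul_le_mul_of_nonneg_right (mul_le_mul_of_nonneg_right
      (le_add_of_nonneg_left (by positivity)) (Real.exp_pos _).le) (Real.exp_pos _).le)
    have a1 := mul_le_mul_of_nonneg_left (lsj_hi (a := R.ro e x) (b := ψ x + t)
      (u := t + |C| - lw D R.γ x) J1 (by rw [Ry.ro]; linarith [r2 x, abs_nonneg C])
      (by linarith [hC x hx, le_abs_self C])) d0.le
    have a2 := mul_le_mul_of_nonneg_left (r2 x) (show 0 ≤ lam - δ by linarith)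
    rw [Ry.dn, eQ, om, Ry.wi, Ry.w0]
    simp only [← Real.exp_add]
    refine Real.exp_le_exp.2 ?_
    rw [Ry.ro] at a1 ⊢
    linarith

end Pool.Agent.Lib.K2
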