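import Pool.Agent.Lib.K2.B_MU
import Pool.Agent.Lib.NA.B_LOC

/-! Project k2, row LOC: local integrals in the preferred chart. -/

open scoped Classical Topology ContDiff ENNReal Manifold
open Set MeasureTheory Complex Metric Filter

noncomputable section

namespace Pool.Agent.Lib.K2

open Pool.Agent.Lib.SV (E)
open Pool.Agent.Lib.HS32 Pool.Agent.Lib.EX Pool.Agent.Lib.EXS Pool.Agent.Lib.ZL
open Pool.Agent.Lib.HS.BBR (mf)

namespace LOCy

variable {n : ℕ} {M : Mf n} {ι : Type} [Fintype ι] [DecidableEq ι] {D : Ad M ι}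

/-- Local integrals in any chart are bounded by the global integral. -/
theorem loc [M.Cpt] (hPW : ZL.St_PW) (X : Cy D) {c : M.Ch} (hc : c ∈ M.C) {d : D.A} {y : M.X}
    (h1 : y ∈ c.source) (h2 : y ∈ (D.e d).source) (h3 : ‖D.e d y‖ ≤ 1) :
    ∃ N ∈ 𝓝 y, ∃ K : ℝ, ∀ O, IsOpen O → O ⊆ N → ∀ (Φ Ψ : M.X → ℝ≥0∞) (t : ℝ≥0∞), t ≠ ⊤ →
      (∀ x ∈ O, x ∈ off D → Φ x ≤ t * Ψ x) → ∫⁻ z in c.target ∩ c.symm ⁻¹' O, Φ (c.symm z) ≤
        ENNReal.ofReal K * t * ∫⁻ x, Ψ x * ENNReal.ofReal (Real.exp (-lw D X.o x)) ∂X.μ := by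
  obtain ⟨C, -, hC⟩ := (hPW n M ι D).2.2.2.2.2.2.2.2.1 (3 / 2) (by norm_num)
  obtain ⟨a, b, a0, -, hw⟩ := MUy.bds X (r := 3 / 2) (by norm_num)
  set e := D.e d with he
  have t1 : HolN (c ∘ e.symm) (e y) := ((mTR n M).2.1 c hc e (D.mem d) y h1 h2).1
  have t2 : ContinuousAt (fun w => normSq (jm (c ∘ e.symm) w).det) (e y) :=
    continuous_normSq.continuousAt.comp (mCHN n _ _ t1).2.2.2.2.1.self_of_nhds.continuousAt
  set J := normSq (jm (c ∘ e.symm) (e y)).det + 1 with hJ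
  have J0 : 0 ≤ J := by have := normSq_nonneg (jm (c ∘ e.symm) (e y)).det; linarith
  have ev : ∀ᶠ x in 𝓝 y, x ∈ c.source ∧ x ∈ e.source ∧ (‖e x‖ < 3 / 2 ∧
      normSq (jm (c ∘ e.symm) (e x)).det < J) ∧ DifferentiableAt ℂ (c ∘ e.symm) (e x) :=
    (c.open_source.eventually_mem h1).and ((e.open_source.eventually_mem h2).and
      ((e.continuousAt h2).eventually (((continuous_norm.continuousAt.eventually_lt
        continuousAt_const (by linarith)).and (t2.eventually_lt continuousAt_const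
          (lt_add_one _))).and t1)))
  refine ⟨_, ev, J * (Real.exp (C * ∑ i, |X.o i|) / a), fun O hO hs Φ Ψ t ht h => ?_⟩
  have o := e.isOpen_inter_preimage_symm hO
  have im : c.target ∩ c.symm ⁻¹' O = (c ∘ e.symm) '' (e.target ∩ e.symm ⁻¹' O) := by
    ext z
    refine ⟨fun hz => ⟨e (c.symm z), ⟨e.map_source (hs hz.2).2.1, ?_⟩, ?_⟩, ?_⟩
    · rw [mem_preimage, e.left_inv (hs hz.2).2.1]
      exact hz.2
    · rw [Function.comp_apply, e.left_inv (hs hz.2).2.1, c.right_inv hz.1]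
    · rintro ⟨w, hw, rfl⟩
      refine ⟨c.map_source (hs hw.2).1, ?_⟩
      rw [mem_preimage, Function.comp_apply, c.left_inv (hs hw.2).1]
      exact hw.2
  have k : ∀ w ∈ e.target ∩ e.symm ⁻¹' O, (‖w‖ < 3 / 2 ∧ normSq (jm (c ∘ e.symm) w).det < J) ∧
      DifferentiableAt ℂ (c ∘ e.symm) w := fun w hw => by
    have := (hs hw.2).2.2
    rwa [e.right_inv hw.1] at this
  rw [im, lintegral_image_eq_lintegral_abs_det_fderiv_mul volume o.measurableSet
    (f' := fun w => fderiv ℝ (c ∘ e.symm) w)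
    (fun w hw => ((k w hw).2.restrictScalars ℝ).hasFDerivAt.hasFDerivWithinAt)
    fun z hz w hw hzw => e.symm.injOn hz.1 hw.1 (c.injOn (hs hz.2).1 (hs hw.2).1 hzw)]
  refine le_trans ?_ (mul_le_mul_right (setLIntegral_le_lintegral e.source _) _)
  rw [he, MUy.chg, ← lintegral_const_mul' _ _ (ENNReal.mul_ne_top ENNReal.ofReal_ne_top ht)]
  refine le_trans (lintegral_mono_ae ?_) (lintegral_mono_set fun w hw => D.tgt d ▸ hw.1)
  filter_upwards [ae_restrict_of_ae (MON.off_ae (D.c d)), ae_restrict_mem o.measurableSet]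
    with w ho hw'
  obtain ⟨⟨k1, k2⟩, k3⟩ := k w hw'
  have k4 : (D.e d).symm w ∈ off D := by
    rw [GLU.mem_off (hs hw'.2).2.1, (D.e d).right_inv hw'.1]
    exact ho
  rw [BCHN.det_real k3, abs_of_nonneg (normSq_nonneg _), Function.comp_apply,
    c.left_inv (hs hw'.2).1]
  have p := (MON.xr_pos X.o ho).le
  have q := normSq_nonneg (X.w d w)
  have k5 : ENNReal.ofReal (normSq (jm (c ∘ (D.e d).symm) w).det) ≤
      ENNReal.ofReal (J * (Real.exp (C * ∑ i, |X.o i|) / a)) * (ENNReal.ofReal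
        (normSq (X.w d w) ^ (1 / X.m : ℝ) * xr (D.c d) X.o w) *
          ENNReal.ofReal (Real.exp (-lw D X.o ((D.e d).symm w)))) := by
    rw [← ENNReal.ofReal_mul (by positivity), ← ENNReal.ofReal_mul (by positivity)]
    refine ENNReal.ofReal_le_ofReal (k2.le.trans ?_)
    have h4 := (hw d w (mem_closedBall_zero_iff.2 k1.le)).1
    have h5 : Real.exp (lw D X.o ((D.e d).symm w)) ≤ _ := (hC X.o d w k1.le ho).2
    rw [mul_assoc]
    refine le_mul_of_one_le_right J0 ?_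
    rw [Real.exp_neg, ← mul_assoc, ← div_eq_mul_inv, one_le_div (Real.exp_pos _)]
    calc _ ≤ _ := h5
      _ = Real.exp (C * ∑ i, |X.o i|) / a * (a * xr (D.c d) X.o w) := by field_simp
      _ ≤ _ := by gcongr
  refine (mul_le_mul' k5 (h _ hw'.2 k4)).trans_eq ?_
  ring

/-- The global integral over a small open set is bounded by the integral in any chart. -/
theorem rev [M.Cpt] (hPW : ZL.St_PW) (X : Cy D) {c : M.Ch} (hc : c ∈ M.C) {d : D.A} {y : M.X}
    (h1 : y ∈ c.source) (h2 : y ∈ (D.e d).source) (h3 : ‖D.e d y‖ ≤ 1) :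
    ∃ N ∈ 𝓝 y, ∃ K : ℝ, ∀ O, IsOpen O → O ⊆ N → ∀ Φ Ψ : M.X → ℝ≥0∞,
      (∀ x ∈ O, x ∈ off D → Ψ x * ENNReal.ofReal (Real.exp (lw D X.o x)) ≤ Φ x) →
      ∫⁻ x, O.indicator Ψ x ∂X.μ ≤
        ENNReal.ofReal K * ∫⁻ z in c.target ∩ c.symm ⁻¹' O, Φ (c.symm z) := by
  obtain ⟨C, -, hC⟩ := (hPW n M ι D).2.2.2.2.2.2.2.2.1 (3 / 2) (by norm_num)
  obtain ⟨a, b, -, b0, hw⟩ := MUy.bds X (r := 3 / 2) (by norm_num)
  set e := D.e d with he
  have t0 := (mTR n M).2.1 c hc e (D.mem d) y h1 h2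
  have t1 : HolN (c ∘ e.symm) (e y) := t0.1
  have t2 : ContinuousAt (fun w => normSq (jm (c ∘ e.symm) w).det) (e y) :=
    continuous_normSq.continuousAt.comp (mCHN n _ _ t1).2.2.2.2.1.self_of_nhds.continuousAt
  have t3 : 0 < normSq (jm (c ∘ e.symm) (e y)).det := normSq_pos.2 t0.2.1
  set J := normSq (jm (c ∘ e.symm) (e y)).det / 2 with hJ
  have J0 : 0 < J := half_pos t3
  have ev : ∀ᶠ x in 𝓝 y, x ∈ c.source ∧ x ∈ e.source ∧ (‖e x‖ < 3 / 2 ∧
      J < normSq (jm (c ∘ e.symm) (e x)).det) ∧ DifferentiableAt ℂ (c ∘ e.symm) (e x) :=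
    (c.open_source.eventually_mem h1).and ((e.open_source.eventually_mem h2).and
      ((e.continuousAt h2).eventually (((continuous_norm.continuousAt.eventually_lt
        continuousAt_const (by linarith)).and (continuousAt_const.eventually_lt t2
          (half_lt_self t3))).and t1)))
  refine ⟨_, ev, b * Real.exp (C * ∑ i, |X.o i|) / J, fun O hO hs Φ Ψ h => ?_⟩
  have o := e.isOpen_inter_preimage_symm hO
  have im : c.target ∩ c.symm ⁻¹' O = (c ∘ e.symm) '' (e.target ∩ e.symm ⁻¹' O) := by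
    ext z
    refine ⟨fun hz => ⟨e (c.symm z), ⟨e.map_source (hs hz.2).2.1, ?_⟩, ?_⟩, ?_⟩
    · rw [mem_preimage, e.left_inv (hs hz.2).2.1]
      exact hz.2
    · rw [Function.comp_apply, e.left_inv (hs hz.2).2.1, c.right_inv hz.1]
    · rintro ⟨w, hw, rfl⟩
      refine ⟨c.map_source (hs hw.2).1, ?_⟩
      rw [mem_preimage, Function.comp_apply, c.left_inv (hs hw.2).1]
      exact hw.2
  have k : ∀ w ∈ e.target ∩ e.symm ⁻¹' O, (‖w‖ < 3 / 2 ∧ J < normSq (jm (c ∘ e.symm) w).det) ∧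
      DifferentiableAt ℂ (c ∘ e.symm) w := fun w hw => by
    have := (hs hw.2).2.2
    rwa [e.right_inv hw.1] at this
  rw [im, lintegral_image_eq_lintegral_abs_det_fderiv_mul volume o.measurableSet
    (f' := fun w => fderiv ℝ (c ∘ e.symm) w)
    (fun w hw => ((k w hw).2.restrictScalars ℝ).hasFDerivAt.hasFDerivWithinAt)
    fun z hz w hw hzw => e.symm.injOn hz.1 hw.1 (c.injOn (hs hz.2).1 (hs hw.2).1 hzw),
    ← lintegral_const_mul' _ _ ENNReal.ofReal_ne_top, ← lintegral_indicator o.measurableSet,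
    lintegral_indicator hO.measurableSet,
    ← inter_eq_left.2 (show O ⊆ e.source from fun x hx => (hs hx).2.1),
    ← Measure.restrict_restrict hO.measurableSet, ← lintegral_indicator hO.measurableSet, he, MUy.chg,
    inter_eq_left.2 (show O ⊆ e.source from fun x hx => (hs hx).2.1)]
  refine le_trans (lintegral_mono_ae ?_) (setLIntegral_le_lintegral (B2 n) _)
  filter_upwards [ae_restrict_of_ae (MON.off_ae (D.c d)), ae_restrict_mem measurableSet_ball]
    with w ho hb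
  by_cases hm : (D.e d).symm w ∈ O
  swap
  · rw [indicator_of_notMem hm, mul_zero]
    exact bot_le
  have hw' : w ∈ (D.e d).target ∩ (D.e d).symm ⁻¹' O := ⟨GLU.mem_tgt d hb, hm⟩
  obtain ⟨⟨k1, k2⟩, k3⟩ := k w hw'
  have k4 : (D.e d).symm w ∈ off D := by
    rw [GLU.mem_off (hs hm).2.1, (D.e d).right_inv hw'.1]
    exact ho
  rw [indicator_of_mem hm, indicator_of_mem hw', BCHN.det_real k3, abs_of_nonneg (normSq_nonneg _),
    Function.comp_apply, c.left_inv (hs hm).1]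
  have p := (MON.xr_pos X.o ho).le
  have k5 : ENNReal.ofReal (normSq (X.w d w) ^ (1 / X.m : ℝ) * xr (D.c d) X.o w) ≤
      ENNReal.ofReal (b * Real.exp (C * ∑ i, |X.o i|) / J) *
        (ENNReal.ofReal (normSq (jm (c ∘ (D.e d).symm) w).det) *
          ENNReal.ofReal (Real.exp (lw D X.o ((D.e d).symm w)))) := by
    rw [← ENNReal.ofReal_mul (normSq_nonneg _), ← ENNReal.ofReal_mul (by positivity)]
    refine ENNReal.ofReal_le_ofReal ?_
    have h4 := (hw d w (mem_closedBall_zero_iff.2 k1.le)).2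
    have h5 : _ ≤ _ * Real.exp (lw D X.o ((D.e d).symm w)) := (hC X.o d w k1.le ho).1
    calc _ ≤ b * (Real.exp (C * ∑ i, |X.o i|) * Real.exp (lw D X.o ((D.e d).symm w))) := by gcongr
      _ = b * Real.exp (C * ∑ i, |X.o i|) / J * (J * Real.exp (lw D X.o ((D.e d).symm w))) := by
        field_simp
      _ ≤ _ := by gcongr
  calc _ ≤ _ := mul_le_mul_left k5 _
    _ = ENNReal.ofReal (b * Real.exp (C * ∑ i, |X.o i|) / J) *
        (ENNReal.ofReal (normSq (jm (c ∘ (D.e d).symm) w).det) * (Ψ ((D.e d).symm w) *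
          ENNReal.ofReal (Real.exp (lw D X.o ((D.e d).symm w))))) := by ring
    _ ≤ _ := mul_le_mul_right (mul_le_mul_right (h _ hm k4) _) _

end LOCy

theorem kLOC (hPW : ZL.St_PW) (hU : EX.St_UNI) : Sy_LOC := by
  intro n Y I _ _ _ _ _ _ _ _ S D X y hF
  obtain ⟨d, d1, d2⟩ := (@hPW n _ ⟨‹_›, ‹_›, ‹_›⟩ I _ _ D).2.1 y
  have : (mf n Y).Cpt := ⟨‹_›, ‹_›, ‹_›⟩
  have hc := K1.ch_mf (n := n) y
  have hy := mem_chart_source (E n) y
  refine ⟨fun Φ f C C0 h ⟨O', hO', hI⟩ => ?_, fun Φ f C C0 h ⟨V, hV, hI⟩ => ?_, fun h a hh => ?_⟩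
  · obtain ⟨N, hN, K, hK⟩ := LOCy.loc hPW X hc hy d1 d2
    obtain ⟨O, O1, O2, O3⟩ := mem_nhds_iff.1 (inter_mem hN (inter_mem hO' h))
    refine ⟨(chartAt (E n) y).target ∩ (chartAt (E n) y).symm ⁻¹' O,
      ((chartAt (E n) y).isOpen_inter_preimage_symm O2).mem_nhds ⟨mem_chart_target _ y, ?_⟩, ?_⟩
    · rwa [mem_preimage, (chartAt (E n) y).left_inv hy]
    refine (hK O O2 (fun x hx => (O1 hx).1) (fun x => ENNReal.ofReal (Φ x))
      (fun x => ENNReal.ofReal (O'.indicator f x * Real.exp (lw D X.o x))) (ENNReal.ofReal C)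
      ENNReal.ofReal_ne_top fun x hx o => ?_).trans_lt (ENNReal.mul_lt_top
        (ENNReal.mul_lt_top ENNReal.ofReal_lt_top ENNReal.ofReal_lt_top) ?_)
    · rw [← ENNReal.ofReal_mul C0, indicator_of_mem (O1 hx).2.1]
      exact ENNReal.ofReal_le_ofReal ((O1 hx).2.2 o)
    · refine lt_of_eq_of_lt (lintegral_congr fun x => ?_) hI.lt_top
      rw [← ENNReal.ofReal_mul' (Real.exp_pos _).le, mul_assoc, ← Real.exp_add, add_neg_cancel,
        Real.exp_zero, mul_one]
  · obtain ⟨N, hN, K, hK⟩ := LOCy.rev hPW X hc hy d1 d2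
    obtain ⟨O, O1, O2, O3⟩ := mem_nhds_iff.1 (inter_mem hN (inter_mem
      (((chartAt (E n) y).continuousAt hy).preimage_mem_nhds hV) h))
    refine ⟨O, O2.mem_nhds O3, ?_⟩
    have k := hK O O2 (fun x hx => (O1 hx).1) (fun x => ENNReal.ofReal C * ENNReal.ofReal (Φ x))
      (fun x => ENNReal.ofReal (f x)) fun x hx o => by
        rw [← ENNReal.ofReal_mul C0, ← ENNReal.ofReal_mul' (Real.exp_pos _).le]
        exact ENNReal.ofReal_le_ofReal ((O1 hx).2.2 o)
    rw [lintegral_const_mul' _ _ ENNReal.ofReal_ne_top] at k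
    refine ((lintegral_congr (NA.LOC.ind O f)).trans_le k).trans_lt (ENNReal.mul_lt_top
      ENNReal.ofReal_lt_top (ENNReal.mul_lt_top ENNReal.ofReal_lt_top
        ((lintegral_mono_set fun z hz => ?_).trans_lt hI))) |>.ne
    have : chartAt (E n) y ((chartAt (E n) y).symm z) ∈ V := (O1 hz.2).2.1
    rwa [(chartAt (E n) y).right_inv hz.1] at this
  obtain ⟨C, C0, hC⟩ := (hPW n _ I D).2.2.2.2.2.2.2.2.1 (3 / 2) (by norm_num)
  obtain ⟨u, u1, u2⟩ := K1.eqs_unit (Y := Y) hU (D.mem d) ((D.e d).map_source d1)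
    (K1.fit_ev hF d (GLU.mem_B2 d1)) (h := h)
      ((congrArg (fun x : Y => Eqs n S x h) ((D.e d).left_inv d1)).mpr hh)
  set B : ℝ := ∑ i, (|Real.log (normSq (u i (D.e d y)))| + 1) with hB
  have u3 : ∀ᶠ w in 𝓝 (D.e d y), ∀ i, u i w ≠ 0 ∧ |Real.log (normSq (u i w))| ≤ B :=
    eventually_all.2 fun i => by
      have c1 := (u1 i).1.self_of_nhds.continuousAt
      have c2 : ContinuousAt (fun w => |Real.log (normSq (u i w))|) (D.e d y) :=
        ((continuous_normSq.continuousAt.comp c1).log (normSq_pos.2 (u1 i).2).ne').abs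
      filter_upwards [c1.eventually_ne (u1 i).2,
        c2.eventually_lt continuousAt_const (lt_add_one _)] with w a b
      exact ⟨a, b.le.trans (Finset.single_le_sum
        (f := fun i => |Real.log (normSq (u i (D.e d y)))| + 1) (fun _ _ => by positivity)
        (Finset.mem_univ i))⟩
  have u4 : ∀ᶠ w in 𝓝 (D.e d y), ‖w‖ < 3 / 2 :=
    continuous_norm.continuousAt.eventually_lt continuousAt_const (by linarith)
  refine ⟨(B + C) * ∑ i, |a i|, (((D.e d).open_source.eventually_mem d1).and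
    (((D.e d).continuousAt d1).eventually (u2.and (u3.and u4)))).mono ?_⟩
  rintro x ⟨x1, x2, x3, x4⟩ ho
  replace x2 : ∀ i, h i x = u i (D.e d x) * xi (D.c d) i (D.e d x) := fun i =>
    (congrArg (h i) ((D.e d).left_inv x1)).symm.trans (x2 i)
  have o := (GLU.mem_off x1).1 ho
  refine ⟨fun i => x2 i ▸ mul_ne_zero (x3 i).1 (o i), ?_⟩
  obtain ⟨b1, b2⟩ := hC a d _ x4.le o
  rw [GLU.rd_e _ x1, K32.xr_exp fun i _ => o i, ← Real.exp_add, Real.exp_le_exp] at b1 b2
  have e : ∑ i, a i * Real.log (normSq (h i x)) =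
      ∑ i, a i * Real.log (normSq (u i (D.e d x))) + K32.lm (D.c d) a (D.e d x) := by
    rw [K32.lm, ← Finset.sum_add_distrib]
    refine Finset.sum_congr rfl fun i _ => ?_
    rw [x2, map_mul, Real.log_mul (normSq_pos.2 (x3 i).1).ne' (normSq_pos.2 (o i)).ne', mul_add]
  have f : |∑ i, a i * Real.log (normSq (u i (D.e d x)))| ≤ B * ∑ i, |a i| := by
    rw [Finset.mul_sum]
    refine (Finset.abs_sum_le_sum_abs _ _).trans (Finset.sum_le_sum fun i _ => ?_)
    rw [abs_mul, mul_comm]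
    exact mul_le_mul_of_nonneg_right (x3 i).2 (abs_nonneg _)
  rw [e, add_mul, abs_le]
  constructor <;> linarith [abs_le.1 f]

end Pool.Agent.Lib.K2
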