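import Pool.Agent.Lib.K2.Blue
import Pool.Agent.Lib.ZL.B_PW

/-! Project k2, row `MDL`: the weight of a linear system has analytic singularities. -/

open scoped Classical Topology ContDiff
open Set Complex Metric Filter

noncomputable section

namespace Pool.Agent.Lib.K2

open Pool.Agent.Lib.SV (E)
open Pool.Agent.Lib.HS32 Pool.Agent.Lib.EX Pool.Agent.Lib.EXS Pool.Agent.Lib.ZL Pool.Agent.Lib.NA

namespace MDL

/-- The squared norm of a family of sections extends smoothly. -/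
theorem ext {n : ℕ} {M : Mf n} [M.Cpt] {ι : Type} [Fintype ι] [DecidableEq ι] (D : Ad M ι)
    {Q : ι → ℤ} {r : ℕ} {s : Fin r → M.X → ℂ} (h : ∀ i, Mer D Q (s i)) :
    ∃ S : M.X → ℝ, M.Sm S ∧ (∀ x, 0 ≤ S x) ∧
      ∀ x ∈ off D, S x = (∑ i, normSq (s i x)) * Real.exp (lw D (fun i => Q i) x) := by
  let F : M.X → ℝ := fun x => (∑ i, normSq (s i x)) * Real.exp (lw D (fun i => Q i) x)
  have k : D.All fun d z => ∃ t : E n → ℝ, ContDiffAt ℝ ∞ t z ∧ 0 ≤ t z ∧
      D.rd (glu D F) d =ᶠ[𝓝 z] t ∧ (Off (D.c d) z → D.rd F d z = t z) := fun d z hz => by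
    choose σ h1 h2 using fun i => h i d z hz
    let t : E n → ℝ := fun y =>
      (∑ i, normSq (σ i y)) * Real.exp (∑ i, Q i * Real.log (PW.gf D d i y))
    have a : ∀ᶠ y in 𝓝 z, ContDiffAt ℝ ∞ t y := by
      filter_upwards [isOpen_ball.eventually_mem hz, eventually_all.2 fun i => (h1 i).eventually_nhds]
        with y hy hσ
      exact (ContDiffAt.sum fun i _ => PW.cd_nsq (PW.cd_hol (hσ i))).mul (ContDiffAt.sum fun i _ =>
        contDiffAt_const.mul ((PW.gf_sm D i hy).log (PW.gf_pos D i hy).ne')).exp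
    have b : ∀ᶠ y in 𝓝 z, Off (D.c d) y → D.rd F d y = t y := by
      filter_upwards [isOpen_ball.eventually_mem hz, eventually_all.2 h2] with y hy hσ ho
      have e : ∀ i, s i ((D.e d).symm y) = _ := fun i => hσ i ho
      have e2 : lw D (fun i => Q i) ((D.e d).symm y) = _ := PW.rd_lw D _ hy ho
      simp only [Ad.rd, F, t, e, e2, MON.xm_neg, map_mul, map_inv₀, ← Finset.mul_sum, Real.exp_add,
        K32.xm_exp fun i _ => ho i]
      field_simp
    exact ⟨t, a.self_of_nhds, mul_nonneg (Finset.sum_nonneg fun _ _ => normSq_nonneg _)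
      (Real.exp_pos _).le, bGLU n M ι D ℝ F d t z hz (a.mono fun _ h => h.continuousAt) b,
      b.self_of_nhds⟩
  refine ⟨glu D F, ((mTR n M).2.2.2.1 ℝ _).2.2 fun x => ?_, fun x => ?_, fun x hx => ?_⟩ <;>
    obtain ⟨d, hd⟩ := GLU.ex_ch D x <;> obtain ⟨t, t1, t2, t3, t4⟩ := k d _ (GLU.mem_B2 hd)
  · exact ⟨_, D.mem d, hd, t1.congr_of_eventuallyEq t3⟩
  · rwa [← GLU.rd_e (glu D F) hd, t3.self_of_nhds]
  · rw [← GLU.rd_e (glu D F) hd, t3.self_of_nhds, ← t4 (hx d hd), GLU.rd_e F hd]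

end MDL

theorem kMDL : St_MDL := by
  intro n M _ ι _ _ D X R j r s ψ hj hs ⟨i, hi⟩ hψ
  obtain ⟨S, s1, s2, s3⟩ := MDL.ext D hs
  have N0 : 0 < R.N := one_pos.trans_le R.N1
  have J0 : 0 < j * R.N := mul_pos (Nat.cast_pos.2 hj) N0
  have p : ∀ x, 1 ≤ ∑ i, normSq (s i x) := fun x =>
    le_of_eq_of_le (by simp [hi]) (Finset.single_le_sum (f := fun i => normSq (s i x))
      (fun _ _ => normSq_nonneg _) (Finset.mem_univ i))
  refine ⟨⟨S, s1, s2, fun x hx => ?_⟩, fun x hx => ?_⟩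
  · rw [s3 x hx, hψ x hx, mul_add, mul_div_cancel₀ _ J0.ne', Real.exp_add,
      Real.exp_log (one_pos.trans_le (p x)), lw, lw, Finset.mul_sum]
    refine congrArg (_ * Real.exp ·) (Finset.sum_congr rfl fun i _ => ?_)
    simp only [Ry.γ, Ry.Q]
    push_cast
    field_simp
  · rw [hψ x hx]
    exact div_nonneg (Real.log_nonneg (p x)) J0.le

end Pool.Agent.Lib.K2
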