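import Pool.Agent.Lib.K2.Blue
import Pool.Agent.Lib.ZL.B_MU

/-! Project k2: the measure. -/

open scoped Classical Topology ContDiff ENNReal
open Set MeasureTheory Complex Metric Filter

set_option linter.unusedSectionVars false

noncomputable section

namespace Pool.Agent.Lib.K2

open Pool.Agent.Lib.SV (E)
open Pool.Agent.Lib.HS32 Pool.Agent.Lib.EX Pool.Agent.Lib.EXS Pool.Agent.Lib.ZL
open Pool.Agent.Lib.ZL.MU (xr_add sub meas)

namespace MUy

variable {n : ℕ} {M : Mf n} {ι : Type} [Fintype ι] [DecidableEq ι] {D : Ad M ι} (X : Cy D)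

theorem chg (d : D.A) (F : M.X → ℝ≥0∞) : ∫⁻ x in (D.e d).source, F x ∂X.μ = ∫⁻ z in B2 n,
    ENNReal.ofReal (normSq (X.w d z) ^ (1 / X.m : ℝ) * xr (D.c d) X.o z) * F ((D.e d).symm z) :=
  X.eta d F

/-- The numerators are bounded above and below on a smaller polydisc. -/
theorem bds {r : ℝ} (hr : r < 2) : ∃ a b : ℝ, 0 < a ∧ 0 < b ∧ ∀ d, ∀ z ∈ closedBall (0 : E n) r,
    a ≤ normSq (X.w d z) ^ (1 / X.m : ℝ) ∧ normSq (X.w d z) ^ (1 / X.m : ℝ) ≤ b := by
  have h : ∀ d, ∀ᶠ a in 𝓝[>] (0 : ℝ), ∀ z ∈ closedBall (0 : E n) r,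
      a ≤ normSq (X.w d z) ^ (1 / X.m : ℝ) ∧ normSq (X.w d z) ^ (1 / X.m : ℝ) ≤ a⁻¹ := fun d => by
    have c : ContinuousOn (fun z => normSq (X.w d z) ^ (1 / X.m : ℝ)) (closedBall (0 : E n) r) :=
      fun z hz => ((continuous_normSq.continuousAt.comp
        (X.whol d z (sub hr hz)).continuousAt).rpow_const (Or.inr (by positivity))).continuousWithinAt
    obtain ⟨a, a0, ha⟩ := (isCompact_closedBall (0 : E n) r).exists_forall_le' c (a := 0)
      fun z hz => Real.rpow_pos_of_pos (normSq_pos.2 (X.wne d z (sub hr hz))) _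
    obtain ⟨b, hb⟩ := (isCompact_closedBall (0 : E n) r).bddAbove_image c
    filter_upwards [Ioo_mem_nhdsGT a0, tendsto_inv_nhdsGT_zero.eventually_ge_atTop b]
      with t h1 h2 z hz
    exact ⟨h1.2.le.trans (ha z hz), (hb (mem_image_of_mem _ hz)).trans h2⟩
  obtain ⟨a, h1, h2⟩ := ((eventually_all.2 h).and self_mem_nhdsWithin).exists
  exact ⟨a, a⁻¹, h2, inv_pos.2 h2, h1⟩

theorem ae_off (ho : IsOpen (off D)) : ∀ᵐ x ∂X.μ, x ∈ off D := by
  have e : (univ : Set M.X) = ⋃ d, (D.e d).source :=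
    (eq_univ_of_forall fun x => mem_iUnion.2 (GLU.ex_ch D x)).symm
  rw [← Measure.restrict_univ (μ := X.μ), e, ae_restrict_iUnion_iff]
  intro d
  rw [ae_iff]
  change (X.μ.restrict _) (off D)ᶜ = 0
  rw [← lintegral_indicator_one ho.measurableSet.compl, chg]
  refine lintegral_eq_zero_of_ae_eq_zero ?_
  filter_upwards [ae_restrict_of_ae (MON.off_ae (D.c d)), ae_restrict_mem measurableSet_ball]
    with z h1 h2
  rw [indicator_of_notMem, mul_zero, Pi.zero_apply]
  rw [notMem_compl_iff, GLU.mem_off (GLU.mem_src d h2), GLU.rinv d h2]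
  exact h1

end MUy

open MUy in
theorem kMU (hPW : ZL.St_PW) : Sy_MU := by
  intro n M _ ι _ _ D X
  obtain ⟨ho, hc, -, -, -, -, -, -, hb, -⟩ := hPW n M ι D
  have ae := ae_off X ho
  refine ⟨ae, fun F _ _ _ f hf => ?_, fun f g h => ?_, fun a ha => ?_, fun r hr A => ?_,
    fun t f ht => ?_, fun f g hf => ?_, fun W f hW => ?_⟩
  · have := hf.aemeasurable (μ := X.μ) ho.measurableSet
    rwa [Measure.restrict_eq_self_of_ae_mem ae] at this
  · exact lintegral_mono_ae (ae.mono fun x hx => ENNReal.ofReal_le_ofReal (h x hx))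
  · obtain ⟨C, -, hC⟩ := hb 1 one_lt_two
    obtain ⟨b', b, -, b0, hw⟩ := bds X one_lt_two
    have e : (univ : Set M.X) = ⋃ d, {x | x ∈ (D.e d).source ∧ ‖D.e d x‖ ≤ 1} :=
      (eq_univ_of_forall fun x => mem_iUnion.2 (hc x)).symm
    rw [Cy.I, ← Measure.restrict_univ (μ := X.μ), e]
    refine ((lintegral_iUnion_le _ _).trans_lt ?_).ne
    rw [tsum_fintype]
    refine ENNReal.sum_lt_top.2 fun d _ => ?_
    rw [← inter_eq_left.2 (show {x | x ∈ (D.e d).source ∧ ‖D.e d x‖ ≤ 1} ⊆ (D.e d).source from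
      fun x hx => hx.1), ← Measure.restrict_restrict (meas d), ← lintegral_indicator (meas d), chg]
    have hi := ((K32.xr_int (D.inj d) (r := a + X.o) ha).const_mul
      (b * Real.exp (C * ∑ i, |a i|))).lintegral_lt_top
    refine (lintegral_mono_ae ?_).trans_lt hi
    filter_upwards [ae_restrict_of_ae (MON.off_ae (D.c d)), ae_restrict_mem measurableSet_ball]
      with z h1 h2
    by_cases h3 : ‖z‖ ≤ 1
    · have p := (MON.xr_pos X.o h1).le
      have hm : (D.e d).symm z ∈ {x | x ∈ (D.e d).source ∧ ‖D.e d x‖ ≤ 1} :=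
        ⟨GLU.mem_src d h2, by rwa [GLU.rinv d h2]⟩
      rw [indicator_of_mem hm,
        ← ENNReal.ofReal_mul (by have := normSq_nonneg (X.w d z); positivity), xr_add _ _ h1]
      refine ENNReal.ofReal_le_ofReal ?_
      have h4 := (hw d z (mem_closedBall_zero_iff.2 h3)).2
      have h5 : Real.exp (lw D a ((D.e d).symm z)) ≤ _ := (hC a d z h3 h1).2
      calc _ ≤ b * xr (D.c d) X.o z * (Real.exp (C * ∑ i, |a i|) * xr (D.c d) a z) := by gcongr
        _ = _ := by ring
    · rw [indicator_of_notMem (fun k => h3 (by have := k.2; rwa [GLU.rinv d h2] at this)), mul_zero]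
      exact bot_le
  · obtain ⟨C, C0, hC⟩ := hb r hr
    obtain ⟨b, b', b0, -, hw⟩ := bds X hr
    refine ⟨Real.exp (C * ∑ i, (A + |X.o i|)) / b, fun a f d ha => ?_⟩
    refine le_trans ?_ (mul_le_mul_right (setLIntegral_le_lintegral (D.e d).source _) _)
    rw [chg, ← lintegral_const_mul' _ _ ENNReal.ofReal_ne_top]
    refine le_trans (lintegral_mono_ae ?_) (lintegral_mono_set (sub hr))
    filter_upwards [ae_restrict_of_ae (MON.off_ae (D.c d)), ae_restrict_mem measurableSet_closedBall]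
      with z h1 h2
    have p := (MON.xr_pos X.o h1).le
    have q := normSq_nonneg (X.w d z)
    rw [← ENNReal.ofReal_mul (by positivity), ← ENNReal.ofReal_mul (by positivity)]
    rcases le_total (f ((D.e d).symm z)) 0 with h3 | h3
    · exact (ENNReal.ofReal_of_nonpos
        (mul_nonpos_of_nonpos_of_nonneg h3 (MON.xr_pos a h1).le)).trans_le bot_le
    refine ENNReal.ofReal_le_ofReal ?_
    have h4 := (hw d z h2).1
    have h5 : _ ≤ _ * Real.exp (lw D (a - X.o) ((D.e d).symm z)) :=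
      (hC (a - X.o) d z (mem_closedBall_zero_iff.1 h2) h1).1
    have h6 : ∑ i, |(a - X.o) i| ≤ ∑ i, (A + |X.o i|) := Finset.sum_le_sum fun i _ =>
      (abs_sub _ _).trans (add_le_add_left (ha i) _)
    have e : xr (D.c d) a z = xr (D.c d) (a - X.o) z * xr (D.c d) X.o z := by
      rw [← xr_add _ _ h1, sub_add_cancel]
    rw [e]
    calc _ ≤ f ((D.e d).symm z) * (Real.exp (C * ∑ i, (A + |X.o i|)) *
          Real.exp (lw D (a - X.o) ((D.e d).symm z)) * xr (D.c d) X.o z) := by
          refine mul_le_mul_of_nonneg_left (mul_le_mul_of_nonneg_right (h5.trans ?_) p) h3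
          gcongr
      _ = Real.exp (C * ∑ i, (A + |X.o i|)) / b * (b * xr (D.c d) X.o z *
          (f ((D.e d).symm z) * Real.exp (lw D (a - X.o) ((D.e d).symm z)))) := by
          field_simp
      _ ≤ _ := by gcongr
  · rw [Cy.I, Cy.I, ← lintegral_const_mul' _ _ ENNReal.ofReal_ne_top]
    exact lintegral_congr fun x => ENNReal.ofReal_mul ht
  · rw [Cy.I, Cy.I, Cy.I, ← lintegral_add_left' hf.ennreal_ofReal]
    exact lintegral_mono fun x => ENNReal.ofReal_add_le
  · rw [Cy.I, ← lintegral_indicator hW]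
    refine lintegral_congr fun x => ?_
    by_cases h : x ∈ W
    · rw [indicator_of_mem h, indicator_of_mem h]
    · rw [indicator_of_notMem h, indicator_of_notMem h, ENNReal.ofReal_zero]

end Pool.Agent.Lib.K2
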