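import Pool.Agent.Lib.K2.Blue
import Pool.Agent.Lib.NA.B_NA

/-! Project k2: the theorem on the manifold layer. -/

open scoped Classical Topology ContDiff ENNReal
open Set MeasureTheory Complex Metric Filter

set_option linter.unusedSectionVars false

noncomputable section

namespace Pool.Agent.Lib.K2

open Pool.Agent.Lib.SV (E)
open Pool.Agent.Lib.HS32 Pool.Agent.Lib.EX Pool.Agent.Lib.EXS Pool.Agent.Lib.ZL Pool.Agent.Lib.NA

namespace NAK

variable {n : ℕ} {M : Mf n} [M.Cpt] {ι : Type} [Fintype ι] [DecidableEq ι] {D : Ad M ι}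
  {X : Cy D} {γ : ι → ℝ} {ψ ψ' : M.X → ℝ}

theorem om_eq (h : ∀ x ∈ off D, ψ x = ψ' x) (c : ℝ) : ∀ x ∈ off D, om D γ ψ c x = om D γ ψ' c x :=
  fun x hx => by rw [om, om, h x hx]

theorem li_le (hMU : Sy_MU) {f g : M.X → ℝ} {y : M.X} (h : ∀ x ∈ off D, f x ≤ g x)
    (hg : X.Li g y) : X.Li f y := by
  obtain ⟨O, hO, hI⟩ := hg
  refine ⟨O, hO, ne_top_of_le_ne_top hI ((hMU n M ι D X).2.2.1 _ _ fun x hx => ?_)⟩
  by_cases k : x ∈ O
  · rw [indicator_of_mem k, indicator_of_mem k]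
    exact h x hx
  · rw [indicator_of_notMem k, indicator_of_notMem k]

theorem nk_eq (hMU : Sy_MU) (h : ∀ x ∈ off D, ψ x = ψ' x) (c₀ : ℝ) :
    X.Nk γ ψ c₀ = X.Nk γ ψ' c₀ :=
  Set.ext fun _ => forall₂_congr fun c _ => not_congr
    ⟨li_le hMU fun x hx => (om_eq h c x hx).ge, li_le hMU fun x hx => (om_eq h c x hx).le⟩

/-- A section that does not vanish at `y` gives integrability near `y`. -/
theorem li_of (hMU : Sy_MU) (hVAL : St_VAL) {Q : ι → ℤ} {G : M.X → ℂ} {c : ℝ} {y : M.X}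
    (hG : MerOn D univ Q G) (hI : X.I (fun x => sq D Q G x * om D γ ψ c x) ≠ ⊤)
    (hy : ¬ Van D Q G y) : X.Li (om D γ ψ c) y := by
  obtain ⟨-, -, -, -, -, -, -, -, -, -, v11, -⟩ := hVAL n M ι D
  obtain ⟨-, -, mono, -, -, cm, -⟩ := hMU n M ι D X
  obtain ⟨a, a0, ha⟩ := v11 univ Q G hG y (mem_univ _) hy
  refine ⟨_, ha, ne_top_of_le_ne_top (ENNReal.mul_ne_top (a := ENNReal.ofReal a⁻¹)
    ENNReal.ofReal_ne_top hI) ?_⟩
  rw [← cm _ _ (inv_pos.2 a0).le]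
  refine mono _ _ fun x hx => ?_
  have o : 0 < om D γ ψ c x := Real.exp_pos _
  have s : 0 ≤ sq D Q G x := mul_nonneg (normSq_nonneg _) (Real.exp_pos _).le
  by_cases k : x ∈ {x | x ∈ off D → a ≤ sq D Q G x}
  · rw [indicator_of_mem k, ← mul_assoc]
    exact le_mul_of_one_le_left o.le ((one_le_inv_mul₀ a0).2 (k hx))
  · rw [indicator_of_notMem k]
    positivity

theorem q_smul (R : Ry X) (q j : ℕ) : q • R.Q j = R.Q (q * j) := by
  funext i
  rw [Pi.smul_apply, nsmul_eq_mul, Ry.Q, Ry.Q]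
  push_cast
  ring

end NAK

theorem kNAK (hPW : ZL.St_PW) (hMU : Sy_MU) (hINT : Sy_INT) (hVAL : NA.St_VAL) (hSTB : Sy_STB)
    (hLC0 : Sy_LC0) (hMDL : St_MDL) (hPWR : Sy_PWR) (hONE : St_ONE) : St_NAK := by
  intro n M _ ι _ _ D X R hNw
  obtain ⟨-, v2, v3, v4, -, -, -, v8, -⟩ := hVAL n M ι D
  obtain ⟨-, -, mono, -⟩ := hMU n M ι D X
  obtain ⟨j, hj, r, s, hs, h1, hbs⟩ := hSTB n M ι D X R
  refine ⟨j, hj, r, s, hs, fun d z hz => ?_⟩
  by_contra hno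
  have hy : ∀ i, Van D (R.Q j) (s i) ((D.e d).symm z) := fun i => by
    refine v3 univ _ _ ((v4 _ _).1 (hs i)) _ (mem_univ _) d (GLU.mem_src d hz) ?_
    rw [GLU.rinv d hz]
    by_contra h0
    obtain ⟨a1, a2⟩ := v2 _ _ _ z (hs i d z hz)
    exact hno ⟨i, _, a1, h0, a2⟩
  obtain ⟨ψ, c₀, hψ, hW, c0, happ, htop, hfin⟩ :=
    hLC0 n M ι D X R j r s _ hj hs h1 hy (NA0.not_off (hbs _ hy).1)
  obtain ⟨hMd, ψ0⟩ := hMDL n M ι D X R j r s ψ hj hs h1 hψ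
  obtain ⟨q, hq⟩ : ∃ q : ℕ, c₀ + 1 < q := exists_nat_gt _
  have q0 : 0 < q := by
    have : (0 : ℝ) < q := by linarith
    exact_mod_cast this
  obtain ⟨C, hC⟩ := hW.2
  obtain ⟨i1, -, i3⟩ := hINT n M ι D X R.γ ψ C R.klt hC
  have hψ' : ∀ x ∈ off D, ψ x = lps (j * R.N) s x := hψ
  have fin : ∀ c < c₀, X.I (om D R.γ (lps (j * R.N) s) c) ≠ ⊤ := fun c hc => by
    obtain ⟨c', c1, c2⟩ := happ (c₀ - c) (sub_pos.2 hc)
    refine ne_top_of_le_ne_top (i1 c c' (fun _ => 1)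
      (by linarith) (fun _ => zero_le_one) (by simpa only [one_mul] using c2))
      (mono _ _ fun x hx => ?_)
    rw [one_mul]
    exact (NAK.om_eq hψ' c x hx).ge
  have hne : (X.Nk R.γ (lps (j * R.N) s) c₀).Nonempty := by
    rw [← NAK.nk_eq hMU hψ']
    by_contra h0
    obtain ⟨c, hc, O, -, hO, hI⟩ := i3 univ (fun _ => 1) c₀ isCompact_univ (fun _ => zero_le_one)
      fun y _ => by
        by_contra k
        refine h0 ⟨y, fun c hc hl => k ⟨c, hc, NAK.li_le hMU (fun x _ => ?_) hl⟩⟩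
        rw [one_mul]
    refine ne_top_of_le_ne_top hI (mono _ _ fun x _ => ?_) (htop c hc)
    rw [indicator_of_mem (hO (mem_univ x)), one_mul]
  obtain ⟨m, m0, f, b, x, xN, hS⟩ := hNw j r s c₀ hj hs h1 fin hne
  rw [← NAK.nk_eq hMU hψ'] at xN hS
  have hqj := NA0.le_mul3 (q := q) hj R.N1
  have hqm := NA0.le_mul3 (q := q) m0 R.N1
  have hv : ∀ i, Van D (R.Q j) (s i) x := fun i => by
    obtain ⟨m1, w1⟩ := v8 univ _ _ q ((v4 _ _).1 (hs i))
    rw [NAK.q_smul] at m1 w1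
    by_contra k
    exact xN q (by linarith) (NAK.li_of hMU hVAL m1 (hfin i q q hqj)
      fun h => k ((w1 x (mem_univ _)).1 h))
  have hJ : (1 : ℝ) ≤ j * R.N := by
    have := NA0.le_mul3 (q := 1) hj R.N1
    rwa [Nat.cast_one, one_mul] at this
  obtain ⟨F, mF, nF⟩ := hONE n M ι D X R ψ (j * R.N) c₀ (q * m) (fun d => f d ^ q) b x hW hJ hMd
    ψ0 c0 (by push_cast; linarith) happ xN (hPWR n M ι D X R _ m q f b x hS)
  exact nF ((hbs x hv).2 _ (Nat.mul_pos q0 m0) F mF)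

end Pool.Agent.Lib.K2
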