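import Pool.Agent.Lib.K2.Blue
import Pool.Agent.Lib.NA.B_ONE

/-! Project k2: one step. -/

open scoped Classical Topology ContDiff ENNReal
open Set MeasureTheory Complex Metric Filter

set_option linter.unusedVariables false
set_option linter.unusedSectionVars false

noncomputable section

namespace Pool.Agent.Lib.K2

open Pool.Agent.Lib.SV (E)
open Pool.Agent.Lib.HS32 Pool.Agent.Lib.EX Pool.Agent.Lib.EXS Pool.Agent.Lib.ZL Pool.Agent.Lib.NA

namespace ONE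

variable {n : ℕ} {M : Mf n} [M.Cpt] {ι : Type} [Fintype ι] [DecidableEq ι] {D : Ad M ι}

theorem i_sum (hU : Sy_MU) (X : Cy D) {τ : Type} (S : Finset τ) {f : τ → M.X → ℝ}
    (hf : ∀ a, AEMeasurable (f a) X.μ) (h : ∀ a, X.I (f a) ≠ ⊤) :
    X.I (fun x => ∑ a ∈ S, f a x) ≠ ⊤ := by
  induction S using Finset.induction_on with
  | empty => simp [Cy.I]
  | insert a S ha ih =>
    simp only [Finset.sum_insert ha]
    exact ne_top_of_le_ne_top (ENNReal.add_ne_top.2 ⟨h a, ih⟩)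
      ((hU n M ι D X).2.2.2.2.2.2.1 _ _ (hf a))

theorem meas_ind (hW : St_PW) (hU : Sy_MU) (X : Cy D) {K W : Set M.X} (hK : IsCompact K)
    (hO : IsOpen W) (hKW : K ⊆ W) {g : M.X → ℝ} (hg : ContinuousOn g (W ∩ off D)) :
    AEMeasurable (K.indicator g) X.μ := by
  have o1 : MeasurableSet (W ∩ off D) := (hO.inter (hW n M ι D).1).measurableSet
  have h1 : AEMeasurable ((W ∩ off D).indicator g) X.μ :=
    (aemeasurable_indicator_iff o1).2 (hg.aemeasurable o1)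
  refine (h1.indicator hK.isClosed.measurableSet).congr ?_
  filter_upwards [(hU n M ι D X).1] with x hx
  by_cases k : x ∈ K
  · rw [indicator_of_mem k, indicator_of_mem k,
      indicator_of_mem (show x ∈ W ∩ off D from ⟨hKW k, hx⟩)]
  · rw [indicator_of_notMem k, indicator_of_notMem k]

end ONE

open NA.ONE in
theorem kONE (hPW : ZL.St_PW) (hMU : Sy_MU) (hINT : Sy_INT) (hEXB : Sy_EXB) (hVAL : NA.St_VAL)
    (hIDS : St_IDS) (hEXT : St_EXT) (hSUP : St_SUP) (hCEC : St_CEC) : St_ONE := by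
  intro n M _ ι _ _ D X R ψ J c₀ m f b x hψ hJ hM h0 hc0 hm hap hx hS
  obtain ⟨ψ1, C, ψ2⟩ := id hψ
  obtain ⟨-, -, -, -, v5, v6, -, -, -, -, v11, -⟩ := hVAL n M ι D
  obtain ⟨i1, -, -⟩ := hINT n M ι D X R.γ ψ C R.klt ψ2
  obtain ⟨⟨r₀, r1, r2⟩, e2, -⟩ := hEXB n M ι D X R
  obtain ⟨-, -, u3, -, -, u6, -⟩ := hMU n M ι D X
  obtain ⟨r, r3, r4⟩ := exists_between (max_lt r1 ((R.B b).lt x hS.mem.2))
  have r5 := (le_max_left _ _).trans_lt r3
  have xb : x ∈ R.Wr b r := ⟨hS.mem.2, (le_max_right _ _).trans_lt r3⟩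
  have md : ∀ d d', MerOn D ((R.B d).W ∩ (R.B d').W) (R.Q m) (f d - f d') := fun d d' =>
    (v6 _ _ _ _ 0 (v5 _ _ _ _ inter_subset_left (hS.mer d))
      (v5 _ _ _ _ inter_subset_right (hS.mer d'))).2.1
  have cp : ∀ d d', IsCompact (R.Kr d r ∩ R.Kr d' r) := fun d d' =>
    ((e2 d r).2 r4).inter ((e2 d' r).2 r4)
  have sb : ∀ d d', R.Kr d r ∩ R.Kr d' r ⊆ (R.B d).W ∩ (R.B d').W := fun d d' y hy =>
    ⟨hy.1.1, hy.2.1⟩
  have ind : ∀ (K : Set M.X) (h : M.X → ℂ) (c : ℝ), (K.indicator fun y =>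
      sq D (R.Q m) h y * om D R.γ ψ c y) = fun y => K.indicator (sq D (R.Q m) h) y *
        om D R.γ ψ c y := fun K h c => funext fun y => indicator_mul_left K _ _
  have ids : ∀ d d', ∀ᶠ c in 𝓝[>] c₀, X.I (fun y => (R.Kr d r ∩ R.Kr d' r).indicator
      (sq D (R.Q m) (f d - f d')) y * om D R.γ ψ c y) ≠ ⊤ := fun d d' => by
    obtain ⟨c', a1, a2⟩ := hIDS n M ι D X R ψ c₀ d (R.Q m) _ _ _ hψ h0 hc0 hap (cp d d')
      ((R.B d).opn.inter (R.B d').opn) (sb d d') inter_subset_left (md d d')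
      fun y hy => hS.glue d d' y ⟨hy.2, hy.1⟩
    rw [ind] at a2
    filter_upwards [Ioc_mem_nhdsGT a1] with c hc
    exact i1 c c' _ hc.2 (fun y => indicator_nonneg (fun z _ => sq_nn _ _ z) y) a2
  obtain ⟨c', a1, a2, a3⟩ := ((eventually_all.2 fun d => eventually_all.2 fun d' => ids d d').and
    (Ioo_mem_nhdsGT (show c₀ < m * R.N - 1 by linarith))).exists
  obtain ⟨c, b1, b2⟩ := exists_between a2
  have fin : X.I (fun y => R.dif r f y * R.dn ψ m c' y) ≠ ⊤ := by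
    have e : (fun y => R.dif r f y * R.dn ψ m c' y) = fun y => ∑ p : D.A × D.A,
        (R.Kr p.1 r ∩ R.Kr p.2 r).indicator (sq D (R.Q m) (f p.1 - f p.2)) y *
          om D R.γ ψ c' y := funext fun y => by
      rw [Fintype.sum_prod_type, Ry.dif, Finset.sum_mul]
      refine Finset.sum_congr rfl fun d _ => ?_
      rw [Finset.sum_mul]
      refine Finset.sum_congr rfl fun d' _ => ?_
      by_cases k : y ∈ R.Kr d r ∩ R.Kr d' r
      · rw [indicator_of_mem k, indicator_of_mem k, Ry.dn, ← mul_assoc]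
        rfl
      · rw [indicator_of_notMem k, indicator_of_notMem k, zero_mul, zero_mul]
    rw [e]
    exact ONE.i_sum hMU X _ (fun p => (ONE.meas_ind hPW hMU X (cp _ _)
      ((R.B p.1).opn.inter (R.B p.2).opn) (sb _ _) (cont_sq hPW (md _ _))).mul
        ((hMU n M ι D X).2.1 ℝ _ (cont_om hPW ψ1.1 c'))) fun p => a1 p.1 p.2
  choose k hk using fun ν : ℕ => hEXT n M ι D X R ψ m J c c' r₀ r f hψ hJ hM (hc0.trans b1.le) b2
    (by linarith) r5 r4 r2 hS.mer fin (1 / ((ν : ℝ) + 1)) (by positivity)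
  have fb : MerOn D (R.Wr b r) (R.Q m) (f b) := v5 _ _ _ _ (fun y hy => hy.1) (hS.mer b)
  refine hCEC n M ι D (fun d => R.Wr d r) (R.Q m) k (f b) b x
    (fun d => ⟨(e2 d r).1, fun y hy => ⟨(r2 d hy).1, (r2 d hy).2.trans r5⟩⟩)
    (fun ν d => (hk ν d).1) (fun d d' K K1 K2 η hη => ?_) xb fb hS.ne fun ν => ?_
  · obtain ⟨A, A0, hA⟩ := hSUP n M ι D X _ K (R.Q m) (R.dn ψ m c) ((e2 d r).1.inter (e2 d' r).1)
      K1 K2 ((Real.continuous_exp.comp_continuousOn (cont_lw hPW _)).mul (cont_om hPW ψ1.1 c))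
      fun y _ => mul_pos (Real.exp_pos _) (Real.exp_pos _)
    have t : Tendsto (fun ν : ℕ => A * (1 / ((ν : ℝ) + 1))) atTop (𝓝 (A * 0)) :=
      tendsto_one_div_add_atTop_nhds_zero_nat.const_mul A
    filter_upwards [t.eventually (ge_mem_nhds (show A * 0 < η by rwa [mul_zero]))] with ν hν y hy
    exact (hA _ _ (by positivity) (v6 _ _ _ _ 0 (v5 _ _ _ _ inter_subset_left (hk ν d).1)
      (v5 _ _ _ _ inter_subset_right (hk ν d').1)).2.1 ((hk ν d).2.2 d') y hy).trans hν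
  · by_contra hv
    obtain ⟨a, a0, ha⟩ := v11 _ _ _ (v6 _ _ _ _ 0 (hk ν b).1 fb).2.1 x xb hv
    refine hx c b1 ⟨{y | y ∈ off D → a ≤ sq D (R.Q m) (k ν b - f b) y} ∩ R.Wr b r,
      inter_mem ha ((e2 b r).1.mem_nhds xb), ne_top_of_le_ne_top ?_
      (u3 _ (fun y => a⁻¹ * (R.Wr b r).indicator
        (fun y => normSq (k ν b y - f b y) * R.dn ψ m c y) y) fun y hy => ?_)⟩
    · rw [u6 _ _ (inv_nonneg.2 a0.le)]
      exact ENNReal.mul_ne_top ENNReal.ofReal_ne_top (hk ν b).2.1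
    by_cases h : y ∈ {y | y ∈ off D → a ≤ sq D (R.Q m) (k ν b - f b) y} ∩ R.Wr b r
    · rw [indicator_of_mem h, indicator_of_mem h.2, Ry.dn, ← mul_assoc, ← mul_assoc]
      refine le_mul_of_one_le_left (om_nn _ _ _ _) ?_
      rw [mul_assoc, ← div_eq_inv_mul, one_le_div a0]
      exact h.1 hy
    · rw [indicator_of_notMem h]
      exact mul_nonneg (inv_nonneg.2 a0.le) (indicator_nonneg (fun z _ => mul_nonneg
        (normSq_nonneg _) (mul_nonneg (Real.exp_pos _).le (om_nn _ _ _ _))) y)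

end Pool.Agent.Lib.K2
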