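import Pool.Agent.Lib.K2.Blue
import Pool.Agent.Lib.NA.B_PKV
import Pool.Agent.Lib.NA.B_WGL
import Pool.Agent.Lib.NA.B_PK0

/-! Project k2, row PKL: peak functions along a fibre of a local model. -/

open scoped Classical Topology ContDiff ENNReal
open Set MeasureTheory Complex Metric Filter

set_option linter.unusedSectionVars false

noncomputable section

namespace Pool.Agent.Lib.K2

open Pool.Agent.Lib.SV (E nsq nsq_nonneg)
open Pool.Agent.Lib.HS32 Pool.Agent.Lib.EX Pool.Agent.Lib.EXS Pool.Agent.Lib.ZL Pool.Agent.Lib.NA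
open Pool.Agent.Lib.EXS.K32

namespace PKL

variable {n : ℕ} {M : Mf n} {ι : Type} [Fintype ι] [DecidableEq ι] {D : Ad M ι} {N : ℕ}
  {p : M.X → E N} {σ : M.X → ℂ} {x : M.X} {W : Set M.X}

/-- The functions that vanish along the fibre of `x`. -/
def hv (p : M.X → E N) (σ : M.X → ℂ) (x y : M.X) : Option (Fin N) → ℂ :=
  fun o => o.elim (σ y) fun j => p y j - p x j

theorem hv_hol {d : D.A} {z : E n} (x : M.X) (hp : HolN (D.rd p d) z) (hσ : HolN (D.rd σ d) z) :
    HolN (D.rd (hv p σ x) d) z := by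
  filter_upwards [hp, hσ] with y h1 h2
  refine differentiableAt_pi.2 fun o => ?_
  cases o with
  | none => exact h2
  | some j => exact (differentiableAt_pi.1 h1 j).sub_const _

theorem hv_cont (h : D.On W fun d z => HolN (D.rd (hv p σ x) d) z) :
    ContinuousOn (fun y => nsq (hv p σ x y)) W := fun y hy => by
  obtain ⟨d, hd⟩ := GLU.ex_ch D y
  exact (PK0.nsq_ca (GLU.cont_rd hd
    (GLU.on_at h hd hy).self_of_nhds.continuousAt)).continuousWithinAt

theorem hv_near {d : D.A} (hd : x ∈ (D.e d).source) (h0 : σ x = 0)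
    (h : HolN (D.rd (hv p σ x) d) (D.e d x)) :
    ∃ C, ∀ᶠ z in 𝓝 (D.e d x), nsq (D.rd (hv p σ x) d z) ≤ C * ‖z - D.e d x‖ ^ 2 := by
  obtain ⟨L, hL⟩ := h.self_of_nhds.isBigO_sub.bound
  have e : D.rd (hv p σ x) d (D.e d x) = 0 := by
    rw [GLU.rd_e _ hd]
    funext o
    cases o with
    | none => exact h0
    | some j => exact sub_self _
  refine ⟨Fintype.card (Option (Fin N)) * L ^ 2, hL.mono fun y h1 => (PK0.nsq_le _).trans ?_⟩
  rw [e, sub_zero] at h1
  rw [mul_assoc, ← mul_pow]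
  gcongr

theorem sq0 (F : M.X → ℂ) (y : M.X) : sq D 0 F y = normSq (F y) := by simp [NA.sq, lw]

theorem one_rep (d : D.A) (z : E n) : ∀ᶠ y in 𝓝 z, Off (D.c d) y →
    D.rd (1 : M.X → ℂ) d y = xm (D.c d) (-0) y * (fun _ => (1 : ℂ)) y :=
  .of_forall fun y _ => by simp [Ad.rd, xm]

theorem one_hol (z : E n) : HolN (fun _ => (1 : ℂ)) z :=
  .of_forall fun _ => differentiableAt_const _

end PKL

open PKL PKV in
theorem kPKL (hPW : ZL.St_PW) (hLEV : ZL.St_LEV) (hWGT : ZL.St_WGT) (hMU : Sy_MU)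
    (hPOG : Sy_POG) (hEXB : Sy_EXB) (hVAL : NA.St_VAL) (hNINT : NA.St_NINT) (hHQW : St_HQW) :
    St_PKL := by
  intro n M _ ι _ _ D X R b r c ψ x O hr hψ hc hx hxo hσ hO hfib hI
  obtain ⟨oo, -, -, -, -, lneg, lanti, lsm, -, hcont, -⟩ := hPW n M ι D
  obtain ⟨-, hmeas, hmono, -, hloc, hmul, hadd, hind⟩ := hMU n M ι D X
  obtain ⟨v1, -, -, -, -, v6, -, -, -, -, v11, -⟩ := hVAL n M ι D
  obtain ⟨-, x2, -, x4, x5, -, -, -, P, P0, hP⟩ := hEXB n M ι D X R
  obtain ⟨-, -, s1, -, s2, s3⟩ := x4 b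
  obtain ⟨Cσ, bσ⟩ := s3 r hr
  obtain ⟨L, L0, hL⟩ := WGT13.exL
  obtain ⟨_, -, hct, -⟩ := hWGT
  obtain ⟨pψ, Cψ, bψ⟩ := hψ
  obtain ⟨Wo, Kc⟩ := x2 b r
  have Kc := Kc hr
  have WK : R.Wr b r ⊆ R.Kr b r := fun y hy => ⟨hy.1, hy.2.le⟩
  have KW : R.Kr b r ⊆ (R.B b).W := fun y hy => hy.1
  have Imul : ∀ {t : ℝ} {f : M.X → ℝ}, 0 ≤ t → X.I f ≠ ⊤ → X.I (fun y => t * f y) ≠ ⊤ :=
    fun ht h => by
      rw [hmul _ _ ht]
      exact ENNReal.mul_ne_top ENNReal.ofReal_ne_top h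
  obtain ⟨K0, hK0⟩ : ∃ K0 : ℕ, K0 = n + ∑ i, P i := ⟨_, rfl⟩
  have lE : ∀ y, lw D ((fun i => (P i : ℝ)) - X.o) y ≤ -lw D R.γ y := fun y => by
    rw [← lneg]
    refine lanti _ _ (fun i => ?_) y
    have := hP i
    simp only [Pi.neg_apply, Pi.sub_apply]
    linarith
  have N0 : 0 < R.N := one_pos.trans_le R.N1
  -- the weight with the pole
  have hh : D.On (R.B b).W fun d z => HolN (D.rd (hv (R.B b).p (R.B b).σ x) d) z :=
    fun d z hz hw => hv_hol x ((R.B b).phol d z hz hw) (s2 d z hz hw)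
  have hc1 := hv_cont hh
  obtain ⟨d, hd⟩ := GLU.ex_ch D x
  obtain ⟨C', hnear⟩ := hv_near hd hσ (GLU.on_at hh hd hx.1)
  have h0 : ∀ y ∈ (R.B b).W, y ∈ off D → hv (R.B b).p (R.B b).σ x y ≠ 0 := fun y h1 h2 k => by
    obtain ⟨a, ha⟩ := GLU.ex_ch D y
    have := (GLU.on_at s1 ha ⟨h1, h2⟩).2
    rw [GLU.rd_e _ ha] at this
    exact this (congrFun k none)
  have h1 : ∀ y ∈ R.Kr b r \ O, hv (R.B b).p (R.B b).σ x y ≠ 0 := fun y hy k =>
    hy.2 (hfib y hy.1.1 (funext fun j => sub_eq_zero.1 (congrFun k (some j))))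
  generalize hv (R.B b).p (R.B b).σ x = V at hh hc1 hnear h0 h1
  obtain ⟨CB, hCB⟩ := Kc.exists_bound_of_continuousOn (hc1.mono KW)
  obtain ⟨c1, c10, hs⟩ := (Kc.diff hO).exists_forall_le' (hc1.mono fun y hy => hy.1.1)
    (a := 0) fun y hy => nsq_pos (h1 y hy)
  obtain ⟨bb, hbb⟩ : ∃ bb : M.X → ℝ, bb = fun y => Real.log (nsq (V y)) := ⟨_, rfl⟩
  obtain ⟨s, es⟩ : ∃ s, s = Real.log c1 := ⟨_, rfl⟩
  have eb : ∀ y ∈ R.Wr b r, y ∈ off D → Real.exp (bb y) = nsq (V y) := fun y h1 h2 => by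
    rw [hbb]
    exact Real.exp_log (nsq_pos (h0 y h1.1 h2))
  have b1 : ∀ y ∈ R.Wr b r, y ∈ off D → bb y ≤ |CB| := fun y h1 h2 => by
    have a1 := Real.add_one_le_exp (bb y)
    rw [eb y h1 h2] at a1
    linarith [le_abs_self CB, (le_abs_self _).trans (hCB y (WK h1))]
  have b2 : ∀ y ∈ R.Wr b r, 1 ≤ s - bb y → y ∈ O := fun y h1 h2 => by_contra fun k => by
    have := Real.log_le_log c10 (hs y ⟨WK h1, k⟩)
    rw [hbb, es] at h2
    linarith
  obtain ⟨ph, hph⟩ : ∃ ph : M.X → ℝ, ph = fun y => c * ψ y +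
    (c + 1) / R.N * Real.log (normSq ((R.B b).σ y)) + K0 * bb y +
    Real.log (Real.exp s + Real.exp (bb y)) := ⟨_, rfl⟩
  obtain ⟨Γ, hΓ⟩ : ∃ Γ : M.X → ℂ, Γ = fun y => (ct (s - bb y) : ℂ) * 1 := ⟨_, rfl⟩
  obtain ⟨β, hβ⟩ : ∃ β : M.X → ℝ, β = fun y =>
    if 2 ≤ s - bb y ∧ s - bb y ≤ 3 then L * normSq (1 : ℂ) else 0 := ⟨_, rfl⟩
  obtain ⟨C1, hC1⟩ : ∃ C1, ∀ y ∈ R.Wr b r, y ∈ off D →
      |-ph y - (-(c * (ψ y + lw D R.γ y)) - lw D R.γ y + -(K0 * bb y))| ≤ C1 := by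
    refine ⟨(c + 1) / R.N * Cσ + (|s| + |(|CB|)| + 1), fun y hy ho => ?_⟩
    have a1 := (bσ y (WK hy)).2 ho
    have a2 := lse (g := 0) (s := s) ((b1 y hy ho).trans_eq (zero_add _).symm)
    have k0 : 0 ≤ (c + 1) / R.N := by positivity
    have a3 := mul_le_mul_of_nonneg_left a1 k0
    rw [← abs_of_nonneg k0, ← abs_mul, abs_of_nonneg k0] at a3
    have e : -ph y - (-(c * (ψ y + lw D R.γ y)) - lw D R.γ y + -(K0 * bb y)) =
        -((c + 1) / R.N * (Real.log (normSq ((R.B b).σ y)) - R.N * lw D R.γ y) +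
          (Real.log (Real.exp (0 + s) + Real.exp (bb y)) - 0)) := by
      simp only [hph, zero_add]
      field_simp
      ring
    rw [e, abs_neg]
    exact (abs_add_le _ _).trans (by linarith)
  have up : ∀ y ∈ R.Wr b r, y ∈ off D → Real.exp (-ph y) ≤
      Real.exp C1 * (om D R.γ ψ c y * Real.exp (-(K0 * bb y))) := fun y hy ho => by
    rw [om, ← Real.exp_add, ← Real.exp_add]
    exact Real.exp_le_exp.2 (by linarith [(abs_le.1 (hC1 y hy ho)).2])
  have lo : ∀ y ∈ R.Wr b r, y ∈ off D → om D R.γ ψ c y * Real.exp (-(K0 * bb y)) ≤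
      Real.exp C1 * Real.exp (-ph y) := fun y hy ho => by
    rw [om, ← Real.exp_add, ← Real.exp_add]
    exact Real.exp_le_exp.2 (by linarith [(abs_le.1 (hC1 y hy ho)).1])
  have J0 : ∀ y, 0 ≤ O.indicator (om D R.γ ψ c) y := fun y =>
    indicator_nonneg (fun z _ => (om_pos _ _ _ z).le) y
  -- the theorem of Hörmander
  have aβ : AEMeasurable β (X.μ.restrict (R.Wr b r)) := by
    have a2 : AEMeasurable (fun y => s - bb y) (X.μ.restrict (R.Wr b r)) := by
      rw [hbb]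
      exact ((hc1.mono (WK.trans KW)).aemeasurable Wo.measurableSet).log.const_sub s
    refine ((aemeasurable_const (b := L * normSq (1 : ℂ))).indicator₀
      (a2.nullMeasurableSet_preimage (measurableSet_Icc (a := (2 : ℝ)) (b := 3)))).congr
      (ae_of_all _ fun y => ?_)
    rw [hβ]
    beta_reduce
    by_cases k : 2 ≤ s - bb y ∧ s - bb y ≤ 3
    · rw [if_pos k, indicator_of_mem (by exact k)]
    · rw [if_neg k, indicator_of_notMem (by exact k)]
  obtain ⟨F, hF, hH⟩ := hHQW n M ι D X R b r hr ph β Γ aβ fun a z hz hw => by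
    have ho : Off (D.c a) z := by
      have := (GLU.mem_off (GLU.mem_src a hz)).1 hw.2
      rwa [GLU.rinv a hz] at this
    obtain ⟨g1, g2⟩ := lv_lg (hh a z hz hw.1.1) (h0 _ hw.1.1 hw.2)
    obtain ⟨g3, g4⟩ := s1 a z hz ⟨hw.1.1, hw.2⟩
    obtain ⟨g5, g6⟩ := lv_log g3 g4
    have g7 := pψ.1 a z hz ho
    have f1 := contDiffAt_const (c := c).mul g7
    have f2 := contDiffAt_const (c := (c + 1) / R.N).mul g5
    have f3 := contDiffAt_const (c := (K0 : ℝ)).mul g1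
    have f4 := (f1.add f2).add f3
    have f5 : ∀ v, 0 ≤ lv (fun y => c * D.rd ψ a y + (c + 1) / R.N *
        Real.log (normSq (D.rd (R.B b).σ a y)) + K0 * Real.log (nsq (D.rd V a y))) z v := fun v => by
      rw [lv_add (f1.add f2) f3, lv_add f1 f2, lv_mul g7, lv_mul g5, lv_mul g1, g6, mul_zero,
        add_zero]
      exact add_nonneg (mul_nonneg hc (pψ.2 a z hz ho v))
        (mul_nonneg (Nat.cast_nonneg _) (g2 v).1)
    have ca : ContDiffAt ℝ ∞ (fun _ : E n => s) z := contDiffAt_const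
    have f6 := fun v => (hLEV n z v).2.1 _ _ ca g1 (lv_const s v).ge (g2 v).1
    subst hph hΓ hβ hbb
    refine ⟨f4.add (f6 0).1, ((hLEV n z 0).2.2 _ _ (ca.sub g1) (hol_cd (one_hol z))).1,
      fun v => ?_, ?_, fun v => WGL.dom36 hLEV L0 hL ca g1 f4 (fun _ => one_hol z)
        (lv_const s v).ge (g2 v).1 (f5 v)⟩
    · refine le_of_le_of_eq ?_ (lv_add f4 (f6 v).1 v).symm
      exact add_nonneg (f5 v) (le_trans (mul_nonneg (by positivity) (normSq_nonneg _)) (f6 v).2)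
    · simp only [Ad.rd]
      split_ifs
      exacts [mul_nonneg L0.le (normSq_nonneg _), le_rfl]
  rw [← hind _ _ Wo.measurableSet, ← hind _ _ Wo.measurableSet] at hH
  obtain ⟨T, hT⟩ : ∃ T : M.X → ℝ,
    T = (R.Wr b r).indicator fun y => normSq (Γ y - F y) * Real.exp (-ph y) := ⟨_, rfl⟩
  rw [← hT] at hH
  have T0 : ∀ y, 0 ≤ T y := fun y => hT ▸ indicator_nonneg
    (fun z _ => mul_nonneg (normSq_nonneg _) (Real.exp_pos _).le) y
  have I1 : X.I T ≠ ⊤ := by
    refine ne_top_of_le_ne_top (ENNReal.mul_ne_top (by simp) (ne_top_of_le_ne_top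
      (Imul (t := L * Real.exp C1 * Real.exp (K0 * (3 - s))) (by positivity) hI)
      (hmono _ _ fun y ho => ?_))) hH
    have := J0 y
    by_cases hy : y ∈ R.Wr b r
    swap
    · rw [indicator_of_notMem hy]
      positivity
    rw [indicator_of_mem hy, hβ]
    beta_reduce
    split_ifs with k
    · have a2 : Real.exp (-(K0 * bb y)) ≤ Real.exp (K0 * (3 - s)) :=
        Real.exp_le_exp.2 (by nlinarith [k.2, Nat.cast_nonneg (α := ℝ) K0])
      have o0 := (om_pos (D := D) R.γ ψ c y).le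
      rw [indicator_of_mem (b2 y hy (by linarith [k.1])), map_one, mul_one]
      calc _ ≤ L * (Real.exp C1 * (om D R.γ ψ c y * Real.exp (-(K0 * bb y)))) :=
            mul_le_mul_of_nonneg_left (up y hy ho) L0.le
        _ ≤ L * (Real.exp C1 * (om D R.γ ψ c y * Real.exp (K0 * (3 - s)))) := by gcongr
        _ = _ := by ring
    · rw [zero_mul]
      positivity
  have I2 : X.I ((R.Wr b r).indicator fun y => NA.sq D 0 F y * om D R.γ ψ c y) ≠ ⊤ := by
    have cl := hcont ℝ _ (lsm R.γ)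
    have a0 : AEMeasurable (om D R.γ ψ c) X.μ :=
      hmeas ℝ _ ((continuousOn_const.mul ((hcont ℝ _ pψ.1).add cl)).neg.sub cl).rexp
    refine ne_top_of_le_ne_top (ne_top_of_le_ne_top (ENNReal.add_ne_top.2
      ⟨Imul two_pos.le hI, Imul (t := 2 * Real.exp C1 * Real.exp (K0 * |CB|)) (by positivity) I1⟩)
      (hadd _ _ ((a0.indicator hO.measurableSet).const_mul 2))) (hmono _ _ fun y ho => ?_)
    have := J0 y
    have := T0 y
    by_cases hy : y ∈ R.Wr b r
    swap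
    · rw [indicator_of_notMem hy]
      positivity
    rw [indicator_of_mem hy, sq0, hT, indicator_of_mem hy]
    have o0 := (om_pos (D := D) R.γ ψ c y).le
    have a1 : om D R.γ ψ c y ≤ Real.exp C1 * Real.exp (K0 * |CB|) * Real.exp (-ph y) := by
      have e1 : 1 ≤ Real.exp (-(K0 * bb y)) * Real.exp (K0 * |CB|) := by
        rw [← Real.exp_add]
        exact Real.one_le_exp (by nlinarith [b1 y hy ho, Nat.cast_nonneg (α := ℝ) K0])
      calc _ ≤ om D R.γ ψ c y * (Real.exp (-(K0 * bb y)) * Real.exp (K0 * |CB|)) :=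
            le_mul_of_one_le_right o0 e1
        _ ≤ Real.exp C1 * Real.exp (-ph y) * Real.exp (K0 * |CB|) := by
            rw [← mul_assoc]
            exact mul_le_mul_of_nonneg_right (lo y hy ho) (Real.exp_pos _).le
        _ = _ := by ring
    have a2 : normSq (Γ y) * om D R.γ ψ c y ≤ O.indicator (om D R.γ ψ c) y := by
      simp only [hΓ, mul_one, normSq_ofReal]
      by_cases k : s - bb y ≤ 2
      · rw [(hct _).2.2.1 k, zero_mul, zero_mul]
        exact J0 y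
      · rw [indicator_of_mem (b2 y hy (by linarith))]
        exact mul_le_of_le_one_left o0 (mul_le_one₀ (hct _).2.1 (hct _).1 (hct _).2.1)
    have a3 := mul_le_mul_of_nonneg_left a1 (normSq_nonneg (Γ y - F y))
    have a4 := mul_le_mul_of_nonneg_right (PKV.nsq_le (Γ y) (F y)) o0
    nlinarith
  have k8 : ∀ y ∈ off D, 1 ≤ Real.exp (c * Cψ) * (om D R.γ ψ c y *
      Real.exp (-lw D ((fun i => (P i : ℝ)) - X.o) y)) := fun y ho => by
    rw [om, ← Real.exp_add, ← Real.exp_add]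
    exact Real.one_le_exp (by nlinarith [lE y, bψ y ho])
  have MF : MerOn D (R.Wr b r) 0 F := by
    have q0 : R.Q 0 = 0 := funext fun i => by simp [Ry.Q]
    rw [← q0]
    refine x5 b r 0 (fun i => P i) F hr.le (fun i hi => by simp [P0 i hi, q0])
      (hPOG n M ι D X _ _ F Wo hF (ne_top_of_le_ne_top (Imul (Real.exp_pos (c * Cψ)).le I2)
        (hmono _ _ fun y ho => ?_)))
    by_cases hy : y ∈ R.Wr b r
    swap
    · rw [indicator_of_notMem hy, indicator_of_notMem hy, mul_zero]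
    have e : (fun i => (((P i : ℕ) : ℤ) : ℝ) - X.o i) = (fun i => (P i : ℝ)) - X.o := by
      funext i
      simp
    rw [indicator_of_mem hy, indicator_of_mem hy, sq0, e, mul_left_comm, om, ← Real.exp_add]
    refine mul_le_mul_of_nonneg_left (Real.exp_le_exp.2 ?_) (normSq_nonneg _)
    nlinarith [lE y, bψ y ho]
  refine ⟨F, MF, I2, fun vF => ?_⟩
  -- the value at the point
  have v := v6 _ 0 1 F 0 (fun a z _ _ => ⟨_, one_hol z, one_rep a z⟩) MF
  obtain ⟨c0, c00, hc0⟩ := v11 _ 0 _ v.2.1 x hx fun k => one_ne_zero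
    ((v1 _ _ _ _ _ (one_hol _) (one_rep d _)).self_of_nhds.symm.trans
      (((v.2.2 x hx).2 k).2 vF d hd))
  have z2 := GLU.mem_B2 hd
  obtain ⟨ρ, r1, r2⟩ := exists_between (mem_ball_zero_iff.1 z2)
  obtain ⟨Cl, hCl⟩ := hloc ρ r2 (∑ i, (P i : ℝ))
  have i1 := hCl (fun i => P i) (fun y => T y *
    Real.exp (-lw D ((fun i => (P i : ℝ)) - X.o) y)) d fun i => by
      rw [Nat.abs_cast]
      exact Finset.single_le_sum (f := fun i => (P i : ℝ)) (fun _ _ => Nat.cast_nonneg _)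
        (Finset.mem_univ i)
  simp only [mul_assoc, ← Real.exp_add, neg_add_cancel, Real.exp_zero, mul_one] at i1
  have h2 : ∀ᶠ z in 𝓝 (D.e d x), (D.e d).symm z ∈ R.Wr b r ∧
      ((D.e d).symm z ∈ off D → c0 ≤ NA.sq D 0 (1 - F) ((D.e d).symm z)) := by
    have := (D.e d).continuousAt_symm (GLU.mem_tgt d z2)
    rw [ContinuousAt, (D.e d).left_inv hd] at this
    exact this.eventually ((Wo.eventually_mem hx).and hc0)
  have ca : ContinuousAt (fun z : E n => C' * ‖z - D.e d x‖ ^ 2) (D.e d x) := by fun_prop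
  obtain ⟨U, O1, O2, O3⟩ := _root_.eventually_nhds_iff.1 (((hnear.and h2).and
    (ca.eventually_le_const (u := Real.exp (s - 3)) (by simpa using Real.exp_pos _))).and
    (isOpen_ball.eventually_mem (mem_ball_zero_iff.2 r1)))
  have i2 := hNINT n ι (D.c d) P K0 (D.e d x) U (fun k => hxo ((GLU.mem_off hd).2 k))
    (O2.mem_nhds O3) (by rw [hK0]; push_cast; rfl)
  obtain ⟨C2, hC2⟩ : ∃ C2, C2 = |C'| ^ K0 * Real.exp C1 * Real.exp (c * Cψ) / c0 := ⟨_, rfl⟩
  have C20 : 0 ≤ C2 := by rw [hC2]; positivity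
  refine absurd i2 (ne_top_of_le_ne_top (ENNReal.mul_ne_top (ENNReal.ofReal_ne_top (r := C2))
    (ne_top_of_le_ne_top (ENNReal.mul_ne_top ENNReal.ofReal_ne_top I1)
      ((lintegral_mono_set fun z hz => ball_subset_closedBall (O1 z hz).2).trans i1))) ?_)
  rw [← lintegral_const_mul' _ _ ENNReal.ofReal_ne_top]
  refine lintegral_mono_ae ?_
  filter_upwards [ae_restrict_mem O2.measurableSet, ae_restrict_of_ae (MON.off_ae (D.c d))]
    with z hz ho
  obtain ⟨⟨⟨k1, k2, k6⟩, k5⟩, k3⟩ := O1 z hz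
  have zb : z ∈ B2 n := ball_subset_ball r2.le k3
  have yo := (GLU.mem_off (GLU.mem_src d zb)).2 (by rwa [GLU.rinv d zb])
  rw [← ENNReal.ofReal_mul C20, ← mul_assoc]
  refine ENNReal.ofReal_le_ofReal (mul_le_mul_of_nonneg_right ?_ (MON.xr_pos _ ho).le)
  have k6 := k6 yo
  simp only [Ad.rd] at k1 ⊢
  rw [← eb _ k2 yo] at k1
  have k4 := pole (K := K0) (norm_nonneg _) k1
  have k5 := Real.exp_le_exp.1 (k1.trans k5)
  generalize (D.e d).symm z = y at k2 k4 k5 k6 yo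
  have k7 : Γ y - F y = (1 - F) y := by
    simp only [hΓ, (hct _).2.2.2 (show 3 ≤ s - bb y by linarith), Pi.sub_apply]
    simp
  have o0 := (om_pos (D := D) R.γ ψ c y).le
  have n0 := normSq_nonneg ((1 - F) y)
  rw [sq0] at k6
  rw [hT, indicator_of_mem k2, k7, hC2, div_mul_eq_mul_div, le_div_iff₀ c00]
  calc _ ≤ |C'| ^ K0 * Real.exp (-(K0 * bb y)) * normSq ((1 - F) y) * 1 := by
        rw [mul_one]
        gcongr
    _ ≤ |C'| ^ K0 * Real.exp (-(K0 * bb y)) * normSq ((1 - F) y) *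
        (Real.exp (c * Cψ) * (om D R.γ ψ c y *
          Real.exp (-lw D ((fun i => (P i : ℝ)) - X.o) y))) := by
        have := k8 y yo
        gcongr
    _ = |C'| ^ K0 * Real.exp (c * Cψ) * normSq ((1 - F) y) *
        Real.exp (-lw D ((fun i => (P i : ℝ)) - X.o) y) *
          (om D R.γ ψ c y * Real.exp (-(K0 * bb y))) := by ring
    _ ≤ |C'| ^ K0 * Real.exp (c * Cψ) * normSq ((1 - F) y) *
        Real.exp (-lw D ((fun i => (P i : ℝ)) - X.o) y) * (Real.exp C1 * Real.exp (-ph y)) := by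
        have := lo y k2 yo
        gcongr
    _ = _ := by ring

end Pool.Agent.Lib.K2
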