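import Pool.Agent.Lib.K2.Blue
import Pool.Agent.Lib.ZL.B_POL
import Pool.Agent.Lib.EXS.B_GLU

/-! Row POG: square integrable functions on an open set have bounded poles. -/

open scoped Classical Topology ENNReal
open Set MeasureTheory Complex Metric Filter

namespace Pool.Agent.Lib.K2

open Pool.Agent.Lib.SV (E)
open Pool.Agent.Lib.HS32 Pool.Agent.Lib.EX Pool.Agent.Lib.EXS Pool.Agent.Lib.ZL

theorem kPOG (hMU : Sy_MU) : Sy_POG := by
  intro n M _ ι _ _ D X W Q F hW hF hi d z hz hw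
  obtain ⟨r, r1, r2⟩ := exists_between (mem_ball_zero_iff.1 hz : ‖z‖ < 2)
  obtain ⟨C, hC⟩ := (hMU n M ι D X).2.2.2.2.1 r r2 (∑ i, |(Q i : ℝ)|)
  have h1 := hC (fun i => Q i) (W.indicator fun x => normSq (F x)) d fun i =>
    Finset.single_le_sum (f := fun i => |(Q i : ℝ)|) (fun _ _ => abs_nonneg _) (Finset.mem_univ i)
  obtain ⟨O, o1, o2, o3⟩ := _root_.eventually_nhds_iff.1 ((GLU.ev_on hW hz hw).and
    (closedBall_mem_nhds_of_mem (mem_ball_zero_iff.2 r1)))
  have e : (fun x => W.indicator (fun x => normSq (F x)) x *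
      Real.exp (lw D ((fun i => (Q i : ℝ)) - X.o) x)) =
      W.indicator fun x => normSq (F x) * Real.exp (lw D (fun i => Q i - X.o i) x) :=
    funext fun x => (indicator_mul_left W _
      fun x => Real.exp (lw D (fun i => Q i - X.o i) x)).symm
  rw [e] at h1
  refine bPOL n ι (D.c d) Q (D.rd F d) z O (D.inj d) (o2.mem_nhds o3) (fun y hy ho => ?_)
    (ne_top_of_le_ne_top (ENNReal.mul_ne_top ENNReal.ofReal_ne_top hi) (le_trans ?_ h1))
  · obtain ⟨⟨a, b⟩, -⟩ := o1 y hy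
    exact hF d y a ⟨b, (GLU.mem_off (GLU.mem_src d a)).2 ((GLU.rinv d a).symm ▸ ho)⟩
  · refine le_trans (setLIntegral_mono' o2.measurableSet fun y hy => le_of_eq ?_)
      (lintegral_mono_set fun y hy => (o1 y hy).2)
    rw [Ad.rd, Ad.rd, indicator_of_mem (o1 y hy).1.2]

end Pool.Agent.Lib.K2
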