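import Pool.Agent.Lib.K2.Blue

/-! Project k2, row PWR: powers of a section over `V`. -/

open scoped Classical Topology
open Set Complex Filter

noncomputable section

namespace Pool.Agent.Lib.K2

open Pool.Agent.Lib.SV (E)
open Pool.Agent.Lib.HS32 Pool.Agent.Lib.EX Pool.Agent.Lib.EXS Pool.Agent.Lib.ZL Pool.Agent.Lib.NA

theorem kPWR (hVAL : St_VAL) : Sy_PWR := by
  intro n M _ ι _ _ D X R V m q f b x h
  obtain ⟨h1, -, -, -, h5, h6, h7, h8, -⟩ := hVAL n M ι D
  have e : R.Q (q * m) = q • R.Q m := by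
    funext i
    simp only [Ry.Q, Pi.smul_apply, nsmul_eq_mul, Nat.cast_mul]
    ring
  have h0 : ∀ Q y, Van D Q 0 y := fun Q y d _ =>
    (h1 (D.c d) Q (D.rd 0 d) (fun _ => 0) (D.e d y) (Eventually.of_forall fun _ =>
      differentiableAt_const _) (Eventually.of_forall fun _ _ => (mul_zero _).symm)).self_of_nhds
  have key : ∀ W Q F G, MerOn D W Q F → MerOn D W Q G → ∀ y ∈ W, Van D Q (F - G) y →
      ∀ p : ℕ, Van D (p • Q) (F ^ p - G ^ p) y := fun W Q F G hF hG y hy hv p => by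
    induction p with
    | zero =>
      rw [pow_zero, pow_zero, sub_self]
      exact h0 _ _
    | succ p ih =>
      have a1 := (h6 W _ _ _ 1 (h8 W Q F p hF).1 (h8 W Q G p hG).1).2.1
      have a2 := h7 W _ _ _ _ hF a1
      have a3 := h7 W _ _ _ _ (h6 W _ _ _ 1 hF hG).2.1 (h8 W Q G p hG).1
      have a4 := ((h6 W _ _ _ 1 a2.1 a3.1).2.2 y hy).1 ((a2.2 y hy).2 (Or.inr ih))
        ((a3.2 y hy).2 (Or.inl hv))
      have a5 : F * (F ^ p - G ^ p) + (1 : ℂ) • ((F - G) * G ^ p) = F ^ (p + 1) - G ^ (p + 1) := by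
        rw [one_smul]
        ring
      rw [a5] at a4
      rw [succ_nsmul']
      exact a4
  refine ⟨fun d => ?_, fun d d' y hy => ?_, h.mem, ?_⟩
  · rw [e]
    exact (h8 _ _ _ q (h.mer d)).1
  · rw [e]
    exact key _ _ _ _ (h5 _ _ _ _ inter_subset_left (h.mer d))
      (h5 _ _ _ _ inter_subset_right (h.mer d')) y hy.2 (h.glue d d' y hy) q
  · rw [e]
    exact fun hv => h.ne (((h8 _ _ _ q (h.mer b)).2 x h.mem.2).1 hv)

end Pool.Agent.Lib.K2
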