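import Pool.Agent.Lib.K2.Blue
import Pool.Agent.Lib.ZL.B_LWC
import Pool.Agent.Lib.ZL.B_LEV

/-! Project k2, row REG: the regularisation of the model functions. -/

open scoped Classical Topology ContDiff ENNReal Matrix
open Set MeasureTheory Complex Metric Filter

set_option linter.unusedSectionVars false

noncomputable section

namespace Pool.Agent.Lib.K2

open Pool.Agent.Lib.SV (E)
open Pool.Agent.Lib.HS32 Pool.Agent.Lib.EX Pool.Agent.Lib.EXS Pool.Agent.Lib.ZL
open Pool.Agent.Lib.EXS.K32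

namespace REG

variable {n : ℕ} {M : Mf n} {ι : Type} [Fintype ι] [DecidableEq ι] (D : Ad M ι)

/-- The norm of a component. -/
def sg (i : ι) (x : M.X) : ℝ := ∑ d, D.χ d x * normSq (xi (D.c d) i (D.e d x))

theorem sg_nn (i : ι) (x : M.X) : 0 ≤ sg D i x :=
  Finset.sum_nonneg fun a _ => mul_nonneg (D.nn a _) (normSq_nonneg _)

variable {d : D.A} {z : E n}

theorem sg_ev (i : ι) (hz : z ∈ B2 n) :
    D.rd (sg D i) d =ᶠ[𝓝 z] fun y => PW.gf D d i y * normSq (xi (D.c d) i y) := by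
  filter_upwards [isOpen_ball.eventually_mem hz] with w hw using PW.gf_rep D i hw

theorem sg_cd [M.Cpt] (i : ι) (hz : z ∈ B2 n) : ContDiffAt ℝ ∞ (D.rd (sg D i) d) z :=
  ((PW.gf_sm D i hz).mul (PW.cd_nsq (PW.cd_hol
    (.of_forall fun w => MON.diff_xi (D.c d) i w)))).congr_of_eventuallyEq (sg_ev D i hz)

theorem sg_pos (i : ι) (hz : z ∈ B2 n) (ho : Off (D.c d) z) : 0 < D.rd (sg D i) d z := by
  rw [(sg_ev D i hz).self_of_nhds]
  exact mul_pos (PW.gf_pos D i hz) (normSq_pos.2 (ho i))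

theorem sg_off (i : ι) {x : M.X} (hx : x ∈ off D) : 0 < sg D i x := by
  obtain ⟨d, hd⟩ := GLU.ex_ch D x
  simpa only [GLU.rd_e _ hd] using sg_pos D i (GLU.mem_B2 hd) (hx d hd)

theorem sm_of {f : M.X → ℝ} (h : D.All fun d z => ContDiffAt ℝ ∞ (D.rd f d) z) : M.Sm f :=
  ((mTR n M).2.2.2.1 ℝ f).2.2 fun x =>
    let ⟨d, hd⟩ := GLU.ex_ch D x
    ⟨_, D.mem d, hd, h d _ (GLU.mem_B2 hd)⟩

/-- The curvature of the components is bounded. -/
theorem curv [M.Cpt] {g : M.Fam (Mat n)} (hg : M.Met g) : ∃ C, 0 ≤ C ∧ OA D fun d z =>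
    ∀ i v, 0 ≤ fq D g d z v ∧ lv (D.rd (fun x => Real.log (sg D i x)) d) z v ≤ C * fq D g d z v := by
  have sub : closedBall (0 : E n) 1 ⊆ B2 n := closedBall_subset_ball one_lt_two
  have hl : ∀ d i, ∀ z ∈ B2 n, ContDiffAt ℝ ∞ (fun y => Real.log (PW.gf D d i y)) z :=
    fun d i z hz => (PW.gf_sm D i hz).log (PW.gf_pos D i hz).ne'
  choose B B0 hB using fun p : D.A × ι => LWC.bd (isCompact_closedBall (0 : E n) 1) fun z hz =>
    hl p.1 p.2 z (sub hz)
  choose c c0 hc using fun d : D.A => BBD.low (isCompact_closedBall (0 : E n) 1) (T := g (D.e d))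
    (fun z hz => hg.sm _ (D.mem d) z (GLU.mem_tgt d (sub hz)))
    fun z hz => hg.pos _ (D.mem d) z (GLU.mem_tgt d (sub hz))
  have p0 : ∀ p : D.A × ι, 0 ≤ B p / c p.1 := fun p => div_nonneg (B0 p) (c0 _).le
  refine ⟨∑ p : D.A × ι, B p / c p.1, Finset.sum_nonneg fun p _ => p0 p, fun d z hz ho i v => ?_⟩
  have hx := GLU.mem_src (D := D) d hz
  have hr := GLU.rinv (D := D) d hz
  have xo : (D.e d).symm z ∈ off D := (GLU.mem_off hx).2 (by rwa [hr])
  generalize (D.e d).symm z = x at hx hr xo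
  subst hr
  obtain ⟨b, hb⟩ := PW.ex1 D x
  obtain ⟨h1, h2⟩ := D.supp b x hb
  have hz' := GLU.mem_B2 h1
  have ho' := xo b h1
  have s1 : ContDiffAt ℝ ∞ (D.rd (fun x => Real.log (sg D i x)) b) (D.e b x) :=
    (sg_cd D i hz').log (sg_pos D i hz' ho').ne'
  have e1 : lv (D.rd (fun x => Real.log (sg D i x)) d) (D.e d x) v =
      lv (D.rd (fun x => Real.log (sg D i x)) b) (D.e b x) (M.J (D.e b) (D.e d) x *ᵥ v) :=
    (congrArg (nq · v) (lv_tr (u := fun x => Real.log (sg D i x)) (D.mem b) (D.mem d) h1 hx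
      s1)).trans (BBD.nq_conj _ _ _)
  have e2 : fq D g d (D.e d x) v = nq (g (D.e b) (D.e b x)) (M.J (D.e b) (D.e d) x *ᵥ v) :=
    (congrArg (nq · v) (hg.cmp _ (D.mem b) _ (D.mem d) x h1 hx)).trans (BBD.nq_conj _ _ _)
  rw [e1, e2]
  generalize M.J (D.e b) (D.e d) x *ᵥ v = w
  have l := lv_log (f := xi (D.c b) i) (z := D.e b x) (.of_forall fun w => MON.diff_xi _ i w) (ho' i)
  have e3 : D.rd (fun x => Real.log (sg D i x)) b =ᶠ[𝓝 (D.e b x)]
      fun y => Real.log (PW.gf D b i y) + Real.log (normSq (xi (D.c b) i y)) := by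
    filter_upwards [sg_ev D i hz', isOpen_ball.eventually_mem hz', PW.off_ev _ ho'] with y a a1 a2
    exact (congrArg Real.log a).trans (Real.log_mul (PW.gf_pos D i a1).ne' (normSq_pos.2 (a2 i)).ne')
  rw [lv_congr e3, lv_add (hl b i _ hz') l.1, l.2, add_zero]
  have m := mem_closedBall_zero_iff.2 h2
  have a1 := hc b _ m w
  have a0 : 0 ≤ nq (g (D.e b) (D.e b x)) w := (mul_nonneg (c0 b).le (sq_nonneg _)).trans a1
  refine ⟨a0, (abs_le.1 (hB (b, i) _ m w)).2.trans ?_⟩
  calc B (b, i) * ‖w‖ ^ 2 = B (b, i) / c b * (c b * ‖w‖ ^ 2) := by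
        rw [← mul_assoc, div_mul_cancel₀ _ (c0 b).ne']
    _ ≤ B (b, i) / c b * nq (g (D.e b) (D.e b x)) w := mul_le_mul_of_nonneg_left a1 (p0 (b, i))
    _ ≤ _ := mul_le_mul_of_nonneg_right (Finset.single_le_sum (f := fun p : D.A × ι => B p / c p.1)
      (fun p _ => p0 p) (Finset.mem_univ (b, i))) a0

theorem lv_reg {f : E n → ℝ} {δ : ℝ} (hf : ContDiffAt ℝ ∞ f z) (h0 : 0 < f z) (hδ : 0 < δ) (v : E n) :
    lv (fun y => Real.log (f y)) z v ≤ lv (fun y => Real.log (f y + δ)) z v +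
      δ / (f z + δ) * lv (fun y => Real.log (f y)) z v := by
  have a := LEV.lv_log36 hf (contDiffAt_const (c := δ)) (add_pos h0 hδ) v
  have b := LEV.lv_log36 hf (contDiffAt_const (c := 0)) (by rwa [add_zero]) v
  simp only [lv_const, fderiv_fun_const, Pi.zero_apply, ContinuousLinearMap.zero_apply, add_zero,
    mul_zero] at a b
  rw [a, b, ← sub_nonneg]
  generalize fderiv ℝ f z v = p
  generalize fderiv ℝ f z (I • v) = q
  generalize lv f z v = L
  generalize f z = s at h0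
  refine le_of_le_of_eq (b := δ * (p ^ 2 + q ^ 2) / (4 * s * (s + δ) ^ 2)) (by positivity) ?_
  field_simp
  ring

theorem step {s δ : ℝ} (hs : 0 ≤ s) (hδ : 0 < δ) :
    Real.log (s + δ) - Real.log (s + 2 * δ) ≤ -(δ / (s + δ) / 2) := by
  have p : 0 < s + δ := by linarith
  have q : 0 < s + 2 * δ := by linarith
  rw [← Real.log_div p.ne' q.ne']
  refine (Real.log_le_sub_one_of_pos (div_pos p q)).trans ?_
  rw [div_sub_one q.ne', div_div, ← neg_div, div_le_div_iff₀ q (by positivity)]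
  nlinarith [mul_nonneg hs hδ.le]

theorem one_sub {S R y : ℝ} (h0 : 0 ≤ S) (hR : S ≤ R) (hy : y ≤ -(S / 2)) :
    S ≤ (2 + R) * (1 - Real.exp y) := by
  have a := Real.add_one_le_exp (S / 2)
  have b : Real.exp y * Real.exp (S / 2) ≤ 1 := by
    rw [← Real.exp_add]; exact Real.exp_le_one_iff.2 (by linarith)
  have c := Real.exp_pos y
  have d : Real.exp y ≤ 1 := Real.exp_le_one_iff.2 (by linarith)
  nlinarith [mul_le_mul_of_nonneg_left a c.le, mul_nonneg (sub_nonneg.2 hR) (sub_nonneg.2 d)]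

end REG

open REG in
theorem kREG (hPW : St_PW) : St_REG := by
  intro n M _ ι _ _ D g r hg hr
  obtain ⟨C, C0, hC⟩ := curv D hg
  have R0 : 0 ≤ ∑ i, r i := Finset.sum_nonneg fun i _ => hr i
  have dp : ∀ j : ℕ, (0 : ℝ) < (1 / 2) ^ j := fun j => by positivity
  have de : ∀ j : ℕ, ((1 : ℝ) / 2) ^ j = 2 * (1 / 2) ^ (j + 1) := fun j => by rw [pow_succ]; ring
  have pp : ∀ i x j, 0 < sg D i x + (1 / 2) ^ j := fun i x j =>
    add_pos_of_nonneg_of_pos (sg_nn D i x) (dp j)
  have cd : ∀ (i) (j : ℕ) d, ∀ z ∈ B2 n,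
      ContDiffAt ℝ ∞ (fun y => Real.log (D.rd (sg D i) d y + (1 / 2) ^ j)) z := fun i j d z hz =>
    ((sg_cd D i hz).add contDiffAt_const).log (pp i _ j).ne'
  refine ⟨C * (2 + ∑ i, r i), fun j x => ∑ i, r i * Real.log (sg D i x + (1 / 2) ^ j),
    by positivity, fun j => sm_of D fun d z hz => ?_, fun j x => ?_, fun j x hx => ?_,
    fun K hK hs => ?_, fun j d z hz ho v => ?_⟩
  · exact ContDiffAt.sum fun i _ => contDiffAt_const.mul (cd i j d z hz)
  · refine Finset.sum_le_sum fun i _ => mul_le_mul_of_nonneg_left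
      (Real.log_le_log (pp i x _) ?_) (hr i)
    linarith [de j, dp (j + 1)]
  · exact Finset.sum_le_sum fun i _ => mul_le_mul_of_nonneg_left
      (Real.log_le_log (sg_off D i hx) (le_add_of_nonneg_right (dp j).le)) (hr i)
  · have ct : ContinuousOn (fun x => ∑ i, r i / sg D i x) K :=
      continuousOn_finsetSum _ fun i _ => continuousOn_const.div
        (((mTR n M).2.2.2.1 ℝ _).1 (sm_of D fun d z hz => sg_cd D i hz)).continuousOn
        fun x hx => (sg_off D i (hs hx)).ne'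
    obtain ⟨A, hA⟩ := hK.exists_bound_of_continuousOn ct
    have t := (tendsto_pow_atTop_nhds_zero_of_lt_one (r := (1 / 2 : ℝ)) (by norm_num)
      (by norm_num)).mul_const A
    rw [zero_mul] at t
    filter_upwards [t.eventually (Iio_mem_nhds one_pos)] with j hj x hx
    have a := mul_le_mul_of_nonneg_left ((le_abs_self _).trans (hA x hx)) (dp j).le
    have b : ∑ i, r i * Real.log (sg D i x + (1 / 2) ^ j) ≤
        ∑ i, (r i * Real.log (sg D i x) + (1 / 2) ^ j * (r i / sg D i x)) := by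
      refine Finset.sum_le_sum fun i _ => ?_
      have p := sg_off D i (hs hx)
      have := Real.log_le_sub_one_of_pos (div_pos (pp i x j) p)
      rw [Real.log_div (pp i x j).ne' p.ne', add_div, div_self p.ne'] at this
      have := mul_le_mul_of_nonneg_left this (hr i)
      rw [show (1 / 2 : ℝ) ^ j * (r i / sg D i x) = r i * ((1 / 2) ^ j / sg D i x) by ring]
      linarith
    rw [Finset.sum_add_distrib, ← Finset.mul_sum] at b
    exact b.trans (add_le_add le_rfl (a.trans hj.le))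
  · have c0 : ∀ i, ContDiffAt ℝ ∞ (fun y => Real.log (D.rd (sg D i) d y)) z := fun i =>
      (sg_cd D i hz).log (sg_pos D i hz ho).ne'
    have e0 := lv_sum (s := Finset.univ) (fun i _ => (contDiffAt_const (c := r i)).mul (c0 i)) v
    have e1 := lv_sum (s := Finset.univ)
      (fun i _ => (contDiffAt_const (c := r i)).mul (cd i (j + 1) d z hz)) v
    simp only [lv_mul (c0 _)] at e0
    simp only [lv_mul (cd _ (j + 1) d z hz)] at e1
    refine e0.trans_le (le_of_le_of_eq ?_ (congrArg (· + _) e1.symm))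
    obtain ⟨x, hx⟩ : ∃ x, x = (D.e d).symm z := ⟨_, rfl⟩
    have t0 : ∀ i, 0 ≤ (1 / 2) ^ (j + 1) / (sg D i x + (1 / 2) ^ (j + 1)) := fun i =>
      div_nonneg (dp _).le (pp i x _).le
    have k := one_sub (S := ∑ i, r i * ((1 / 2) ^ (j + 1) / (sg D i x + (1 / 2) ^ (j + 1))))
      (R := ∑ i, r i) (y := ∑ i, r i * Real.log (sg D i x + (1 / 2) ^ (j + 1)) -
        ∑ i, r i * Real.log (sg D i x + (1 / 2) ^ j))
      (Finset.sum_nonneg fun i _ => mul_nonneg (hr i) (t0 i))
      (Finset.sum_le_sum fun i _ => mul_le_of_le_one_right (hr i)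
        ((div_le_one (pp i x _)).2 (le_add_of_nonneg_left (sg_nn D i x)))) (by
        rw [← Finset.sum_sub_distrib, Finset.sum_div, ← Finset.sum_neg_distrib]
        refine Finset.sum_le_sum fun i _ => ?_
        have := mul_le_mul_of_nonneg_left (step (sg_nn D i x) (dp (j + 1))) (hr i)
        rw [← de j] at this
        linarith)
    rcases isEmpty_or_nonempty ι with hι | ⟨⟨i0⟩⟩
    · simp [Ad.rd]
    have f0 := (hC d z hz ho i0 v).1
    have k1 := mul_le_mul_of_nonneg_left k (mul_nonneg C0 f0)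
    have k2 : ∑ i, r i * lv (fun y => Real.log (D.rd (sg D i) d y)) z v ≤
        ∑ i, (r i * lv (fun y => Real.log (D.rd (sg D i) d y + (1 / 2) ^ (j + 1))) z v +
          C * fq D g d z v * (r i * ((1 / 2) ^ (j + 1) / (sg D i x + (1 / 2) ^ (j + 1))))) := by
      refine Finset.sum_le_sum fun i _ => ?_
      have a := lv_reg (sg_cd D i hz) (sg_pos D i hz ho) (dp (j + 1)) v
      have b := mul_le_mul_of_nonneg_left (hC d z hz ho i v).2 (t0 i)
      have c := mul_le_mul_of_nonneg_left (a.trans (add_le_add le_rfl (hx ▸ b))) (hr i)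
      rw [hx]
      refine c.trans_eq ?_
      simp only [Ad.rd]
      ring
    rw [Finset.sum_add_distrib, ← Finset.mul_sum] at k2
    refine k2.trans (add_le_add le_rfl (k1.trans_eq ?_))
    simp only [Ad.rd, hx]
    ring

end Pool.Agent.Lib.K2
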