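import Pool.Agent.Lib.K2.Blue
import Pool.Agent.Lib.NA.B_STB

/-! Project k2, row STB: the stable base locus. -/

open scoped Classical Topology ContDiff ENNReal
open Set MeasureTheory Complex Metric Filter

noncomputable section

namespace Pool.Agent.Lib.K2

open Pool.Agent.Lib.SV (E)
open Pool.Agent.Lib.HS32 Pool.Agent.Lib.EX Pool.Agent.Lib.EXS Pool.Agent.Lib.ZL Pool.Agent.Lib.NA

open NA.STB in
theorem kSTB (hUPB : ZL.St_UPB) (hVAL : St_VAL) (hDCC1 : St_DCC1) : Sy_STB := by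
  intro n M _ ι _ _ D X R
  obtain ⟨S, hS⟩ := fin hUPB hVAL hDCC1
    (τ := {p : ℕ × (M.X → ℂ) // 0 < p.1 ∧ Mer D (R.Q p.1) p.2})
    (fun a => R.Q a.1.1) (fun a => a.1.2) fun a => a.2.2
  obtain ⟨v1, -, -, v4, -, -, -, v8, -⟩ := hVAL n M ι D
  set j := ∏ a ∈ S, a.1.1
  have hj : 0 < j := Finset.prod_pos fun a _ => a.2.1
  have hQ : ∀ i, 0 ≤ R.Q j i := fun i => by
    rw [Ry.Q]
    positivity
  have e : ∀ a : S, (j / a.1.1.1) • R.Q a.1.1.1 = R.Q j := fun a => funext fun i => by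
    have h := Nat.div_mul_cancel (Finset.dvd_prod_of_mem (fun a => a.1.1) a.2)
    simp only [Ry.Q, Pi.smul_apply, nsmul_eq_mul, ← mul_assoc, ← Nat.cast_mul]
    exact congrArg (fun k : ℕ => (k : ℤ) * R.k i) h
  let s : Option S → M.X → ℂ := fun o => o.elim 1 fun a => a.1.1.2 ^ (j / a.1.1.1)
  have w := fun a : S => v8 univ _ _ (j / a.1.1.1) ((v4 _ _).1 a.1.2.2)
  refine ⟨j, hj, _, s ∘ (Fintype.equivFin (Option S)).symm, fun i => ?_,
    ⟨Fintype.equivFin _ none, by simp [s]⟩, fun y hy => ?_⟩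
  · rw [Function.comp_apply]
    rcases (Fintype.equivFin (Option S)).symm i with _ | a
    · exact fun d z _ => ⟨_, hol_xm _ hQ z, one_eq d _ z⟩
    · exact e a ▸ (v4 _ _).2 (w a).1
  · have hy' : ∀ o, Van D (R.Q j) (s o) y := fun o => by
      simpa using hy (Fintype.equivFin _ o)
    refine ⟨?_, fun m hm F hF => hS y (fun a ha => ?_) ⟨(m, F), hm, hF⟩⟩
    · obtain ⟨d, hd⟩ := GLU.ex_ch D y
      have h0 := (v1 _ _ _ _ _ (hol_xm _ hQ (D.e d y)) (one_eq d _ _)).self_of_nhds.symm.trans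
        (hy' none d hd)
      obtain ⟨i, -, hi⟩ := Finset.prod_eq_zero_iff.1 h0
      refine ⟨i, Nat.pos_of_ne_zero fun hk => ?_, d, hd, eq_zero_of_zpow_eq_zero hi⟩
      simp [Ry.Q, hk] at hi
    · exact ((w ⟨a, ha⟩).2 y (mem_univ y)).1 ((e ⟨a, ha⟩).symm ▸ hy' (some ⟨a, ha⟩))

end Pool.Agent.Lib.K2
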