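import Pool.Agent.Lib.K2.Blue
import Pool.Agent.Lib.ZL.B_POL
import Pool.Agent.Lib.SV.Sub85

/-! Project k2, row SUP: from the square mean to the supremum. -/

open scoped Classical Topology ContDiff ENNReal
open Set MeasureTheory Complex Metric Filter

noncomputable section

namespace Pool.Agent.Lib.K2

open Pool.Agent.Lib.SV (E nsq)
open Pool.Agent.Lib.HS32 Pool.Agent.Lib.EX Pool.Agent.Lib.EXS Pool.Agent.Lib.ZL Pool.Agent.Lib.NA

namespace SUP

theorem euc {n : ℕ} (z₀ : E n) {R : ℝ} (R0 : 0 < R) : ∃ (ε : ℝ) (C : ℝ), 0 < ε ∧ ε ≤ R ∧ 0 ≤ C ∧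
    ∀ (s : E n → ℂ) (B : ℝ), 0 ≤ B → (∀ y ∈ closedBall z₀ R, DifferentiableAt ℂ s y) →
      ∫⁻ y in closedBall z₀ R ∩ {y | ∀ j, ε ≤ ‖y j‖}, ENNReal.ofReal (normSq (s y)) ≤
        ENNReal.ofReal B → ∀ w ∈ ball z₀ ε, normSq (s w) ≤ C * B := by
  obtain ⟨ρ, ⟨ρ0, ρ1⟩, hρ⟩ := (Ioo_infinite (half_pos R0)).exists_notMem_finite
    (finite_range fun j => ‖z₀ j‖)
  have h1 : ∀ᶠ ε in 𝓝[>] (0 : ℝ), ∀ j, 3 * ε < |‖z₀ j‖ - ρ| :=
    eventually_all.2 fun j => eventually_nhdsWithin_of_eventually_nhds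
      ((continuous_const.mul continuous_id).continuousAt.eventually_lt continuousAt_const (by
        simpa using sub_ne_zero.2 fun h => hρ ⟨j, h⟩))
  obtain ⟨ε, e1, e0, e2⟩ := (h1.and (Ioo_mem_nhdsGT (show (0 : ℝ) < R / 4 by linarith))).exists
  have vt : volume (ball (0 : E n) ε) ≠ ⊤ := measure_ball_lt_top.ne
  have v0 := ENNReal.toReal_pos (measure_ball_pos volume (0 : E n) e0).ne' vt
  refine ⟨ε, (volume (ball (0 : E n) ε)).toReal⁻¹, e0, by linarith, by positivity,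
    fun s B B0 hs hI w hw => ?_⟩
  have nt : ∀ t : ℂ, ‖t‖ ≤ ρ → ∀ y ∈ ball (w + fun _ => t) ε, y ∈ closedBall z₀ R := fun t ht y hy => by
    have a1 : ‖(fun _ => t : E n)‖ ≤ ρ := (pi_norm_le_iff_of_nonneg ρ0.le).2 fun _ => ht
    have a2 := dist_triangle4 y (w + fun _ => t) w z₀
    rw [dist_self_add_left] at a2
    rw [mem_ball] at hy hw
    exact mem_closedBall.2 (by linarith)
  have hL : Differentiable ℂ fun t : ℂ => w + fun _ : Fin n => t := by fun_prop
  have key := norm_le_of_forall_mem_frontier_norm_le (f := fun t : ℂ => s (w + fun _ => t))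
    (U := ball 0 ρ) isBounded_ball (DifferentiableOn.diffContOnCl fun t ht =>
      ((hs _ (nt t (by simpa [closure_ball _ ρ0.ne'] using ht) _ (mem_ball_self e0))).comp t
        (hL t)).differentiableWithinAt)
    (C := √((volume (ball (0 : E n) ε)).toReal⁻¹ * B)) (fun t ht => ?_)
    (subset_closure (mem_ball_self ρ0))
  · rw [normSq_eq_norm_sq]
    have k : (w + fun _ => 0) = w := add_zero w
    rw [k] at key
    exact (Real.le_sqrt (norm_nonneg _) (by positivity)).1 key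
  · rw [frontier_ball _ ρ0.ne', mem_sphere_zero_iff_norm] at ht
    have s1 := SV.H85.sub_mean volume (f := s) (z := w + fun _ => t) (r := ε) two_pos
      fun y hy => (hs y (nt t ht.le y hy)).differentiableWithinAt
    simp only [Real.rpow_two, ← normSq_eq_norm_sq] at s1
    have s2 := s1.trans ((lintegral_mono_set (t := closedBall z₀ R ∩ {y | ∀ j, ε ≤ ‖y j‖})
      fun y hy => ⟨nt t ht.le y hy, fun j => by
      have b1 := (dist_le_pi_dist y _ j).trans_lt (mem_ball.1 hy)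
      have b2 := (dist_le_pi_dist w _ j).trans_lt (mem_ball.1 hw)
      have b3 := abs_norm_sub_norm_le (z₀ j) (-t)
      have b4 := norm_add₃_le (a := y j) (b := w j + t - y j) (c := z₀ j - w j)
      rw [dist_comm, dist_eq_norm] at b1 b2
      rw [norm_neg, ht, sub_neg_eq_add] at b3
      rw [show y j + (w j + t - y j) + (z₀ j - w j) = z₀ j + t by ring] at b4
      have b5 : ‖w j + t - y j‖ < ε := b1
      linarith [e1 j]⟩).trans hI)
    rw [Measure.addHaar_ball_center, ← ENNReal.ofReal_toReal vt,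
      ← ENNReal.ofReal_mul (normSq_nonneg _), ENNReal.ofReal_le_ofReal_iff B0] at s2
    refine Real.le_sqrt_of_sq_le ?_
    rw [← normSq_eq_norm_sq, inv_mul_eq_div, le_div_iff₀ v0]
    exact s2

end SUP

theorem kSUP (hPW : ZL.St_PW) (hMU : Sy_MU) (hV : NA.St_VAL) : St_SUP := by
  intro n M _ ι _ _ D X W K Q ϖ hW hK KW cϖ pϖ
  obtain ⟨-, cov, -, lsub, -, -, -, lsm, lx, lc, -⟩ := hPW n M ι D
  obtain ⟨A, -, hA⟩ := lx (3 / 2) (by norm_num)
  obtain ⟨C₂, h₂⟩ := (hMU n M ι D X).2.2.2.2.1 (3 / 2) (by norm_num) (∑ i, |X.o i|)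
  refine hK.induction_on (p := fun S => ∃ C : ℝ, 0 ≤ C ∧ ∀ (h : M.X → ℂ) (η : ℝ), 0 ≤ η →
    MerOn D W Q h → X.I (W.indicator fun x => normSq (h x) * ϖ x) ≤ ENNReal.ofReal η →
      ∀ x ∈ S ∩ off D, sq D Q h x ≤ C * η) ⟨0, le_rfl, fun _ _ _ _ _ x hx => hx.1.elim⟩
    (fun S T hS ⟨C, C0, h⟩ => ⟨C, C0, fun g η a b c x hx => h g η a b c x ⟨hS hx.1, hx.2⟩⟩)
    (fun S T ⟨C, C0, h⟩ ⟨C', C1, h'⟩ => ⟨C + C', add_nonneg C0 C1, fun g η a b c x hx => ?_⟩)
    fun y hy => ?_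
  · rw [add_mul]
    rcases hx.1 with k | k
    · exact (h g η a b c x ⟨k, hx.2⟩).trans (le_add_of_nonneg_right (mul_nonneg C1 a))
    · exact (h' g η a b c x ⟨k, hx.2⟩).trans (le_add_of_nonneg_left (mul_nonneg C0 a))
  obtain ⟨d, yd, y1⟩ := cov y
  obtain ⟨R, R0, hR⟩ := Metric.nhds_basis_closedBall.mem_iff.1 (inter_mem
    (((D.e d).tendsto_symm yd).eventually (hW.mem_nhds (KW hy)))
    (closedBall_mem_nhds (D.e d y) (half_pos one_pos)))
  have n3 : ∀ z ∈ closedBall (D.e d y) R, ‖z‖ ≤ 3 / 2 := fun z hz => by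
    have := norm_le_norm_add_const_of_dist_le (mem_closedBall.1 (hR hz).2)
    linarith
  have b2 : ∀ z ∈ closedBall (D.e d y) R, z ∈ B2 n := fun z hz =>
    mem_ball_zero_iff.2 (by linarith [n3 z hz])
  obtain ⟨ε, C, e0, e1, C0, hC⟩ := SUP.euc (D.e d y) R0
  have cl : IsClosed {z : E n | ∀ j, ε ≤ ‖z j‖} := by
    rw [ofPred_forall]
    exact isClosed_iInter fun j => isClosed_le continuous_const (continuous_apply j).norm
  have of : ∀ z : E n, (∀ j, ε ≤ ‖z j‖) → Off (D.c d) z := fun z hz i => by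
    rw [xi]
    cases D.c d i with
    | none => exact one_ne_zero
    | some j => exact norm_pos_iff.1 (e0.trans_le (hz j))
  have ox : ∀ z ∈ closedBall (D.e d y) R ∩ {z : E n | ∀ j, ε ≤ ‖z j‖}, (D.e d).symm z ∈ off D :=
    fun z hz => (GLU.mem_off (GLU.mem_src d (b2 z hz.1))).2 (by
      rw [GLU.rinv d (b2 z hz.1)]
      exact of z hz.2)
  obtain ⟨C₁, h₁⟩ := (((isCompact_closedBall (D.e d y) R).inter_right cl).image_of_continuousOn
    ((((lc ℝ _ (lsm fun i => Q i)).rexp.div (cϖ.mul (lc ℝ _ (lsm X.o)).rexp) fun x hx =>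
      (mul_pos (pϖ x hx) (Real.exp_pos _)).ne').comp ((D.e d).continuousOn_symm.mono
        fun z hz => D.tgt d ▸ b2 z hz.1) ox))).bddAbove
  obtain ⟨a, ha⟩ : ∃ a, a = Real.exp (A * ∑ i, |(Q i : ℝ)|) := ⟨_, rfl⟩
  obtain ⟨b, hb⟩ : ∃ b, b = Real.exp (A * ∑ i, |X.o i|) := ⟨_, rfl⟩
  have a0 : 0 < a := ha ▸ Real.exp_pos _
  have b0 : 0 < b := hb ▸ Real.exp_pos _
  refine ⟨(D.e d).source ∩ D.e d ⁻¹' ball (D.e d y) ε, mem_nhdsWithin_of_mem_nhds
    (inter_mem ((D.e d).open_source.mem_nhds yd) (((D.e d).continuousAt yd).eventually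
      (ball_mem_nhds _ e0))), a * (C * (a * |C₁| * b * |C₂|)), by positivity,
    fun h η η0 hm hI x ⟨⟨x1, x2⟩, x3⟩ => ?_⟩
  have vl := fun z (hz : z ∈ closedBall (D.e d y) R) =>
    (hV n M ι D).2.1 (D.c d) Q (D.rd h d) z (hm d z (b2 z hz) (hR hz).1)
  have ns : ∀ z ∈ closedBall (D.e d y) R, Off (D.c d) z → normSq (val (D.c d) Q (D.rd h d) z) =
      normSq (D.rd h d z) * xr (D.c d) (fun i => Q i) z := fun z hz ho => by
    rw [(vl z hz).2.self_of_nhds ho, POL.xr_int, ← map_mul, MON.xm_neg, mul_comm _⁻¹,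
      inv_mul_cancel_right₀ (MON.xm_ne Q ho)]
  have s2 := h₂ X.o (W.indicator fun x => normSq (h x) * ϖ x) d fun i =>
    Finset.single_le_sum (f := fun i => |X.o i|) (fun _ _ => abs_nonneg _) (Finset.mem_univ i)
  simp only [lsub] at s2
  simp only [sub_self, Real.exp_zero, mul_one] at s2
  have xb := ball_subset_closedBall.trans (closedBall_subset_closedBall e1) x2
  have s3 := hC (val (D.c d) Q (D.rd h d)) (a * |C₁| * b * |C₂| * η) (by positivity)
    (fun z hz => (vl z hz).1.self_of_nhds) ?_ _ x2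
  · have s4 := (hA (fun i => Q i) d _ (n3 _ xb) (x3 d x1)).2
    rw [ns _ xb (x3 d x1), GLU.rd_e _ x1] at s3
    rw [GLU.rd_e _ x1, ← ha] at s4
    refine (mul_le_mul_of_nonneg_left s4 (normSq_nonneg _)).trans ?_
    rw [mul_left_comm, mul_assoc, mul_assoc C]
    exact mul_le_mul_of_nonneg_left s3 a0.le
  · rw [mul_assoc _ _ η, ENNReal.ofReal_mul (by positivity), ENNReal.ofReal_mul (abs_nonneg C₂)]
    refine le_trans ?_ (mul_le_mul_right (s2.trans (mul_le_mul'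
      (ENNReal.ofReal_le_ofReal (le_abs_self _)) hI)) _)
    refine le_trans ?_ (mul_le_mul_right (lintegral_mono_set fun z hz =>
      mem_closedBall_zero_iff.2 (n3 z (inter_subset_left (t := {z : E n | ∀ j, ε ≤ ‖z j‖}) hz))) _)
    rw [← lintegral_const_mul' _ _ ENNReal.ofReal_ne_top]
    refine setLIntegral_mono' (measurableSet_closedBall.inter cl.measurableSet) fun z hz => ?_
    rw [← ENNReal.ofReal_mul (by positivity), ns z hz.1 (of z hz.2)]
    refine ENNReal.ofReal_le_ofReal ?_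
    have t1 := (hA (fun i => Q i) d z (n3 z hz.1) (of z hz.2)).1
    have t2 := (hA X.o d z (n3 z hz.1) (of z hz.2)).2
    have t3 : Real.exp (D.rd (lw D fun i => Q i) d z) ≤
        |C₁| * (D.rd ϖ d z * Real.exp (D.rd (lw D X.o) d z)) :=
      (div_le_iff₀ (mul_pos (pϖ _ (ox z hz)) (Real.exp_pos _))).1
        ((h₁ ⟨z, hz, rfl⟩).trans (le_abs_self _))
    have t4 : 0 < D.rd ϖ d z := pϖ _ (ox z hz)
    have t5 : D.rd (W.indicator fun x => normSq (h x) * ϖ x) d z =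
        normSq (D.rd h d z) * D.rd ϖ d z := indicator_of_mem (s := W) (hR hz.1).1 _
    rw [← ha] at t1
    rw [← hb] at t2
    rw [t5]
    have t6 := normSq_nonneg (D.rd h d z)
    calc _ ≤ normSq (D.rd h d z) * (a * (|C₁| * (D.rd ϖ d z * (b * xr (D.c d) X.o z)))) := by
          gcongr
          exact t1.trans (mul_le_mul_of_nonneg_left (t3.trans (by gcongr)) a0.le)
      _ = _ := by ring

end Pool.Agent.Lib.K2
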