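import Pool.Agent.Lib.K2.Blue

/-! Project k2: the weights on the local models. -/

open scoped Classical Topology ContDiff ENNReal
open Set MeasureTheory Complex Metric Filter

noncomputable section

namespace Pool.Agent.Lib.K2

open Pool.Agent.Lib.SV (E nsq)
open Pool.Agent.Lib.HS32 Pool.Agent.Lib.EX Pool.Agent.Lib.EXS Pool.Agent.Lib.ZL Pool.Agent.Lib.NA
open Pool.Agent.Lib.EXS.K32 (lv lv_add lv_sub lv_mul lv_const lv_log)

namespace WLO

theorem bd {t s L w q N B : ℝ} (s0 : 0 ≤ s) (s1 : s ≤ 1) (hq : |q| ≤ B) (hL : |L - N * w| ≤ B) :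
    |t * L - t * (N * w) - (1 + s) * q| ≤ (|t| + 2) * B := by
  have h1 : |t * (L - N * w)| ≤ |t| * B := by
    rw [abs_mul]; exact mul_le_mul_of_nonneg_left hL (abs_nonneg t)
  have h2 : |(1 + s) * q| ≤ 2 * B := by
    rw [abs_mul, abs_of_nonneg (add_nonneg zero_le_one s0)]
    exact mul_le_mul (by linarith) hq (abs_nonneg q) zero_le_two
  rw [← mul_sub, add_mul |t|]
  exact (abs_sub _ _).trans (add_le_add h1 h2)

end WLO

theorem kWLO (hPW : ZL.St_PW) (hE : Sy_EXB) : St_WLO := by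
  intro n M _ ι _ _ D X R ψ m c r hψ hc hr
  obtain ⟨-, -, -, -, p5, -⟩ := hPW n M ι D
  obtain ⟨-, -, -, e4, -, ⟨e6, C0, C00, hC0⟩, e7, e8, -⟩ := hE n M ι D X R
  choose B hB using fun b => (e4 b).2.2.2.2.2 r hr
  have hN : R.N ≠ 0 := (one_pos.trans_le R.N1).ne'
  obtain ⟨t, ht⟩ : ∃ t : ℝ, t * R.N = m * R.N - 1 - c := ⟨_, div_mul_cancel₀ _ hN⟩
  obtain ⟨K, K0, hK⟩ : ∃ K : ℝ, 0 ≤ K ∧ ∀ b, (|t| + 2) * B b ≤ K :=
    ⟨∑ b, |(|t| + 2) * B b|, Finset.sum_nonneg fun _ _ => abs_nonneg _, fun b =>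
      (le_abs_self _).trans (Finset.single_le_sum (f := fun b => |(|t| + 2) * B b|)
        (fun _ _ => abs_nonneg _) (Finset.mem_univ b))⟩
  have hdn : ∀ x, R.dn ψ m c x = Real.exp (t * (R.N * lw D R.γ x) - c * ψ x) := fun x => by
    have e : (fun i => ((R.Q m i : ℤ) : ℝ)) = (m * R.N) • R.γ := by
      funext i
      simp only [Ry.Q, Ry.γ, Pi.smul_apply, smul_eq_mul, Int.cast_mul, Int.cast_natCast]
      rw [mul_assoc, mul_div_cancel₀ _ hN]
    rw [Ry.dn, om, e, p5, ← Real.exp_add, ← mul_assoc, ht]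
    congr 1
    ring
  refine ⟨Real.exp (C0 + 2 * K), Real.one_le_exp (by linarith), fun s hs => ⟨fun b x =>
    c * ψ x + s * R.ts x - t * Real.log (normSq ((R.B b).σ x)) + (1 + s) * R.q b x - (C0 + K),
    fun b => ⟨fun d z hz hx => ?_, fun x hx => ?_⟩⟩⟩
  · have ho := (ZQ.off_symm D hz).1 hx.2
    have a1 := hψ.1 d z hz ho
    have a2 := e6 d z hz ho
    obtain ⟨a3, a3'⟩ := (e4 b).2.2.1 d z hz ⟨hx.1.1, hx.2⟩
    obtain ⟨a4, a4'⟩ := lv_log a3 a3'
    obtain ⟨a5, a5'⟩ := R.pot b d z hz hx.1.1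
    have c1 := (contDiffAt_const (c := c)).mul a1
    have c2 := (contDiffAt_const (c := s)).mul a2
    have c3 := (contDiffAt_const (c := t)).mul a4
    have c4 := (contDiffAt_const (c := 1 + s)).mul a5
    have c5 := ((c1.add c2).sub c3).add c4
    refine ⟨c5.sub contDiffAt_const, fun v => ?_⟩
    have l1 : lv (fun w => c * D.rd ψ d w + s * D.rd R.ts d w -
        t * Real.log (normSq (D.rd (R.B b).σ d w)) + (1 + s) * D.rd (R.q b) d w - (C0 + K)) z v =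
        c * lv (D.rd ψ d) z v + s * lv (D.rd R.ts d) z v + (1 + s) * lv (D.rd (R.q b) d) z v := by
      rw [lv_sub c5 contDiffAt_const, lv_add ((c1.add c2).sub c3) c4, lv_sub (c1.add c2) c3,
        lv_add c1 c2, lv_mul a1, lv_mul a2, lv_mul a4, lv_mul a5, a4', lv_const]
      ring
    have l2 := (e7 s hs.1).2 d z v
    have l3 := e8 d z hz v
    have l4 : fq D R.H d z v ≤ fq D R.β d z v + lv (D.rd R.ts d) z v := R.tsu d z hz ho v
    have l5 := mul_nonneg hc (hψ.2 d z hz ho v)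
    have l6 := mul_le_mul_of_nonneg_left l4 hs.1.le
    have l7 := mul_le_mul_of_nonneg_left (a5' v) (add_nonneg zero_le_one hs.1.le)
    refine ⟨l2 ▸ add_nonneg l3.1 (mul_nonneg hs.1.le l3.2), le_of_le_of_eq ?_ l1.symm⟩
    linarith
  · obtain ⟨b1, b2⟩ := hB b x ⟨hx.1.1, hx.1.2.le⟩
    have b3 := abs_le.1 ((WLO.bd (t := t) hs.1.le hs.2 b1 (b2 hx.2)).trans (hK b))
    have b4 : s * R.ts x ≤ C0 :=
      (mul_le_mul_of_nonneg_left (hC0 x hx.2).2 hs.1.le).trans (mul_le_of_le_one_left C00 hs.2)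
    rw [hdn, ← Real.exp_add, ← Real.exp_add]
    exact ⟨Real.exp_le_exp.2 (by linarith [b3.1]), Real.exp_le_exp.2 (by linarith),
      Real.exp_le_exp.2 (by linarith [b3.2])⟩

end Pool.Agent.Lib.K2
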