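import Pool.Agent.Lib.K2.Blue
import Pool.Agent.Lib.ZL.B_LEV
import Pool.Agent.Lib.ZL.B_WGT

/-! Project k2, row WTS: the curvature of the weights. -/

open scoped Classical Topology ContDiff ENNReal
open Set MeasureTheory Complex Metric Filter

noncomputable section

namespace Pool.Agent.Lib.K2

open Pool.Agent.Lib.SV (E nsq)
open Pool.Agent.Lib.HS32 Pool.Agent.Lib.EX Pool.Agent.Lib.EXS Pool.Agent.Lib.ZL Pool.Agent.Lib.NA
open Pool.Agent.Lib.EXS.K32 (lv lv_add lv_mul lv_sub lv_const)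
open Pool.Agent.Lib.ZL.LEV Pool.Agent.Lib.ZL.WGT13

namespace WTS

variable {n : ℕ} {z v : E n}

theorem two80 {a b : E n → ℝ} {τ : ℝ} (ha : ContDiffAt ℝ ∞ a z) (hb : ContDiffAt ℝ ∞ b z)
    (h0 : 0 ≤ lv a z v + τ) (h1 : 0 ≤ lv b z v + τ) :
    Real.exp (a z - b z) / (1 + Real.exp (a z - b z)) ^ 2 *
      normSq (db (fun y => (a y - b y : ℝ)) z v) ≤
      lv (fun y => Real.log (Real.exp (a y) + Real.exp (b y))) z v + τ := by
  have hp := Real.exp_pos (a z)
  have hq := Real.exp_pos (b z)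
  have e : ∀ w, fderiv ℝ (fun y => a y - b y) z w = fderiv ℝ a z w - fderiv ℝ b z w := fun w => by
    rw [fderiv_fun_sub (cd_diff ha) (cd_diff hb)]
    rfl
  have e1 : Real.exp (a z - b z) / (1 + Real.exp (a z - b z)) ^ 2 =
      Real.exp (a z) * Real.exp (b z) / (Real.exp (a z) + Real.exp (b z)) ^ 2 := by
    rw [Real.exp_sub]
    field_simp
    ring
  rw [lv_log36 ha.exp hb.exp (by positivity), lv_exp36 ha, lv_exp36 hb, d1_exp36 ha, d1_exp36 ha,
    d1_exp36 hb, d1_exp36 hb, db_real36 (cd_diff (ha.sub hb)), e, e, e1, div_mul_div_comm,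
    mul_comm _ (4 : ℝ), div_add' _ _ _ (by positivity)]
  refine div_le_div_of_nonneg_right ?_ (by positivity)
  have a2 := mul_nonneg (add_pos hp hq).le (add_nonneg (mul_nonneg hp.le h0) (mul_nonneg hq.le h1))
  linarith

theorem lsj80 {a b : E n → ℝ} {J τ : ℝ} (hJ : 0 < J) (ha : ContDiffAt ℝ ∞ a z)
    (hb : ContDiffAt ℝ ∞ b z) (h0 : 0 ≤ lv a z v + τ) (h1 : 0 ≤ lv b z v + τ) :
    ContDiffAt ℝ ∞ (fun y => lsj J (a y) (b y)) z ∧
    Real.exp (J * (a z - b z)) / (1 + Real.exp (J * (a z - b z))) ^ 2 *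
      normSq (db (fun y => (J * (a y - b y) : ℝ)) z v) ≤
      J * (lv (fun y => lsj J (a y) (b y)) z v + τ) := by
  have a1 : ContDiffAt ℝ ∞ (fun y => J * a y) z := contDiffAt_const.mul ha
  have b1 : ContDiffAt ℝ ∞ (fun y => J * b y) z := contDiffAt_const.mul hb
  have c1 : ContDiffAt ℝ ∞ (fun y => Real.log (Real.exp (J * a y) + Real.exp (J * b y))) z :=
    (a1.exp.add b1.exp).log (add_pos (Real.exp_pos _) (Real.exp_pos _)).ne'
  have e : (fun y => lsj J (a y) (b y)) =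
      fun y => J⁻¹ * Real.log (Real.exp (J * a y) + Real.exp (J * b y)) :=
    funext fun y => div_eq_inv_mul _ _
  have h := two80 (v := v) (τ := J * τ) a1 b1
    (by rw [lv_mul ha, ← mul_add]; exact mul_nonneg hJ.le h0)
    (by rw [lv_mul hb, ← mul_add]; exact mul_nonneg hJ.le h1)
  simp only [← mul_sub] at h
  rw [e]
  refine ⟨contDiffAt_const.mul c1, h.trans_eq ?_⟩
  rw [lv_mul c1]
  field_simp

theorem fin80 {L J δ s y P N b β T Gd : ℝ} (L0 : 0 < L) (hJ : 0 < J) (hδ : 0 < δ) (hs : 0 < s)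
    (hb : 2 ≤ y ∧ y ≤ 3 → 2 * deriv ct y ^ 2 ≤ L * (Real.exp y / (1 + Real.exp y) ^ 2))
    (P0 : 0 ≤ P) (N0 : 0 ≤ N) (b0 : 0 ≤ b) (β0 : 0 ≤ β) (G0 : 0 ≤ Gd) (hG : Gd ≤ b * β)
    (hT : δ / J * (Real.exp y / (1 + Real.exp y) ^ 2 * P) + s * β ≤ T) :
    2 * (deriv ct y * deriv ct y * P * N) + 2 * (ct y * ct y * Gd) ≤
      ((if 2 ≤ y ∧ y ≤ 3 then L * J / δ * N else 0) + if 2 ≤ y then 2 / s * b else 0) * T := by
  have q0 : 0 ≤ δ / J * (Real.exp y / (1 + Real.exp y) ^ 2 * P) := by positivity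
  have q1 : 0 ≤ s * β := by positivity
  rw [add_mul]
  refine add_le_add ?_ ?_
  · split_ifs with c
    · refine le_trans ?_ (mul_le_mul_of_nonneg_left (le_trans (le_add_of_nonneg_right q1) hT)
        (by positivity))
      have e : L * J / δ * N * (δ / J * (Real.exp y / (1 + Real.exp y) ^ 2 * P)) =
          L * (Real.exp y / (1 + Real.exp y) ^ 2) * (P * N) := by field_simp
      rw [e]
      nlinarith [mul_le_mul_of_nonneg_right (hb c) (mul_nonneg P0 N0)]
    · simp [dct c]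
  · split_ifs with c
    · refine le_trans ?_ (mul_le_mul_of_nonneg_left (le_trans (le_add_of_nonneg_left q0) hT)
        (by positivity))
      have e : 2 / s * b * (s * β) = 2 * (b * β) := by field_simp
      have c0 : 0 ≤ ct y := Real.smoothTransition.nonneg _
      have c1 : ct y ≤ 1 := Real.smoothTransition.le_one _
      rw [e]
      exact mul_le_mul_of_nonneg_left ((mul_le_of_le_one_left G0
        (mul_le_one₀ c1 c0 c1)).trans hG) zero_le_two
    · simp [ct0 (not_le.1 c).le]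

end WTS

open WTS in
theorem kWTS (hL : ZL.St_LEV) (_hW : ZL.St_WGT) (hP : ZL.St_PW) (hE : Sy_EXB) : St_WTS := by
  obtain ⟨L, L0, hb⟩ := exL
  refine ⟨L, L0, fun n M _ ι _ _ D X R ψ b G J c lam δ t e s hψ hJ hc hδ hl he he1 hs hG b0 hD j
    d z hz ho v => ?_⟩
  obtain ⟨-, -, -, -, -, ⟨ts, -⟩, hg, h0, -⟩ := hE n M ι D X R
  have s0 : 0 < s := lt_of_lt_of_le (mul_pos (by linarith) he) hs
  obtain ⟨u1, -, u3⟩ := R.zk.1 e ⟨he, he1⟩
  have lw1 := (hP n M ι D).2.2.2.2.2.2.2.1 R.γ d z hz ho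
  have r1 : ContDiffAt ℝ ∞ (D.rd (R.ro e) d) z :=
    ContDiffAt.sub (u1 _ (D.mem d) z (GLU.mem_tgt d hz)) lw1
  have r2 : 0 ≤ lv (D.rd (R.ro e) d) z v + e * fq D R.H d z v := u3 d z hz ho v
  have p1 := hψ.1 d z hz ho
  have p2 := hψ.2 d z hz ho v
  have t1 := ts d z hz ho
  have t2 : fq D R.H d z v ≤ fq D R.β d z v + lv (D.rd R.ts d) z v := R.tsu d z hz ho v
  obtain ⟨β0, H0⟩ := h0 d z hz v
  have eH : 0 ≤ e * fq D R.H d z v := mul_nonneg he.le H0
  have rj : ContDiffAt ℝ ∞ (fun y => D.rd (R.ro e) d y - j) z := r1.sub contDiffAt_const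
  have pt : ContDiffAt ℝ ∞ (fun y => D.rd ψ d y + t) z := p1.add contDiffAt_const
  obtain ⟨a1, a2⟩ := lsj80 (v := v) (τ := e * fq D R.H d z v) hJ p1 rj (add_nonneg p2 eH)
    (by rw [lv_sub r1 contDiffAt_const, lv_const, sub_zero]; exact r2)
  obtain ⟨c1, c2⟩ := lsj80 (v := v) (τ := e * fq D R.H d z v) hJ r1 pt r2
    (by rw [lv_add p1 contDiffAt_const, lv_const, add_zero]; exact add_nonneg p2 eH)
  have a3 := (mul_nonneg_iff_of_pos_left hJ).1
    (le_trans (mul_nonneg (by positivity) (normSq_nonneg _)) a2)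
  have y1 : ContDiffAt ℝ ∞ (D.rd (R.yy ψ J t e) d) z := contDiffAt_const.mul (r1.sub pt)
  have k1 := ((hL n z v).2.2 _ _ y1 (hG d z hz ho)).2.1
  have k2 := lv_add (contDiffAt_const (c := c).mul a1) (((contDiffAt_const (c := lam - δ).mul
    r1).add (contDiffAt_const (c := δ).mul c1)).add (contDiffAt_const (c := s).mul t1)) v
  rw [lv_add ((contDiffAt_const.mul r1).add (contDiffAt_const.mul c1)) (contDiffAt_const.mul t1),
    lv_add (contDiffAt_const.mul r1) (contDiffAt_const.mul c1), lv_mul a1, lv_mul r1, lv_mul c1,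
    lv_mul t1] at k2
  have hT : δ / J * (Real.exp (D.rd (R.yy ψ J t e) d z) /
      (1 + Real.exp (D.rd (R.yy ψ J t e) d z)) ^ 2 *
      normSq (db (fun y => (D.rd (R.yy ψ J t e) d y : ℝ)) z v)) + s * fq D R.β d z v ≤
      lv (D.rd (R.wj ψ J c lam δ t e s j) d) z v + 2 * s * fq D (R.g s) d z v := by
    have c3 := mul_le_mul_of_nonneg_left c2 (div_pos hδ hJ).le
    rw [← mul_assoc (δ / J) J, div_mul_cancel₀ _ hJ.ne'] at c3
    refine le_trans (add_le_add c3 le_rfl) (le_trans ?_ (add_le_add k2.symm.le le_rfl))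
    rw [(hg s s0).2]
    nlinarith [mul_nonneg hc a3, mul_nonneg (sub_nonneg.2 hl) r2,
      mul_le_mul_of_nonneg_left t2 s0.le, mul_le_mul_of_nonneg_right hs H0,
      mul_nonneg (mul_pos s0 s0).le H0]
  refine ⟨le_trans (add_nonneg (mul_nonneg (div_pos hδ hJ).le (mul_nonneg (by positivity)
    (normSq_nonneg _))) (mul_nonneg s0.le β0)) hT, ?_⟩
  refine le_trans (le_of_eq (congrArg normSq k1)) ((nsq2 _ _).trans ?_)
  simp only [normSq_mul, normSq_ofReal]
  exact fin80 L0 hJ hδ s0 (hb _) (normSq_nonneg _) (normSq_nonneg _) (b0 _) β0 (normSq_nonneg _)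
    (hD d z hz ho v) hT

end Pool.Agent.Lib.K2
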