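import Pool.Agent.Lib.K2.Br
import Pool.Agent.Lib.NV5.X_KL

/-! Project k2, row BET. -/

open scoped Classical Topology ContDiff ComplexOrder Matrix
open Set Complex Metric Filter

set_option linter.unusedSectionVars false

noncomputable section

namespace Pool.Agent.Lib.K2

open Pool.Agent.Lib.SV (E)
open Pool.Agent.Lib.HS32 Pool.Agent.Lib.EX Pool.Agent.Lib.EXS Pool.Agent.Lib.ZL
open Pool.Agent.Lib.EXS.K32 Pool.Agent.Lib.EXS.GLU Pool.Agent.Lib.DM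

namespace BETr

variable {n : ℕ} {M : Mf n} {ι : Type} [Fintype ι] [DecidableEq ι] {D : Ad M ι}

theorem lv0 {r : ℕ} (u : E r → ℝ) (z : E r) : lv u z 0 = 0 := by simp [lv, nq]

theorem tr {g : M.X → ℝ} {a b : D.A} {x : M.X} (ha : x ∈ (D.e a).source)
    (hb : x ∈ (D.e b).source) (s : ContDiffAt ℝ ∞ (D.rd g a) (D.e a x)) :
    hr (D.rd g b) (D.e b x) =
      (M.J (D.e a) (D.e b) x)ᴴ * hr (D.rd g a) (D.e a x) * M.J (D.e a) (D.e b) x := by
  obtain ⟨t1, -, -, t2, -⟩ := (mTR n M).2.1 _ (D.mem a) _ (D.mem b) x ha hb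
  have e0 : (D.e a ∘ (D.e b).symm) (D.e b x) = D.e a x := congrArg (D.e a) ((D.e b).left_inv hb)
  have e : D.rd g b =ᶠ[𝓝 (D.e b x)] D.rd g a ∘ D.e a ∘ (D.e b).symm :=
    t2.mono fun w hw => (congrArg g hw.2.2.2.2.1).symm
  rw [XC.hr_congr e]
  exact ((mCHN n _ _ t1).2.2.2.2.2.2.2.2.2.2.2 _ (cd_ofReal (e0.symm ▸ s))).trans
    (by rw [e0]; rfl)

variable (hC : Sb_CHR) (K : Kb D)
include hC

theorem loc (d : D.A) {z : E n} (hz : z ∈ B2 n) :
    ContDiffAt ℝ ∞ (D.rd (K.f d ∘ (K.B d).p) d) z ∧ ∀ v, lv (D.rd (K.f d ∘ (K.B d).p) d) z v =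
      lv (K.f d) (D.rd (K.B d).p d z) (fderiv ℂ (D.rd (K.B d).p d) z v) :=
  have w := (K.sub d z hz).1
  have k := hC n _ (D.rd (K.B d).p d) (K.f d) z ((K.B d).phol d z hz w)
    (K.psh d _ ((K.B d).lt _ w)).1
  ⟨k.1, fun v => (k.2 v).1⟩

theorem cmp {a b : D.A} {x : M.X} (ha : x ∈ (D.e a).source) (hb : x ∈ (D.e b).source) :
    hr (D.rd (K.f b ∘ (K.B b).p) b) (D.e b x) = (M.J (D.e a) (D.e b) x)ᴴ *
      hr (D.rd (K.f a ∘ (K.B a).p) a) (D.e a x) * M.J (D.e a) (D.e b) x := by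
  have wa := (K.sub a _ (mem_B2 ha)).1
  rw [(D.e a).left_inv ha] at wa
  rw [K.kae b a b _ (mem_B2 hb) ⟨(K.sub b _ (mem_B2 hb)).1, by rwa [(D.e b).left_inv hb]⟩]
  exact tr ha hb (loc hC K a (mem_B2 ha)).1

theorem ex : ∃ β, K.Bt β := by
  let ψ : D.A → E n → ℝ := fun d => D.rd (K.f d ∘ (K.B d).p) d
  let T : M.Fam (Mat n) := fun e => if h : ∃ d, D.e d = e then hr (ψ h.choose) else 0
  have hT : ∀ d, ∃ d', D.e d' = D.e d ∧ T (D.e d) = hr (ψ d') := fun d =>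
    have h : ∃ d', D.e d' = D.e d := ⟨d, rfl⟩
    ⟨_, h.choose_spec, dif_pos h⟩
  obtain ⟨H, h1, h2⟩ := (mEXT n M _ (XC.sub D)).1 T (XC.on fun d z hz => by
    obtain ⟨d', -, e⟩ := hT d
    rw [e]
    exact smM_hess (cd_ofReal (loc hC K d' hz).1)) (by
    rintro _ ⟨a, rfl⟩ _ ⟨b, rfl⟩ x ha hb
    obtain ⟨a', a1, a2⟩ := hT a
    obtain ⟨b', b1, b2⟩ := hT b
    change T (D.e b) (D.e b x) = _ * T (D.e a) (D.e a x) * _
    rw [a2, b2, ← a1, ← b1]
    exact cmp hC K (a1.symm ▸ ha) (b1.symm ▸ hb))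
  have h3 : D.All fun d z => H (D.e d) z = hr (ψ d) z := fun d z hz => by
    obtain ⟨d', e1, e2⟩ := hT d
    have k := cmp hC K (a := d') (by rw [e1]; exact mem_src d hz) (mem_src d hz)
    rw [e1, (mTR n M).2.2.1 _ (D.mem d) _ (mem_src d hz), rinv d hz, Matrix.conjTranspose_one,
      Matrix.one_mul, Matrix.mul_one] at k
    exact (h2 _ ⟨d, rfl⟩ z (mem_tgt d hz)).trans ((congrFun e2 z).trans k.symm)
  exact ⟨H, XC.clo h1 (fun d z hz => (loc hC K d hz).1) h3, fun b d z hz w =>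
    (h3 d z hz).trans (K.kae d b d z hz ⟨(K.sub d z hz).1, w⟩)⟩

end BETr

open BETr in
/-- Row `BET`. -/
theorem rBET (hC : Sb_CHR) : Sb_BET := by
  intro n M _ ι _ _ D K
  refine ⟨ex hC K, fun β hβ => ?_⟩
  have e := fun d z hz => hβ.2 d d z hz (K.sub d z hz).1
  have p := fun d z hz => (K.psh d _ ((K.B d).lt _ (K.sub d z hz).1)).2
  have nn : D.All fun d z => (β (D.e d) z).PosSemidef := fun d z hz => by
    beta_reduce
    rw [e d z hz]
    refine psd_of_lv (loc hC K d hz).1 fun v => ?_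
    rw [(loc hC K d hz).2]
    by_cases h : fderiv ℂ (D.rd (K.B d).p d) z v = 0
    · rw [h, lv0]
    · exact (p d z hz _ h).le
  have pd : OA D fun d z => (β (D.e d) z).PosDef := fun d z hz ho => by
    beta_reduce
    rw [e d z hz]
    refine pd_of_lv (loc hC K d hz).1 fun v hv => ?_
    rw [(loc hC K d hz).2]
    exact p d z hz _ fun h => hv (K.imm d d z hz (K.sub d z hz).1 ho v h)
  have l0 := XC.le hβ.1.toTen nn
  refine ⟨l0, fun d z hz i hi k hk h0 => ?_, pd, fun H hH => ?_⟩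
  · obtain ⟨y, y0, yk, hy⟩ := (K.B d).exc d z hz (K.sub d z hz).1 i hi k hk h0
    refine K63.adj_kk _ k y y0 yk (((nn d z hz).dotProduct_mulVec_zero_iff y).1
      (Complex.ext ?_ ((nn d z hz).1.im_star_dotProduct_mulVec_self y)))
    have := (loc hC K d hz).2 y
    rw [hy, lv0, lv] at this
    rw [e d z hz]
    exact this
  obtain ⟨x⟩ : Nonempty M.X := inferInstance
  obtain ⟨d, hd⟩ := GLU.ex_ch D x
  obtain ⟨z, ho, hz⟩ := ((MON.off_freq (D.c d) _).and_eventually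
    (isOpen_ball.eventually_mem (mem_B2 hd))).exists
  exact KL.vol_pos hH hβ.1.toForm l0 (D.mem d) (mem_tgt d hz) (pd d z hz ho)

end Pool.Agent.Lib.K2
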