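import Pool.Agent.Lib.K2.Br

/-! Project k2, row CAN: the canonical class and the measure of a pluricanonical form. -/

open scoped Classical Topology ContDiff ENNReal ComplexOrder Matrix
open Set MeasureTheory Complex Metric Filter

noncomputable section

namespace Pool.Agent.Lib.K2

open Pool.Agent.Lib.SV (E)
open Pool.Agent.Lib.HS32 Pool.Agent.Lib.EX Pool.Agent.Lib.EXS Pool.Agent.Lib.ZL
open Pool.Agent.Lib.EXS.K32 Pool.Agent.Lib.EXS.GLU
open Pool.Agent.Lib.DM (hr Cv)
open Pool.Agent.Lib.DM.RHO (ldt ldt_sm)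

namespace CANr

variable {n : ℕ} {M : Mf n} {ι : Type} [Fintype ι] [DecidableEq ι] {D : Ad M ι}
  {H : M.Fam (Mat n)} {l : ι → ℤ} {m : ℕ} {w : D.A → E n → ℂ} {d : D.A} {z : E n}

variable (H l m w) in
/-- The local expression of the weight. -/
def loc (d : D.A) (z : E n) : ℝ :=
  ldt H d z + -(1 / m) * Real.log (normSq (w d z)) - lm (D.c d) (fun i => l i / m) z

variable (H l m w) in
/-- The weight. -/
def kp (x : M.X) : ℝ := loc H l m w (GLU.ex_ch D x).choose (D.e (GLU.ex_ch D x).choose x)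

omit [DecidableEq ι] in
theorem loc_eq (h0 : w d z ≠ 0) (ho : Off (D.c d) z) : loc H l m w d z =
    ldt H d z - 1 / m * Real.log (normSq (w d z * xm (D.c d) l z)) := by
  rw [loc, map_mul, xm_exp fun i _ => ho i, Real.log_mul (normSq_pos.2 h0).ne' (Real.exp_pos _).ne',
    Real.log_exp, mul_add, lm, lm, Finset.mul_sum]
  simp only [div_eq_inv_mul, mul_one, mul_assoc]
  ring

theorem kp_eq (hW : Wc D l m w) (hH : M.Met H) {x : M.X} (hx : x ∈ (D.e d).source)
    (ho : x ∈ off D) : kp H l m w x = loc H l m w d (D.e d x) := by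
  have hb := (GLU.ex_ch D x).choose_spec
  rw [kp]
  generalize (GLU.ex_ch D x).choose = b at hb
  have h1 := (mINV n M H hH).2.2.2.2.2.2.1.cmp _ (D.mem b) _ (D.mem d) x hb hx
  have h2 : (D.J b d x).det ≠ 0 := ((mTR n M).2.1 _ (D.mem b) _ (D.mem d) x hb hx).2.1
  have h3 : w d (D.e d x) * xm (D.c d) l (D.e d x) =
      w b (D.e b x) * xm (D.c b) l (D.e b x) * (D.J b d x).det ^ m := by
    rw [hW.cmp b d x hb hx, TRF.xm_eq D hb hx]
    ring
  have m0 : (m : ℝ) ≠ 0 := Nat.cast_ne_zero.2 hW.m0.ne'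
  have h4 := hW.ne b _ (mem_B2 hb)
  rw [loc_eq h4 (ho b hb), loc_eq (hW.ne d _ (mem_B2 hx)) (ho d hx), h3, map_mul _ (_ * _),
    Real.log_mul (normSq_pos.2 (mul_ne_zero h4 (MON.xm_ne _ (ho b hb)))).ne'
      (normSq_pos.2 (pow_ne_zero _ h2)).ne', map_pow, Real.log_pow, ldt, ldt, h1, Ad.J]
  field_simp
  ring

theorem rd_kp (hW : Wc D l m w) (hH : M.Met H) (hz : z ∈ B2 n) (ho : Off (D.c d) z) :
    kp H l m w ((D.e d).symm z) = loc H l m w d z := by
  rw [kp_eq hW hH (mem_src d hz) ((ZQ.off_symm D hz).2 ho), rinv d hz]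

theorem cv (hW : Wc D l m w) (hH : M.Met H) :
    Cv D (fun i => l i / m) (-M.ric H) (kp H l m w) := by
  have wh : D.All fun d z => HolN (w d) z := fun d z hz =>
    (isOpen_ball.eventually_mem hz).mono fun y hy => hW.hol d y hy
  have k := fun d z hz => ((mHOL n _ _).2.2 (wh d z hz)).2.2.2 (hW.ne d z hz)
  refine ⟨((mHES n M).2.2.2.2.2.2.2.2.1 H hH).neg,
    fun d y => ldt H d y + -(1 / m) * Real.log (normSq (w d y)), fun d z hz =>
      ⟨(ldt_sm hH hz).add (contDiffAt_const.mul (k d z hz).1), rd_kp hW hH hz⟩, fun d z hz => ?_⟩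
  beta_reduce
  rw [DM.XC.hr_add (ldt_sm hH hz) (contDiffAt_const.mul (k d z hz).1),
    DM.XC.hr_mul _ (k d z hz).1,
    show hr (fun y => Real.log (normSq (w d y))) z = 0 from (k d z hz).2.1, smul_zero, add_zero]
  exact neg_neg _

theorem den (hW : Wc D l m w) (hH : M.Met H) (hz : z ∈ B2 n) (ho : Off (D.c d) z) :
    (H (D.e d) z).det.re * Real.exp (-loc H l m w d z) =
      normSq (w d z) ^ (1 / m : ℝ) * xr (D.c d) (fun i => l i / m) z := by
  rw [xr_exp fun i _ => ho i, Real.rpow_def_of_pos (normSq_pos.2 (hW.ne d z hz)),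
    ← Real.exp_log (Mf.pd_det_re (hH.pos _ (D.mem d) z (mem_tgt d hz))), ← Real.exp_add,
    ← Real.exp_add, loc, ldt]
  congr 1
  ring

end CANr

open CANr in
theorem rCAN : Sb_CAN := by
  intro n M _ ι _ _ D H l m w hH hW
  have c := cv hW hH
  have o := ZQ.off_open D
  have me : Measurable fun x => ENNReal.ofReal
      (Real.exp (-(off D).piecewise (kp H l m w) (fun _ => 0) x)) :=
    (ContinuousOn.measurable_piecewise (fun x hx => by
      obtain ⟨d, hd⟩ := GLU.ex_ch D x
      exact (cont_of hd ((DM.XC.bd c).1 d _ (mem_B2 hd) (hx d hd)).continuousAt).continuousWithinAt)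
      continuousOn_const o.measurableSet).neg.exp.ennreal_ofReal
  have et : IsEta D l m w ((M.mu H).withDensity fun x => ENNReal.ofReal
      (Real.exp (-(off D).piecewise (kp H l m w) (fun _ => 0) x))) := fun d F => by
    rw [setLIntegral_withDensity_eq_setLIntegral_mul_non_measurable _ me _
      (D.e d).open_source.measurableSet (.of_forall fun _ => ENNReal.ofReal_lt_top),
      ← (D.e d).symm_image_target_eq_source, D.tgt d,
      ((mMU n M H hH).2.2.2.2.2.1 _ (D.mem d) _ measurableSet_ball (D.tgt d).ge).2.1]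
    refine lintegral_congr_ae ?_
    filter_upwards [ae_restrict_of_ae (MON.off_ae (D.c d)), ae_restrict_mem measurableSet_ball]
      with z h1 h2
    rw [Pi.mul_apply, piecewise_eq_of_mem _ _ _ ((ZQ.off_symm D h2).2 h1), rd_kp hW hH h2 h1,
      ← mul_assoc, ← ENNReal.ofReal_mul (Mf.pd_det_re (hH.pos _ (D.mem d) z (mem_tgt d h2))).le,
      den hW hH h2 h1]
  refine ⟨(off D).piecewise (kp H l m w) fun _ => 0, DM.XC.congr c rfl (fun _ _ _ _ => rfl)
    fun x hx => piecewise_eq_of_mem _ _ _ hx, ⟨_, et⟩, fun μ hμ F => ?_⟩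
  rw [ZQ.isEta_unique hμ et, lintegral_withDensity_eq_lintegral_mul_non_measurable _ me
    (.of_forall fun _ => ENNReal.ofReal_lt_top)]
  rfl

end Pool.Agent.Lib.K2
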