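import Pool.Agent.Lib.K2.Br

/-! Project k2, row CHR. -/

open scoped Classical Topology ContDiff ComplexOrder Matrix
open Set Complex Filter

noncomputable section

namespace Pool.Agent.Lib.K2

open Pool.Agent.Lib.SV (E)
open Pool.Agent.Lib.HS32 Pool.Agent.Lib.ZL
open Pool.Agent.Lib.EXS.K32

namespace CHRr

variable {n r : ℕ} {H : E n → E r} {z : E n}

/-- The Jacobian matrix. -/
def jr (H : E n → E r) (z : E n) : Matrix (Fin r) (Fin n) ℂ :=
  Matrix.of fun i j => fderiv ℂ H z (Pi.single j 1) i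

theorem jr_ev (h : HolN H z) (i : Fin r) (j : Fin n) :
    (fun w => jr H w i j) =ᶠ[𝓝 z] dz j (fun w => H w i) := Eventually.mono h fun w hw => by
  rw [(mHOL n (fun w => H w i) w).2.1 (differentiableAt_pi.1 hw i) j, fderiv_apply hw i]
  rfl

theorem fd (H : E n → E r) (z v : E n) : fderiv ℂ H z v = jr H z *ᵥ v := by
  have : jr H z = LinearMap.toMatrix' (fderiv ℂ H z : E n →ₗ[ℂ] E r) := by
    ext i j
    rw [LinearMap.toMatrix'_apply]
    rfl
  rw [this, LinearMap.toMatrix'_mulVec]
  rfl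

theorem chain (h : DifferentiableAt ℂ H z) {f : E r → ℂ} (hf : DifferentiableAt ℝ f (H z))
    (j : Fin n) : dz j (f ∘ H) z = ∑ a, dz a f (H z) * jr H z a j ∧
      dzb j (f ∘ H) z = ∑ a, dzb a f (H z) * star (jr H z a j) := by
  have e : ∀ c : ℂ, fderiv ℝ (f ∘ H) z (Pi.single j c) =
      ∑ a, (dz a f (H z) * (jr H z a j * c) + dzb a f (H z) * star (jr H z a j * c)) := by
    intro c
    rw [fderiv_comp z hf (h.restrictScalars ℝ), h.fderiv_restrictScalars ℝ,
      ContinuousLinearMap.comp_apply, fderiv_eq_sum]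
    refine Finset.sum_congr rfl fun a _ => ?_
    have : (ContinuousLinearMap.restrictScalars ℝ (fderiv ℂ H z)) (Pi.single j c) a =
        jr H z a j * c := by
      change fderiv ℂ H z (Pi.single j c) a = _
      rw [fd, Matrix.mulVec_single]
      simp
    rw [this]
  have hI : star I = -I := conj_I
  constructor
  · rw [dz, e, e, Finset.mul_sum, ← Finset.sum_sub_distrib, Finset.sum_div]
    refine Finset.sum_congr rfl fun a _ => ?_
    rw [star_mul', star_mul', star_one, hI]
    linear_combination (-(dz a f (H z) * jr H z a j - dzb a f (H z) * star (jr H z a j)) / 2) *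
      I_mul_I
  · rw [dzb, e, e, Finset.mul_sum, ← Finset.sum_add_distrib, Finset.sum_div]
    refine Finset.sum_congr rfl fun a _ => ?_
    rw [star_mul', star_mul', star_one, hI]
    linear_combination ((dz a f (H z) * jr H z a j - dzb a f (H z) * star (jr H z a j)) / 2) *
      I_mul_I

theorem cd (h : HolN H z) : ContDiffAt ℝ ∞ H z :=
  contDiffAt_pi.2 fun i => hol_cd (hol_apply h i)

theorem hol_jr (h : HolN H z) (i : Fin r) (l : Fin n) : HolN (fun w => jr H w i l) z := by
  filter_upwards [((mHOL n (fun w => H w i) z).2.2 (hol_apply h i)).2.1 l,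
    (jr_ev h i l).eventuallyEq_nhds] with w hw e
  exact hw.congr_of_eventuallyEq e

theorem hess_comp (h : HolN H z) {f : E r → ℂ} (hf : ContDiffAt ℝ ∞ f (H z)) :
    hess (f ∘ H) z = (jr H z)ᴴ * hess f (H z) * jr H z := by
  have h0 : DifferentiableAt ℂ H z := h.self_of_nhds
  ext i j
  have e : dz j (f ∘ H) =ᶠ[𝓝 z] fun w => ∑ a, (dz a f ∘ H) w * jr H w a j := by
    filter_upwards [h, h0.continuousAt.eventually (cd_ev_diff hf)] with w h1 h2
    exact (chain h1 h2 j).1
  have d1 : ∀ a, DifferentiableAt ℝ (dz a f ∘ H) z := fun a =>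
    (cd_diff (cd_dz hf a)).comp z (cd_diff (cd h))
  have d2 := fun a => hol_cd (hol_jr h a j)
  rw [hess_apply, dzb_congr e, dzb_sum fun a _ => (d1 a).fun_mul (cd_diff (d2 a)),
    Matrix.mul_apply]
  refine Finset.sum_congr rfl fun a _ => ?_
  rw [dzb_mul (d1 a) (cd_diff (d2 a)),
    ((mHOL n _ z).1 (cd_diff (d2 a))).1 (hol_jr h a j).self_of_nhds i,
    (chain h0 (cd_diff (cd_dz hf a)) i).2, mul_zero, add_zero, Matrix.mul_apply]
  congr 1
  exact Finset.sum_congr rfl fun b _ => mul_comm _ _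

end CHRr

open CHRr in
/-- Row `CHR`. -/
theorem rCHR : Sb_CHR := by
  intro n N P u z h hu
  refine ⟨hu.comp z (cd h), fun v => ⟨?_, ?_⟩⟩
  · rw [lv, lv, show (fun x => ((u ∘ P) x : ℂ)) = (fun w => (u w : ℂ)) ∘ P from rfl,
      hess_comp h (cd_ofReal hu), nq, nq, fd, ← Matrix.mulVec_mulVec, ← Matrix.mulVec_mulVec,
      Matrix.dotProduct_mulVec (star v), ← Matrix.star_mulVec]
  · rw [db, db, show (fun x => (u (P x) : ℂ)) = (fun w => (u w : ℂ)) ∘ P from rfl, fd]
    simp only [(chain h.self_of_nhds (cd_diff (cd_ofReal hu)) _).2, Matrix.mulVec, dotProduct,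
      star_sum, star_mul', Finset.mul_sum, Finset.sum_mul]
    rw [Finset.sum_comm]
    exact Finset.sum_congr rfl fun _ _ => Finset.sum_congr rfl fun _ _ => by ring

end Pool.Agent.Lib.K2
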