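import Pool.Agent.Lib.K2.Br

/-! Project k2, row CUT: cut-off functions that come from the polydiscs. -/

open scoped Classical Topology ContDiff ENNReal ComplexOrder Matrix
open Set MeasureTheory Complex Metric Filter

noncomputable section

namespace Pool.Agent.Lib.K2

open Pool.Agent.Lib.SV (E nsq)
open Pool.Agent.Lib.HS32 Pool.Agent.Lib.EX Pool.Agent.Lib.EXS Pool.Agent.Lib.ZL
open Pool.Agent.Lib.EXS.K32 (lv)

theorem rCUT (hBET : Sb_BET) (hPUL : Sb_PUL) : Sb_CUT := by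
  intro n M _ ι _ _ D K β ρ hβ hρ
  have cov : ∀ x, ∃ b, x ∈ (K.B b).W ∧ ‖(K.B b).p x‖ ≤ K.c0 := fun x => by
    obtain ⟨_, ⟨b, rfl⟩, hb⟩ := (DM.XC.sub (D := D)).cov x
    have h := K.sub b (D.e b x) (D.tgt b ▸ (D.e b).map_source hb)
    beta_reduce at h
    rw [(D.e b).left_inv hb] at h
    exact ⟨b, h⟩
  obtain ⟨x₀⟩ : Nonempty M.X := inferInstance
  obtain ⟨b₀, -, h₀⟩ := cov x₀
  have c0 : 0 ≤ K.c0 := (norm_nonneg _).trans h₀
  have hm : K.c0 < min ρ 1 := lt_min hρ K.c1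
  have m1 := min_le_left ρ 1
  have m2 := min_le_right ρ 1
  obtain ⟨r, hr⟩ : ∃ r, r = (K.c0 + 2 * min ρ 1) / 3 := ⟨_, rfl⟩
  let u : ∀ b, ContDiffBump (0 : E (K.B b).N) := fun b =>
    ⟨(2 * K.c0 + min ρ 1) / 3, r, by linarith, by linarith⟩
  choose C C0 hC using fun b => hPUL n M ι D K β b (u b) r hβ (by linarith)
    fun z _ => (u b).contDiff.contDiffAt
  have nz : ∀ b x, (K.B b).W.indicator (u b ∘ (K.B b).p) x ≠ 0 →
      x ∈ (K.B b).W ∧ ‖(K.B b).p x‖ < r := fun b x h => by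
    have h1 := mem_of_indicator_ne_zero h
    rw [indicator_of_mem h1] at h
    have h2 : (K.B b).p x ∈ Function.support (u b) := h
    rw [(u b).support_eq, mem_ball_zero_iff] at h2
    exact ⟨h1, h2⟩
  have one : ∀ b x, x ∈ (K.B b).W → ‖(K.B b).p x‖ ≤ K.c0 →
      (K.B b).W.indicator (u b ∘ (K.B b).p) x = 1 := fun b x h1 h2 => by
    rw [indicator_of_mem h1]
    exact (u b).one_of_mem_closedBall (mem_closedBall_zero_iff.2
      (h2.trans (by change _ ≤ (2 * K.c0 + min ρ 1) / 3; linarith)))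
  have key : ∀ b d, ∀ z ∈ B2 n,
      ContDiffAt ℝ ∞ (D.rd ((K.B b).W.indicator (u b ∘ (K.B b).p)) d) z ∧ ∀ v,
        |lv (D.rd ((K.B b).W.indicator (u b ∘ (K.B b).p)) d) z v| ≤ C b * nq (β (D.e d) z) v ∧
        normSq (db (fun y => ((D.rd ((K.B b).W.indicator (u b ∘ (K.B b).p)) d y : ℝ) : ℂ)) z v) ≤
          C b * nq (β (D.e d) z) v := fun b d z hz => by
    have ct : ContinuousAt (D.e d).symm z := (D.e d).continuousAt_symm (D.tgt d ▸ hz)
    have dc : ∀ {f g : E n → ℝ}, f =ᶠ[𝓝 z] g → ∀ v,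
        db (fun y => (f y : ℂ)) z v = db (fun y => (g y : ℂ)) z v := fun {f g} h v => by
      have k : (fun y => (f y : ℂ)) =ᶠ[𝓝 z] fun y => (g y : ℂ) :=
        h.mono fun y hy => congrArg ofReal hy
      simp only [db, dzb, k.fderiv_eq]
    by_cases h : (D.e d).symm z ∈ {y ∈ (K.B b).W | ‖(K.B b).p y‖ ≤ r}
    · have ev : D.rd ((K.B b).W.indicator (u b ∘ (K.B b).p)) d =ᶠ[𝓝 z]
          D.rd (u b ∘ (K.B b).p) d :=
        (ct.eventually ((K.B b).opn.mem_nhds h.1)).mono fun y hy => indicator_of_mem hy _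
      obtain ⟨k1, k2⟩ := hC b d z hz h.1
      refine ⟨k1.congr_of_eventuallyEq ev, fun v => ?_⟩
      rw [K32.lv_congr ev, dc ev]
      exact ⟨(k2 h.2 v).1, (k2 h.2 v).2.1⟩
    · have ev : D.rd ((K.B b).W.indicator (u b ∘ (K.B b).p)) d =ᶠ[𝓝 z] fun _ => 0 :=
        (ct.eventually (((K.B b).cpt r (by linarith)).isClosed.isOpen_compl.mem_nhds h)).mono
          fun y hy => by_contra fun k => hy ⟨(nz b _ k).1, (nz b _ k).2.le⟩
      refine ⟨contDiffAt_const.congr_of_eventuallyEq ev, fun v => ?_⟩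
      have p0 : 0 ≤ C b * nq (β (D.e d) z) v := mul_nonneg (C0 b) (by
        have := (((hBET n M ι D K).2 β hβ).1 _ (D.mem d) z (D.tgt d ▸ hz)).re_dotProduct_nonneg v
        simpa [nq] using this)
      rw [K32.lv_congr ev, dc ev, K32.lv_const]
      simpa [db, dzb] using p0
  refine ⟨fun b => (K.B b).W.indicator (u b ∘ (K.B b).p), ∑ b, C b,
    Finset.sum_nonneg fun b _ => C0 b, fun x => (cov x).imp fun b h => one b x h.1 h.2,
    fun b => ⟨?_, fun x => ⟨indicator_nonneg (fun _ _ => (u b).nonneg) x,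
      indicator_le' (fun _ _ => (u b).le_one) (fun _ _ => zero_le_one) x,
      fun h => ⟨(nz b x h).1, (nz b x h).2.trans_le (by linarith)⟩, one b x⟩,
      fun d z hz v => ?_⟩⟩
  · refine (mSUB n M _ (DM.XC.sub (D := D))).2.1 ℝ _ ?_
    rintro _ ⟨d, rfl⟩ z hz
    exact (key b d z (D.tgt d ▸ hz)).1
  · have p0 : 0 ≤ nq (β (D.e d) z) v := by
      have := (((hBET n M ι D K).2 β hβ).1 _ (D.mem d) z (D.tgt d ▸ hz)).re_dotProduct_nonneg v
      simpa [nq] using this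
    have p1 := mul_le_mul_of_nonneg_right
      (Finset.single_le_sum (fun b _ => C0 b) (Finset.mem_univ b)) p0
    exact ⟨((key b d z hz).2 v).1.trans p1, ((key b d z hz).2 v).2.trans p1⟩

end Pool.Agent.Lib.K2
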