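import Pool.Agent.Lib.K2.Br

/-! Project k2, row FRZ: freezing of coefficients. -/

open scoped Classical Topology ContDiff
open Set Complex Filter

noncomputable section

namespace Pool.Agent.Lib.K2

open Pool.Agent.Lib.SV (E levE d2)
open Pool.Agent.Lib.HS32 Pool.Agent.Lib.ZL Pool.Agent.Lib.ZL.LEV
open Pool.Agent.Lib.EXS.K32

namespace FRZr

variable {n : ℕ} {θ s : E n → ℝ} {z v : E n}

theorem d1 (h : ContDiffAt ℝ ∞ θ z) (h0 : db (fun y => (θ y : ℂ)) z v = 0) :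
    fderiv ℝ θ z v = 0 ∧ fderiv ℝ θ z (I • v) = 0 := by
  have := db_real36 (cd_diff h) v
  rw [h0, map_zero] at this
  constructor <;> nlinarith [sq_nonneg (fderiv ℝ θ z v), sq_nonneg (fderiv ℝ θ z (I • v))]

theorem mul1 (h : ContDiffAt ℝ ∞ θ z) (hs : ContDiffAt ℝ ∞ s z) (h0 : fderiv ℝ θ z v = 0) :
    fderiv ℝ (fun y => θ y * s y) z v = fderiv ℝ (fun y => θ z * s y) z v := by
  rw [fderiv_fun_mul (cd_diff h) (cd_diff hs), fderiv_const_mul (cd_diff hs)]
  simp [h0]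

theorem dm {f g : E n → ℝ} (hf : ContDiffAt ℝ 2 f z) (hg : ContDiffAt ℝ 2 g z) (v : E n) :
    d2 (fun w => f w * g w) z v =
      f z * d2 g z v + 2 * fderiv ℝ f z v * fderiv ℝ g z v + g z * d2 f z v := by
  have e : (fun w => fderiv ℝ (fun w => f w * g w) w v) =ᶠ[𝓝 z]
      fun w => f w * fderiv ℝ g w v + g w * fderiv ℝ f w v := by
    filter_upwards [hf.eventually (by simp), hg.eventually (by simp)] with w a b
    rw [fderiv_fun_mul (a.differentiableAt (by simp)) (b.differentiableAt (by simp))]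
    rfl
  have d : ∀ {f : E n → ℝ}, ContDiffAt ℝ 2 f z → DifferentiableAt ℝ (fun w => fderiv ℝ f w v) z :=
    fun hf => ((hf.fderiv_right (m := 1) (by norm_num)).differentiableAt (by norm_num)).clm_apply
      (differentiableAt_const v)
  have hf1 := hf.differentiableAt (by simp)
  have hg1 := hg.differentiableAt (by simp)
  unfold d2
  rw [e.fderiv_eq, fderiv_fun_add (hf1.fun_mul (d hg)) (hg1.fun_mul (d hf)),
    fderiv_fun_mul hf1 (d hg), fderiv_fun_mul hg1 (d hf)]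
  simp only [add_apply, smul_apply, smul_eq_mul]
  ring

theorem mul2 (h : ContDiffAt ℝ ∞ θ z) (hs : ContDiffAt ℝ ∞ s z) (h1 : lv θ z v = 0)
    (h0 : db (fun y => (θ y : ℂ)) z v = 0) :
    lv (fun y => θ y * s y) z v = lv (fun y => θ z * s y) z v := by
  rw [lv_eq h, levE] at h1
  rw [lv_mul hs, lv_eq (h.mul hs), lv_eq hs, levE, levE, dm (cd_le h 2) (cd_le hs 2),
    dm (cd_le h 2) (cd_le hs 2), (d1 h h0).1, (d1 h h0).2]
  linear_combination s z * h1

theorem lg (h : ContDiffAt ℝ ∞ s z) (h0 : 0 < s z) :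
    lv (fun y => Real.log (s y)) z v = (s z * (4 * lv s z v) - fderiv ℝ s z v ^ 2 -
      fderiv ℝ s z (I • v) ^ 2) / (4 * s z ^ 2) := by
  rw [lv_eq (h.log h0.ne'), levE, d2_log36 h h0, d2_log36 h h0, lv_eq h, levE]
  field_simp
  ring

end FRZr

open FRZr in
theorem rFRZ : Sb_FRZ := by
  intro n κ _ θ s z v h h0
  have c1 : ∀ a ∈ Finset.univ, ContDiffAt ℝ ∞ (fun y => θ a y * s a y) z := fun a _ =>
    (h a).1.mul (h a).2.1
  have c2 : ∀ a ∈ Finset.univ, ContDiffAt ℝ ∞ (fun y => θ a z * s a y) z := fun a _ =>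
    contDiffAt_const.mul (h a).2.1
  have e : ∀ w, (∀ a, fderiv ℝ (θ a) z w = 0) → fderiv ℝ (fun y => ∑ a, θ a y * s a y) z w =
      fderiv ℝ (fun y => ∑ a, θ a z * s a y) z w := fun w hw => by
    rw [fderiv_fun_sum fun a ha => cd_diff (c1 a ha), fderiv_fun_sum fun a ha => cd_diff (c2 a ha),
      sum_apply, sum_apply]
    exact Finset.sum_congr rfl fun a _ => mul1 (h a).1 (h a).2.1 (hw a)
  rw [lg (ContDiffAt.sum c1) h0, lg (ContDiffAt.sum c2) h0, lv_sum c1, lv_sum c2,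
    e _ fun a => (d1 (h a).1 (h a).2.2.2).1, e _ fun a => (d1 (h a).1 (h a).2.2.2).2,
    Finset.sum_congr rfl fun a _ => mul2 (h a).1 (h a).2.1 (h a).2.2.1 (h a).2.2.2]

end Pool.Agent.Lib.K2
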