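import Pool.Agent.Lib.K2.Br

/-! Row KLI: the integrals of a klt boundary. -/

open scoped Classical Topology ContDiff ENNReal
open Set MeasureTheory Complex Metric Filter

noncomputable section

namespace Pool.Agent.Lib.K2

open Pool.Agent.Lib.SV (E)
open Pool.Agent.Lib.HS32 Pool.Agent.Lib.EX Pool.Agent.Lib.EXS Pool.Agent.Lib.ZL
open Pool.Agent.Lib.DM.XC (sg)

namespace KLIr

variable {n : ℕ} {M : Mf n} [M.Cpt] {ι : Type} [Fintype ι] [DecidableEq ι] (D : Ad M ι)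
  {H : M.Fam (Mat n)}

theorem fin90 (hH : M.Met H) {a : ι → ℝ} (ha : ∀ i, -1 < a i) : ∃ C : ℝ≥0∞, C ≠ ⊤ ∧
    ∀ F : M.X → ℝ≥0∞, (∀ x, (∀ i, 0 < sg D i x) → F x ≤ ENNReal.ofReal (Real.exp (lw D a x))) →
      ∫⁻ x, F x ∂M.mu H ≤ C := by
  obtain ⟨C, -, hC⟩ := PW.cmp D one_lt_two
  have sb := MU.sub (n := n) one_lt_two
  have hb : ∀ d, ∃ b : ℝ, ∀ z ∈ closedBall (0 : E n) 1, ‖(H (D.e d) z).det.re‖ ≤ b := fun d =>
    (isCompact_closedBall 0 1).exists_bound_of_continuousOn fun z hz =>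
      (continuous_re.continuousAt.comp (SmM.det
        (hH.sm _ (D.mem d) z (GLU.mem_tgt d (sb hz)))).continuousAt).continuousWithinAt
  choose b hb using hb
  refine ⟨∑ d, ∫⁻ z in B2 n, ENNReal.ofReal (b d * Real.exp (C * ∑ i, |a i|) * xr (D.c d) a z),
    (ENNReal.sum_lt_top.2 fun d _ =>
      ((K32.xr_int (D.inj d) ha).const_mul _).lintegral_lt_top).ne, fun F hF => ?_⟩
  have e : (univ : Set M.X) = ⋃ d, (D.e d).symm '' closedBall 0 1 :=
    (eq_univ_of_forall fun x => by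
      obtain ⟨d, hd⟩ := PW.ex1 D x
      exact mem_iUnion.2 ⟨d, _, mem_closedBall_zero_iff.2 (D.supp d x hd).2,
        (D.e d).left_inv (D.supp d x hd).1⟩).symm
  rw [← Measure.restrict_univ (μ := M.mu H), e]
  refine (lintegral_iUnion_le _ _).trans ?_
  rw [tsum_fintype]
  refine Finset.sum_le_sum fun d _ => ?_
  rw [((mMU n M H hH).2.2.2.2.2.1 _ (D.mem d) _ measurableSet_closedBall
    fun z hz => GLU.mem_tgt d (sb hz)).2.1]
  refine le_trans (lintegral_mono_ae ?_) (lintegral_mono_set sb)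
  filter_upwards [ae_restrict_of_ae (MON.off_ae (D.c d)), ae_restrict_mem measurableSet_closedBall]
    with z h1 h2
  have h3 := hF ((D.e d).symm z) fun i => by
    rw [sg, PW.gf_rep D i (sb h2)]
    exact mul_pos (PW.gf_pos D i (sb h2)) (normSq_pos.2 (h1 i))
  have h4 : Real.exp (lw D a ((D.e d).symm z)) ≤ _ := (hC a d z (mem_closedBall_zero_iff.1 h2) h1).2
  have h5 := hb d z h2
  rw [mul_assoc, ENNReal.ofReal_mul ((norm_nonneg _).trans h5)]
  exact mul_le_mul' (ENNReal.ofReal_le_ofReal ((le_abs_self _).trans h5))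
    (h3.trans (ENNReal.ofReal_le_ofReal h4))

theorem one90 {c s d : ℝ} (s0 : 0 < s) (s1 : Real.log s ≤ 0) (hd : d ∈ Ioc (0 : ℝ) 1) :
    c * Real.log (s + d) ≤ |c| + min c 0 * Real.log s := by
  rcases le_total 0 c with h | h
  · rw [min_eq_right h, zero_mul, add_zero, abs_of_nonneg h]
    refine mul_le_of_le_one_right h ((Real.log_le_sub_one_of_pos (add_pos s0 hd.1)).trans ?_)
    linarith [(Real.log_nonpos_iff s0.le).1 s1, hd.2]
  · rw [min_eq_left h]
    exact le_add_of_nonneg_of_le (abs_nonneg c)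
      (mul_le_mul_of_nonpos_left (Real.log_le_log s0 (le_add_of_nonneg_right hd.1.le)) h)

theorem unif90 (hH : M.Met H) {b : ι → ℝ} (hb : ∀ i, -1 < b i) : ∃ C : ℝ, ∀ d ∈ Ioc (0 : ℝ) 1,
    ∫ x, Real.exp (∑ i, b i * DX.fl (sg D i) d x) ∂M.mu H ≤ C := by
  obtain ⟨C, C0, hC⟩ := fin90 D hH (a := fun i => min (b i) 0) fun i => lt_min (hb i) (by norm_num)
  refine ⟨Real.exp (∑ i, |b i|) * C.toReal, fun d hd => ?_⟩
  rw [← div_le_iff₀' (Real.exp_pos _), ← integral_div]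
  refine (Real.le_norm_self _).trans ((norm_integral_le_lintegral_norm _).trans
    (ENNReal.toReal_mono C0 (hC _ fun x hx => ENNReal.ofReal_le_ofReal ?_)))
  rw [← Real.exp_sub, Real.norm_of_nonneg (Real.exp_pos _).le, Real.exp_le_exp, sub_le_iff_le_add',
    lw, ← Finset.sum_add_distrib]
  exact Finset.sum_le_sum fun i _ => one90 (hx i) (PW.log_le D i x) hd

end KLIr

open KLIr in
theorem rKLI : Sb_KLI := by
  intro n M _ ι _ _ D H κ hH hκ
  refine ⟨?_, ?_⟩
  · obtain ⟨C, C0, hC⟩ := fin90 D hH hκ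
    exact ne_top_of_le_ne_top C0 (hC _ fun _ _ => le_rfl)
  have e1 : ∀ᶠ q in 𝓝[>] (1 : ℝ), ∀ i, -1 < q * κ i := nhdsWithin_le_nhds
    (eventually_all.2 fun i => (continuous_mul_const (κ i)).continuousAt.eventually
      (lt_mem_nhds (by simpa using hκ i)))
  have e2 : ∀ᶠ δ in 𝓝[>] (0 : ℝ), ∀ i, -1 < -δ * κ i := nhdsWithin_le_nhds
    (eventually_all.2 fun i => ((continuous_mul_const (κ i)).comp continuous_neg).continuousAt.eventually
      (lt_mem_nhds (by simp)))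
  obtain ⟨q, q1, q2⟩ := (e1.and self_mem_nhdsWithin).exists
  obtain ⟨δ, d1, d2⟩ := (e2.and self_mem_nhdsWithin).exists
  obtain ⟨C, hC⟩ := unif90 D hH q1
  obtain ⟨C', hC'⟩ := unif90 D hH d1
  refine ⟨q, δ, max C C', q2, d2, fun d hd => ⟨le_max_of_le_left ?_, le_max_of_le_right ?_⟩⟩
  · simpa only [Finset.mul_sum, mul_assoc] using hC d hd
  · simpa only [Finset.mul_sum, mul_assoc, neg_mul, Finset.sum_neg_distrib] using hC' d hd

end Pool.Agent.Lib.K2
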