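import Pool.Agent.Lib.K2.Br

/-! Project k2, row NFW: the class is nef on the space. -/

open scoped Classical Topology ContDiff ENNReal ComplexOrder Matrix Manifold
open Set MeasureTheory Complex Metric Filter

set_option linter.unusedVariables false

noncomputable section

namespace Pool.Agent.Lib.K2

open Pool.Agent.Lib.SV (E nsq)
open Pool.Agent.Lib.HS32 Pool.Agent.Lib.EX Pool.Agent.Lib.EXS Pool.Agent.Lib.ZL
open Pool.Agent.Lib.EXS.K32
open Pool.Agent.Lib.DM

theorem rNFW (hBET : Sb_BET) (hPUL : Sb_PUL) : Sb_NFW := by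
  intro n M _ ι _ _ D K β T φ N hβ hN hT e he
  obtain ⟨φ', F, hF⟩ := K.nef (N * e) (mul_pos hN he)
  have sb := fun d z hz => (K.sub d z hz).1
  have sa : D.All fun d z => ContDiffAt ℝ ∞ (D.rd (F d ∘ (K.B d).p) d) z := fun d z hz =>
    let ⟨_, _, h⟩ := hPUL n M ι D K β d (F d) _ hβ K.c1 (hF d).1
    (h d z hz (sb d z hz)).1
  have sf : D.All fun d z => ContDiffAt ℝ ∞ (D.rd (K.f d ∘ (K.B d).p) d) z := fun d z hz =>
    let ⟨_, _, h⟩ := hPUL n M ι D K β d (K.f d) _ hβ K.c1 fun z hz => (K.psh d z hz).1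
    (h d z hz (sb d z hz)).1
  choose C C0 hC using fun d => hPUL n M ι D K β d (F d + (N * e) • K.f d) _ hβ K.c1
    fun z hz => ((hF d).1 z hz).add ((K.psh d z hz).1.const_smul (N * e))
  have hv := fun d z hz => (K.B d).vhol d z hz (sb d z hz)
  have sv := fun d z hz => ((mHOL n _ z).2.2 (hv d z hz).1).2.2.2 (hv d z hz).2.1
  obtain ⟨T', t1, t2⟩ := XC.ex (D := D) (P := fun i => K.k i) (φ := φ')
    (ψ := fun d y => D.rd (F d ∘ (K.B d).p) d y - Real.log (normSq ((K.B d).v d y)))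
    fun d z hz => ⟨(sa d z hz).sub (sv d z hz).1, fun ho => by
      have a := (hF d).2.1 _ (sb d z hz) (CLO.mem_off D d hz ho)
      have b := (hv d z hz).2.2
      simp only [Ad.rd, Function.comp_apply] at b ⊢
      rw [a, b, map_mul, xm_exp fun i _ => ho i, Real.log_mul (normSq_pos.2 (hv d z hz).2.1).ne'
        (Real.exp_pos _).ne', Real.log_exp]
      simp only [Int.cast_natCast]
      ring⟩
  obtain ⟨ψ, p1, p2, -⟩ := XC.diff hT (XC.congr (XC.smul N⁻¹ t1)
    (funext fun i => div_eq_inv_mul _ _) (fun _ _ _ _ => rfl) fun _ _ => rfl)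
  have hS : M.Ten (T + e • β + M.hs ψ) :=
    ((hT.1.add (hβ.1.smul e)).add ((mHES n M).1 ψ p1)).toTen
  have sU := fun d z hz => (hC d d z hz (sb d z hz)).1
  have key : D.All fun d z => (T + e • β + M.hs ψ) (D.e d) z =
      hr (fun y => N⁻¹ * D.rd ((F d + (N * e) • K.f d) ∘ (K.B d).p) d y) z := fun d z hz => by
    have a := p2 _ (D.mem d) z (GLU.mem_tgt d hz)
    have b := XC.hr_add (sa d z hz) (contDiffAt_const (c := N * e).mul (sf d z hz))
    have c : T' (D.e d) z = _ := t2 d z hz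
    simp only [hr, ofReal_sub] at c
    rw [hess_sub (cd_ofReal (sa d z hz)) (cd_ofReal (sv d z hz).1), (sv d z hz).2.1, sub_zero] at c
    rw [XC.hr_mul _ (sf d z hz), ← hβ.2 d d z hz (sb d z hz)] at b
    beta_reduce
    rw [XC.hr_mul _ (sU d z hz), add_right_comm, Pi.add_apply, Pi.add_apply, ← a]
    refine Eq.trans ?_ (congrArg (N⁻¹ • ·) b).symm
    simp only [Pi.smul_apply, smul_add, smul_smul, inv_mul_cancel_left₀ hN.ne', c]
  refine ⟨ψ, N⁻¹ * ∑ d, C d, mul_nonneg (inv_pos.2 hN).le (Finset.sum_nonneg fun d _ => C0 d), p1,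
    XC.le (D := D) hS fun d z hz => ?_,
    Mf.le_iff_sub.2 (XC.le (D := D) ((hβ.1.toTen.smul _).sub hS) fun d z hz => ?_)⟩
  · beta_reduce
    rw [key d z hz]
    refine psd_of_lv (contDiffAt_const.mul (sU d z hz)) fun v => ?_
    rw [lv_mul (sU d z hz)]
    exact mul_nonneg (inv_pos.2 hN).le ((hF d).2.2 d z hz (sb d z hz) v)
  · have s1 := contDiffAt_const (c := N⁻¹ * ∑ d, C d).mul (sf d z hz)
    have s2 := contDiffAt_const (c := N⁻¹).mul (sU d z hz)
    have a := psd_of_lv (s1.sub s2) fun v => by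
      have b := (abs_le.1 ((hC d d z hz (sb d z hz)).2 (K.sub d z hz).2 v).1)
      rw [lv_sub s1 s2, lv_mul (sf d z hz), lv_mul (sU d z hz), mul_assoc, ← mul_sub]
      refine mul_nonneg (inv_pos.2 hN).le (sub_nonneg.2 (b.2.trans ?_))
      refine (mul_le_mul_of_nonneg_right (Finset.single_le_sum (fun d _ => C0 d)
        (Finset.mem_univ d)) ?_).trans_eq (congrArg (_ * nq · v) (hβ.2 d d z hz (sb d z hz)))
      have k := ((hBET n M ι D K).2 β hβ).1 _ (D.mem d) z (GLU.mem_tgt d hz)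
      simp only [Pi.zero_apply, sub_zero] at k
      exact (Complex.le_def.1 (k.dotProduct_mulVec_nonneg v)).1
    simp only [ofReal_sub] at a
    rw [hess_sub (cd_ofReal s1) (cd_ofReal s2)] at a
    beta_reduce
    rw [Pi.sub_apply, Pi.sub_apply, key d z hz, Pi.smul_apply, Pi.smul_apply,
      hβ.2 d d z hz (sb d z hz), ← XC.hr_mul _ (sf d z hz)]
    exact a

end Pool.Agent.Lib.K2
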