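import Pool.Agent.Lib.K2.Br
import Pool.Agent.Lib.NV5.X_KXA
import Pool.Agent.Lib.NV5.X_KL

/-! Project k2: the degree of a contracted component tends to zero. -/

open scoped Classical Topology ContDiff ComplexOrder Matrix
open Set MeasureTheory Complex Metric Filter

noncomputable section

namespace Pool.Agent.Lib.K2

open Pool.Agent.Lib.SV (E nsq)
open Pool.Agent.Lib.HS32 Pool.Agent.Lib.HS32.Mf Pool.Agent.Lib.EX Pool.Agent.Lib.EXS
open Pool.Agent.Lib.ZL Pool.Agent.Lib.EXS.K32 Pool.Agent.Lib.EXS.GLU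
open Pool.Agent.Lib.DM Pool.Agent.Lib.DM.K63

namespace ORKr

variable {n : ℕ} {M : Mf n} [M.Cpt] {ι : Type} [Fintype ι] [DecidableEq ι] {D : Ad M ι}
  {Θ : M.Fam (Mat n)} {σ : M.X → ℝ}

omit [M.Cpt] [DecidableEq ι] in
theorem of_off {d : D.A} {z : E n} (hz : z ∈ B2 n) (ho : Off (D.c d) z) :
    (D.e d).symm z ∈ off D := (mem_off (mem_src d hz)).2 (by rwa [rinv d hz])

theorem sg_of {P : ι → ℝ} (h : Cv D P Θ fun x => -Real.log (σ x)) (hσ : M.Sm σ)
    (h0 : ∀ x, 0 ≤ σ x) (hp : ∀ x ∈ off D, σ x ≠ 0) : K63.Sg M σ Θ := by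
  obtain ⟨c, ψ, l, e⟩ := h
  obtain ⟨x⟩ : Nonempty M.X := inferInstance
  obtain ⟨d, hd⟩ := GLU.ex_ch D x
  obtain ⟨y, y1, y2⟩ := ((MON.off_freq (D.c d) _).and_eventually
    (isOpen_ball.eventually_mem (mem_B2 hd))).exists
  refine K63.Sg.of_dense hσ h0 ⟨_, hp _ (of_off y2 y1)⟩ c (XC.sub D) (XC.on fun d z hz =>
    ((MON.off_freq (D.c d) z).and_eventually (isOpen_ball.eventually_mem hz)).mono fun w hw =>
      ⟨hp _ (of_off hw.2 hw.1), ?_⟩)
  have k := fun i => ((mHOL n (xi (D.c d) i) w).2.2 (.of_forall fun y => MON.diff_xi _ i y)).2.2.2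
    (hw.1 i)
  have s := fun i => (contDiffAt_const (c := P i)).mul (k i).1
  have ev : (fun y => Real.log (σ ((D.e d).symm y))) =ᶠ[𝓝 w] fun y =>
      -1 * ψ d y + ∑ i, P i * Real.log (normSq (xi (D.c d) i y)) := by
    filter_upwards [isOpen_ball.eventually_mem hw.2, MON.off_ev hw.1] with y h1 h2
    have := (l d y h1).2 h2
    simp only [Ad.rd, lm] at this
    linarith
  refine (XC.hr_congr ev).trans ?_
  rw [XC.hr_add (contDiffAt_const.mul (l d w hw.2).1) (ContDiffAt.sum fun i _ => s i),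
    XC.hr_mul _ (l d w hw.2).1, XC.hr_sum fun i _ => s i, Finset.sum_eq_zero fun i _ => by
      rw [XC.hr_mul _ (k i).1, show hr _ w = 0 from (k i).2.1, smul_zero],
    e d w hw.2, add_zero, neg_one_smul]

theorem sg_ne (i : ι) : ∀ x ∈ off D, XC.sg D i x ≠ 0 := fun x hx => by
  obtain ⟨d, hd⟩ := GLU.ex_ch D x
  rw [← rd_e (XC.sg D i) hd, (XC.sig D i).2.2.2.1 d _ (mem_B2 hd)]
  exact (mul_pos (PW.gf_pos D i (mem_B2 hd)) (normSq_pos.2 (hx d hd i))).ne'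

end ORKr

theorem rORK : Sb_ORK := by
  intro n M _ ι _ _ D H β Θ i hH hβ β0 hg h η η0
  obtain ⟨s1, s2, -, s4, -⟩ := XC.sig D i
  refine exc hH hβ β0 (ORKr.sg_of h s1 s2 (ORKr.sg_ne i)) (fun x hx => ?_) η0
  obtain ⟨d, hd⟩ := GLU.ex_ch D x
  have hz := mem_B2 hd
  have g0 := PW.gf_pos D (d := d) i hz
  have x0 : xi (D.c d) i (D.e d x) = 0 := by
    rw [← rd_e (XC.sg D i) hd, s4 d _ hz] at hx
    exact normSq_eq_zero.1 ((mul_eq_zero.1 hx).resolve_left g0.ne')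
  obtain hc | ⟨j, hc⟩ := Option.eq_none_or_eq_some (D.c d i)
  · simp [xi, hc] at x0
  have xj : ∀ y, xi (D.c d) i y = y j := fun y => by simp [xi, hc]
  rw [xj] at x0
  have e : pk M (XC.sg D i) Θ (D.e d) (D.e d x) =
      (PW.gf D d i (D.e d x) : ℂ) • Matrix.single j j 1 := by
    rw [pk, (D.e d).left_inv hd, hx, zero_smul, add_zero]
    exact KL.peak (σ := D.rd (XC.sg D i) d) (PW.gf_sm D i hz) x0
      ((isOpen_ball.eventually_mem hz).mono fun y hy => by rw [s4 d y hy, xj])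
  refine ⟨_, D.mem d, hd, ?_⟩
  rw [e]
  exact KL.peak_tr (ofReal_ne_zero.2 g0.ne') (hg d _ hz i rfl j hc x0)

end Pool.Agent.Lib.K2
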