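import Pool.Agent.Lib.K2.Br

/-! A form that is positive on the kernel of a semi-positive form. -/

open scoped Classical Topology ContDiff ENNReal ComplexOrder Matrix Manifold
open Set MeasureTheory Complex Metric Filter

noncomputable section

namespace Pool.Agent.Lib.K2

open Pool.Agent.Lib.SV (E nsq)
open Pool.Agent.Lib.HS32 Pool.Agent.Lib.EX Pool.Agent.Lib.EXS

namespace POSr

variable {n : ℕ}

theorem cover {X : Type} [TopologicalSpace X] {K : Set X} (hK : IsCompact K) {P : ℝ → X → Prop}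
    (hm : ∀ a b x, a ≤ b → P a x → P b x) (h : ∀ x ∈ K, ∃ a, ∀ᶠ y in 𝓝 x, P a y) :
    ∃ a > (0 : ℝ), ∀ x ∈ K, P a x := by
  obtain ⟨a, ha⟩ := hK.elim_directed_cover (fun a : ℝ => interior {x | P a x})
    (fun _ => isOpen_interior) (fun x hx => (h x hx).elim fun a ha =>
      mem_iUnion.2 ⟨a, mem_interior_iff_mem_nhds.2 ha⟩)
    (Monotone.directed_le fun a b e => interior_mono fun x hx => hm a b x e hx)
  exact ⟨max a 1, lt_max_of_lt_right one_pos, fun x hx =>
    hm _ _ x (le_max_left _ _) (interior_subset (ha hx))⟩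

theorem nq_lin (a : ℝ) (B T : Mat n) (v : E n) : nq (a • B + T) v = a * nq B v + nq T v := by
  simp only [nq, Matrix.add_mulVec, Matrix.smul_mulVec, dotProduct_add, dotProduct_smul, add_re,
    real_smul, re_ofReal_mul]

theorem nq_cont : Continuous fun p : Mat n × E n => nq p.1 p.2 := by
  unfold nq
  fun_prop

theorem near {B T : E n → Mat n} {z : E n} (hB : ContinuousAt B z) (hT : ContinuousAt T z)
    (h0 : (B z).PosSemidef) (h : ∀ v ≠ 0, nq (B z) v = 0 → 0 < nq (T z) v) :
    ∃ a : ℝ, ∀ᶠ x in 𝓝 z, ∀ v ≠ 0, 0 < nq (a • B x + T x) v := by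
  have hS := isCompact_sphere (0 : E n) 1
  have nn : ∀ v, 0 ≤ nq (B z) v := fun v => (Complex.nonneg_iff.1 (h0.dotProduct_mulVec_nonneg v)).1
  have hc : ∀ (a : ℝ) v, ContinuousAt (fun p : E n × E n => nq (a • B p.1 + T p.1) p.2) (z, v) :=
    fun a v => by
      have h1 : ContinuousAt (fun x => a • B x + T x) z := (hB.const_smul a).add hT
      have h2 : ContinuousAt (fun p : E n × E n => a • B p.1 + T p.1) (z, v) :=
        ContinuousAt.comp (x := (z, v)) (f := Prod.fst) h1 continuousAt_fst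
      exact ContinuousAt.comp (g := fun p : Mat n × E n => nq p.1 p.2)
        (f := fun p : E n × E n => (a • B p.1 + T p.1, p.2)) nq_cont.continuousAt
        (h2.prodMk continuousAt_snd)
  obtain ⟨a, -, ha⟩ := cover hS (P := fun a v => 0 < nq (a • B z + T z) v)
    (fun a b v e hv => by
      rw [nq_lin] at hv ⊢
      nlinarith [nn v]) fun v hv => by
      have : ∃ a : ℝ, 0 < nq (a • B z + T z) v := by
        rcases (nn v).eq_or_lt with e | e
        · exact ⟨0, by simpa using h v (ne_of_mem_sphere hv one_ne_zero) e.symm⟩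
        · refine ⟨(1 - nq (T z) v) / nq (B z) v, ?_⟩
          rw [nq_lin, div_mul_cancel₀ _ e.ne']
          linarith
      exact this.imp fun a ha =>
        ((hc a v).comp (f := fun v => (z, v)) (by fun_prop)).eventually (lt_mem_nhds ha)
  have e : ∀ᶠ x in 𝓝 z, ∀ v ∈ sphere (0 : E n) 1, 0 < nq (a • B x + T x) v :=
    hS.eventually_forall_of_forall_eventually fun v hv =>
      (hc a v).tendsto.eventually_const_lt (ha v hv)
  refine ⟨a, e.mono fun x hx v hv => ?_⟩
  have h1 := norm_pos_iff.2 hv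
  have h2 := hx (‖v‖⁻¹ • v) (by simp [norm_smul, h1.ne'])
  rw [K32.nq_sm] at h2
  exact pos_of_mul_pos_right h2 (sq_nonneg _)

end POSr

theorem rPOS : Sb_POS := by
  intro n M _ S β T hS hβ hT h0 h
  have f := fun a : ℝ => (hβ.smul a).add hT
  have p0 : M.All fun e z => (β e z).PosSemidef := fun e he z hz => by simpa using h0 e he z hz
  obtain ⟨a, a0, ha⟩ := POSr.cover (isCompact_univ (X := M.X))
    (P := fun a x => ∃ e ∈ S, x ∈ e.source ∧ (a • β e (e x) + T e (e x)).PosDef)
    (fun a b x ab ⟨e, he, hx, hp⟩ => ⟨e, he, hx, by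
      have := hp.add_posSemidef (Mf.psd_rsmul (p0.at (hS.sub he) hx) (sub_nonneg.2 ab))
      rwa [sub_smul, add_right_comm, add_sub_cancel] at this⟩) fun x _ => by
      obtain ⟨e, he, hx⟩ := hS.cov x
      obtain ⟨a, ha⟩ := POSr.near (hβ.sm.at (hS.sub he) hx).continuousAt
        (hT.sm.at (hS.sub he) hx).continuousAt (p0.at (hS.sub he) hx) (h.at he hx)
      refine ⟨a, ?_⟩
      filter_upwards [(e.continuousAt hx).eventually ha, e.open_source.mem_nhds hx] with y h1 h2
      have hh := (f a).herm.at (hS.sub he) h2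
      exact ⟨e, he, h2, Matrix.PosDef.of_dotProduct_mulVec_pos hh fun v hv =>
        Complex.pos_iff.2 ⟨h1 v hv, (hh.im_star_dotProduct_mulVec_self v).symm⟩⟩
  refine ⟨a, a0, f a, Mf.allOn_of_source fun e' he' x hx' => ?_⟩
  obtain ⟨e, he, hx, hp⟩ := ha x (mem_univ x)
  rw [(f a).cmp e (hS.sub he) e' he' x hx hx']
  exact hp.conjTranspose_mul_mul_same (Matrix.mulVec_injective_iff_isUnit.2
    ((Matrix.isUnit_iff_isUnit_det _).2 ((mTR n M).2.1 e (hS.sub he) e' he' x hx hx').2.1.isUnit))

end Pool.Agent.Lib.K2
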