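import Pool.Agent.Lib.K2.Br

/-! Project k2: functions that come from the polydisc. -/

open scoped Classical Topology ContDiff ENNReal ComplexOrder Matrix Manifold
open Set MeasureTheory Complex Metric Filter

set_option linter.unusedVariables false

noncomputable section

namespace Pool.Agent.Lib.K2

open Pool.Agent.Lib.SV (E nsq)
open Pool.Agent.Lib.HS32 Pool.Agent.Lib.EX Pool.Agent.Lib.EXS Pool.Agent.Lib.ZL
open Pool.Agent.Lib.EXS.K32 (lv)

namespace PULr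

variable {N : ℕ}

theorem nsq_bd (v : E N) : nsq v ≤ N * ‖v‖ ^ 2 := by
  simpa [nsq] using Finset.sum_le_card_nsmul Finset.univ (fun j => normSq (v j)) (‖v‖ ^ 2)
    fun j _ => (Complex.normSq_eq_norm_sq _).trans_le
      (pow_le_pow_left₀ (norm_nonneg _) (norm_le_pi_norm v j) 2)

theorem db_bd (G : E N → ℂ) (z v : E N) : normSq (db G z v) ≤ (∑ i, ‖dzb i G z‖) ^ 2 * ‖v‖ ^ 2 := by
  rw [Complex.normSq_eq_norm_sq, ← mul_pow, Finset.sum_mul]
  refine pow_le_pow_left₀ (norm_nonneg _) ((norm_sum_le _ _).trans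
    (Finset.sum_le_sum fun i _ => ?_)) 2
  rw [norm_mul, norm_star, mul_comm]
  exact mul_le_mul_of_nonneg_left (norm_le_pi_norm v i) (norm_nonneg _)

end PULr

theorem rPUL (hCHR : Sb_CHR) : Sb_PUL := by
  intro n M _ ι _ _ D K β b u ρ hβ hρ hu
  have hK := isCompact_closedBall (0 : E (K.B b).N) ρ
  have lt : ∀ z ∈ closedBall (0 : E (K.B b).N) ρ, ‖z‖ < 1 := fun z hz =>
    (mem_closedBall_zero_iff.1 hz).trans_lt hρ
  obtain ⟨c, c0, hc⟩ := BBD.low hK (T := DM.hr (K.f b))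
    (fun z hz => smM_hess (cd_ofReal (K.psh b z (lt z hz)).1))
    fun z hz => K32.pd_of_lv (K.psh b z (lt z hz)).1 (K.psh b z (lt z hz)).2
  obtain ⟨A, A0, hA⟩ := BBD.up hK (f := fun z => BBD.sn (DM.hr u z))
    fun z hz => BBD.sn_cont (smM_hess (cd_ofReal (hu z (lt z hz))))
  obtain ⟨B, B0, hB⟩ := BBD.up hK (f := fun z => (∑ i, ‖dzb i (fun y => (u y : ℂ)) z‖) ^ 2)
    fun z hz => (tendsto_finsetSum _ fun i _ =>
      (cd_dzb (cd_ofReal (hu z (lt z hz))) i).continuousAt.norm).pow 2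
  refine ⟨(A + B + (K.B b).N) / c, by positivity, fun d z hz hw => ?_⟩
  have hp := (K.B b).phol d z hz hw
  have l1 : ‖D.rd (K.B b).p d z‖ < 1 := (K.B b).lt _ hw
  obtain ⟨s1, s2⟩ := hCHR n _ _ u z hp (hu _ l1)
  refine ⟨s1, fun h v => ?_⟩
  have m := mem_closedBall_zero_iff.2 h
  have e : nq (β (D.e d) z) v =
      lv (K.f b) (D.rd (K.B b).p d z) (fderiv ℂ (D.rd (K.B b).p d) z v) := by
    rw [hβ.2 b d z hz hw]
    exact ((hCHR n _ _ (K.f b) z hp (K.psh b _ l1).1).2 v).1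
  have k : ∀ {x a : ℝ}, x ≤ a * ‖fderiv ℂ (D.rd (K.B b).p d) z v‖ ^ 2 → a ≤ A + B + (K.B b).N →
      x ≤ (A + B + (K.B b).N) / c * nq (β (D.e d) z) v := fun {x a} h1 h2 => by
    rw [e, div_mul_eq_mul_div, mul_div_assoc]
    exact h1.trans (mul_le_mul h2 ((le_div_iff₀' c0).2 (hc _ m _)) (sq_nonneg _) (by positivity))
  have n0 : (0 : ℝ) ≤ (K.B b).N := Nat.cast_nonneg _
  exact ⟨k ((congrArg abs (s2 v).1).trans_le (BBD.nq_abs _ _)) ((hA _ m).trans (by linarith)),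
    k ((congrArg normSq (s2 v).2).trans_le (PULr.db_bd _ _ _)) ((hB _ m).trans (by linarith)),
    k (PULr.nsq_bd _) (by linarith)⟩

end Pool.Agent.Lib.K2
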