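import Pool.Agent.Lib.K2.R_CHR
import Pool.Agent.Lib.ZL.B_NFB
import Pool.Agent.Lib.EX.B_BLW
import Pool.Agent.Lib.EX.B_ADA

/-! Project k2, row RSK. -/

open scoped Classical Topology ContDiff ComplexOrder Matrix Manifold
open Set Complex Metric Filter

noncomputable section

namespace Pool.Agent.Lib.K2

open Pool.Agent.Lib.SV (E)
open Pool.Agent.Lib.HS32 Pool.Agent.Lib.HS.BBR Pool.Agent.Lib.EX Pool.Agent.Lib.EX.K1
open Pool.Agent.Lib.EXS Pool.Agent.Lib.ZL Pool.Agent.Lib.EXS.K32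
open Pool.Agent.Lib.KP (HolAt)
open Pool.Agent.Lib.DM (hr)

namespace RSKr

variable {n N : ℕ}

theorem hr_ext {u w : E n → ℝ} {z : E n} (hu : ContDiffAt ℝ ∞ u z) (hw : ContDiffAt ℝ ∞ w z)
    (h : ∀ v, lv u z v = lv w z v) : hr u z = hr w z := by
  have hH : (hr u z - hr w z).IsHermitian := (hess_herm hu).sub (hess_herm hw)
  have h0 : ∀ v, star v ⬝ᵥ (hr u z - hr w z) *ᵥ v = 0 := fun v =>
    Complex.ext (by
      rw [Matrix.sub_mulVec, dotProduct_sub, sub_re, zero_re, sub_eq_zero]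
      exact h v) (hH.im_star_dotProduct_mulVec_self v)
  have hP : (hr u z - hr w z).PosSemidef :=
    Matrix.PosSemidef.of_dotProduct_mulVec_nonneg hH fun v => (h0 v).ge
  refine sub_eq_zero.1 (Matrix.ext_of_mulVec_single fun i => ?_)
  rw [Matrix.zero_mulVec]
  exact (hP.dotProduct_mulVec_zero_iff _).1 (h0 _)

variable {Y I : Type} [TopologicalSpace Y] [ChartedSpace (E n) Y] [IsManifold 𝓘(ℂ, E n) ω Y]

theorem lev {e : OpenPartialHomeomorph Y (E n)} {z : E n} (he : e ∈ (mf n Y).C) (hz : z ∈ e.target)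
    {p : Y → E N} (hp : ∀ᶠ x in 𝓝 (e.symm z), ∀ j, HolAt n 0 (p · j) x) {u : E N → ℝ}
    (hu : ContDiffAt ℝ ∞ u (p (e.symm z))) : ContDiffAt ℝ ∞ (u ∘ p ∘ e.symm) z ∧
      ∀ v, lv (u ∘ p ∘ e.symm) z v = leviAt n (u ∘ p) (e.symm z) (BLW.ph e z v) := by
  have h1 := rCHR n N _ u z (BLW.holN he hz (hp.mono fun x hx => BLW.holv hx)) hu
  refine ⟨h1.1, fun v => ?_⟩
  have hy := mem_chart_source (E n) (e.symm z)
  have e1 := (chartAt (E n) (e.symm z)).left_inv hy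
  have h2 := rCHR n N _ u _ (BLW.holN (h := p) (ch_mf (e.symm z))
    ((chartAt (E n) (e.symm z)).map_source hy) (by
      rw [e1]
      exact hp.mono fun x hx => BLW.holv hx)) (by rwa [Function.comp_apply, e1])
  rw [(h1.2 v).1, (BLW.der he hz (BLW.holv hp.self_of_nhds)).fderiv]
  refine Eq.trans ?_ ((NFB.levi_eq h2.1 _).trans (h2.2 _).1).symm
  rw [Function.comp_apply, Function.comp_apply, e1]
  rfl

variable [Fintype I] [DecidableEq I]

/-- The blow-up data in the charts of the atlas. -/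
def bl {D : Ad (mf n Y) I} {S : I → Set Y} (hF : D.Fit S) {ex : Set I} {W : Set Y} (ho : IsOpen W)
    (hc : IsPreconnected W) {p : Y → E N} {a : I → ℕ} (h1 : ∀ i ∈ ex, 0 < a i)
    (h : BlowBy n S ex a W p) {k : I → ℕ} {σ : Y → ℂ} (hσ : ∀ y ∈ W, Ord n 0 S (fun i => k i) σ y) :
    Bl D k ex :=
  have h3 := h.choose_spec.choose_spec
  have key := fun (d : D.A) z (hz : z ∈ B2 n) (hW : (D.e d).symm z ∈ W) =>
    let ⟨_, hp, _, _, _, hE, t0, ht, im, ec⟩ := h3.2 _ hW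
    BLW.blw1 (Y := Y) bUNI (D.mem d) (tgt hz) (BLW.fit hF d) hp hE t0 ht im ec
  ⟨W, N, _, p, h.choose_spec.choose, a,
    fun d => BLW.num (D.c d) (fun i => a i) (h.choose_spec.choose ∘ (D.e d).symm), σ,
    (BLW.ord bUNI hF hσ).choose, ho, hc, h1, h3.1, fun y hy => (h3.2 y hy).1,
    fun d z hz hW => BLW.holN (Y := Y) (D.mem d) (tgt hz)
      (mem_of_superset (ho.mem_nhds hW) fun x hx => BLW.holv (h3.2 x hx).2.1),
    fun d z hz hW => (key d z hz hW).1, fun d z hz hW => (key d z hz hW).2.1,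
    fun d z hz hW => (key d z hz hW).2.2, (BLW.ord bUNI hF hσ).choose_spec⟩

end RSKr

open RSKr in
/-- Row `RSK`. -/
theorem rRSK : Sb_RSK := by
  intro n N Y ι I _ _ _ _ _ _ _ _ m S ex k l η W σ g p f hm hR hN
  obtain ⟨a, h1, hB⟩ := hR.blow
  refine ⟨⟨hR.form, hR.opn, hR.cov, fun b => ?_, hR.div, hR.tr⟩, ?_⟩
  · obtain ⟨r, τ, h2, h3⟩ := hB b
    exact ⟨N, r, p b, τ, a, h1, h2, fun y hy => ⟨(h3 y hy).1, (h3 y hy).2.1, (h3 y hy).2.2.2⟩⟩
  have h3 : ∀ b, ∀ y ∈ W b, ‖p b y‖ < 1 ∧ (∀ j, HolAt n 0 (p b · j) y) ∧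
      ((∀ i, y ∉ S i) → ∀ v, dAt n (p b) y v = 0 → v = 0) := fun b y hy =>
    let ⟨_, _, _, h⟩ := hB b
    ⟨(h y hy).1, (h y hy).2.1, (h y hy).2.2.1⟩
  have h4 : ∀ b, ∀ y ∈ W b, ∀ᶠ x in 𝓝 y, ∀ j, HolAt n 0 (p b · j) x := fun b y hy =>
    mem_of_superset ((hR.opn b).1.mem_nhds hy) fun x hx => (h3 b x hx).2.1
  choose α hα using hR.cov
  have : (mf n Y).Cpt := ⟨‹_›, ‹_›, ‹_›⟩
  have hO : ∀ x : Y, {y | y ∈ W (α x) ∧ ‖p (α x) y‖ < (1 + ‖p (α x) x‖) / 2} ∈ 𝓝 x := fun x => by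
    have hx := mem_chart_source (E n) x
    have c1 : ContinuousAt (p (α x)) x := continuousAt_pi.2 fun j => by
      refine (((hol_iff0 (ch_mf x) hx).1 ((h3 _ x (hα x)).2.1 j)).continuousAt.comp
        ((chartAt (E n) x).continuousAt hx)).congr ?_
      filter_upwards [(chartAt (E n) x).open_source.mem_nhds hx] with y hy
      simp only [Function.comp_apply, (chartAt (E n) x).left_inv hy]
    exact ((hR.opn _).1.eventually_mem (hα x)).and
      (c1.norm.eventually_lt continuousAt_const (by linarith [(h3 _ x (hα x)).1]))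
  obtain ⟨D, hF, hD⟩ := bADA bUNI n (mf n Y) I S _ hO fun x : Y => by
    obtain ⟨h, -, hh, -⟩ := hR.form x
    exact ⟨_, ch_mf x, mem_chart_source _ x, _, eqs_chart (ch_mf x) (mem_chart_source _ x) hh⟩
  choose x hx using hD
  obtain ⟨w, w1, w2, w3⟩ := ord_form bUNI hF hR.form
  obtain ⟨c0, c1, c2⟩ : ∃ c0 < (1 : ℝ), ∀ b, (1 + ‖p (α (x b)) (x b)‖) / 2 ≤ c0 := by
    have : ∀ᶠ c in 𝓝[<] (1 : ℝ), ∀ b, (1 + ‖p (α (x b)) (x b)‖) / 2 ≤ c := eventually_all.2 fun b =>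
      nhdsWithin_le_nhds (eventually_ge_nhds (by linarith [(h3 _ _ (hα (x b))).1]))
    obtain ⟨c, a1, a2⟩ := (this.and self_mem_nhdsWithin).exists
    exact ⟨c, a2, a1⟩
  have hv := fun a => ord_unit bUNI hF (hR.div a)
  have σ0 : ∀ a, ∀ y ∈ W a, y ∈ off D → σ a y ≠ 0 := fun a y hy ho => by
    obtain ⟨d, hd⟩ := GLU.ex_ch D y
    obtain ⟨v, hv⟩ := hv a
    obtain ⟨-, v1, v2⟩ := hv d _ (GLU.mem_B2 hd) (by rwa [(D.e d).left_inv hd])
    rw [← GLU.rd_e (σ a) hd, v2]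
    exact mul_ne_zero v1 (MON.xm_ne _ (ho d hd))
  refine ⟨D, ⟨k, ex, a, fun b => bl hF (hR.opn (α (x b))).1 (hR.opn _).2 h1 (hB _) (hR.div _),
    fun b => f (α (x b)), c0, c1, fun _ => rfl, fun b z hz => ?_, fun b d z hz hW ho y hy => ?_,
    fun b z hz => ⟨(hR.psh _ z hz).1, fun v hv => ?_⟩, fun b b' d z hz hW => ?_, fun ε hε => ?_⟩,
    w, fun b => α (x b), hF, ⟨hm, w1, w2, w3⟩, rfl, rfl, fun b => ⟨rfl, fun _ _ => Iff.rfl⟩, hv⟩
  · have := hx b ((D.e b).map_target (tgt hz))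
    exact ⟨this.1, this.2.le.trans (c2 b)⟩
  · have t := (BLW.der (Y := Y) (D.mem d) (tgt hz) (BLW.holv (h3 _ _ hW).2.1)).fderiv
    refine BLW.ph_inj (Y := Y) (D.mem d) (tgt hz) (((h3 _ _ hW).2.2
      (fun i hi => ho i ((hF d z hz i).1 hi)) _ ?_).trans (map_zero _).symm)
    exact (congrArg (fun L : E n →L[ℂ] E N => L y) t).symm.trans hy
  · exact ((hR.psh _ z hz).2 v hv).trans_eq (NFB.levi_eq (hR.psh _ z hz).1 v)
  · have a1 := lev (Y := Y) (D.mem d) (tgt hz) (h4 _ _ hW.1) (hR.psh (α (x b)) _ (h3 _ _ hW.1).1).1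
    have a2 := lev (Y := Y) (D.mem d) (tgt hz) (h4 _ _ hW.2) (hR.psh (α (x b')) _ (h3 _ _ hW.2).1).1
    exact hr_ext a1.1 a2.1 fun v => (a1.2 v).trans ((congrFun (hR.kae _ _ _ hW) _).trans
      (a2.2 v).symm)
  · obtain ⟨F, hF'⟩ := hN ε hε
    refine ⟨fun y : Y => F (α y) (p (α y) y) - Real.log (normSq (σ (α y) y)), fun b => F (α (x b)),
      fun b => ⟨(hF' _).1, fun y hy ho => ?_, fun d z hz hW v => ?_⟩⟩
    · have a1 := σ0 _ y (hα y) ho
      have a2 := (hR.tr _ _ y ⟨hα y, hy⟩).2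
      change F (α y) (p (α y) y) - Real.log (normSq (σ (α y) y)) =
        F (α (x b)) (p (α (x b)) y) - Real.log (normSq (σ (α (x b)) y))
      rw [a2] at a1
      rw [((hF' _).2 y (hα y)).2 _ hy, a2, map_mul, Real.log_mul
        (normSq_pos.2 (left_ne_zero_of_mul a1)).ne' (normSq_pos.2 (right_ne_zero_of_mul a1)).ne']
      ring
    · have a0 := (h3 _ _ hW).1
      have a1 := lev (Y := Y) (u := F (α (x b)) + ε • f (α (x b))) (D.mem d) (tgt hz) (h4 _ _ hW)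
        (((hF' _).1 _ a0).add ((hR.psh _ _ a0).1.const_smul ε))
      exact (((hF' _).2 _ hW).1 _).trans_eq (a1.2 v).symm

end Pool.Agent.Lib.K2
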