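import Pool.Agent.Lib.K2.Br

/-! Project k2, bridge row RYK: the context of the core. -/

open scoped Classical Topology ContDiff ENNReal ComplexOrder Matrix Manifold
open Set MeasureTheory Complex Metric Filter

set_option linter.unusedVariables false

noncomputable section

namespace Pool.Agent.Lib.K2

open Pool.Agent.Lib.SV (E nsq)
open Pool.Agent.Lib.HS32 Pool.Agent.Lib.EX Pool.Agent.Lib.EXS Pool.Agent.Lib.ZL
open Pool.Agent.Lib.EXS.K32 (lv lv_mul)
open Pool.Agent.Lib.DM (hr Cv)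
open Pool.Agent.Lib.DM.RHO (nq_add30 nq_smul30)

theorem rRYK (hBET : Sb_BET) (hPUL : Sb_PUL) (hTSU : Sb_TSU) (hCAN : Sb_CAN) (hZED : Sb_ZED) :
    Sb_RYK := by
  intro n M _ ι _ _ D K l m w N hw N1 klt eff use
  obtain ⟨⟨β, hβ⟩, hb⟩ := hBET n M ι D K
  obtain ⟨A, T, u, A0, hT, hH⟩ := hTSU n M ι D K β hβ
  obtain ⟨-, -, ⟨μ, hμ⟩, -⟩ := hCAN n M ι D _ l m w hH.toMet hw
  obtain ⟨S, a, hS, ha, hi⟩ :=
    hZED n M ι D K β _ l m w μ N hβ hH hw hμ (one_pos.trans_le N1) klt eff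
  obtain ⟨T0, hT0, -⟩ := DM.XC.ex (DM.XC.lw_lo D fun i => -(K.e i : ℝ))
  obtain ⟨f, hf, -, ef⟩ := DM.XC.diff hT0 hT
  have hT' : Cv D (fun i => -(K.e i : ℝ)) T fun x => f x + lw D (fun i => (K.e i : ℝ)) x :=
    DM.XC.congr hT rfl (fun _ _ _ _ => rfl) fun x hx => by
      rw [ef x hx, add_comm]
      simp only [lw, neg_mul, Finset.sum_neg_distrib, neg_neg]
  refine ⟨⟨μ, m, l, w, hw.m0, hw.hol, hw.ne, hw.cmp, hμ⟩,
    { k := K.k, N := N, ex := K.ex, B := K.B, H := A • β + T, β := A • β, a := fun i => K.e i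
      l := f, q := fun b x => A * K.f b ((K.B b).p x), u := a, N1 := N1, klt := klt, eff := eff
      use := use, sub := fun b z hz => (K.sub b z hz).1, kae := hH, clo := hβ.1.smul A
      nn := ?_, a0 := fun i => Nat.cast_nonneg _, lsm := hf, tsu := fun d z hz ho v => ?_
      pot := fun b d z hz hx => ?_, dom := fun b r hr => ?_
      zk := ⟨fun e he => ⟨(ha e he).1, (ha e he).2.1, fun d z hz ho v => ?_⟩, fun s hs => ?_⟩ },
    rfl, rfl, rfl, rfl, fun b => ⟨rfl, fun _ _ => Iff.rfl⟩⟩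
  · simpa only [smul_zero] using (hb β hβ).1.smul A0.le
  · rw [(DM.XC.bd hT').2.2 d z hz ho v]
    exact (nq_add30 _ _ v).le
  · obtain ⟨C, -, h⟩ := hPUL n M ι D K β b (K.f b) 0 hβ one_pos fun z hz => (K.psh b z hz).1
    have s := (h d z hz hx).1
    refine ⟨contDiffAt_const.mul s, fun v => le_of_eq ?_⟩
    refine (nq_smul30 A _ v).trans (Eq.trans ?_ (lv_mul s A v).symm)
    rw [hβ.2 b d z hz hx]
    rfl
  · obtain ⟨C, C0, h⟩ := hPUL n M ι D K β b (K.f b) r hβ hr fun z hz => (K.psh b z hz).1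
    refine ⟨C / A, fun d z hz hx v => (((h d z hz hx.1).2 hx.2 v).2.2).trans (le_of_eq ?_)⟩
    rw [show fq D (A • β) d z v = A * nq (β (D.e d) z) v from nq_smul30 A _ v]
    field_simp
  · have c := DM.XC.congr (φ' := fun x => a e x - lw D (fun i => K.k i / N) x)
      (DM.XC.add hS (DM.XC.sm D (ha e he).1)) rfl (fun _ _ _ _ => rfl) fun x _ => by ring
    have p : 0 ≤ nq _ v := (Complex.nonneg_iff.1
      (((ha e he).2.2 _ (D.mem d) z (GLU.mem_tgt d hz)).dotProduct_mulVec_nonneg v)).1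
    rw [(DM.XC.bd c).2.2 d z hz ho v]
    simp only [Pi.add_apply, Pi.smul_apply, Pi.zero_apply, sub_zero, nq_add30, nq_smul30, fq] at p ⊢
    linarith
  · obtain ⟨C, hC⟩ := hi s hs
    exact ⟨C, 1, ⟨one_pos, le_rfl⟩, hC⟩

end Pool.Agent.Lib.K2
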