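import Pool.Agent.Lib.K2.Br

/-! Project k2: the Kähler metric and the function of Tsuji. -/

open scoped Classical Topology ContDiff ComplexOrder Matrix
open Set Complex Metric Filter

set_option linter.unusedSectionVars false

noncomputable section

namespace Pool.Agent.Lib.K2

open Pool.Agent.Lib.SV (E nsq nsq_nonneg)
open Pool.Agent.Lib.HS32 Pool.Agent.Lib.EX Pool.Agent.Lib.EXS Pool.Agent.Lib.ZL
open Pool.Agent.Lib.EXS.K32 Pool.Agent.Lib.EXS.GLU
open Pool.Agent.Lib.DM (hr Cv Lo)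

namespace TSUr

variable {n : ℕ} {M : Mf n} {ι : Type} [Fintype ι] [DecidableEq ι] {D : Ad M ι}

theorem nsq_sm {κ : Type} [Fintype κ] (c : ℂ) (v : κ → ℂ) : nsq (c • v) = normSq c * nsq v := by
  simp [nsq, Finset.mul_sum]

/-- The numerators, frozen to zero if the base point is not in the model. -/
def tz (K : Kb D) (d : D.A) (z : E n) (a : D.A) (y : E n) : E (K.B a).r :=
  if (D.e d).symm z ∈ (K.B a).W then (K.B a).t d y else 0

theorem tz_hol (K : Kb D) (d : D.A) {z : E n} (hz : z ∈ B2 n) (a : D.A) : HolN (tz K d z a) z := by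
  unfold tz
  split_ifs with h
  · exact ((K.B a).thol d z hz h).1
  · exact Eventually.of_forall fun _ => differentiableAt_const _

/-- Positivity for frozen coefficients. -/
theorem pos (K : Kb D) (d : D.A) {z v : E n} (hz : z ∈ B2 n) (c : D.A → ℝ) (hc : ∀ a, 0 ≤ c a)
    {b : D.A} (hb : c b = 1) (hW : (D.e d).symm z ∈ (K.B b).W) (hv : v ≠ 0)
    (hp : fderiv ℂ (D.rd (K.B b).p d) z v = 0) :
    0 < lv (fun y => Real.log (∑ a, c a * nsq (tz K d z a y))) z v := by
  let F : E n → (Σ a : D.A, Fin (K.B a).r) → ℂ := fun y i => (√(c i.1) : ℝ) * tz K d z i.1 y i.2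
  have e : ∀ y, ∑ a, c a * nsq (tz K d z a y) = nsq (F y) := fun y => by
    simp only [nsq, F, Fintype.sum_sigma, map_mul, normSq_ofReal, Real.mul_self_sqrt (hc _),
      Finset.mul_sum]
  have hF : HolN F z := (eventually_all.2 fun a => tz_hol K d hz a).mono fun y hy =>
    differentiableAt_pi.2 fun i => (differentiableAt_pi.1 (hy i.1) i.2).const_mul _
  have k : ∀ i, (fun y => F y ⟨b, i⟩) = fun y => (K.B b).t d y i := fun i => funext fun y => by
    simp only [F, tz, if_pos hW, hb, Real.sqrt_one, ofReal_one, one_mul]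
  obtain ⟨t1, t2, -⟩ := (K.B b).thol d z hz hW
  simp only [e]
  refine ((lv_lg hF fun h => t2 (funext fun i => ?_)).2 v).2 fun t ht =>
    hv ((K.B b).imm d z hz hW v t hp (funext fun i => ?_))
  · exact (congrFun (k i) z).symm.trans (congrFun h ⟨b, i⟩)
  · have h1 := congrFun ht ⟨b, i⟩
    have g : ∀ {κ : Type} [Fintype κ] {G : E n → κ → ℂ}, HolN G z → ∀ j,
        fderiv ℂ G z v j = fderiv ℂ (fun y => G y j) z v := fun h j => by
      rw [fderiv_apply h.self_of_nhds]
      rfl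
    rw [g hF, k i, Pi.smul_apply, congrFun (k i) z, ← g t1] at h1
    exact h1

end TSUr

open TSUr in
theorem rTSU (hBET : Sb_BET) (hPUL : Sb_PUL) (hCUT : Sb_CUT) (hFRZ : Sb_FRZ) (hPOS : Sb_POS) :
    Sb_TSU := by
  intro n M _ ι _ _ D K β hβ
  have r1 : (K.c0 + 1) / 2 < 1 := by linarith [K.c1]
  obtain ⟨θ, C, -, h1, hθ⟩ := hCUT n M ι D K β ((K.c0 + 1) / 2) hβ (by linarith [K.c1])
  let ψ : D.A → E n → ℝ := fun d y => Real.log (∑ a, D.rd (θ a) d y * nsq ((K.B a).t d y))
  have ev : D.All fun d z => ∀ᶠ y in 𝓝 z, ∀ a,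
      D.rd (θ a) d y * nsq ((K.B a).t d y) = D.rd (θ a) d y * nsq (tz K d z a y) := by
    refine fun d z hz => eventually_all.2 fun a => ?_
    by_cases h : (D.e d).symm z ∈ (K.B a).W
    · exact Eventually.of_forall fun y => by rw [tz, if_pos h]
    · filter_upwards [((D.e d).continuousAt_symm (mem_tgt d hz)).eventually_mem
        (((K.B a).cpt _ r1).isClosed.isOpen_compl.mem_nhds fun h' => h h'.1)] with y hy
      have : D.rd (θ a) d y = 0 := by_contra fun h0 =>
        hy ⟨(((hθ a).2.1 _).2.2.1 h0).1, (((hθ a).2.1 _).2.2.1 h0).2.le⟩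
      rw [this, zero_mul, zero_mul]
  have ev' : D.All fun d z =>
      ψ d =ᶠ[𝓝 z] fun y => Real.log (∑ a, D.rd (θ a) d y * nsq (tz K d z a y)) :=
    fun d z hz => (ev d z hz).mono fun y hy =>
      congrArg Real.log (Finset.sum_congr rfl fun a _ => hy a)
  have sθ : ∀ a, D.All fun d z => ContDiffAt ℝ ∞ (D.rd (θ a) d) z := fun a d z hz =>
    (hθ a).1 _ (D.mem d) z (mem_tgt d hz)
  have hW : ∀ {b x}, θ b x = 1 → x ∈ (K.B b).W ∧ ‖(K.B b).p x‖ < (K.c0 + 1) / 2 := fun h =>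
    ((hθ _).2.1 _).2.2.1 (h.trans_ne one_ne_zero)
  have ps : D.All fun d z => 0 < ∑ a, D.rd (θ a) d z * nsq (tz K d z a z) := fun d z hz => by
    obtain ⟨b, hb⟩ := h1 ((D.e d).symm z)
    refine Finset.sum_pos' (fun a _ => mul_nonneg ((hθ a).2.1 _).1 (nsq_nonneg _))
      ⟨b, Finset.mem_univ b, ?_⟩
    rw [tz, if_pos (hW hb).1, Ad.rd, hb, one_mul]
    exact nsq_pos ((K.B b).thol d z hz (hW hb).1).2.1
  have lo : Lo D (fun i => -K.e i) (fun x => Real.log (∑ a, θ a x * nsq ((K.B a).τ x))) ψ := by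
    refine fun d z hz => ⟨((ContDiffAt.sum fun a _ => (sθ a d z hz).mul
      (cd_nsq (tz_hol K d hz a))).log (ps d z hz).ne').congr_of_eventuallyEq (ev' d z hz),
      fun ho => ?_⟩
    have e : ∑ a, θ a ((D.e d).symm z) * nsq ((K.B a).τ ((D.e d).symm z)) =
        Real.exp (lm (D.c d) (fun i => K.e i) z) * ∑ a, D.rd (θ a) d z * nsq (tz K d z a z) := by
      rw [Finset.mul_sum]
      refine Finset.sum_congr rfl fun a _ => ?_
      by_cases h0 : θ a ((D.e d).symm z) = 0
      · rw [Ad.rd, h0, zero_mul, zero_mul, mul_zero]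
      · have h := (((hθ a).2.1 _).2.2.1 h0).1
        have t3 := ((K.B a).thol d z hz h).2.2
        rw [Ad.rd] at t3
        rw [t3, nsq_sm, xm_exp fun i _ => ho i, tz, if_pos h, K.be a, mul_left_comm]
        simp only [Int.cast_natCast]
        rfl
    rw [(ev' d z hz).self_of_nhds, Ad.rd, e, Real.log_mul (Real.exp_pos _).ne' (ps d z hz).ne',
      Real.log_exp]
    simp only [lm, neg_mul, Finset.sum_neg_distrib]
    ring
  obtain ⟨T, hT, eT⟩ := DM.XC.ex lo
  obtain ⟨A, hA, hM⟩ := hPOS n M _ β T (DM.XC.sub D) hβ.1.toForm hT.1.toForm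
    ((hBET n M ι D K).2 β hβ).1 (DM.XC.on fun d z hz v hv h0 => by
      obtain ⟨b, hb⟩ := h1 ((D.e d).symm z)
      obtain ⟨C', -, hp⟩ := hPUL n M ι D K β b (fun _ => 0) _ hβ r1 fun _ _ => contDiffAt_const
      have p0 := ((hp d z hz (hW hb).1).2 (hW hb).2.le v).2.2
      rw [h0, mul_zero] at p0
      rw [eT d z hz]
      change 0 < lv (ψ d) z v
      rw [lv_congr (ev' d z hz), hFRZ n D.A (fun a => D.rd (θ a) d) (fun a y => nsq (tz K d z a y))
        z v (fun a => ?_) (ps d z hz)]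
      · exact pos K d hz _ (fun a => ((hθ a).2.1 _).1) hb (hW hb).1 hv
          (by_contra fun h => (nsq_pos h).not_ge p0)
      · obtain ⟨a1, a2⟩ := (hθ a).2.2 d z hz v
        rw [h0, mul_zero] at a1 a2
        exact ⟨sθ a d z hz, cd_nsq (tz_hol K d hz a), abs_nonpos_iff.1 a1,
          normSq_eq_zero.1 (a2.antisymm (normSq_nonneg _))⟩)
  exact ⟨A, T, _, hA, hT, (hβ.1.smul A).add hT.1, hM.pos⟩

end Pool.Agent.Lib.K2
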