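import Pool.Agent.Lib.K2.Br

/-! Project k2: weights with uniformly small singularities. -/

open scoped Classical Topology ContDiff ENNReal ComplexOrder Matrix Manifold
open Set MeasureTheory Complex Metric Filter

set_option linter.unusedVariables false

noncomputable section

namespace Pool.Agent.Lib.K2

open Pool.Agent.Lib.SV (E nsq)
open Pool.Agent.Lib.HS32 Pool.Agent.Lib.EX Pool.Agent.Lib.EXS Pool.Agent.Lib.ZL
open Pool.Agent.Lib.DM (hr Cv)
open Pool.Agent.Lib.DM.XC (sg)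

namespace ZEDr

variable {n : ℕ} {M : Mf n} {ι : Type} [Fintype ι] [DecidableEq ι] {D : Ad M ι}

theorem cv_sum {κ : Type} (s : Finset κ) {P : κ → ι → ℝ} {T : κ → M.Fam (Mat n)}
    {φ : κ → M.X → ℝ} (h : ∀ i, Cv D (P i) (T i) (φ i)) :
    Cv D (∑ i ∈ s, P i) (∑ i ∈ s, T i) fun x => ∑ i ∈ s, φ i x := by
  induction s using Finset.induction_on with
  | empty =>
    refine DM.XC.congr (DM.XC.sm D (Mf.sm_const (0 : ℝ))) rfl (fun e he z hz => ?_) fun _ _ => rfl
    exact (((mLAP n M _ _ (Mf.sm_const 0) (Mf.sm_const 0)).1 0 e he z hz).1).symm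
  | insert i s hi ih =>
    simp only [Finset.sum_insert hi]
    exact DM.XC.add (h i) ih

theorem expo {κ : ι → ℝ} (h : ∀ i, -1 < κ i) : ∃ q > (1 : ℝ), ∀ i, -1 < q * κ i := by
  have t : ∀ᶠ q in 𝓝 (1 : ℝ), ∀ i, -1 < q * κ i := eventually_all.2 fun i =>
    (continuous_id.mul continuous_const).continuousAt.eventually
      (lt_mem_nhds (by simpa using h i))
  obtain ⟨q, h1, h2⟩ := ((t.filter_mono nhdsWithin_le_nhds).and
    (self_mem_nhdsWithin (s := Ioi (1 : ℝ)))).exists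
  exact ⟨q, h2, h1⟩

theorem young {q A B : ℝ} (hq : 1 < q) :
    Real.exp (A + B) ≤ Real.exp (q * A) + Real.exp (q / (q - 1) * B) := by
  have h0 : 0 < q - 1 := sub_pos.2 hq
  rcases le_total (A + B) (q * A) with h | h
  · exact (Real.exp_le_exp.2 h).trans (le_add_of_nonneg_right (Real.exp_pos _).le)
  · refine (Real.exp_le_exp.2 ?_).trans (le_add_of_nonneg_left (Real.exp_pos _).le)
    rw [div_mul_eq_mul_div, le_div_iff₀ h0]
    nlinarith

theorem ae_off [M.Cpt] {H : M.Fam (Mat n)} (hH : M.Met H) {Θ : ι → M.Fam (Mat n)}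
    (h : ∀ i, DX.Sg M (Θ i) (sg D i)) : ∀ᵐ x ∂M.mu H, x ∈ off D := by
  have t : ∀ᵐ x ∂M.mu H, ∀ i, sg D i x ≠ 0 := ae_all_iff.2 fun i => by
    rw [ae_iff]
    simpa only [not_not] using (h i).nul H hH
  filter_upwards [t] with x hx b hb i h0
  refine hx i ?_
  rw [← GLU.rd_e (sg D i) hb, (DM.XC.sig D i).2.2.2.1 b _ (D.tgt b ▸ (D.e b).map_source hb), h0,
    map_zero, mul_zero]

end ZEDr

open ZEDr in
theorem rZED (hBET : Sb_BET) (hSGX : Sb_SGX) (hORK : Sb_ORK) (hKLI : Sb_KLI) (hCAN : Sb_CAN)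
    (hNFW : Sb_NFW) (hZE : ZE.St_ZE) : Sb_ZED := by
  intro n M _ ι _ _ D K β H l m w μ N hβ hH hw hμ hN h1 h2
  set γ : ι → ℝ := fun i => K.k i / N with hγ
  set κ : ι → ℝ := fun i => l i / m - K.k i / N with hκ
  have κ1 : ∀ i, -1 < κ i := fun i => by simp only [hκ]; linarith [h1 i]
  choose Θ c1 c2 using hSGX n M ι D
  obtain ⟨b0, b1, -, b2⟩ := (hBET n M ι D K).2 β hβ
  obtain ⟨φ, k1, -, k2⟩ := hCAN n M ι D H l m w hH.toMet hw
  have k3 := cv_sum Finset.univ fun i => DM.XC.smul (κ i) (c1 i)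
  have k4 : Cv D γ (-M.ric H + (-1 : ℝ) • ∑ i, κ i • Θ i)
      fun x => φ x + -1 * ∑ i, κ i * -Real.log (sg D i x) :=
    DM.XC.congr (DM.XC.add k1 (DM.XC.smul (-1) k3)) (funext fun j => by
      simp [Finset.sum_apply, Pi.single_apply, hκ, hγ]) (fun _ _ _ _ => rfl) fun _ _ => rfl
  set T₀ := -M.ric H + (-1 : ℝ) • ∑ i, κ i • Θ i with hT
  obtain ⟨T, t1, -⟩ := DM.XC.ex (DM.XC.lw_lo D γ)
  obtain ⟨f, f1, f2, f3⟩ := DM.XC.diff t1 k4
  obtain ⟨B, -, hB⟩ := f1.exists_bound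
  have fin := (mMU n M H hH.toMet).1
  obtain ⟨a, a1, a2⟩ : ∃ a : ℝ → M.X → ℝ, (∀ e ∈ Ioc (0 : ℝ) 1, M.Sm (a e) ∧ (∀ x, a e x ≤ 0) ∧
      M.Le 0 (T₀ + e • H + M.hs (a e))) ∧ ∀ s > (0 : ℝ), ∃ C : ℝ, ∀ e ∈ Ioc (0 : ℝ) 1,
        ∫ x, Real.exp (-(s * a e x)) ∂M.mu H ≤ C := by
    rcases Nat.eq_zero_or_pos n with rfl | hn
    · exact ⟨fun _ _ => 0, fun e _ => ⟨Mf.sm_const 0, fun _ => le_rfl, fun _ _ _ _ =>
        Eq.subst (motive := Matrix.PosSemidef) (Subsingleton.elim (0 : Mat 0) _)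
          Matrix.PosSemidef.zero⟩,
        fun s _ => ⟨_, fun _ _ => le_rfl⟩⟩
    obtain ⟨a, z1, -, z2⟩ := hZE n M ι ⟨H, T₀, β, Θ, sg D, κ, hn, hH, k4.1, hβ.1, b0,
      b2 H hH.toMet, c2, fun e he z hz => by
        simp only [hT, Pi.add_apply, Pi.neg_apply, neg_smul, one_smul, Finset.sum_apply,
          Pi.smul_apply]
        abel,
      fun i hi => hORK n M ι D H β _ i hH hβ.1 b0 (fun d z hz j hj => b1 d z hz j (by
        rw [mem_singleton_iff.1 hj]
        by_contra g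
        simp only [hκ] at hi
        linarith [h2 i g])) (c1 i),
      hNFW n M ι D K β T₀ _ N hβ hN k4, (hKLI n M ι D H κ hH.toMet κ1).2⟩
    exact ⟨a, fun e he => ⟨(z1 e he).sm, (z1 e he).np, (z1 e he).kae.toMet.nonneg⟩, z2⟩
  refine ⟨T, fun e x => a e x + (f x - B), t1, fun e he => ?_, fun s hs => ?_⟩
  · obtain ⟨s1, s2, s3⟩ := a1 e he
    have s4 := f1.sub (Mf.sm_const B)
    refine ⟨s1.add s4, fun x => by linarith [s2 x, (abs_le.1 (hB x)).2],
      s3.congr (fun _ _ _ _ => rfl) fun c hc z hz => ?_⟩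
    have g := (mLAP n M _ _ f1 (Mf.sm_const B)).1 B c hc z hz
    simp only [Pi.add_apply, f2 c hc z hz, ((mLAP n M _ _ s1 s4).1 0 c hc z hz).2.1, g.2.2.1, g.1]
    abel
  obtain ⟨q, q1, q2⟩ := expo κ1
  obtain ⟨C, hC⟩ := a2 (q / (q - 1) * s) (mul_pos (div_pos (by linarith) (by linarith)) hs)
  have i1 := (hKLI n M ι D H (fun i => q * κ i) hH.toMet q2).1
  set L := ∫⁻ x, ENNReal.ofReal (Real.exp (lw D (fun i => q * κ i) x)) ∂M.mu H with hL
  refine ⟨(ENNReal.ofReal (Real.exp (B + s * (2 * B))) * (L + ENNReal.ofReal C)).toReal,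
    fun e he => ?_⟩
  have sm := ((a1 e he).1.const_mul (q / (q - 1) * s)).neg.exp
  rw [ENNReal.ofReal_toReal (ENNReal.mul_ne_top ENNReal.ofReal_ne_top
    (ENNReal.add_ne_top.2 ⟨i1, ENNReal.ofReal_ne_top⟩)), k2 μ hμ]
  calc _ ≤ ∫⁻ x, ENNReal.ofReal (Real.exp (B + s * (2 * B))) *
        (ENNReal.ofReal (Real.exp (lw D (fun i => q * κ i) x)) +
          ENNReal.ofReal (Real.exp (-(q / (q - 1) * s * a e x)))) ∂M.mu H := by
        refine lintegral_mono_ae ?_
        filter_upwards [ae_off hH.toMet c2] with x hx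
        have e1 : lw D (fun i => q * κ i) x = q * ∑ i, κ i * Real.log (sg D i x) := by
          simp only [lw, sg, Finset.mul_sum, mul_assoc]
        have e2 := f3 x hx
        simp only [mul_neg, Finset.sum_neg_distrib] at e2
        have e3 := abs_le.1 (hB x)
        rw [← ENNReal.ofReal_mul (Real.exp_pos _).le, ← ENNReal.ofReal_add (Real.exp_pos _).le
          (Real.exp_pos _).le, ← ENNReal.ofReal_mul (Real.exp_pos _).le, e1, mul_assoc _ s,
          ← mul_neg (q / (q - 1)), ← Real.exp_add]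
        refine ENNReal.ofReal_le_ofReal (le_trans ?_
          (mul_le_mul_of_nonneg_left (young q1) (Real.exp_pos _).le))
        rw [← Real.exp_add]
        refine Real.exp_le_exp.2 ?_
        nlinarith [mul_le_mul_of_nonneg_left e3.1 hs.le]
    _ ≤ _ := by
        rw [lintegral_const_mul' _ _ ENNReal.ofReal_ne_top,
          lintegral_add_right _ sm.continuous.measurable.ennreal_ofReal,
          ← ofReal_integral_eq_lintegral_ofReal
            ((mMU n M H hH.toMet).2.2.2.2.1 _ _ sm.continuous)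
            (Eventually.of_forall fun x => (Real.exp_pos _).le)]
        gcongr
        exact hC e he

end Pool.Agent.Lib.K2
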