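import Pool.Agent.Lib.K2.B_APA
import Pool.Agent.Lib.K2.B_APB
import Pool.Agent.Lib.K2.B_AVP
import Pool.Agent.Lib.K2.B_BR5
import Pool.Agent.Lib.K2.B_CEC
import Pool.Agent.Lib.K2.B_EST
import Pool.Agent.Lib.K2.B_EXB
import Pool.Agent.Lib.K2.B_EXT
import Pool.Agent.Lib.K2.B_H6
import Pool.Agent.Lib.K2.B_HQS
import Pool.Agent.Lib.K2.B_IDL
import Pool.Agent.Lib.K2.B_IDS
import Pool.Agent.Lib.K2.B_IES
import Pool.Agent.Lib.K2.B_INT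
import Pool.Agent.Lib.K2.B_LC0
import Pool.Agent.Lib.K2.B_LOC
import Pool.Agent.Lib.K2.B_MDL
import Pool.Agent.Lib.K2.B_MU
import Pool.Agent.Lib.K2.B_NAK
import Pool.Agent.Lib.K2.B_ONE
import Pool.Agent.Lib.K2.B_PKL
import Pool.Agent.Lib.K2.B_POG
import Pool.Agent.Lib.K2.B_PWR
import Pool.Agent.Lib.K2.B_REG
import Pool.Agent.Lib.K2.B_STB
import Pool.Agent.Lib.K2.B_SUP
import Pool.Agent.Lib.K2.B_WLO
import Pool.Agent.Lib.K2.B_WTM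
import Pool.Agent.Lib.K2.B_WTS
import Pool.Agent.Lib.K2.R_BET
import Pool.Agent.Lib.K2.R_CAN
import Pool.Agent.Lib.K2.R_CHR
import Pool.Agent.Lib.K2.R_CUT
import Pool.Agent.Lib.K2.R_FRZ
import Pool.Agent.Lib.K2.R_KLI
import Pool.Agent.Lib.K2.R_NFW
import Pool.Agent.Lib.K2.R_ORK
import Pool.Agent.Lib.K2.R_POS
import Pool.Agent.Lib.K2.R_PUL
import Pool.Agent.Lib.K2.R_RSK
import Pool.Agent.Lib.K2.R_RYK
import Pool.Agent.Lib.K2.R_SGX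
import Pool.Agent.Lib.K2.R_TSU
import Pool.Agent.Lib.K2.R_ZED
import Pool.Agent.Lib.ZE.All2
import Pool.Agent.Lib.ZL.B_PW
import Pool.Agent.Lib.ZL.B_LEV
import Pool.Agent.Lib.ZL.B_UPB
import Pool.Agent.Lib.ZL.B_WGT
import Pool.Agent.Lib.NA.B_BR4
import Pool.Agent.Lib.NA.B_LOJ1
import Pool.Agent.Lib.NA.B_NINT
import Pool.Agent.Lib.NA.B_VAL
import Pool.Agent.Lib.EX.B_UNI

/-! Project k2: the rows without hypotheses. -/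

namespace Pool.Agent.Lib.K2

theorem sVAL : NA.St_VAL := NA.nVAL ZL.bPW

theorem sUPB : ZL.St_UPB := ZL.bUPB ZL.bPW

theorem sWGT : ZL.St_WGT := ZL.bWGT ZL.bLEV

theorem sMU : Sy_MU := kMU ZL.bPW

theorem sINT : Sy_INT := kINT ZL.bPW sMU

theorem sEXB : Sy_EXB := kEXB ZL.bPW sVAL

theorem sPOG : Sy_POG := kPOG sMU

theorem sEST : St_EST :=
  kEST ZL.bPW sUPB sMU sEXB (kWTS ZL.bLEV sWGT ZL.bPW sEXB) (kWTM ZL.bPW)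
    (kIES ZL.bPW sWGT sMU sEXB) (kAPB ZL.bPW sMU (kREG ZL.bPW) bAPA)

theorem sEXT : St_EXT :=
  kEXT ZL.bPW sMU sPOG sINT sEXB sVAL (kAVP ZL.bPW sMU sEXB sVAL) sEST (kWLO ZL.bPW sEXB) kHQS

theorem sIDS : St_IDS :=
  kIDS ZL.bPW sMU sINT sEXB sVAL NA.nDCC1
    (kPKL ZL.bPW ZL.bLEV sWGT sMU sPOG sEXB sVAL NA.nNINT kHQW) (kIDL ZL.bPW sMU sVAL NA.nLOJ1)

theorem sONE : St_ONE :=
  kONE ZL.bPW sMU sINT sEXB sVAL sIDS sEXT (kSUP ZL.bPW sMU sVAL) (kCEC ZL.bPW sVAL)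

theorem sNAK : St_NAK :=
  kNAK ZL.bPW sMU sINT sVAL (kSTB sUPB sVAL NA.nDCC1)
    (kLC0 ZL.bPW sMU sUPB sWGT sVAL sINT NA.nNINT) kMDL (kPWR sVAL) sONE

theorem sBET : Sb_BET := rBET rCHR

theorem sPUL : Sb_PUL := rPUL rCHR

theorem sRYK : Sb_RYK :=
  rRYK sBET sPUL (rTSU sBET sPUL (rCUT sBET sPUL) rFRZ rPOS) rCAN
    (rZED sBET rSGX rORK rKLI rCAN (rNFW sBET sPUL) ZE.ze2)

theorem sH6 : St_H6 := kH6 rRSK sRYK (NA.nBR4 sVAL) (kBR5 (kLOC ZL.bPW EX.bUNI)) sNAK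

end Pool.Agent.Lib.K2
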