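import Pool.Agent.Lib.K2.Blue
import Pool.Agent.Lib.K70.Apa

/-! Project k2, row APA. -/

open scoped Classical Topology ContDiff ENNReal
open Set MeasureTheory Complex Metric Filter

noncomputable section

namespace Pool.Agent.Lib.K2

open Pool.Agent.Lib.SV (E)
open Pool.Agent.Lib.HS32 Pool.Agent.Lib.EX Pool.Agent.Lib.EXS Pool.Agent.Lib.ZL
open Pool.Agent.Lib.EXS.K32 (lv)
open Pool.Agent.Lib.K70 (Dat pol_smo)

theorem bAPA : St_APA := by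
  intro n M _ ι _ _ D X g P F u b Γ C ε A hg hC hε hA hu anti hF hΓ hm h0 hb hI
  let Y : Dat D := ⟨g, X.μ, X.m, X.l, X.w, P, hg, X.m0, X.whol, X.wne, X.wcmp, X.eta⟩
  have eF : ∀ j, ∀ x ∈ off D, F j x = Y.F (u j) x := hF
  have ae : ∀ᵐ x ∂X.μ, x ∈ off D := by
    have h := Y.lint ((off D)ᶜ.indicator 1)
    rw [lintegral_indicator_one (PW.open_off D).measurableSet.compl] at h
    refine h.trans ((lintegral_congr_ae (Y.off_ν.mono fun x hx => ?_)).trans lintegral_zero)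
    simp [hx]
  have eI : ∀ j (f : M.X → ℝ), X.I (fun x => f x * Real.exp (-F j x)) =
      ∫⁻ x, ENNReal.ofReal (f x * Real.exp (-Y.F (u j) x)) ∂Y.μ := fun j f =>
    lintegral_congr_ae (ae.mono fun x hx => by simp only [eF j x hx])
  have eL : ∀ j d, ∀ z ∈ B2 n, Off (D.c d) z → ∀ v,
      lv (D.rd (F j) d) z v = lv (D.rd (Y.F (u j)) d) z v := fun j d z hz ho v => by
    refine K32.lv_congr ?_ v
    filter_upwards [isOpen_ball.eventually_mem hz, PW.off_ev _ ho] with y h1 h2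
    exact eF j _ ((GLU.mem_off (TRF.mem_src D h1)).2 (by rwa [TRF.rinv D h1]))
  have key := Y.apa hu anti hΓ hC hε hA (β := fun _ => b) (fun _ => hm) (fun _ x _ => h0 x)
    (fun j d z hz ho v => by rw [← eL _ d z hz ho]; exact hb j d z hz ho v)
    fun j => (eI _ _).symm.trans_le (hI _)
  have ex : ∀ j, ∃ (Φ : M.X → ℂ) (bt : M.X → ℝ), (SmO D Φ ∧ ContinuousOn bt (off D) ∧
      (∀ x ∈ off D, 0 ≤ bt x) ∧ Dt D Φ bt g) ∧ ((∃ (Φ : M.X → ℂ) (bt : M.X → ℝ),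
        (SmO D Φ ∧ ContinuousOn bt (off D) ∧ (∀ x ∈ off D, 0 ≤ bt x) ∧ Dt D Φ bt g) ∧
        X.I (fun x => normSq (Γ x - Φ x) * Real.exp (-F j x)) ≤ ENNReal.ofReal (2 * A) ∧
        X.I (fun x => bt x * Real.exp (-F j x)) ≤ ENNReal.ofReal (2 * ε * A)) →
      X.I (fun x => normSq (Γ x - Φ x) * Real.exp (-F j x)) ≤ ENNReal.ofReal (2 * A) ∧
      X.I (fun x => bt x * Real.exp (-F j x)) ≤ ENNReal.ofReal (2 * ε * A)) := fun j => by
    obtain ⟨k, hk⟩ := key.exists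
    obtain ⟨Φ, bt, p1, p2, p3, p4, -⟩ := hk
    refine (em _).elim (fun ⟨Φ, bt, h⟩ => ⟨Φ, bt, h.1, fun _ => h.2⟩) fun h =>
      ⟨Φ, bt, ⟨pol_smo p1, p2, p3, p4⟩, fun h' => absurd h' h⟩
  choose Φ bt h1 h2 using ex
  refine ⟨Φ, bt, h1, key.mono fun j ⟨Φ, bt, p1, p2, p3, p4, p5, p6⟩ =>
    h2 j ⟨Φ, bt, ⟨pol_smo p1, p2, p3, p4⟩, (eI _ _).trans_le p5, (eI _ _).trans_le p6⟩⟩

end Pool.Agent.Lib.K2
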