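import Pool.Agent.Lib.K2.Blue

/-! Project k2: monotonicity in the exponent, and compactness. -/

open scoped Classical Topology ENNReal
open Set MeasureTheory Filter

noncomputable section

namespace Pool.Agent.Lib.K2

open Pool.Agent.Lib.HS32 Pool.Agent.Lib.EX Pool.Agent.Lib.EXS Pool.Agent.Lib.ZL Pool.Agent.Lib.NA

theorem kINT (hPW : ZL.St_PW) (hMU : Sy_MU) : Sy_INT := by
  intro n M _ ι _ _ D X γ ψ C hγ hψ
  obtain ⟨-, -, -, -, -, p6, -⟩ := hPW n M ι D
  obtain ⟨-, -, m3, m4, -, m6, -, m8⟩ := hMU n M ι D X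
  have a : ∀ c c' (h : M.X → ℝ), c ≤ c' → (∀ x, 0 ≤ h x) →
      X.I (fun x => h x * om D γ ψ c' x) ≠ ⊤ → X.I (fun x => h x * om D γ ψ c x) ≠ ⊤ := by
    intro c c' h hc h0 hI
    refine ne_top_of_le_ne_top ?_ (m3 _ (fun x => Real.exp ((c' - c) * C) *
      (h x * om D γ ψ c' x)) fun x hx => ?_)
    · rw [m6 _ _ (Real.exp_pos _).le]
      exact ENNReal.mul_ne_top ENNReal.ofReal_ne_top hI
    · rw [mul_left_comm, om, om, ← Real.exp_add]
      refine mul_le_mul_of_nonneg_left (Real.exp_le_exp.2 ?_) (h0 x)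
      nlinarith [mul_le_mul_of_nonneg_left (hψ x hx) (sub_nonneg.2 hc)]
  refine ⟨a, ?_, fun K h c₀ hK h0 hL => ?_⟩
  · have := m4 (-γ) fun i => by
      have := hγ i
      rw [Pi.neg_apply]
      linarith
    have e : om D γ ψ 0 = fun x => Real.exp (lw D (-γ) x) := funext fun x => by
      rw [om, p6, zero_mul, neg_zero, zero_sub]
    rwa [e]
  have b : ∀ c c' (O : Set M.X), c ≤ c' → X.I (O.indicator fun x => h x * om D γ ψ c' x) ≠ ⊤ →
      X.I (O.indicator fun x => h x * om D γ ψ c x) ≠ ⊤ := fun c c' O hc hI => by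
    have e : ∀ c, (O.indicator fun x => h x * om D γ ψ c x) =
        fun x => O.indicator h x * om D γ ψ c x := fun c => funext fun x =>
      indicator_mul_left O h _
    rw [e] at hI ⊢
    exact a c c' _ hc (indicator_nonneg fun x _ => h0 x) hI
  refine hK.induction_on (p := fun K => ∃ c > c₀, ∃ O, IsOpen O ∧ K ⊆ O ∧
    X.I (O.indicator fun x => h x * om D γ ψ c x) ≠ ⊤) ⟨c₀ + 1, lt_add_one _, ∅, isOpen_empty,
      subset_rfl, ?_⟩ (fun s t hs ⟨c, hc, O, o1, o2, o3⟩ => ⟨c, hc, O, o1, hs.trans o2, o3⟩)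
    (fun s t ⟨c, hc, O, o1, o2, o3⟩ ⟨c', hc', O', o1', o2', o3'⟩ => ⟨min c c', lt_min hc hc',
      O ∪ O', o1.union o1', union_subset_union o2 o2', ?_⟩) fun y hy => ?_
  · rw [m8 _ _ MeasurableSet.empty, Measure.restrict_empty, lintegral_zero_measure]
    exact ENNReal.zero_ne_top
  · have u := b _ _ O (min_le_left c c') o3
    have v := b _ _ O' (min_le_right c c') o3'
    rw [m8 _ _ o1.measurableSet] at u
    rw [m8 _ _ o1'.measurableSet] at v
    rw [m8 _ _ (o1.union o1').measurableSet]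
    exact ne_top_of_le_ne_top (ENNReal.add_ne_top.2 ⟨u, v⟩) (lintegral_union_le _ _ _)
  · obtain ⟨c, hc, O, o1, o2⟩ := hL y hy
    refine ⟨interior O, mem_nhdsWithin_of_mem_nhds (interior_mem_nhds.2 o1), c, hc, interior O,
      isOpen_interior, subset_rfl, ne_top_of_le_ne_top o2 (m3 _ _ fun x _ => ?_)⟩
    exact indicator_le_indicator_of_subset interior_subset
      (fun x => mul_nonneg (h0 x) (Real.exp_pos _).le) x

end Pool.Agent.Lib.K2
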