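import Pool.Agent.Lib.K2.Blue
import Pool.Agent.Lib.EX.B_MON
import Pool.Agent.Lib.EXS.B_GLU
import Pool.Agent.Lib.HS32.B_HOL

/-! Project k2, row WTM: the singularities of the weights. -/

open scoped Classical Topology ContDiff ENNReal
open Set MeasureTheory Complex Metric Filter

noncomputable section

namespace Pool.Agent.Lib.K2

open Pool.Agent.Lib.SV (E nsq)
open Pool.Agent.Lib.HS32 Pool.Agent.Lib.EX Pool.Agent.Lib.EXS Pool.Agent.Lib.ZL Pool.Agent.Lib.NA

namespace WTM

theorem shift {J : ℝ} (hJ : 0 < J) (a b g : ℝ) :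
    lsj J a b = Real.log (Real.exp (J * (a + g)) + Real.exp (J * (b + g))) / J - g := by
  rw [mul_add, mul_add, Real.exp_add, Real.exp_add, ← add_mul,
    Real.log_mul (by positivity) (by positivity), Real.log_exp, lsj]
  field_simp
  ring

theorem le_ls {J : ℝ} (hJ : 0 < J) (a b : ℝ) : a ≤ lsj J a b := by
  rw [lsj, le_div_iff₀ hJ, Real.le_log_iff_exp_le (by positivity), mul_comm]
  exact le_add_of_nonneg_right (Real.exp_pos _).le

theorem ls_le {J : ℝ} (hJ : 0 < J) (a b : ℝ) : lsj J a b ≤ a + Real.exp (J * (b - a)) / J := by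
  rw [lsj, div_le_iff₀ hJ, add_mul, div_mul_cancel₀ _ hJ.ne', Real.log_le_iff_le_exp (by positivity),
    Real.exp_add, mul_comm a J]
  have h := mul_le_mul_of_nonneg_left (Real.add_one_le_exp (Real.exp (J * (b - a))))
    (Real.exp_pos (J * a)).le
  rwa [mul_add, ← Real.exp_add, mul_one, mul_sub, add_sub_cancel, add_comm, ← mul_sub] at h

theorem ct_sm : ContDiff ℝ ∞ ct :=
  Real.smoothTransition.contDiff.comp (contDiff_id.sub contDiff_const)

theorem ev {F : Type} [NormedAddCommGroup F] [NormedSpace ℝ F] {n : ℕ} {M : Mf n} {ι : Type}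
    [Fintype ι] [DecidableEq ι] (D : Ad M ι) {f : M.X → F} (h : M.Sm f) (d : D.A) {z : E n}
    (hz : z ∈ B2 n) : ∀ᶠ w in 𝓝 z, ContDiffAt ℝ ∞ (D.rd f d) w :=
  (isOpen_ball.eventually_mem hz).mono fun w hw => h _ (D.mem d) w (GLU.mem_tgt d hw)

end WTM

open WTM in
theorem kWTM (hPW : ZL.St_PW) : St_WTM := by
  intro n M _ ι _ _ D X R ψ G P J c lam δ t e s hψ hJ ⟨S, S1, S0, hS⟩ c0 e0 e1 hG
  obtain ⟨-, -, -, p4, p5, -, -, p8, -, p10, -⟩ := hPW n M ι D
  have hU : M.Sm (R.u e) := (R.zk.1 e ⟨e0, e1⟩).1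
  have cU : ContinuousOn (R.u e) (off D) :=
    p10 ℝ _ fun d z hz _ => (ev D hU d hz).self_of_nhds
  have cr : ContinuousOn (R.ro e) (off D) := cU.sub (p10 ℝ _ (p8 _))
  have cy : ContinuousOn (R.yy ψ J t e) (off D) :=
    continuousOn_const.mul (cr.sub ((p10 ℝ _ hψ).add continuousOn_const))
  have cG : ContinuousOn G (off D) := p10 ℂ _ fun d z hz o => by
    obtain ⟨g, g1, g2⟩ := hG d z hz
    refine ((BHOL.smooth ((MON.off_ev o).mono fun y a =>
      MON.diff_xm (G := -P) fun i => Or.inl (a i))).mul g1.self_of_nhds).congr_of_eventuallyEq ?_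
    filter_upwards [g2, MON.off_ev o] with y a b using a b
  have yy : ∀ x ∈ off D, 0 < S x ∧ R.yy ψ J t e x = J * (R.u e x - t) - Real.log (S x) :=
    fun x hx => by
    rw [← hS x hx, Real.log_exp, Ry.yy, Ry.ro]
    exact ⟨Real.exp_pos _, by ring⟩
  refine ⟨⟨fun j x => c * (Real.log (S x + Real.exp (J * (R.u e x - j))) / J) +
    ((lam - δ) * R.u e x + δ * (Real.log (Real.exp (J * R.u e x) + Real.exp (J * t) * S x) / J) +
      s * R.l x), fun j b hb z hz => ?_, fun j x => ?_, fun j x hx => ⟨?_, ?_⟩⟩,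
    fun K k1 k2 => ?_, fun d z hz => ?_, cy,
    (continuous_ofReal.comp_continuousOn (ct_sm.continuous.comp_continuousOn cy)).mul cG⟩
  · have u := hU b hb z hz
    have v := S1 b hb z hz
    have := S0 (b.symm z)
    exact (contDiffAt_const.mul (((v.add (contDiffAt_const.mul (u.sub contDiffAt_const)).exp).log
      (by simp only [Function.comp_apply]; positivity)).div_const J)).add
      (((contDiffAt_const.mul u).add (contDiffAt_const.mul ((((contDiffAt_const.mul u).exp.add
        (contDiffAt_const.mul v)).log (by simp only [Function.comp_apply]; positivity)).div_const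
          J))).add (contDiffAt_const.mul (R.lsm b hb z hz)))
  · have := S0 x
    push_cast
    gcongr
    linarith
  · rw [Ry.wj, Ry.w0, shift hJ (ψ x) _ (lw D R.γ x), shift hJ _ (ψ x + t) (lw D R.γ x), hS x hx,
      show J * (ψ x + t + lw D R.γ x) = J * t + J * (ψ x + lw D R.γ x) by ring, Real.exp_add,
      hS x hx, p4, p5, p5, Ry.ro, Ry.ts, sub_add_cancel, sub_right_comm, sub_add_cancel]
    ring
  · exact add_le_add_left (mul_le_mul_of_nonneg_left (le_ls hJ _ _) c0) _
  · obtain ⟨B, hB⟩ := k1.bddAbove_image ((cr.sub (p10 ℝ _ hψ)).mono k2)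
    have T : Tendsto (fun j : ℕ => c * (Real.exp (J * (B - j)) / J)) atTop (𝓝 (c * (0 / J))) :=
      ((Real.tendsto_exp_atBot.comp ((tendsto_atBot_add_const_left _ B
        (tendsto_neg_atTop_atBot.comp tendsto_natCast_atTop_atTop)).const_mul_atBot
          hJ)).div_const J).const_mul c
    filter_upwards [T.eventually (gt_mem_nhds (by simp : c * (0 / J) < 1))] with j hj x hx
    have b : R.ro e x - ψ x ≤ B := hB ⟨x, hx, rfl⟩
    have a : lsj J (ψ x) (R.ro e x - j) ≤ ψ x + Real.exp (J * (B - j)) / J :=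
      (ls_le hJ _ _).trans (by
        have : R.ro e x - j - ψ x ≤ B - j := by linarith
        gcongr)
    have := mul_le_mul_of_nonneg_left a c0
    rw [Ry.wj, Ry.wi]
    linarith
  · obtain ⟨g, g1, g2⟩ := hG d z hz
    have o : ∀ᶠ w in 𝓝 z, Off (D.c d) w → (D.e d).symm w ∈ off D :=
      (isOpen_ball.eventually_mem hz).mono fun w b o => by
        rwa [GLU.mem_off (GLU.mem_src d b), GLU.rinv d b]
    have u := ev D hU d hz
    have v := ev D S1 d hz
    rcases (S0 ((D.e d).symm z)).eq_or_lt with h | h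
    · refine ⟨g, g1, ?_⟩
      have l : ∀ᶠ w in 𝓝 z, D.rd S d w < Real.exp (J * (D.rd (R.u e) d w - t) - 3) :=
        v.self_of_nhds.continuousAt.eventually_lt
          ((continuousAt_const.mul (u.self_of_nhds.continuousAt.sub continuousAt_const)).sub
            continuousAt_const).rexp (h.symm.trans_lt (Real.exp_pos _))
      filter_upwards [g2, o, l] with w a b l' q
      obtain ⟨y1, y2⟩ := yy _ (b q)
      have := (Real.log_lt_iff_lt_exp y1).2 l'
      rw [← a q, Ad.rd, Ry.gm, y2, ct, Real.smoothTransition.one_of_one_le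
        (by simp only [Ad.rd] at this; linarith), ofReal_one, one_mul, Ad.rd]
    · refine ⟨fun w => (ct (J * (D.rd (R.u e) d w - t) - Real.log (D.rd S d w)) : ℂ) * g w, ?_, ?_⟩
      · filter_upwards [g1, u, v, v.self_of_nhds.continuousAt.eventually (lt_mem_nhds h)]
          with w a b b' q
        exact (ofRealCLM.contDiff.contDiffAt.comp w (ct_sm.contDiffAt.comp w
          ((contDiffAt_const.mul (b.sub contDiffAt_const)).sub (b'.log q.ne')))).mul a
      · filter_upwards [g2, o] with w a b q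
        rw [mul_left_comm, ← a q, Ad.rd, Ry.gm, (yy _ (b q)).2]
        rfl

end Pool.Agent.Lib.K2
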