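import Pool.Agent.Lib.K2.SDefs

/-! Project k2: the target statement. -/

open scoped Manifold ContDiff Topology

namespace Pool.Agent.Lib.K2

open Pool.Agent.Lib.SV Pool.Agent.Lib.KP Pool.Agent.Lib.EX Pool.Agent.Lib.NA

/-- Semi-ample if and only if non-vanishing holds on the non-klt loci of the log canonical pairs
given by linear systems. -/
def St_H6 : Prop := ∀ (n N : ℕ) (Y ι I : Type) [TopologicalSpace Y] [ChartedSpace (E n) Y]
  [IsManifold 𝓘(ℂ, E n) ω Y] [CompactSpace Y] [T2Space Y] [ConnectedSpace Y] [Fintype I]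
  (m M : ℕ) (D : I → Set Y) (ex : Set I) (k : I → ℕ) (l : I → ℤ) (η : Y → ℂ)
  (W : ι → Set Y) (σ : ι → Y → ℂ) (g : ι → ι → Y → ℂ) (p : ι → Y → E N) (f : ι → E N → ℝ),
  0 < m → 0 < M → KRes n m D ex k l η W σ g p f → Klt m M ex k l → NefOn n W g p f →
  ((∃ e > 0, Gen n W (g ^ e) Set.univ) ↔
    ∀ (j q : ℕ) (s : Fin q → ι → Y → ℂ) (c : ℝ) (S : Set Y),
      (∀ b, SecOn n W (g ^ j) Set.univ (s b)) → (∃ b, s b = σ ^ j) →
      (∀ c' < c, ∀ y, Itg n D (fun i => k i / M - l i / m) W s c' y) →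
      S = {y | ∀ c' > c, ¬ Itg n D (fun i => k i / M - l i / m) W s c' y} → S.Nonempty →
      ∃ e > 0, ∃ u, SecOn n W (g ^ e) (Sat W p S) u ∧ ∃ a, ∃ y ∈ W a ∩ S, u a y ≠ 0)

end Pool.Agent.Lib.K2
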