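import Pool.Agent.Lib.K2.Defs
import Pool.Agent.Lib.K2.Stmt

/-! Project k2: the blueprint. -/

open scoped Classical Topology ContDiff ENNReal Manifold
open Set MeasureTheory Complex Metric Filter

noncomputable section

namespace Pool.Agent.Lib.K2

open Pool.Agent.Lib.SV (E nsq)
open Pool.Agent.Lib.HS32 Pool.Agent.Lib.EX Pool.Agent.Lib.EXS Pool.Agent.Lib.ZL Pool.Agent.Lib.NA
open Pool.Agent.Lib.EXS.K32 (lv)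
open Pool.Agent.Lib.ZQ (HqO)
open Pool.Agent.Lib.HS.BBR (mf)

/-! ### Kits over the new context -/

/-- The measure. -/
def Sy_MU : Prop := ∀ (n : ℕ) (M : Mf n) [M.Cpt] (ι : Type) [Fintype ι] [DecidableEq ι]
  (D : Ad M ι) (X : Cy D), (∀ᵐ x ∂X.μ, x ∈ off D) ∧
  (∀ (F : Type) [TopologicalSpace F] [MeasurableSpace F] [BorelSpace F] (f : M.X → F),
    ContinuousOn f (off D) → AEMeasurable f X.μ) ∧
  (∀ f g : M.X → ℝ, (∀ x ∈ off D, f x ≤ g x) → X.I f ≤ X.I g) ∧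
  (∀ a : ι → ℝ, (∀ i, -1 < a i + X.o i) → X.I (fun x => Real.exp (lw D a x)) ≠ ⊤) ∧
  (∀ r < (2 : ℝ), ∀ A : ℝ, ∃ C : ℝ, ∀ (a : ι → ℝ) (f : M.X → ℝ) d, (∀ i, |a i| ≤ A) →
    ∫⁻ z in closedBall 0 r, ENNReal.ofReal (D.rd f d z * xr (D.c d) a z) ≤
      ENNReal.ofReal C * X.I fun x => f x * Real.exp (lw D (a - X.o) x)) ∧
  (∀ (t : ℝ) (f : M.X → ℝ), 0 ≤ t → X.I (fun x => t * f x) = ENNReal.ofReal t * X.I f) ∧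
  (∀ f g : M.X → ℝ, AEMeasurable f X.μ → X.I (fun x => f x + g x) ≤ X.I f + X.I g) ∧
  ∀ (W : Set M.X) (f : M.X → ℝ), MeasurableSet W →
    X.I (W.indicator f) = ∫⁻ x in W, ENNReal.ofReal (f x) ∂X.μ

/-- Square integrable functions have bounded poles. -/
def Sy_POG : Prop := ∀ (n : ℕ) (M : Mf n) [M.Cpt] (ι : Type) [Fintype ι] [DecidableEq ι]
  (D : Ad M ι) (X : Cy D) (W : Set M.X) (Q : ι → ℤ) (F : M.X → ℂ), IsOpen W →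
  (D.On (W ∩ off D) fun d z => HolN (D.rd F d) z) →
  X.I (W.indicator fun x => normSq (F x) * Real.exp (lw D (fun i => Q i - X.o i) x)) ≠ ⊤ →
  MerOn D W Q F

/-- Monotonicity in the exponent, and compactness. -/
def Sy_INT : Prop := ∀ (n : ℕ) (M : Mf n) [M.Cpt] (ι : Type) [Fintype ι] [DecidableEq ι]
  (D : Ad M ι) (X : Cy D) (γ : ι → ℝ) (ψ : M.X → ℝ) (C : ℝ), (∀ i, γ i - X.o i < 1) →
  (∀ x ∈ off D, ψ x ≤ C - lw D γ x) →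
  (∀ c c' (h : M.X → ℝ), c ≤ c' → (∀ x, 0 ≤ h x) → X.I (fun x => h x * om D γ ψ c' x) ≠ ⊤ →
    X.I (fun x => h x * om D γ ψ c x) ≠ ⊤) ∧
  (X.I (om D γ ψ 0) ≠ ⊤) ∧
  ∀ (K : Set M.X) (h : M.X → ℝ) (c₀ : ℝ), IsCompact K → (∀ x, 0 ≤ h x) →
    (∀ y ∈ K, ∃ c > c₀, X.Li (fun x => h x * om D γ ψ c x) y) → ∃ c > c₀, ∃ O, IsOpen O ∧ K ⊆ O ∧
      X.I (O.indicator fun x => h x * om D γ ψ c x) ≠ ⊤

/-- The local models. -/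
def Sy_EXB : Prop := ∀ (n : ℕ) (M : Mf n) [M.Cpt] (ι : Type) [Fintype ι] [DecidableEq ι]
  (D : Ad M ι) (X : Cy D) (R : Ry X), (∃ r < (1 : ℝ), ∀ d, Kc D d ⊆ R.Wr d r) ∧
  (∀ b r, IsOpen (R.Wr b r) ∧ (r < 1 → IsCompact (R.Kr b r))) ∧
  (∀ b K, IsCompact K → K ⊆ (R.B b).W → ∃ r < (1 : ℝ), K ⊆ R.Wr b r) ∧
  (∀ b, ContinuousOn (R.B b).p (R.B b).W ∧ MerOn D (R.B b).W 0 (R.B b).σ ∧
    (D.On ((R.B b).W ∩ off D) fun d z => HolN (D.rd (R.B b).σ d) z ∧ D.rd (R.B b).σ d z ≠ 0) ∧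
    (∀ y ∈ (R.B b).W, Van D 0 (R.B b).σ y → y ∉ off D ∧ (R.B b).σ y = 0) ∧
    (D.On (R.B b).W fun d z => HolN (D.rd (R.B b).σ d) z) ∧
    ∀ r < (1 : ℝ), ∃ C, ∀ x ∈ R.Kr b r, |R.q b x| ≤ C ∧
      (x ∈ off D → |Real.log (normSq ((R.B b).σ x)) - R.N * lw D R.γ x| ≤ C)) ∧
  (∀ b r p Q F, r ≤ 1 → (∀ i ∉ R.ex, Q i ≤ R.Q p i) → MerOn D (R.Wr b r) Q F →
    MerOn D (R.Wr b r) (R.Q p) F) ∧
  (SmO D R.ts ∧ ∃ C, 0 ≤ C ∧ ∀ x ∈ off D, |R.ts x - lw D R.a x| ≤ C ∧ R.ts x ≤ C) ∧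
  (∀ s > (0 : ℝ), M.Kae (R.g s) ∧
    ∀ d z v, fq D (R.g s) d z v = fq D R.β d z v + s * fq D R.H d z v) ∧
  (D.All fun d z => ∀ v, 0 ≤ fq D R.β d z v ∧ 0 ≤ fq D R.H d z v) ∧
  ∃ P : ι → ℕ, (∀ i ∉ R.ex, P i = 0) ∧ ∀ i, X.o i - R.γ i ≤ P i

/-- The stable base locus. -/
def Sy_STB : Prop := ∀ (n : ℕ) (M : Mf n) [M.Cpt] (ι : Type) [Fintype ι] [DecidableEq ι]
  (D : Ad M ι) (X : Cy D) (R : Ry X), ∃ j > 0, ∃ (r : ℕ) (s : Fin r → M.X → ℂ),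
    (∀ i, Mer D (R.Q j) (s i)) ∧ (∃ i, s i = 1) ∧ ∀ y, (∀ i, Van D (R.Q j) (s i) y) →
      y ∈ Spt D R.k ∧ ∀ m > 0, ∀ F, Mer D (R.Q m) F → Van D (R.Q m) F y

/-- The weight of a linear system and its threshold. -/
def Sy_LC0 : Prop := ∀ (n : ℕ) (M : Mf n) [M.Cpt] (ι : Type) [Fintype ι] [DecidableEq ι]
  (D : Ad M ι) (X : Cy D) (R : Ry X) (j r : ℕ) (s : Fin r → M.X → ℂ) (y : M.X), 0 < j →
  (∀ i, Mer D (R.Q j) (s i)) → (∃ i, s i = 1) → (∀ i, Van D (R.Q j) (s i) y) → y ∉ off D →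
  ∃ (ψ : M.X → ℝ) (c₀ : ℝ), (∀ x ∈ off D, ψ x = Real.log (∑ i, normSq (s i x)) / (j * R.N)) ∧
    R.Wt ψ ∧ 0 ≤ c₀ ∧
    (∀ η > 0, ∃ c, c₀ - η < c ∧ X.I (om D R.γ ψ c) ≠ ⊤) ∧ (∀ c > c₀, X.I (om D R.γ ψ c) = ⊤) ∧
    ∀ (i : Fin r) (q : ℕ) (c : ℝ), c ≤ q * j * R.N →
      X.I (fun x => sq D (R.Q (q * j)) (s i ^ q) x * om D R.γ ψ c x) ≠ ⊤

/-- The weight of a linear system has analytic singularities. -/
def St_MDL : Prop := ∀ (n : ℕ) (M : Mf n) [M.Cpt] (ι : Type) [Fintype ι] [DecidableEq ι]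
  (D : Ad M ι) (X : Cy D) (R : Ry X) (j r : ℕ) (s : Fin r → M.X → ℂ) (ψ : M.X → ℝ), 0 < j →
  (∀ i, Mer D (R.Q j) (s i)) → (∃ i, s i = 1) →
  (∀ x ∈ off D, ψ x = Real.log (∑ i, normSq (s i x)) / (j * R.N)) →
  R.Md (j * R.N) ψ ∧ ∀ x ∈ off D, 0 ≤ ψ x

/-- Powers of a section over `V`. -/
def Sy_PWR : Prop := ∀ (n : ℕ) (M : Mf n) [M.Cpt] (ι : Type) [Fintype ι] [DecidableEq ι]
  (D : Ad M ι) (X : Cy D) (R : Ry X) (V : Set M.X) (m q : ℕ) (f : D.A → M.X → ℂ) (b : D.A)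
  (x : M.X), R.Sc V m f b x → R.Sc V (q * m) (fun d => f d ^ q) b x

/-! ### Gluing of almost compatible sections -/

/-- From the square mean to the supremum. -/
def St_SUP : Prop := ∀ (n : ℕ) (M : Mf n) [M.Cpt] (ι : Type) [Fintype ι] [DecidableEq ι]
  (D : Ad M ι) (X : Cy D) (W K : Set M.X) (Q : ι → ℤ) (ϖ : M.X → ℝ), IsOpen W → IsCompact K →
  K ⊆ W → ContinuousOn ϖ (off D) → (∀ x ∈ off D, 0 < ϖ x) → ∃ C : ℝ, 0 ≤ C ∧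
    ∀ (h : M.X → ℂ) (η : ℝ), 0 ≤ η → MerOn D W Q h →
      X.I (W.indicator fun x => normSq (h x) * ϖ x) ≤ ENNReal.ofReal η →
      ∀ x ∈ K ∩ off D, sq D Q h x ≤ C * η

/-- Almost compatible local sections are close to a global section. -/
def St_CEC : Prop := ∀ (n : ℕ) (M : Mf n) [M.Cpt] (ι : Type) [Fintype ι] [DecidableEq ι]
  (D : Ad M ι) (U : D.A → Set M.X) (Q : ι → ℤ) (h : ℕ → D.A → M.X → ℂ) (f : M.X → ℂ) (b : D.A)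
  (x : M.X), (∀ d, IsOpen (U d) ∧ Kc D d ⊆ U d) → (∀ ν d, MerOn D (U d) Q (h ν d)) →
  (∀ d d' K, IsCompact K → K ⊆ U d ∩ U d' → ∀ η > (0 : ℝ), ∀ᶠ ν in atTop,
    ∀ y ∈ K ∩ off D, sq D Q (h ν d - h ν d') y ≤ η) →
  x ∈ U b → MerOn D (U b) Q f → ¬ Van D Q f x → (∀ ν, Van D Q (h ν b - f) x) →
  ∃ F, Mer D Q F ∧ ¬ Van D Q F x

/-! ### The theorem of Hörmander on the local models -/

/-- The theorem of Hörmander on a local model. -/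
def St_HQW : Prop := ∀ (n : ℕ) (M : Mf n) [M.Cpt] (ι : Type) [Fintype ι] [DecidableEq ι]
  (D : Ad M ι) (X : Cy D) (R : Ry X) (b : D.A) (r : ℝ), r < 1 →
  HqO 10 D (X.μ.restrict (R.Wr b r)) (R.Wr b r ∩ off D)

/-- The same for a sequence of approximate solutions. -/
def St_HQS : Prop := ∀ (n : ℕ) (M : Mf n) [M.Cpt] (ι : Type) [Fintype ι] [DecidableEq ι]
  (D : Ad M ι) (X : Cy D) (R : Ry X) (r A η : ℝ) (T : M.Fam (Mat n)) (ph : D.A → M.X → ℝ)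
  (ϖ : M.X → ℝ) (Γ : M.X → ℂ) (Φ : ℕ → M.X → ℂ) (bt : ℕ → M.X → ℝ), r < 1 → 0 ≤ η →
  (∀ b, D.On (R.Wr b r ∩ off D) fun d z => ContDiffAt ℝ ∞ (D.rd (ph b) d) z ∧
    ∀ v, 0 ≤ fq D T d z v ∧ fq D T d z v ≤ lv (D.rd (ph b) d) z v) →
  ContinuousOn ϖ (off D) → (∀ x ∈ off D, 0 < ϖ x) →
  (∀ b, ∀ x ∈ R.Wr b r ∩ off D, ϖ x ≤ Real.exp (-ph b x)) → ContinuousOn Γ (off D) →
  (∀ j, SmO D (Φ j) ∧ ContinuousOn (bt j) (off D) ∧ (∀ x ∈ off D, 0 ≤ bt j x) ∧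
    Dt D (Φ j) (bt j) T) →
  (∀ K, IsCompact K → K ⊆ off D → ∀ᶠ j in atTop,
    X.I (K.indicator fun x => normSq (Γ x - Φ j x) * ϖ x) ≤ ENNReal.ofReal A ∧ ∀ b,
      X.I ((K ∩ R.Wr b r).indicator fun x => bt j x * Real.exp (-ph b x)) ≤ ENNReal.ofReal η) →
  ∃ k : D.A → M.X → ℂ, ∀ b, (D.On (R.Wr b r ∩ off D) fun d z => HolN (D.rd (k b) d) z) ∧
    X.I ((R.Wr b r).indicator fun x => normSq (Γ x - k b x) * ϖ x) ≠ ⊤ ∧ ∀ b',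
      X.I ((R.Wr b r ∩ R.Wr b' r).indicator fun x => normSq (k b x - k b' x) * ϖ x) ≤
        ENNReal.ofReal (40 * η)

/-! ### The locus of non-integrability -/

/-- Peak functions along a fibre. -/
def St_PKL : Prop := ∀ (n : ℕ) (M : Mf n) [M.Cpt] (ι : Type) [Fintype ι] [DecidableEq ι]
  (D : Ad M ι) (X : Cy D) (R : Ry X) (b : D.A) (r c : ℝ) (ψ : M.X → ℝ) (x : M.X) (O : Set M.X),
  r < 1 → R.Wt ψ → 0 ≤ c → x ∈ R.Wr b r → x ∉ off D → (R.B b).σ x = 0 → IsOpen O →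
  (∀ y ∈ (R.B b).W, (R.B b).p y = (R.B b).p x → y ∈ O) →
  X.I (O.indicator (om D R.γ ψ c)) ≠ ⊤ → ∃ G, MerOn D (R.Wr b r) 0 G ∧
    X.I ((R.Wr b r).indicator fun y => sq D 0 G y * om D R.γ ψ c y) ≠ ⊤ ∧ ¬ Van D 0 G x

/-- Functions that vanish on the zeros of finitely many integrable functions. -/
def St_IDL : Prop := ∀ (n : ℕ) (M : Mf n) [M.Cpt] (ι : Type) [Fintype ι] [DecidableEq ι]
  (D : Ad M ι) (X : Cy D) (γ : ι → ℝ) (ψ : M.X → ℝ) (c₀ c₁ : ℝ) (P Q : ι → ℤ) (r : ℕ)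
  (G : Fin r → M.X → ℂ) (W : Set M.X) (h : M.X → ℂ) (y : M.X), SmO D ψ → c₀ < c₁ →
  (∀ η > 0, ∃ c, c₀ - η < c ∧ X.I (om D γ ψ c) ≠ ⊤) → IsOpen W → y ∈ W →
  (∀ i, MerOn D W Q (G i)) →
  (∀ i, X.I (W.indicator fun x => sq D Q (G i) x * om D γ ψ c₁ x) ≠ ⊤) → MerOn D W P h →
  (∀ᶠ x in 𝓝 y, (∀ i, Van D Q (G i) x) → Van D P h x) →
  ∃ c' > c₀, X.Li (fun x => sq D P h x * om D γ ψ c' x) y

/-- Functions that vanish on the saturation of the locus. -/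
def St_IDS : Prop := ∀ (n : ℕ) (M : Mf n) [M.Cpt] (ι : Type) [Fintype ι] [DecidableEq ι]
  (D : Ad M ι) (X : Cy D) (R : Ry X) (ψ : M.X → ℝ) (c₀ : ℝ) (b : D.A) (P : ι → ℤ) (K W : Set M.X)
  (h : M.X → ℂ), R.Wt ψ → (∀ x ∈ off D, 0 ≤ ψ x) → 0 ≤ c₀ →
  (∀ η > 0, ∃ c, c₀ - η < c ∧ X.I (om D R.γ ψ c) ≠ ⊤) → IsCompact K → IsOpen W → K ⊆ W →
  W ⊆ (R.B b).W → MerOn D W P h → (∀ y ∈ W ∩ R.Sat (X.Nk R.γ ψ c₀), Van D P h y) →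
  ∃ c' > c₀, X.I (K.indicator fun x => sq D P h x * om D R.γ ψ c' x) ≠ ⊤

/-! ### The approximate solution on the manifold -/

/-- The smooth lift, by a partition of unity that comes from the local models. -/
def St_AVP : Prop := ∀ (n : ℕ) (M : Mf n) [M.Cpt] (ι : Type) [Fintype ι] [DecidableEq ι]
  (D : Ad M ι) (X : Cy D) (R : Ry X) (r₀ r : ℝ) (P : ι → ℤ) (f : D.A → M.X → ℂ), r₀ < r → r < 1 →
  (∀ d, Kc D d ⊆ R.Wr d r₀) → (∀ b, MerOn D (R.B b).W P (f b)) →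
  AEMeasurable (R.dif r f) X.μ ∧ (∀ x, 0 ≤ R.dif r f x) ∧ ∃ (G : M.X → ℂ) (C : ℝ), 0 ≤ C ∧
    SmO D G ∧ (D.All fun d z => Pol (D.c d) P (D.rd G d) z) ∧
    Dt D G (fun x => C * R.dif r f x) R.β ∧
    (∀ x ∈ off D, R.dif r f x ≤ C * Real.exp (-lw D (fun i => P i) x)) ∧
    ∀ b, ∀ x ∈ R.Kr b r, normSq (G x - f b x) ≤ R.dif r f x

/-- Approximate solutions for a decreasing sequence of smooth weights. -/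
def St_APA : Prop := ∀ (n : ℕ) (M : Mf n) [M.Cpt] (ι : Type) [Fintype ι] [DecidableEq ι]
  (D : Ad M ι) (X : Cy D) (g : M.Fam (Mat n)) (P : ι → ℤ) (F u : ℕ → M.X → ℝ) (b : M.X → ℝ)
  (Γ : M.X → ℂ) (C ε A : ℝ), M.Kae g → 0 ≤ C → 0 < ε → 0 < A → (∀ j, M.Sm (u j)) →
  (∀ j x, u (j + 1) x ≤ u j x) →
  (∀ j, ∀ x ∈ off D, F j x = u j x - lw D (fun i => P i - X.o i) x) →
  (D.All fun d z => Pol (D.c d) P (D.rd Γ d) z) → AEMeasurable b X.μ → (∀ x, 0 ≤ b x) →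
  (∀ j, OA D fun d z => ∀ v, 0 ≤ lv (D.rd (F (j + 1)) d) z v +
      (ε + C * (1 - Real.exp (D.rd (u (j + 1)) d z - D.rd (u j) d z))) * fq D g d z v ∧
    normSq (db (D.rd Γ d) z v) ≤ D.rd b d z * (lv (D.rd (F (j + 1)) d) z v +
      (ε + C * (1 - Real.exp (D.rd (u (j + 1)) d z - D.rd (u j) d z))) * fq D g d z v)) →
  (∀ j, X.I (fun x => b x * Real.exp (-F j x)) ≤ ENNReal.ofReal A) →
  ∃ (Φ : ℕ → M.X → ℂ) (bt : ℕ → M.X → ℝ), (∀ j, SmO D (Φ j) ∧ ContinuousOn (bt j) (off D) ∧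
    (∀ x ∈ off D, 0 ≤ bt j x) ∧ Dt D (Φ j) (bt j) g) ∧ ∀ᶠ j in atTop,
    X.I (fun x => normSq (Γ x - Φ j x) * Real.exp (-F j x)) ≤ ENNReal.ofReal (2 * A) ∧
    X.I (fun x => bt j x * Real.exp (-F j x)) ≤ ENNReal.ofReal (2 * ε * A)

/-- The regularisation of the model functions. -/
def St_REG : Prop := ∀ (n : ℕ) (M : Mf n) [M.Cpt] (ι : Type) [Fintype ι] [DecidableEq ι]
  (D : Ad M ι) (g : M.Fam (Mat n)) (r : ι → ℝ), M.Met g → (∀ i, 0 ≤ r i) →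
  ∃ (C : ℝ) (w : ℕ → M.X → ℝ), 0 ≤ C ∧ (∀ j, M.Sm (w j)) ∧ (∀ j x, w (j + 1) x ≤ w j x) ∧
    (∀ j, ∀ x ∈ off D, lw D r x ≤ w j x) ∧
    (∀ K, IsCompact K → K ⊆ off D → ∀ᶠ j in atTop, ∀ x ∈ K, w j x ≤ lw D r x + 1) ∧
    ∀ j, OA D fun d z => ∀ v, lv (D.rd (lw D r) d) z v ≤ lv (D.rd (w (j + 1)) d) z v +
      C * (1 - Real.exp (D.rd (w (j + 1)) d z - D.rd (w j) d z)) * fq D g d z v

/-- Approximate solutions for a singular weight. -/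
def St_APB : Prop := ∀ (n : ℕ) (M : Mf n) [M.Cpt] (ι : Type) [Fintype ι] [DecidableEq ι]
  (D : Ad M ι) (X : Cy D) (g : M.Fam (Mat n)) (P : ι → ℤ) (θ : ι → ℝ) (f u : ℕ → M.X → ℝ)
  (φ b : M.X → ℝ) (Γ : M.X → ℂ) (ε A : ℝ), M.Kae g → 0 < ε → 0 < A → (∀ i, θ i ≤ P i - X.o i) →
  (∀ j, M.Sm (u j)) → (∀ j x, u (j + 1) x ≤ u j x) →
  (∀ j, ∀ x ∈ off D, f j x = u j x - lw D θ x ∧ φ x ≤ f j x) →
  (∀ K, IsCompact K → K ⊆ off D → ∀ᶠ j in atTop, ∀ x ∈ K, f j x ≤ φ x + 1) →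
  (D.All fun d z => Pol (D.c d) P (D.rd Γ d) z) → AEMeasurable b X.μ → (∀ x, 0 ≤ b x) →
  (∀ j, OA D fun d z => ∀ v, 0 ≤ lv (D.rd (f j) d) z v + ε * fq D g d z v ∧
    normSq (db (D.rd Γ d) z v) ≤ D.rd b d z * (lv (D.rd (f j) d) z v + ε * fq D g d z v)) →
  X.I (fun x => b x * Real.exp (-φ x)) ≤ ENNReal.ofReal A →
  ∃ (Φ : ℕ → M.X → ℂ) (bt : ℕ → M.X → ℝ), (∀ j, SmO D (Φ j) ∧ ContinuousOn (bt j) (off D) ∧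
    (∀ x ∈ off D, 0 ≤ bt j x) ∧ Dt D (Φ j) (bt j) g) ∧
    ∀ K, IsCompact K → K ⊆ off D → ∀ᶠ j in atTop,
      X.I (K.indicator fun x => normSq (Γ x - Φ j x) * Real.exp (-φ x)) ≤
        ENNReal.ofReal (20 * A) ∧
      X.I (K.indicator fun x => bt j x * Real.exp (-φ x)) ≤ ENNReal.ofReal (20 * ε * A)

/-- The curvature of the weights. -/
def St_WTS : Prop := ∃ L : ℝ, 0 < L ∧ ∀ (n : ℕ) (M : Mf n) [M.Cpt] (ι : Type) [Fintype ι]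
  [DecidableEq ι] (D : Ad M ι) (X : Cy D) (R : Ry X) (ψ b : M.X → ℝ) (G : M.X → ℂ)
  (J c lam δ t e s : ℝ), Psh D ψ → 0 < J → 0 ≤ c → 0 < δ → δ ≤ lam → 0 < e → e ≤ 1 →
  (c + lam) * e ≤ s → SmO D G → (∀ x, 0 ≤ b x) → Dt D G b R.β → ∀ j, OA D fun d z => ∀ v,
    0 ≤ lv (D.rd (R.wj ψ J c lam δ t e s j) d) z v + 2 * s * fq D (R.g s) d z v ∧
    normSq (db (D.rd (R.gm ψ J t e G) d) z v) ≤ D.rd (R.bb ψ J t e (L * J / δ) (2 / s) G b) d z *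
      (lv (D.rd (R.wj ψ J c lam δ t e s j) d) z v + 2 * s * fq D (R.g s) d z v)

/-- The singularities of the weights. -/
def St_WTM : Prop := ∀ (n : ℕ) (M : Mf n) [M.Cpt] (ι : Type) [Fintype ι] [DecidableEq ι]
  (D : Ad M ι) (X : Cy D) (R : Ry X) (ψ : M.X → ℝ) (G : M.X → ℂ) (P : ι → ℤ)
  (J c lam δ t e s : ℝ), SmO D ψ → 0 < J → R.Md J ψ → 0 ≤ c → 0 < e → e ≤ 1 →
  (D.All fun d z => Pol (D.c d) P (D.rd G d) z) →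
  (∃ u : ℕ → M.X → ℝ, (∀ j, M.Sm (u j)) ∧ (∀ j x, u (j + 1) x ≤ u j x) ∧ ∀ j, ∀ x ∈ off D,
    R.wj ψ J c lam δ t e s j x = u j x - lw D ((c + lam) • R.γ - s • R.a) x ∧
    R.wi ψ J c lam δ t e s x ≤ R.wj ψ J c lam δ t e s j x) ∧
  (∀ K, IsCompact K → K ⊆ off D → ∀ᶠ j in atTop, ∀ x ∈ K,
    R.wj ψ J c lam δ t e s j x ≤ R.wi ψ J c lam δ t e s x + 1) ∧
  (D.All fun d z => Pol (D.c d) P (D.rd (R.gm ψ J t e G) d) z) ∧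
  ContinuousOn (R.yy ψ J t e) (off D) ∧ ContinuousOn (R.gm ψ J t e G) (off D)

/-- The integrals. -/
def St_IES : Prop := ∀ (n : ℕ) (M : Mf n) [M.Cpt] (ι : Type) [Fintype ι] [DecidableEq ι]
  (D : Ad M ι) (X : Cy D) (R : Ry X) (ψ b : M.X → ℝ) (G : M.X → ℂ) (m : ℕ) (J c c' lam L B : ℝ),
  R.Wt ψ → 1 ≤ J → 0 ≤ c → c < c' → 0 < lam → 1 + c + lam = m * R.N → 0 < L → 0 ≤ B → SmO D G →
  (∀ x ∈ off D, sq D (R.Q m) G x ≤ B) → AEMeasurable b X.μ → (∀ x, 0 ≤ b x) →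
  (∀ x ∈ off D, b x * Real.exp (lw D (fun i => R.Q m i) x) ≤ B) →
  X.I (fun x => b x * R.dn ψ m c' x) ≠ ⊤ →
  ∃ (δ e₁ C : ℝ), 0 < δ ∧ δ ≤ lam ∧ 0 < e₁ ∧ e₁ ≤ 1 ∧ 0 < C ∧ ∀ t ≥ (0 : ℝ), ∃ A > (0 : ℝ),
    ∀ e ∈ Ioc 0 e₁, ∀ s, s = (c + lam + 1) * e →
      X.I (fun x => R.bb ψ J t e (L * J / δ) (2 / s) G b x *
        Real.exp (-R.wi ψ J c lam δ t e s x)) ≤
          ENNReal.ofReal (A + C * Real.exp (-(2 * δ * t)) / s) ∧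
      X.I (fun x => normSq (G x - R.gm ψ J t e G x) * R.dn ψ m c x) ≠ ⊤ ∧
      ∀ x ∈ off D, R.dn ψ m c x * Real.exp (-(s * R.ts x)) ≤
        C * Real.exp (δ * t) * Real.exp (-R.wi ψ J c lam δ t e s x)

/-- The estimate. -/
def St_EST : Prop := ∀ (n : ℕ) (M : Mf n) [M.Cpt] (ι : Type) [Fintype ι] [DecidableEq ι]
  (D : Ad M ι) (X : Cy D) (R : Ry X) (ψ b : M.X → ℝ) (G : M.X → ℂ) (m : ℕ) (J c c' B : ℝ),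
  R.Wt ψ → 1 ≤ J → R.Md J ψ → 0 ≤ c → c < c' → c + 1 < m * R.N → 0 ≤ B → SmO D G →
  (D.All fun d z => Pol (D.c d) (R.Q m) (D.rd G d) z) → AEMeasurable b X.μ → (∀ x, 0 ≤ b x) →
  (∀ x ∈ off D, b x * Real.exp (lw D (fun i => R.Q m i) x) ≤ B) → Dt D G b R.β →
  X.I (fun x => b x * R.dn ψ m c' x) ≠ ⊤ →
  ∀ η > (0 : ℝ), ∃ s ∈ Ioc (0 : ℝ) 1, ∃ (A : ℝ) (Γ : M.X → ℂ) (Φ : ℕ → M.X → ℂ)
    (bt : ℕ → M.X → ℝ), ContinuousOn Γ (off D) ∧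
    X.I (fun x => normSq (G x - Γ x) * R.dn ψ m c x) ≠ ⊤ ∧
    (∀ j, SmO D (Φ j) ∧ ContinuousOn (bt j) (off D) ∧ (∀ x ∈ off D, 0 ≤ bt j x) ∧
      Dt D (Φ j) (bt j) (R.g s)) ∧
    ∀ K, IsCompact K → K ⊆ off D → ∀ᶠ j in atTop,
      X.I (K.indicator fun x => normSq (Γ x - Φ j x) *
        (R.dn ψ m c x * Real.exp (-(s * R.ts x)))) ≤ ENNReal.ofReal A ∧
      X.I (K.indicator fun x => bt j x * (R.dn ψ m c x * Real.exp (-(s * R.ts x)))) ≤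
        ENNReal.ofReal η

/-- The weights on the local models. -/
def St_WLO : Prop := ∀ (n : ℕ) (M : Mf n) [M.Cpt] (ι : Type) [Fintype ι] [DecidableEq ι]
  (D : Ad M ι) (X : Cy D) (R : Ry X) (ψ : M.X → ℝ) (m : ℕ) (c r : ℝ), Psh D ψ → 0 ≤ c → r < 1 →
  ∃ C ≥ (1 : ℝ), ∀ s ∈ Ioc (0 : ℝ) 1, ∃ ph : D.A → M.X → ℝ, ∀ b,
    (D.On (R.Wr b r ∩ off D) fun d z => ContDiffAt ℝ ∞ (D.rd (ph b) d) z ∧
      ∀ v, 0 ≤ fq D (R.g s) d z v ∧ fq D (R.g s) d z v ≤ lv (D.rd (ph b) d) z v) ∧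
    ∀ x ∈ R.Wr b r ∩ off D, R.dn ψ m c x ≤ Real.exp (-ph b x) ∧
      R.dn ψ m c x ≤ C * (R.dn ψ m c x * Real.exp (-(s * R.ts x))) ∧
      Real.exp (-ph b x) ≤ C * (R.dn ψ m c x * Real.exp (-(s * R.ts x)))

/-- The extension step: almost compatible local sections. -/
def St_EXT : Prop := ∀ (n : ℕ) (M : Mf n) [M.Cpt] (ι : Type) [Fintype ι] [DecidableEq ι]
  (D : Ad M ι) (X : Cy D) (R : Ry X) (ψ : M.X → ℝ) (m : ℕ) (J c c' r₀ r : ℝ)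
  (f : D.A → M.X → ℂ), R.Wt ψ → 1 ≤ J → R.Md J ψ → 0 ≤ c → c < c' → c + 1 < m * R.N → r₀ < r →
  r < 1 → (∀ d, Kc D d ⊆ R.Wr d r₀) → (∀ b, MerOn D (R.B b).W (R.Q m) (f b)) →
  X.I (fun x => R.dif r f x * R.dn ψ m c' x) ≠ ⊤ → ∀ η > (0 : ℝ), ∃ k : D.A → M.X → ℂ, ∀ b,
    MerOn D (R.Wr b r) (R.Q m) (k b) ∧
    X.I ((R.Wr b r).indicator fun x => normSq (k b x - f b x) * R.dn ψ m c x) ≠ ⊤ ∧ ∀ b',
      X.I ((R.Wr b r ∩ R.Wr b' r).indicator fun x => normSq (k b x - k b' x) * R.dn ψ m c x) ≤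
        ENNReal.ofReal η

/-- One step: a global section that is not zero at a point of the locus. -/
def St_ONE : Prop := ∀ (n : ℕ) (M : Mf n) [M.Cpt] (ι : Type) [Fintype ι] [DecidableEq ι]
  (D : Ad M ι) (X : Cy D) (R : Ry X) (ψ : M.X → ℝ) (J c₀ : ℝ) (m : ℕ) (f : D.A → M.X → ℂ)
  (b : D.A) (x : M.X), R.Wt ψ → 1 ≤ J → R.Md J ψ → (∀ x ∈ off D, 0 ≤ ψ x) → 0 ≤ c₀ →
  c₀ + 1 < m * R.N → (∀ η > 0, ∃ c, c₀ - η < c ∧ X.I (om D R.γ ψ c) ≠ ⊤) →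
  x ∈ X.Nk R.γ ψ c₀ → R.Sc (R.Sat (X.Nk R.γ ψ c₀)) m f b x →
  ∃ F, Mer D (R.Q m) F ∧ ¬ Van D (R.Q m) F x

/-- The theorem on the manifold layer. -/
def St_NAK : Prop := ∀ (n : ℕ) (M : Mf n) [M.Cpt] (ι : Type) [Fintype ι] [DecidableEq ι]
  (D : Ad M ι) (X : Cy D) (R : Ry X), R.Nw → ∃ j > 0, Gens D (R.Q j)

/-! ### The bridge -/

/-- Local integrals in the preferred chart. -/
def Sy_LOC : Prop := ∀ (n : ℕ) (Y I : Type) [TopologicalSpace Y] [ChartedSpace (E n) Y]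
  [IsManifold 𝓘(ℂ, E n) ω Y] [CompactSpace Y] [T2Space Y] [ConnectedSpace Y] [Fintype I]
  [DecidableEq I] (S : I → Set Y) (D : Ad (mf n Y) I) (X : Cy D) (y : Y), D.Fit S →
  (∀ (Φ f : Y → ℝ) (C : ℝ), 0 ≤ C →
    (∀ᶠ x in 𝓝 y, x ∈ off D → Φ x ≤ C * (f x * Real.exp (lw D X.o x))) → X.Li f y →
    ∃ V ∈ 𝓝 (chartAt (E n) y y), ∫⁻ z in V, ENNReal.ofReal (Φ ((chartAt (E n) y).symm z)) < ⊤) ∧
  (∀ (Φ f : Y → ℝ) (C : ℝ), 0 ≤ C →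
    (∀ᶠ x in 𝓝 y, x ∈ off D → f x * Real.exp (lw D X.o x) ≤ C * Φ x) →
    (∃ V ∈ 𝓝 (chartAt (E n) y y), ∫⁻ z in V, ENNReal.ofReal (Φ ((chartAt (E n) y).symm z)) < ⊤) →
    X.Li f y) ∧
  ∀ (h : I → Y → ℂ) (a : I → ℝ), Eqs n S y h → ∃ C, ∀ᶠ x in 𝓝 y, x ∈ off D →
    (∀ i, h i x ≠ 0) ∧ |∑ i, a i * Real.log (normSq (h i x)) - lw D a x| ≤ C

/-- Linear systems and their densities. -/
def Sy_BR5 : Prop := ∀ (n : ℕ) (Y ι I : Type) [TopologicalSpace Y] [ChartedSpace (E n) Y]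
  [IsManifold 𝓘(ℂ, E n) ω Y] [CompactSpace Y] [T2Space Y] [ConnectedSpace Y] [Fintype I]
  [DecidableEq I] (m M : ℕ) (S : I → Set Y) (ex : Set I) (k : I → ℕ) (l : I → ℤ) (η : Y → ℂ)
  (W : ι → Set Y) (σ : ι → Y → ℂ) (g : ι → ι → Y → ℂ) (D : Ad (mf n Y) I) (X : Cy D),
  LogRes n m S ex k l η W σ g → D.Fit S →
  (∀ a, ∃ v : D.A → E n → ℂ, D.On (W a) fun d z =>
    HolN (v d) z ∧ v d z ≠ 0 ∧ D.rd (σ a) d z = v d z * xm (D.c d) (fun i => k i) z) →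
  0 < M → (∀ i, X.o i = (l i / m : ℝ)) →
  ∀ (j q : ℕ) (F : Fin q → Y → ℂ), 0 < j → (∀ b, Mer D (fun i => j * k i) (F b)) →
    (∃ b, F b = 1) → ∃ s : Fin q → ι → Y → ℂ, (∀ b, SecOn n W (g ^ j) univ (s b)) ∧
      (∃ b, s b = σ ^ j) ∧ ∀ (c : ℝ) (y : Y), Itg n S (fun i => k i / M - l i / m) W s c y ↔
        X.Li (om D (fun i => k i / M) (lps (j * M) F) (c * (j * M))) y

end Pool.Agent.Lib.K2
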