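import Pool.Agent.Lib.K2.Br
import Pool.Agent.Lib.NV5.X_KXA

/-! Project k2, row SGX: the norms of the components. -/

open scoped Classical Topology ContDiff ENNReal ComplexOrder Matrix
open Set MeasureTheory Complex Metric Filter

set_option linter.unusedVariables false
set_option linter.unusedSectionVars false

noncomputable section

namespace Pool.Agent.Lib.K2

open Pool.Agent.Lib.SV (E nsq)
open Pool.Agent.Lib.HS32 Pool.Agent.Lib.HS32.Mf Pool.Agent.Lib.EX Pool.Agent.Lib.EXS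
open Pool.Agent.Lib.ZL Pool.Agent.Lib.EXS.GLU Pool.Agent.Lib.DM

namespace SGXr

variable {n : ℕ} {M : Mf n} [M.Cpt] {Θ : M.Fam (Mat n)} {σ : M.X → ℝ}

theorem nul (h : K63.Sg M σ Θ) {G : M.Fam (Mat n)} (hG : M.Met G) : M.mu G {x | σ x = 0} = 0 := by
  have := (mMU n M G hG).2.1
  have m : MeasurableSet {x | σ x = 0} :=
    (isClosed_eq h.sm.continuous continuous_const).measurableSet
  rw [← measureReal_eq_zero_iff]
  refine le_antisymm (le_of_forall_pos_le_add fun η η0 => ?_) measureReal_nonneg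
  obtain ⟨δ, a, hδ⟩ := ((h.lam0 hG (sm_const 1) η0).and self_mem_nhdsWithin).exists
  rw [zero_add, ← integral_indicator_one m]
  refine le_trans (integral_mono ((integrable_const 1).indicator m)
    (K63.int hG ((h.lam hδ).mul (sm_const 1)).continuous) fun x => ?_) a
  by_cases hx : σ x = 0
  · rw [indicator_of_mem (by exact hx)]
    simp only [hx, zero_add, div_self (ne_of_gt hδ), mul_one, Pi.one_apply, le_refl]
  · rw [indicator_of_notMem (by exact hx)]
    exact mul_nonneg (h.lam01 hδ x).1 zero_le_one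

theorem int (h : K63.Sg M σ Θ) {G : M.Fam (Mat n)} (hG : M.Met G) :
    Integrable (fun x => Real.log (σ x)) (M.mu G) := by
  have := (mMU n M G hG).2.1
  obtain ⟨C, C0, hC, -⟩ := (mBD n M G hG).1 Θ h.clo.toForm
  obtain ⟨S, S0, hS⟩ := h.sm.exists_bound
  have σ1 : ∀ x, 0 ≤ σ x ∧ σ x ≤ S := fun x => ⟨h.nn x, (le_abs_self _).trans (hS x)⟩
  obtain ⟨A, A0, hA⟩ := K63.psi_bd hG h.sm σ1 h.ne (h.low hG C0.le hC) (sm_const 1)
  let u : ℕ → ℝ := fun k => 1 / ((k : ℝ) + 1)
  have u0 : ∀ k, u k ∈ Ioc (0 : ℝ) 1 := fun k =>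
    ⟨Nat.one_div_pos_of_nat, (div_le_one (Nat.cast_add_one_pos k)).2 (by simp)⟩
  let f : ℕ → M.X → ℝ := fun k x => (S - Real.log (σ x + u k)) * 1
  have fc : ∀ k, Continuous (f k) := fun k =>
    (((sm_const S).sub (h.lsm (u0 k).1)).mul (sm_const 1)).continuous
  have f0 : ∀ k x, 0 ≤ f k x := fun k x => mul_nonneg (by
    linarith [Real.log_le_sub_one_of_pos (h.pos (u0 k).1 x), (σ1 x).2, (u0 k).2]) zero_le_one
  have t : ∀ᵐ x ∂M.mu G, Tendsto (fun k => f k x) atTop (𝓝 (S - Real.log (σ x))) := by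
    have z : ∀ᵐ x ∂M.mu G, σ x ≠ 0 := by rw [ae_iff]; simpa using nul h hG
    filter_upwards [z] with x hx
    have t1 : Tendsto (fun k => σ x + u k) atTop (𝓝 (σ x)) := by
      have t0 := (tendsto_const_nhds (x := σ x)).add
        (tendsto_one_div_add_atTop_nhds_zero_nat (𝕜 := ℝ))
      rwa [add_zero] at t0
    simpa [f] using tendsto_const_nhds.sub (t1.log hx)
  have i : Integrable (fun x => S - Real.log (σ x)) (M.mu G) := by
    refine ⟨aestronglyMeasurable_of_tendsto_ae _ (fun k => (fc k).aestronglyMeasurable) t, ?_⟩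
    have l : ∫⁻ x, ‖S - Real.log (σ x)‖ₑ ∂M.mu G ≤
        liminf (fun k => ∫⁻ x, ‖f k x‖ₑ ∂M.mu G) atTop :=
      (lintegral_congr_ae (t.mono fun x hx => hx.enorm.liminf_eq.symm)).trans_le
        (lintegral_liminf_le' fun k => (fc k).measurable.enorm.aemeasurable)
    refine (l.trans (liminf_le_of_frequently_le' (Frequently.of_forall fun k => ?_))).trans_lt
      (ENNReal.ofReal_lt_top (r := A))
    rw [← ofReal_integral_norm_eq_lintegral_enorm (K63.int hG (fc k))]
    refine ENNReal.ofReal_le_ofReal (le_trans (le_of_eq ?_) (hA _ (u0 k)))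
    exact integral_congr_ae (ae_of_all _ fun x => Real.norm_of_nonneg (f0 k x))
  exact ((integrable_const S).sub i).congr (ae_of_all _ fun x => sub_sub_cancel S _)

/-- The bridge between the two structures. -/
theorem back (h : K63.Sg M σ Θ) : DX.Sg M Θ σ :=
  ⟨h.sm, h.nn, h.clo, fun e he z hz => by
    have k := h.eqn e he z hz
    beta_reduce at k ⊢
    rw [← k, K63.pk, smul_add, smul_smul, pow_two], fun G => nul h, fun G => int h⟩

variable {ι : Type} [Fintype ι] [DecidableEq ι] {D : Ad M ι}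

theorem of_off {d : D.A} {z : E n} (hz : z ∈ B2 n) (ho : Off (D.c d) z) :
    (D.e d).symm z ∈ off D := (mem_off (mem_src d hz)).2 (by rwa [rinv d hz])

theorem sg_of {P : ι → ℝ} (h : Cv D P Θ fun x => -Real.log (σ x)) (hσ : M.Sm σ)
    (h0 : ∀ x, 0 ≤ σ x) (hp : ∀ x ∈ off D, σ x ≠ 0) : K63.Sg M σ Θ := by
  obtain ⟨c, ψ, l, e⟩ := h
  obtain ⟨x⟩ : Nonempty M.X := inferInstance
  obtain ⟨d, hd⟩ := GLU.ex_ch D x
  obtain ⟨y, y1, y2⟩ := ((MON.off_freq (D.c d) _).and_eventually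
    (isOpen_ball.eventually_mem (mem_B2 hd))).exists
  refine K63.Sg.of_dense hσ h0 ⟨_, hp _ (of_off y2 y1)⟩ c (XC.sub D) (XC.on fun d z hz =>
    ((MON.off_freq (D.c d) z).and_eventually (isOpen_ball.eventually_mem hz)).mono fun w hw =>
      ⟨hp _ (of_off hw.2 hw.1), ?_⟩)
  have k := fun i => ((mHOL n (xi (D.c d) i) w).2.2 (.of_forall fun y => MON.diff_xi _ i y)).2.2.2
    (hw.1 i)
  have s := fun i => (contDiffAt_const (c := P i)).mul (k i).1
  have ev : (fun y => Real.log (σ ((D.e d).symm y))) =ᶠ[𝓝 w] fun y =>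
      -1 * ψ d y + ∑ i, P i * Real.log (normSq (xi (D.c d) i y)) := by
    filter_upwards [isOpen_ball.eventually_mem hw.2, MON.off_ev hw.1] with y h1 h2
    have := (l d y h1).2 h2
    simp only [Ad.rd, K32.lm] at this
    linarith
  refine (XC.hr_congr ev).trans ?_
  rw [XC.hr_add (contDiffAt_const.mul (l d w hw.2).1) (ContDiffAt.sum fun i _ => s i),
    XC.hr_mul _ (l d w hw.2).1, XC.hr_sum fun i _ => s i, Finset.sum_eq_zero fun i _ => by
      rw [XC.hr_mul _ (k i).1, show hr _ w = 0 from (k i).2.1, smul_zero],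
    e d w hw.2, add_zero, neg_one_smul]

theorem sg_ne (i : ι) : ∀ x ∈ off D, XC.sg D i x ≠ 0 := fun x hx => by
  obtain ⟨d, hd⟩ := GLU.ex_ch D x
  rw [← rd_e (XC.sg D i) hd, (XC.sig D i).2.2.2.1 d _ (mem_B2 hd)]
  exact (mul_pos (PW.gf_pos D i (mem_B2 hd)) (normSq_pos.2 (hx d hd i))).ne'

end SGXr

theorem rSGX : Sb_SGX := by
  intro n M _ ι _ _ D i
  obtain ⟨s1, s2, -, -, Θ, h, -⟩ := XC.sig D i
  exact ⟨Θ, h, SGXr.back (SGXr.sg_of h s1 s2 (SGXr.sg_ne i))⟩

end Pool.Agent.Lib.K2
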