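import Pool.Agent.Lib.K2.R_BET
import Pool.Agent.Lib.K2.R_CAN
import Pool.Agent.Lib.K2.R_CUT
import Pool.Agent.Lib.K2.R_FRZ
import Pool.Agent.Lib.K2.R_KLI
import Pool.Agent.Lib.K2.R_NFW
import Pool.Agent.Lib.K2.R_ORK
import Pool.Agent.Lib.K2.R_POS
import Pool.Agent.Lib.K2.R_PUL
import Pool.Agent.Lib.K2.R_RSK
import Pool.Agent.Lib.K2.R_RYK
import Pool.Agent.Lib.K2.R_SGX
import Pool.Agent.Lib.K2.R_TSU
import Pool.Agent.Lib.K2.R_ZED
import Pool.Agent.Lib.K2.B_H6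

/-! Project k2: the bridge without hypotheses on its own rows. -/

namespace Pool.Agent.Lib.K2

theorem sBET : Sb_BET := rBET rCHR

theorem sPUL : Sb_PUL := rPUL rCHR

theorem sTSU : Sb_TSU := rTSU sBET sPUL (rCUT sBET sPUL) rFRZ rPOS

theorem sRYK (hZE : ZE.St_ZE) : Sb_RYK :=
  rRYK sBET sPUL sTSU rCAN (rZED sBET rSGX rORK rKLI rCAN (rNFW sBET sPUL) hZE)

/-- The statement from the theorem on the manifold layer. -/
theorem brH6 (hZE : ZE.St_ZE) (hBR4 : NA.St_BR4) (hBR5 : Sy_BR5) (hNAK : St_NAK) : St_H6 :=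
  kH6 rRSK (sRYK hZE) hBR4 hBR5 hNAK

end Pool.Agent.Lib.K2
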