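import Pool.Agent.Lib.NA.SDefs2
import Pool.Agent.Lib.ZL.SDefs

/-! Definitions used in the statement: a log resolution of a compact Kähler space, given by local
models, and nef line bundles on the space. -/

open scoped Topology ContDiff

namespace Pool.Agent.Lib.K2

open Pool.Agent.Lib.SV Pool.Agent.Lib.KP Pool.Agent.Lib.EX Pool.Agent.Lib.ZL

variable (n : ℕ) {Y ι I : Type} [TopologicalSpace Y] [ChartedSpace (E n) Y] [Fintype I] {N : ℕ}

/-- The Levi form of a real function at `y`, in the preferred chart. -/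
noncomputable def leviAt (φ : Y → ℝ) (y : Y) (v : E n) : ℝ :=
  levi n (φ ∘ (chartAt (E n) y).symm) (chartAt (E n) y y) v

/-- `p` exhibits `W` as the blow-up of an ideal `τ` on a closed analytic subset of the unit
polydisc: `p` is proper and an immersion off the `D i`, `τ = t ∏ h i ^ a i`, and `(p, [t])` is an
immersion. The `D i` with `i ∈ ex` are contracted by `p`. -/
def BlowBy (D : I → Set Y) (ex : Set I) (a : I → ℕ) (W : Set Y) (p : Y → E N) : Prop :=
  ∃ (r : ℕ) (τ : Y → E r), (∀ ρ < 1, IsCompact {y ∈ W | ‖p y‖ ≤ ρ}) ∧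
    ∀ y ∈ W, ‖p y‖ < 1 ∧ (∀ j, HolAt n 0 (p · j) y) ∧
      ((∀ i, y ∉ D i) → ∀ v, dAt n p y v = 0 → v = 0) ∧
      ∃ (h : I → Y → ℂ) (t : Y → E r), Eqs n D y h ∧ t y ≠ 0 ∧
        (∀ᶠ x in 𝓝 y, (∀ j, HolAt n 0 (t · j) x) ∧ τ x = (∏ i, h i x ^ a i) • t x) ∧
        (∀ v (c : ℂ), dAt n p y v = 0 → dAt n t y v = c • t y → v = 0) ∧
        ∀ i ∈ ex, y ∈ D i → ∃ v ≠ 0, dAt n (h i) y v = 0 ∧ dAt n p y v = 0

/-- A log resolution of a Kähler space: `η` is a meromorphic section of `m K` with divisor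
`∑ l i D i`, `σ` is a section with divisor `∑ k i D i` of the line bundle with transition
functions `g`, the maps `p a` are the local models, and the strictly plurisubharmonic functions
`f a` on the polydisc are potentials of one form. Each `D i` is contracted or lies in the
divisor of `σ` or of `η`. -/
structure KRes (m : ℕ) (D : I → Set Y) (ex : Set I) (k : I → ℕ) (l : I → ℤ) (η : Y → ℂ)
    (W : ι → Set Y) (σ : ι → Y → ℂ) (g : ι → ι → Y → ℂ) (p : ι → Y → E N) (f : ι → E N → ℝ) :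
    Prop where
  form : ∀ y, Ord n m D l η y
  opn : ∀ a, IsOpen (W a) ∧ IsPreconnected (W a)
  cov : ∀ y, ∃ a, y ∈ W a
  blow : ∃ e : I → ℕ, (∀ i ∈ ex, 0 < e i) ∧ ∀ a, BlowBy n D ex e (W a) (p a)
  sup : ∀ i ∉ ex, k i ≠ 0 ∨ l i ≠ 0
  div : ∀ a, ∀ y ∈ W a, Ord n 0 D (fun i => k i) (σ a) y
  tr : ∀ a b, ∀ y ∈ W a ∩ W b, HolAt n 0 (g a b) y ∧ σ a y = g a b y * σ b y
  psh : ∀ a z, ‖z‖ < 1 → ContDiffAt ℝ ∞ (f a) z ∧ ∀ v ≠ 0, 0 < levi N (f a) z v
  kae : ∀ a b, ∀ y ∈ W a ∩ W b, leviAt n (f a ∘ p a) y = leviAt n (f b ∘ p b) y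

/-- The line bundle is nef on the space: for every `ε > 0` it has a metric whose weights come from
smooth functions on the polydisc and whose curvature is at least `-ε` times the Kähler form. -/
def NefOn (W : ι → Set Y) (g : ι → ι → Y → ℂ) (p : ι → Y → E N) (f : ι → E N → ℝ) : Prop :=
  ∀ ε : ℝ, 0 < ε → ∃ F : ι → E N → ℝ, ∀ a, (∀ z, ‖z‖ < 1 → ContDiffAt ℝ ∞ (F a) z) ∧
    ∀ y ∈ W a, (∀ v, 0 ≤ leviAt n ((F a + ε • f a) ∘ p a) y v) ∧
      ∀ b, y ∈ W b → F a (p a y) = F b (p b y) + Real.log (Complex.normSq (g a b y))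

/-- The union of the fibres of the local models that meet `S`. -/
def Sat (W : ι → Set Y) (p : ι → Y → E N) (S : Set Y) : Set Y :=
  {y | ∃ a, y ∈ W a ∧ ∃ x ∈ W a ∩ S, p a x = p a y}

end Pool.Agent.Lib.K2
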